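import Pool.Agent.H412.TH.Basic

/-!
MP_0219da (TH-Com, helper680 for helper412): two nondegenerate rational expressions have a common
point in their domains.
-/

set_option autoImplicit false

namespace Pool.Agent.H412.TH

open Matrix

namespace Com

/-- amplification `X ↦ X ⊗ 1` followed by a reindexing -/
noncomputable def amp (a b s : ℕ) (e : Fin a × Fin b ≃ Fin s) :
    Matrix (Fin a) (Fin a) ℝ →ₐ[ℝ] Matrix (Fin s) (Fin s) ℝ :=
  ((Matrix.reindexAlgEquiv ℝ ℝ e).toAlgHom.comp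
    (Matrix.compAlgEquiv (Fin a) (Fin b) ℝ ℝ).toAlgHom).comp
    (Algebra.ofId ℝ (Matrix (Fin b) (Fin b) ℝ)).mapMatrix

theorem isUnit_iff_det {n s : ℕ} (A : Matrix (Fin n) (Fin n) (Matrix (Fin s) (Fin s) ℝ)) :
    IsUnit A ↔ (Matrix.comp (Fin n) (Fin n) (Fin s) (Fin s) ℝ A).det ≠ 0 := by
  rw [← isUnit_iff_ne_zero, ← Matrix.isUnit_iff_isUnit_det]
  exact (isUnit_map_iff (Matrix.compAlgEquiv (Fin n) (Fin s) ℝ ℝ) A).symm

/-- invertibility of a pencil on a line is the non-vanishing of a polynomial -/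
theorem line {ι : Type} [Fintype ι] {n s : ℕ} (Q : Option ι → Matrix (Fin n) (Fin n) ℝ)
    (W V : ι → Matrix (Fin s) (Fin s) ℝ) :
    ∃ P : Polynomial ℝ, ∀ t : ℝ, IsUnit (pev Q (fun i => W i + t • V i)) ↔ P.eval t ≠ 0 := by
  let Xp : ι → Matrix (Fin s) (Fin s) (Polynomial ℝ) := fun i =>
    (W i).map Polynomial.C + (V i).map (fun c => Polynomial.C c * Polynomial.X)
  refine ⟨(Matrix.comp (Fin n) (Fin n) (Fin s) (Fin s) (Polynomial ℝ) (pev Q Xp)).det, fun t => ?_⟩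
  rw [isUnit_iff_det]
  have h1 : (pev Q (fun i => W i + t • V i)) =
      (pev Q Xp).map (Polynomial.aeval (R := ℝ) t).mapMatrix := by
    rw [pev_map]
    congr 1
    funext i
    ext p q
    show W i p q + t * V i p q = Polynomial.aeval t
      (Polynomial.C (W i p q) + Polynomial.C (V i p q) * Polynomial.X)
    rw [map_add, map_mul, Polynomial.aeval_C, Polynomial.aeval_C, Polynomial.aeval_X, mul_comm t]
    rfl
  have h2 : (Matrix.comp (Fin n) (Fin n) (Fin s) (Fin s) ℝ (pev Q (fun i => W i + t • V i))) =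
      (Polynomial.evalRingHom t).mapMatrix
        (Matrix.comp (Fin n) (Fin n) (Fin s) (Fin s) (Polynomial ℝ) (pev Q Xp)) := by
    rw [h1]
    ext p q
    simp [Matrix.comp_apply, Polynomial.coe_aeval_eq_eval]
  rw [h2, ← RingHom.map_det]
  rfl

end Com

open Com in
theorem t_com : S_lin → S_com := by
  intro hlin ι _ ρ σ hρ hσ
  obtain ⟨s1, hs1, Z1, hZ1⟩ := hρ
  obtain ⟨s2, hs2, Z2, hZ2⟩ := hσ
  obtain ⟨n1, Q1, _, _, hQ1⟩ := hlin ρ
  obtain ⟨n2, Q2, _, _, hQ2⟩ := hlin σ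
  let W1 : ι → Matrix (Fin (s1 * s2)) (Fin (s1 * s2)) ℝ :=
    fun i => amp s1 s2 (s1 * s2) finProdFinEquiv (Z1 i)
  let W2 : ι → Matrix (Fin (s1 * s2)) (Fin (s1 * s2)) ℝ :=
    fun i => amp s2 s1 (s1 * s2) ((Equiv.prodComm _ _).trans finProdFinEquiv) (Z2 i)
  have hW1 : ρ.Dom W1 := (RE.map (amp s1 s2 (s1 * s2) finProdFinEquiv) Z1 ρ hZ1).1
  have hW2 : σ.Dom W2 := (RE.map (amp s2 s1 (s1 * s2)
    ((Equiv.prodComm _ _).trans finProdFinEquiv)) Z2 σ hZ2).1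
  obtain ⟨P1, hP1⟩ := line Q1 W1 (fun i => W2 i - W1 i)
  obtain ⟨P2, hP2⟩ := line Q2 W1 (fun i => W2 i - W1 i)
  have e1 : P1 ≠ 0 := by
    rintro rfl
    refine ((hP1 0).1 ?_) (by simp)
    have : (fun i => W1 i + (0 : ℝ) • (W2 i - W1 i)) = W1 := by
      funext i; simp
    rw [this]
    exact ((hQ1 _ W1).1).1 hW1
  have e2 : P2 ≠ 0 := by
    rintro rfl
    refine ((hP2 1).1 ?_) (by simp)
    have : (fun i => W1 i + (1 : ℝ) • (W2 i - W1 i)) = W2 := by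
      funext i; simp
    rw [this]
    exact ((hQ2 _ W2).1).1 hW2
  obtain ⟨t, ht⟩ : ∃ t : ℝ, (P1 * P2).eval t ≠ 0 := by
    by_contra hcon
    push Not at hcon
    exact mul_ne_zero e1 e2 (Polynomial.funext (fun t => by rw [hcon t]; simp))
  rw [Polynomial.eval_mul] at ht
  refine ⟨s1 * s2, Nat.mul_pos hs1 hs2, fun i => W1 i + t • (W2 i - W1 i), ?_, ?_⟩
  · exact ((hQ1 _ _).1).2 ((hP1 t).2 (left_ne_zero_of_mul ht))
  · exact ((hQ2 _ _).1).2 ((hP2 t).2 (right_ne_zero_of_mul ht))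

end Pool.Agent.H412.TH
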