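import Pool.Agent.H412.TH.Basic

/-!
DEC (helper282 for helper412): decomposition of a graded pencil into irreducible ones.
-/

set_option autoImplicit false
set_option linter.unusedSectionVars false

namespace Pool.Agent.H412.TH

open Matrix

namespace Dec

/-! ## homogeneous vectors -/

/-- homogeneous vectors -/
def Hom {n : ℕ} (β : Fin n → ℤ) (e : ℤ) (v : Fin n → ℂ) : Prop := ∀ q, v q ≠ 0 → β q = e

/-- homogeneous components -/
def cp {n : ℕ} (β : Fin n → ℤ) (e : ℤ) (v : Fin n → ℂ) : Fin n → ℂ :=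
  fun q => if β q = e then v q else 0

theorem cp_hom {n : ℕ} (β : Fin n → ℤ) (e : ℤ) (v : Fin n → ℂ) : Hom β e (cp β e v) := by
  intro q hq
  by_contra h
  apply hq
  unfold cp
  rw [if_neg h]

theorem cp_of_hom {n : ℕ} {β : Fin n → ℤ} {e : ℤ} {v : Fin n → ℂ} (h : Hom β e v) :
    cp β e v = v := by
  ext q
  unfold cp
  by_cases hq : v q = 0
  · rw [hq]; split_ifs <;> rfl
  · rw [if_pos (h q hq)]

theorem cp_of_hom_ne {n : ℕ} {β : Fin n → ℤ} {e e' : ℤ} {v : Fin n → ℂ} (h : Hom β e v)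
    (hne : e ≠ e') : cp β e' v = 0 := by
  ext q
  unfold cp
  by_cases hq : v q = 0
  · rw [hq]; split_ifs <;> rfl
  · rw [if_neg (by rw [h q hq]; exact hne)]; rfl

theorem sum_cp {n : ℕ} (β : Fin n → ℤ) (v : Fin n → ℂ) :
    ∑ e ∈ Finset.univ.image β, cp β e v = v := by
  ext q
  rw [Finset.sum_apply, Finset.sum_eq_single (β q)]
  · unfold cp; rw [if_pos rfl]
  · intro e _ he
    unfold cp
    rw [if_neg he.symm]
  · intro h
    exact absurd (Finset.mem_image_of_mem β (Finset.mem_univ q)) h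

theorem span_hom {n : ℕ} (β : Fin n → ℤ) (V : Submodule ℂ (Fin n → ℂ)) (hV : GrSub β V) :
    Submodule.span ℂ {v : Fin n → ℂ | v ∈ V ∧ ∃ e, Hom β e v} = V := by
  apply le_antisymm
  · exact Submodule.span_le.2 fun v hv => hv.1
  · intro v hv
    rw [← sum_cp β v]
    refine Submodule.sum_mem _ fun e _ => Submodule.subset_span ⟨hV v hv e, e, cp_hom β e v⟩

/-- a homogeneous basis adapted to a graded subspace -/
theorem hb {n d : ℕ} (hd0 : 0 < d) (β : Fin n → ℤ) (V : Submodule ℂ (Fin n → ℂ))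
    (hV : GrSub β V) (hd : Module.finrank ℂ V = d) :
    ∃ (b : Module.Basis (Fin d ⊕ Fin (n - d)) ℂ (Fin n → ℂ)) (γ : Fin d ⊕ Fin (n - d) → ℤ),
      (∀ i, b (Sum.inl i) ∈ V) ∧ (∀ v ∈ V, ∀ j, b.repr v (Sum.inr j) = 0) ∧
      ∀ x, Hom β (γ x) (b x) := by
  have hs := span_hom β V hV
  have ht : Submodule.span ℂ {v : Fin n → ℂ | ∃ e, Hom β e v} = ⊤ := by
    have h := span_hom β ⊤ (fun v _ e => Submodule.mem_top)
    simpa using h
  obtain ⟨b1, hb1s, hb1span, hb1li⟩ := exists_linearIndependent ℂ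
    {v : Fin n → ℂ | v ∈ V ∧ ∃ e, Hom β e v}
  rw [hs] at hb1span
  obtain ⟨b2, hb2t, hb12, hb2span, hb2li⟩ := exists_linearIndepOn_id_extension
    (show LinearIndepOn ℂ id b1 from hb1li)
    (show b1 ⊆ {v : Fin n → ℂ | ∃ e, Hom β e v} from fun v hv => (hb1s hv).2)
  have hb2top : Submodule.span ℂ b2 = ⊤ := by
    rw [eq_top_iff, ← ht]
    exact Submodule.span_le.2 hb2span
  have hfin2 : b2.Finite := hb2li.setFinite
  have hfin1 : b1.Finite := hfin2.subset hb12
  have hc1 : b1.ncard = d := by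
    have : Fintype b1 := hfin1.fintype
    have h := finrank_span_set_eq_card (show LinearIndepOn ℂ id b1 from hb1li)
    rw [hb1span, hd] at h
    rw [h, Set.ncard_eq_toFinset_card']
  have hc2 : b2.ncard = n := by
    have : Fintype b2 := hfin2.fintype
    have h := finrank_span_set_eq_card hb2li
    rw [hb2top, finrank_top, Module.finrank_fin_fun] at h
    rw [Set.ncard_eq_toFinset_card', ← h]
  have hc3 : (b2 \ b1).ncard = n - d := by
    rw [Set.ncard_sdiff hb12 hfin1, hc1, hc2]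
  have hf1 : Finite b1 := hfin1
  have hf3 : Finite (b2 \ b1 : Set (Fin n → ℂ)) := hfin2.subset Set.sdiff_subset
  let e1 : b1 ≃ Fin d := Finite.equivFinOfCardEq (by rw [Nat.card_coe_set_eq, hc1])
  let e2 : (b2 \ b1 : Set (Fin n → ℂ)) ≃ Fin (n - d) :=
    Finite.equivFinOfCardEq (by rw [Nat.card_coe_set_eq, hc3])
  let g : Fin d ⊕ Fin (n - d) → b2 := Sum.elim (fun i => ⟨(e1.symm i : Fin n → ℂ),
    hb12 (e1.symm i).2⟩) (fun j => ⟨(e2.symm j : Fin n → ℂ), (e2.symm j).2.1⟩)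
  have hg : Function.Injective g := by
    rintro (i | i) (j | j) h
    · have h1 : (e1.symm i : Fin n → ℂ) = e1.symm j := congrArg (fun z : b2 => (z : Fin n → ℂ)) h
      rw [e1.symm.injective (Subtype.ext h1)]
    · exfalso
      have h1 : (e1.symm i : Fin n → ℂ) = e2.symm j := congrArg (fun z : b2 => (z : Fin n → ℂ)) h
      exact (e2.symm j).2.2 (h1 ▸ (e1.symm i).2)
    · exfalso
      have h1 : (e2.symm i : Fin n → ℂ) = e1.symm j := congrArg (fun z : b2 => (z : Fin n → ℂ)) h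
      exact (e2.symm i).2.2 (h1 ▸ (e1.symm j).2)
    · have h1 : (e2.symm i : Fin n → ℂ) = e2.symm j := congrArg (fun z : b2 => (z : Fin n → ℂ)) h
      rw [e2.symm.injective (Subtype.ext h1)]
  have hdn : d ≤ n := by
    have := Set.ncard_le_ncard hb12 hfin2
    rwa [hc1, hc2] at this
  have hli : LinearIndependent ℂ (fun x => (g x : Fin n → ℂ)) :=
    (show LinearIndependent ℂ (Subtype.val : b2 → (Fin n → ℂ)) from hb2li).comp g hg
  have hne : Nonempty (Fin d ⊕ Fin (n - d)) := ⟨Sum.inl ⟨0, hd0⟩⟩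
  let b := basisOfLinearIndependentOfCardEqFinrank hli (by
    rw [Fintype.card_sum, Fintype.card_fin, Fintype.card_fin, Module.finrank_fin_fun]; omega)
  have hbg : ∀ x, b x = (g x : Fin n → ℂ) := by
    intro x
    exact congrFun (coe_basisOfLinearIndependentOfCardEqFinrank hli _) x
  have hhom : ∀ x, ∃ e, Hom β e (b x) := by
    intro x
    rw [hbg]
    exact hb2t (g x).2
  choose γ hγ using hhom
  refine ⟨b, γ, ?_, ?_, hγ⟩
  · intro i
    rw [hbg]
    exact (hb1s (e1.symm i).2).1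
  · intro v hv j
    have hle : V ≤ LinearMap.ker (b.coord (Sum.inr j)) := by
      rw [← hb1span, Submodule.span_le]
      intro w hw
      have h1 : b (Sum.inl (e1 ⟨w, hw⟩)) = w := by
        rw [hbg]
        show (e1.symm (e1 ⟨w, hw⟩) : Fin n → ℂ) = w
        rw [e1.symm_apply_apply]
      show b.coord (Sum.inr j) w = 0
      rw [← h1, Module.Basis.coord_apply, Module.Basis.repr_self, Finsupp.single_apply,
        if_neg (by simp)]
    exact hle hv

theorem repr_hom {n : ℕ} {I : Type} [Fintype I] [DecidableEq I] {β : Fin n → ℤ}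
    (b : Module.Basis I ℂ (Fin n → ℂ)) (γ : I → ℤ) (hγ : ∀ x, Hom β (γ x) (b x))
    {e : ℤ} {v : Fin n → ℂ} (hv : Hom β e v) (x : I) (hx : b.repr v x ≠ 0) : γ x = e := by
  by_contra hne
  apply hx
  have h1 : v = ∑ y, (if γ y = e then b.repr v y else 0) • b y := by
    conv_lhs => rw [← cp_of_hom hv, ← b.sum_repr v]
    have h2 : cp β e (∑ y, b.repr v y • b y) = ∑ y, b.repr v y • cp β e (b y) := by
      ext q
      unfold cp
      simp only [Finset.sum_apply, Pi.smul_apply, smul_eq_mul]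
      split_ifs <;> simp
    rw [h2]
    refine Finset.sum_congr rfl fun y _ => ?_
    split_ifs with h
    · rw [← h, cp_of_hom (hγ y)]
    · rw [cp_of_hom_ne (hγ y) h, smul_zero, zero_smul]
  have h3 := congrArg b.repr h1
  have h4 := b.repr_sum_self (fun y => if γ y = e then b.repr v y else 0)
  rw [← h1] at h4
  have h5 := congrFun h4 x
  rw [h5, if_neg hne]

/-! ## pencils -/

variable {ι R : Type} [Fintype ι] [Ring R] [Algebra ℂ R]

theorem pev_mul_left {m n k : Type} [Fintype n] (P : Matrix m n ℂ) (W : Option ι → Matrix n k ℂ)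
    (X : ι → R) : pev (fun j => P * W j) X = P.map (algebraMap ℂ R) * pev W X := by
  ext x y
  simp only [pev, Matrix.mul_apply, Matrix.map_apply, map_sum, map_mul, mul_add, Finset.mul_sum,
    Finset.sum_add_distrib, Finset.sum_smul]
  congr 1
  rw [Finset.sum_comm]
  refine Finset.sum_congr rfl fun q _ => Finset.sum_congr rfl fun i _ => ?_
  rw [Algebra.smul_def, Algebra.smul_def, map_mul, mul_assoc]

theorem pev_mul_right {m n k : Type} [Fintype n] (W : Option ι → Matrix m n ℂ) (Q : Matrix n k ℂ)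
    (X : ι → R) : pev (fun j => W j * Q) X = pev W X * Q.map (algebraMap ℂ R) := by
  ext x y
  simp only [pev, Matrix.mul_apply, Matrix.map_apply, map_sum, map_mul, add_mul, Finset.sum_mul,
    Finset.sum_add_distrib, Finset.sum_smul]
  congr 1
  rw [Finset.sum_comm]
  refine Finset.sum_congr rfl fun q _ => Finset.sum_congr rfl fun i _ => ?_
  rw [Algebra.smul_def, Algebra.smul_def, map_mul, mul_assoc, mul_assoc,
    Algebra.commutes (Q q y) (X i)]

theorem unit_of_tri {a b : Type} [Fintype a] [Fintype b] [DecidableEq a] [DecidableEq b]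
    (A : Matrix a a R) (B : Matrix a b R) (D : Matrix b b R) (hA : IsUnit A) (hD : IsUnit D) :
    IsUnit (fromBlocks A B 0 D) := by
  obtain ⟨A', rfl⟩ := hA
  obtain ⟨D', rfl⟩ := hD
  refine ⟨⟨fromBlocks A' B 0 D', fromBlocks (A'⁻¹ : (Matrix a a R)ˣ)
    (-(((A'⁻¹ : (Matrix a a R)ˣ) : Matrix a a R) * B * ((D'⁻¹ : (Matrix b b R)ˣ) : Matrix b b R)))
    0 (D'⁻¹ : (Matrix b b R)ˣ), ?_, ?_⟩, rfl⟩
  · rw [fromBlocks_multiply, ← fromBlocks_one]
    simp [← Matrix.mul_assoc]
  · rw [fromBlocks_multiply, ← fromBlocks_one]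
    simp [Matrix.mul_assoc]

theorem tri_unit {a b : Type} [Fintype a] [Fintype b] [DecidableEq a] [DecidableEq b]
    [IsStablyFiniteRing R]
    (A : Matrix a a R) (B : Matrix a b R) (D : Matrix b b R) (h : IsUnit (fromBlocks A B 0 D)) :
    IsUnit A ∧ IsUnit D := by
  obtain ⟨u, hu⟩ := h
  have h1 : fromBlocks A B 0 D * (u⁻¹ : (Matrix (a ⊕ b) (a ⊕ b) R)ˣ) = 1 := by
    rw [← hu, Units.mul_inv]
  have h2 : ((u⁻¹ : (Matrix (a ⊕ b) (a ⊕ b) R)ˣ) : Matrix (a ⊕ b) (a ⊕ b) R) *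
      fromBlocks A B 0 D = 1 := by
    rw [← hu, Units.inv_mul]
  set N : Matrix (a ⊕ b) (a ⊕ b) R :=
    ((u⁻¹ : (Matrix (a ⊕ b) (a ⊕ b) R)ˣ) : Matrix (a ⊕ b) (a ⊕ b) R) with hN
  rw [← fromBlocks_toBlocks N, fromBlocks_multiply, ← fromBlocks_one, fromBlocks_inj] at h1 h2
  obtain ⟨-, -, -, h3⟩ := h1
  obtain ⟨h4, -, -, -⟩ := h2
  rw [Matrix.zero_mul, zero_add] at h3
  rw [Matrix.mul_zero, add_zero] at h4
  refine ⟨?_, ?_⟩
  · exact IsUnit.of_mul_eq_one_right _ h4
  · exact IsUnit.of_mul_eq_one _ h3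

/-- the matrix of the coordinates -/
noncomputable def cm {n : ℕ} {I : Type} (b : Module.Basis I ℂ (Fin n → ℂ)) :
    Matrix I (Fin n) ℂ := fun x q => b.repr (Pi.single q 1) x

/-- the matrix of the basis vectors -/
noncomputable def bm {n : ℕ} {I : Type} (b : Module.Basis I ℂ (Fin n → ℂ)) :
    Matrix (Fin n) I ℂ := fun q x => b x q

theorem cm_mulVec {n : ℕ} {I : Type} (b : Module.Basis I ℂ (Fin n → ℂ)) (v : Fin n → ℂ) (x : I) :
    (cm b *ᵥ v) x = b.repr v x := by
  have h1 : v = ∑ q, v q • (Pi.single q 1 : Fin n → ℂ) := by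
    ext p
    simp [Finset.sum_apply, Pi.single_apply]
  conv_rhs => rw [h1]
  rw [map_sum, Finsupp.finsetSum_apply]
  simp only [map_smul, Finsupp.smul_apply, smul_eq_mul, Matrix.mulVec, dotProduct, cm]
  exact Finset.sum_congr rfl fun q _ => mul_comm _ _

theorem bm_mul_cm {n : ℕ} {I : Type} [Fintype I] [DecidableEq I]
    (b : Module.Basis I ℂ (Fin n → ℂ)) : bm b * cm b = 1 := by
  ext p q
  have h := congrFun (b.sum_repr (Pi.single q 1)) p
  rw [Finset.sum_apply] at h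
  simp only [Pi.smul_apply, smul_eq_mul] at h
  rw [Matrix.mul_apply]
  have h2 : ∑ j, bm b p j * cm b j q = ∑ j, b.repr (Pi.single q 1) j * b j p :=
    Finset.sum_congr rfl fun j _ => mul_comm _ _
  rw [h2, h, Matrix.one_apply, Pi.single_apply]

theorem cm_mul_bm {n : ℕ} {I : Type} [Fintype I] [DecidableEq I]
    (b : Module.Basis I ℂ (Fin n → ℂ)) : cm b * bm b = 1 := by
  ext x y
  have h := cm_mulVec b (b y) x
  rw [b.repr_self] at h
  have h2 : (cm b * bm b) x y = (cm b *ᵥ b y) x := rfl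
  rw [h2, h, Matrix.one_apply, Finsupp.single_apply]
  simp only [eq_comm]

theorem sandwich_apply {n : ℕ} {I : Type} (b b' : Module.Basis I ℂ (Fin n → ℂ))
    (A : Matrix (Fin n) (Fin n) ℂ) (x y : I) :
    (cm b' * (A * bm b)) x y = b'.repr (A *ᵥ b y) x := by
  rw [← cm_mulVec]
  rfl

/-- the transformed pencil is invertible iff the original one is -/
theorem unit_iff {n : ℕ} {I : Type} [Fintype I] [DecidableEq I]
    (b b' : Module.Basis I ℂ (Fin n → ℂ)) (W : Option ι → Matrix (Fin n) (Fin n) ℂ) (X : ι → R) :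
    IsUnit (pev (fun j => cm b' * (W j * bm b)) X) ↔ IsUnit (pev W X) := by
  have e : pev (fun j => cm b' * (W j * bm b)) X =
      (cm b').map (algebraMap ℂ R) * (pev W X * (bm b).map (algebraMap ℂ R)) := by
    rw [pev_mul_left (cm b') (fun j => W j * bm b) X, pev_mul_right]
  have h1 : (bm b).map (algebraMap ℂ R) * (cm b).map (algebraMap ℂ R) = 1 := by
    rw [← Matrix.map_mul, bm_mul_cm, Matrix.map_one _ (map_zero _) (map_one _)]
  have h2 : (cm b).map (algebraMap ℂ R) * (bm b).map (algebraMap ℂ R) = 1 := by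
    rw [← Matrix.map_mul, cm_mul_bm, Matrix.map_one _ (map_zero _) (map_one _)]
  have h3 : (bm b').map (algebraMap ℂ R) * (cm b').map (algebraMap ℂ R) = 1 := by
    rw [← Matrix.map_mul, bm_mul_cm, Matrix.map_one _ (map_zero _) (map_one _)]
  have h4 : (cm b').map (algebraMap ℂ R) * (bm b').map (algebraMap ℂ R) = 1 := by
    rw [← Matrix.map_mul, cm_mul_bm, Matrix.map_one _ (map_zero _) (map_one _)]
  rw [e]
  set Bb := (bm b).map (algebraMap ℂ R)
  set Cb := (cm b).map (algebraMap ℂ R)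
  set Bb' := (bm b').map (algebraMap ℂ R)
  set Cb' := (cm b').map (algebraMap ℂ R)
  constructor
  · rintro ⟨u, hu⟩
    set N : Matrix I I R := ((u⁻¹ : (Matrix I I R)ˣ) : Matrix I I R) with hN
    have k1 : Cb' * (pev W X * Bb) * N = 1 := by rw [← hu, hN, Units.mul_inv]
    have k2 : N * (Cb' * (pev W X * Bb)) = 1 := by rw [← hu, hN, Units.inv_mul]
    refine ⟨⟨pev W X, Bb * N * Cb', ?_, ?_⟩, rfl⟩
    · calc pev W X * (Bb * N * Cb') = (Bb' * Cb') * (pev W X * (Bb * N * Cb')) := by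
            rw [h3, one_mul]
        _ = Bb' * (Cb' * (pev W X * Bb) * N) * Cb' := by simp only [Matrix.mul_assoc]
        _ = 1 := by rw [k1, Matrix.mul_one, h3]
    · calc (Bb * N * Cb') * pev W X = (Bb * N * Cb') * pev W X * (Bb * Cb) := by
            rw [h1, mul_one]
        _ = Bb * (N * (Cb' * (pev W X * Bb))) * Cb := by simp only [Matrix.mul_assoc]
        _ = 1 := by rw [k2, Matrix.mul_one, h1]
  · rintro ⟨u, hu⟩
    set N : Matrix (Fin n) (Fin n) R :=
      ((u⁻¹ : (Matrix (Fin n) (Fin n) R)ˣ) : Matrix (Fin n) (Fin n) R) with hN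
    have k1 : pev W X * N = 1 := by rw [← hu, hN, Units.mul_inv]
    have k2 : N * pev W X = 1 := by rw [← hu, hN, Units.inv_mul]
    refine ⟨⟨Cb' * (pev W X * Bb), Cb * N * Bb', ?_, ?_⟩, rfl⟩
    · calc Cb' * (pev W X * Bb) * (Cb * N * Bb') = Cb' * (pev W X * ((Bb * Cb) * N)) * Bb' := by
            simp only [Matrix.mul_assoc]
        _ = 1 := by rw [h1, one_mul, k1, Matrix.mul_one, h4]
    · calc Cb * N * Bb' * (Cb' * (pev W X * Bb)) = Cb * (N * ((Bb' * Cb') * pev W X)) * Bb := by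
            simp only [Matrix.mul_assoc]
        _ = 1 := by rw [h3, one_mul, k2, Matrix.mul_one, h2]

/-- block triangular pencils -/
theorem pev_tri {a b : Type} (U : Option ι → Matrix (a ⊕ b) (a ⊕ b) ℂ)
    (hU : ∀ j x y, U j (Sum.inr x) (Sum.inl y) = 0) (X : ι → R) :
    pev U X = fromBlocks (pev (fun j => (U j).toBlocks₁₁) X) (pev (fun j => (U j).toBlocks₁₂) X) 0
      (pev (fun j => (U j).toBlocks₂₂) X) := by
  ext (x | x) (y | y)
  · rfl
  · rfl
  · simp [pev, hU]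
  · rfl

theorem hom_mulVec {n : ℕ} {α β : Fin n → ℤ} (A : Matrix (Fin n) (Fin n) ℂ) (c e : ℤ)
    (hA : ∀ p q, A p q ≠ 0 → α p + β q = c) (v : Fin n → ℂ) (hv : Hom β e v) :
    Hom α (c - e) (A *ᵥ v) := by
  intro p hp
  have hp' : ∑ q, A p q * v q ≠ 0 := hp
  obtain ⟨q, -, hq⟩ := Finset.exists_ne_zero_of_sum_ne_zero hp'
  have h1 := hA p q (left_ne_zero_of_mul hq)
  have h2 := hv q (right_ne_zero_of_mul hq)
  omega

/-- one step of the decomposition -/
theorem step {n d : ℕ} (hd0 : 0 < d) (α β : Fin n → ℤ)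
    (W : Option ι → Matrix (Fin n) (Fin n) ℂ) (hW : Graded α β W)
    (V V' : Submodule ℂ (Fin n → ℂ)) (hV : GrSub β V) (hV' : GrSub α V')
    (hWV : ∀ j, ∀ v ∈ V, W j *ᵥ v ∈ V') (hd : Module.finrank ℂ V = d)
    (hd' : Module.finrank ℂ V' = d) :
    ∃ (α₁ β₁ : Fin d → ℤ) (W₁ : Option ι → Matrix (Fin d) (Fin d) ℂ)
      (α₂ β₂ : Fin (n - d) → ℤ) (W₂ : Option ι → Matrix (Fin (n - d)) (Fin (n - d)) ℂ),
      Graded α₁ β₁ W₁ ∧ Graded α₂ β₂ W₂ ∧
      (∀ (R : Type) [Ring R] [Algebra ℂ R] (X : ι → R), IsUnit (pev W₁ X) → IsUnit (pev W₂ X) →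
        IsUnit (pev W X)) ∧
      (∀ (R : Type) [Ring R] [Algebra ℂ R] [IsStablyFiniteRing R] (X : ι → R),
        IsUnit (pev W X) → IsUnit (pev W₁ X) ∧ IsUnit (pev W₂ X)) := by
  obtain ⟨b, γ, hb1, hb2, hb3⟩ := hb hd0 β V hV hd
  obtain ⟨b', γ', hb1', hb2', hb3'⟩ := hb hd0 α V' hV' hd'
  set U : Option ι → Matrix (Fin d ⊕ Fin (n - d)) (Fin d ⊕ Fin (n - d)) ℂ :=
    fun j => cm b' * (W j * bm b) with hU
  have htri : ∀ j x y, U j (Sum.inr x) (Sum.inl y) = 0 := by
    intro j x y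
    rw [hU]
    show (cm b' * (W j * bm b)) _ _ = 0
    rw [sandwich_apply]
    exact hb2' _ (hWV j _ (hb1 y)) x
  have hgr0 : ∀ x y, U none x y ≠ 0 → γ' x + γ y = 0 := by
    intro x y hxy
    have h1 : b'.repr (W none *ᵥ b y) x ≠ 0 := by
      rw [← sandwich_apply]; exact hxy
    have h2 := repr_hom b' γ' hb3' (hom_mulVec (W none) 0 (γ y) hW.1 (b y) (hb3 y)) x h1
    omega
  have hgr1 : ∀ i x y, U (some i) x y ≠ 0 → γ' x + γ y = 1 := by
    intro i x y hxy
    have h1 : b'.repr (W (some i) *ᵥ b y) x ≠ 0 := by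
      rw [← sandwich_apply]; exact hxy
    have h2 := repr_hom b' γ' hb3' (hom_mulVec (W (some i)) 1 (γ y) (hW.2 i) (b y) (hb3 y)) x h1
    omega
  refine ⟨fun x => γ' (Sum.inl x), fun x => γ (Sum.inl x), fun j => (U j).toBlocks₁₁,
    fun x => γ' (Sum.inr x), fun x => γ (Sum.inr x), fun j => (U j).toBlocks₂₂,
    ⟨fun p q h => hgr0 _ _ h, fun i p q h => hgr1 i _ _ h⟩,
    ⟨fun p q h => hgr0 _ _ h, fun i p q h => hgr1 i _ _ h⟩, ?_, ?_⟩
  · intro R _ _ X h1 h2
    rw [← unit_iff b b' W X]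
    have h3 := pev_tri U htri X
    rw [h3]
    exact unit_of_tri _ _ _ h1 h2
  · intro R _ _ _ X h
    rw [← unit_iff b b' W X] at h
    have h3 := pev_tri U htri X
    rw [h3] at h
    exact tri_unit _ _ _ h

theorem main {r : ℕ} (T : Option ι → Matrix (Fin r) (Fin r) ℂ) (n : ℕ) :
    ∀ (α β : Fin n → ℤ) (W : Option ι → Matrix (Fin n) (Fin n) ℂ), Graded α β W → Adapted T W →
    ∃ l : List (GP ι), (∀ w ∈ l, 0 < w.n ∧ Adapted T w.W ∧ Irr w.α w.β w.W) ∧
      ∀ (R : Type) [Ring R] [Algebra ℂ R] (X : ι → R),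
        (∀ w ∈ l, IsUnit (pev w.W X)) → IsUnit (pev W X) := by
  induction n using Nat.strong_induction_on with
  | _ n ih =>
  intro α β W hgr had
  rcases Nat.eq_zero_or_pos n with h0 | hpos
  · subst h0
    refine ⟨[], by simp, fun R _ _ X _ => ?_⟩
    have : Subsingleton (Matrix (Fin 0) (Fin 0) R) := inferInstance
    exact isUnit_of_subsingleton _
  by_cases hirr : Irr α β W
  · refine ⟨[⟨n, α, β, W, hgr⟩], ?_, ?_⟩
    · intro w hw
      rw [List.mem_singleton] at hw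
      subst hw
      exact ⟨hpos, had, hirr⟩
    · intro R _ _ X h
      exact h ⟨n, α, β, W, hgr⟩ (List.mem_singleton_self _)
  · unfold Irr at hirr
    push Not at hirr
    obtain ⟨V, V', hV, hV', hWV, hfr, h0, hn⟩ := hirr
    have hle : Module.finrank ℂ V ≤ n := by
      have := Submodule.finrank_le V
      rwa [Module.finrank_fin_fun] at this
    obtain ⟨α₁, β₁, W₁, α₂, β₂, W₂, hg1, hg2, hup, hdown⟩ :=
      step (Nat.pos_of_ne_zero h0) α β W hgr V V' hV hV' hWV rfl hfr.symm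
    have hdn : Module.finrank ℂ V < n := lt_of_le_of_ne hle hn
    have ha1 : Adapted T W₁ := fun k Y hY => (hdown _ _ (had k Y hY)).1
    have ha2 : Adapted T W₂ := fun k Y hY => (hdown _ _ (had k Y hY)).2
    obtain ⟨l1, hl1, hl1'⟩ := ih _ hdn α₁ β₁ W₁ hg1 ha1
    obtain ⟨l2, hl2, hl2'⟩ := ih (n - Module.finrank ℂ V)
      (by have := Nat.pos_of_ne_zero h0; omega) α₂ β₂ W₂ hg2 ha2
    refine ⟨l1 ++ l2, ?_, ?_⟩
    · intro w hw
      rcases List.mem_append.1 hw with hw | hw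
      · exact hl1 w hw
      · exact hl2 w hw
    · intro R _ _ X h
      refine hup R X (hl1' R X fun w hw => h w (List.mem_append_left _ hw))
        (hl2' R X fun w hw => h w (List.mem_append_right _ hw))

end Dec

/-- DEC -/
theorem t_dec : S_dec := by
  intro ι _ r T α β hgr _
  exact Dec.main T r α β T hgr (fun k Y h => h.2)

end Pool.Agent.H412.TH
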