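import Pool.Agent.H412.TH.Basic

/-!
MP_0219da (helper412), task DIV, by helper353: division algebras of every degree with enough
elements. `D` is the fixed ring of two automorphisms of the ring of matrices over the field of Hahn
series with exponents in `ℤ ×ₗ ℤ`.
-/

set_option autoImplicit false

namespace Pool.Agent.H412.TH.Div

open Matrix

/-- exponents -/
abbrev Gam : Type := ℤ ×ₗ ℤ

/-- the field -/
abbrev L : Type := HahnSeries Gam ℂ

section

variable {s : ℕ} [NeZero s]

/-- twist by a character -/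
noncomputable def tw (c : Gam →+ ZMod s) : L →ₐ[ℝ] L where
  toFun x := ⟨fun γ => ZMod.stdAddChar (c γ) * x.coeff γ, x.isPWO_support.mono (by
    intro γ h
    simp only [Function.mem_support, ne_eq, mul_eq_zero, not_or, HahnSeries.mem_support] at h ⊢
    exact h.2)⟩
  map_one' := by
    ext γ
    by_cases h : γ = 0
    · subst h; simp
    · simp [HahnSeries.coeff_one, h]
  map_zero' := by ext γ; simp
  map_add' x y := by ext γ; simp [mul_add]
  map_mul' x y := by
    ext γ
    rw [HahnSeries.coeff_mul]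
    simp only
    rw [HahnSeries.coeff_mul, Finset.mul_sum]
    have hne : ∀ γ : Gam, (ZMod.stdAddChar (c γ) : ℂ) ≠ 0 := by
      intro γ h
      have := ZMod.stdAddChar.map_add_eq_mul (c γ) (- c γ)
      rw [h] at this; simp at this
    apply Finset.sum_congr
    · ext p
      simp [hne]
    · intro p hp
      have h3 : p.1 + p.2 = γ := by
        simp only [Finset.mem_antidiagonal] at hp
        exact hp.2.2
      rw [← h3, map_add, AddChar.map_add_eq_mul]
      ring
  commutes' r := by
    ext γ
    by_cases h : γ = 0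
    · subst h; simp [HahnSeries.algebraMap_apply]
    · simp [HahnSeries.algebraMap_apply, HahnSeries.C_apply, h]

theorem tw_coeff (c : Gam →+ ZMod s) (x : L) (γ : Gam) :
    (tw c x).coeff γ = ZMod.stdAddChar (c γ) * x.coeff γ := rfl

theorem tw_single (c : Gam →+ ZMod s) (γ : Gam) (r : ℂ) :
    tw c (HahnSeries.single γ r) = HahnSeries.single γ (ZMod.stdAddChar (c γ) * r) := by
  ext δ
  rw [tw_coeff]
  by_cases h : δ = γ
  · subst h; simp
  · simp [HahnSeries.coeff_single_of_ne h]

/-- first exponent -/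
def c1 : Gam →+ ZMod s where
  toFun γ := (((ofLex γ).1 : ℤ) : ZMod s)
  map_zero' := by simp
  map_add' x y := by simp

/-- minus the second exponent -/
def c2 : Gam →+ ZMod s where
  toFun γ := - (((ofLex γ).2 : ℤ) : ZMod s)
  map_zero' := by simp
  map_add' x y := by simp; ring

/-- the ring of matrices -/
abbrev MA (s : ℕ) : Type := Matrix (ZMod s) (ZMod s) L

/-- first automorphism -/
noncomputable def S : MA s →ₐ[ℝ] MA s where
  toFun M := Matrix.of fun i j => tw (c2 (s := s)) (M (i + 1) (j + 1))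
  map_one' := by
    ext1 i j
    by_cases h : i = j
    · subst h; simp
    · simp [Matrix.one_apply, h]
  map_zero' := by ext1 i j; simp
  map_add' M N := by ext1 i j; simp
  map_mul' M N := by
    ext1 i j
    simp only [Matrix.of_apply, Matrix.mul_apply, map_sum, map_mul]
    exact (Equiv.sum_comp (Equiv.addRight (1 : ZMod s))
      (fun m => tw (c2 (s := s)) (M (i + 1) m) * tw (c2 (s := s)) (N m (j + 1)))).symm
  commutes' r := by
    ext1 i j
    by_cases h : i = j
    · subst h; simp [Matrix.algebraMap_matrix_apply]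
    · simp [Matrix.algebraMap_matrix_apply, h]

/-- constants -/
noncomputable abbrev Cc (a : ZMod s) : L := HahnSeries.C (ZMod.stdAddChar a)

theorem Cc_add (a b : ZMod s) : Cc (a + b) = Cc a * Cc b := by
  simp [Cc, AddChar.map_add_eq_mul]

theorem Cc_zero : Cc (0 : ZMod s) = 1 := by
  simp [Cc]

/-- second automorphism -/
noncomputable def T : MA s →ₐ[ℝ] MA s where
  toFun M := Matrix.of fun i j => Cc (j - i) * tw (c1 (s := s)) (M i j)
  map_one' := by
    ext1 i j
    by_cases h : i = j
    · subst h; simp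
    · simp [Matrix.one_apply, h]
  map_zero' := by ext1 i j; simp
  map_add' M N := by ext1 i j; simp [mul_add]
  map_mul' M N := by
    ext1 i j
    simp only [Matrix.of_apply, Matrix.mul_apply, map_sum, map_mul, Finset.mul_sum]
    apply Finset.sum_congr rfl
    intro m _
    have : (j - i : ZMod s) = (m - i) + (j - m) := by ring
    rw [this, Cc_add]; ring
  commutes' r := by
    ext1 i j
    by_cases h : i = j
    · subst h; simp [Matrix.algebraMap_matrix_apply]
    · simp [Matrix.algebraMap_matrix_apply, h]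

/-- the division algebra -/
noncomputable def D : Subalgebra ℝ (MA s) :=
  AlgHom.equalizer S (AlgHom.id ℝ (MA s)) ⊓ AlgHom.equalizer T (AlgHom.id ℝ (MA s))

theorem mem_D (M : MA s) : M ∈ D (s := s) ↔ S M = M ∧ T M = M := Iff.rfl

theorem D_shift {M : MA s} (h : M ∈ D (s := s)) (i j : ZMod s) (γ : Gam)
    (h0 : (M i j).coeff γ ≠ 0) : (M (i + 1) (j + 1)).coeff γ ≠ 0 := by
  intro h1
  apply h0
  have h2 := congrFun (congrFun h.1 i) j
  have h3 : M i j = tw (c2 (s := s)) (M (i + 1) (j + 1)) := Eq.symm h2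
  rw [h3, tw_coeff, h1, mul_zero]

theorem D_shift' {M : MA s} (h : M ∈ D (s := s)) (i j : ZMod s) (γ : Gam)
    (h0 : (M i j).coeff γ ≠ 0) (a : ZMod s) : (M (i + a) (j + a)).coeff γ ≠ 0 := by
  have key : ∀ n : ℕ, (M (i + (n : ZMod s)) (j + (n : ZMod s))).coeff γ ≠ 0 := by
    intro n
    induction n with
    | zero => simpa using h0
    | succ n ih =>
      have := D_shift h _ _ γ ih
      rw [add_assoc, add_assoc] at this
      push_cast
      exact this
  have := key a.val
  rwa [ZMod.natCast_zmod_val] at this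

theorem D_supp {M : MA s} (h : M ∈ D (s := s)) (i j : ZMod s) (γ : Gam)
    (h0 : (M i j).coeff γ ≠ 0) : c1 γ = i - j := by
  have h2 := congrFun (congrFun h.2 i) j
  have h3 : Cc (j - i) * tw (c1 (s := s)) (M i j) = M i j := h2
  have h4 := congrArg (fun x : L => x.coeff γ) h3
  simp only [Cc, HahnSeries.C_mul_eq_smul, HahnSeries.coeff_smul, tw_coeff, smul_eq_mul] at h4
  rw [← mul_assoc, ← AddChar.map_add_eq_mul] at h4
  have h5 : (ZMod.stdAddChar (j - i + c1 γ) : ℂ) = 1 := by
    have := mul_right_cancel₀ h0 (h4.trans (one_mul _).symm)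
    exact this
  have h6 : j - i + c1 γ = 0 := by
    apply ZMod.injective_stdAddChar
    rw [h5, AddChar.map_zero_eq_one]
  linear_combination h6

theorem coeff_low (x y : L) (a b : Gam) (hx : ∀ γ < a, x.coeff γ = 0)
    (hy : ∀ γ < b, y.coeff γ = 0) : (x * y).coeff (a + b) = x.coeff a * y.coeff b := by
  rw [HahnSeries.coeff_mul]
  apply Finset.sum_eq_single (a, b)
  · rintro ⟨i, j⟩ hij hne
    simp only [Finset.mem_antidiagonal, HahnSeries.mem_support] at hij
    obtain ⟨h1, h2, h3⟩ := hij
    exfalso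
    have hi : a ≤ i := by
      by_contra hc
      exact h1 (hx i (not_le.mp hc))
    have hj : b ≤ j := by
      by_contra hc
      exact h2 (hy j (not_le.mp hc))
    apply hne
    have e1 : i = a := by
      by_contra hc
      have : a < i := lt_of_le_of_ne hi (Ne.symm hc)
      exact absurd h3 (ne_of_gt (add_lt_add_of_lt_of_le this hj))
    subst e1
    have e2 : j = b := add_left_cancel h3
    rw [e2]
  · intro h
    simp only [Finset.mem_antidiagonal, HahnSeries.mem_support, and_true] at h
    by_cases h1 : x.coeff a = 0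
    · simp [h1]
    · by_cases h2 : y.coeff b = 0
      · simp [h2]
      · exact absurd ⟨h1, h2⟩ h

theorem min_fam {κ : Type} [Finite κ] (x : κ → L) (hx : x ≠ 0) :
    ∃ (γ : Gam) (k : κ), (x k).coeff γ ≠ 0 ∧ ∀ k' δ, δ < γ → (x k').coeff δ = 0 := by
  obtain ⟨k0, hk0⟩ := Function.ne_iff.mp hx
  have : Nonempty κ := ⟨k0⟩
  obtain ⟨k, hk⟩ := Finite.exists_min (fun k => (x k).orderTop)
  have h1 : (x k).orderTop ≠ ⊤ := by
    intro h
    have := hk k0
    rw [h, top_le_iff, HahnSeries.orderTop_eq_top] at this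
    exact hk0 this
  have h2 : x k ≠ 0 := by
    intro h; rw [h] at h1; simp at h1
  refine ⟨(x k).order, k, ?_, ?_⟩
  · exact HahnSeries.coeff_order_eq_zero.not.mpr h2
  · intro k' δ hδ
    apply HahnSeries.coeff_eq_zero_of_lt_orderTop
    refine lt_of_lt_of_le ?_ (hk k')
    rw [HahnSeries.orderTop_of_ne_zero h2]
    rw [HahnSeries.order_of_ne h2] at hδ
    exact_mod_cast hδ

theorem D_isUnit {M : MA s} (h : M ∈ D (s := s)) (h0 : M ≠ 0) : IsUnit M := by
  rw [Matrix.isUnit_iff_isUnit_det, isUnit_iff_ne_zero]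
  intro hdet
  obtain ⟨v, hv, hMv⟩ := Matrix.exists_mulVec_eq_zero_iff.mpr hdet
  obtain ⟨γ, p, hp, hγ⟩ := min_fam (fun p : ZMod s × ZMod s => M p.1 p.2) (by
    intro hc; apply h0; ext1 i j; exact congrFun hc (i, j))
  obtain ⟨δ, j1, hj1, hδ⟩ := min_fam v hv
  have h1 := D_shift' h _ _ γ hp (j1 - p.2)
  rw [add_sub_cancel] at h1
  set i1 := p.1 + (j1 - p.2) with hi1
  have h2 : (∑ j, M i1 j * v j) = 0 := congrFun hMv i1
  have h3 := congrArg (fun x : L => x.coeff (γ + δ)) h2
  simp only [HahnSeries.coeff_sum, HahnSeries.coeff_zero] at h3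
  rw [Finset.sum_eq_single j1] at h3
  · rw [coeff_low _ _ γ δ (fun γ' hγ' => hγ (i1, j1) γ' hγ') (fun δ' hδ' => hδ j1 δ' hδ')] at h3
    exact mul_ne_zero h1 hj1 h3
  · intro j _ hj
    rw [coeff_low _ _ γ δ (fun γ' hγ' => hγ (i1, j) γ' hγ') (fun δ' hδ' => hδ j δ' hδ')]
    have : (M i1 j).coeff γ = 0 := by
      by_contra hc
      have e1 := D_supp h _ _ γ hc
      have e2 := D_supp h _ _ γ h1
      rw [e1] at e2
      exact hj (sub_right_injective e2)
    rw [this, zero_mul]
  · intro hc; exact absurd (Finset.mem_univ _) hc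

theorem D_unit_or (x : D (s := s)) : IsUnit x ∨ x = 0 := by
  by_cases hx : x = 0
  · exact Or.inr hx
  · left
    have hx0 : (x : MA s) ≠ 0 := fun hc => hx (Subtype.ext hc)
    obtain ⟨u, hu⟩ := D_isUnit x.2 hx0
    have key : ∀ F : MA s →ₐ[ℝ] MA s, F x = x → F (↑u⁻¹ : MA s) = ↑u⁻¹ := by
      intro F hF
      have e1 : F (↑u⁻¹ : MA s) * (x : MA s) = 1 := by
        rw [← hF, ← map_mul, ← hu, Units.inv_mul, map_one]
      calc F (↑u⁻¹ : MA s) = F (↑u⁻¹ : MA s) * ((u : MA s) * (↑u⁻¹ : MA s)) := by
            rw [Units.mul_inv, mul_one]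
        _ = (F (↑u⁻¹ : MA s) * (x : MA s)) * ↑u⁻¹ := by rw [← hu, mul_assoc]
        _ = ↑u⁻¹ := by rw [e1, one_mul]
    have hmem : (↑u⁻¹ : MA s) ∈ D (s := s) := ⟨key S x.2.1, key T x.2.2⟩
    exact ⟨⟨x, ⟨_, hmem⟩, Subtype.ext (by simp [← hu]), Subtype.ext (by simp [← hu])⟩, rfl⟩

noncomputable instance : Nontrivial (D (s := s)) := by
  refine ⟨⟨0, 1, ?_⟩⟩
  intro h
  have := congrArg Subtype.val h
  have h2 := congrFun (congrFun this 0) 0
  simp at h2

noncomputable instance instDR : DivisionRing (D (s := s)) :=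
  DivisionRing.ofIsUnitOrEqZero D_unit_or

/-- the basis -/
noncomputable def e (k l : ZMod s) : MA s := Matrix.of fun p q =>
  if p = q + k then HahnSeries.single (toLex ((k.val : ℤ), (l.val : ℤ))) (ZMod.stdAddChar (l * q))
  else 0

theorem e_mem (k l : ZMod s) : e k l ∈ D (s := s) := by
  constructor
  · show S (e k l) = e k l
    ext1 i j
    show tw (c2 (s := s)) (e k l (i + 1) (j + 1)) = e k l i j
    simp only [e, Matrix.of_apply]
    have : (i + 1 = j + 1 + k) ↔ (i = j + k) := by
      constructor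
      · intro h; linear_combination h
      · intro h; linear_combination h
    by_cases h : i = j + k
    · rw [if_pos (this.mpr h), if_pos h, tw_single]
      congr 1
      rw [← AddChar.map_add_eq_mul]
      congr 1
      simp [c2]
      ring
    · rw [if_neg (fun hc => h (this.mp hc)), if_neg h, map_zero]
  · show T (e k l) = e k l
    ext1 i j
    show Cc (j - i) * tw (c1 (s := s)) (e k l i j) = e k l i j
    simp only [e, Matrix.of_apply]
    by_cases h : i = j + k
    · rw [if_pos h, tw_single]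
      simp only [Cc, HahnSeries.C_apply, HahnSeries.single_mul_single, zero_add]
      rw [← mul_assoc, ← AddChar.map_add_eq_mul]
      have : j - i + c1 (toLex ((k.val : ℤ), (l.val : ℤ))) = 0 := by
        simp [c1, h]
      rw [this, AddChar.map_zero_eq_one, one_mul]
    · rw [if_neg h, map_zero, mul_zero]

/-- the coefficients of a matrix in the basis -/
noncomputable def co (Z : MA s) (k l : ZMod s) : L :=
  HahnSeries.single (-(toLex ((k.val : ℤ), (l.val : ℤ)) : Gam)) ((s : ℂ)⁻¹) *
    ∑ j, Cc (-(l * j)) * Z (j + k) j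

theorem co_sum (Z : MA s) (p q : ZMod s) : ∑ k, ∑ l, e k l p q * co Z k l = Z p q := by
  have hs : (s : ℂ) ≠ 0 := by exact_mod_cast NeZero.ne s
  rw [Finset.sum_eq_single (p - q)]
  · have h1 : ∀ l, e (p - q) l p q * co Z (p - q) l =
        ∑ j, HahnSeries.C ((s : ℂ)⁻¹ * ZMod.stdAddChar (l * (q - j))) * Z (j + (p - q)) j := by
      intro l
      simp only [e, co, Matrix.of_apply]
      rw [if_pos (by ring), ← mul_assoc, HahnSeries.single_mul_single, add_neg_cancel,
        Finset.mul_sum]
      apply Finset.sum_congr rfl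
      intro j _
      rw [← mul_assoc]
      congr 1
      simp only [Cc, ← HahnSeries.C_apply, ← map_mul]
      congr 1
      have : (l * (q - j) : ZMod s) = l * q + -(l * j) := by ring
      rw [this, AddChar.map_add_eq_mul]
      ring
    simp only [h1]
    rw [Finset.sum_comm]
    simp only [← Finset.sum_mul, ← map_sum, ← Finset.mul_sum]
    have h2 : ∀ j, ∑ l : ZMod s, (ZMod.stdAddChar (l * (q - j)) : ℂ) =
        if q - j = 0 then (Fintype.card (ZMod s) : ℂ) else 0 := by
      intro j
      have := AddChar.sum_mulShift (q - j) (ZMod.isPrimitive_stdAddChar s)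
      rw [this]; push_cast; rfl
    rw [Finset.sum_eq_single q]
    · rw [h2, if_pos (sub_self q), ZMod.card, inv_mul_cancel₀ hs, map_one, one_mul]
      congr 1; ring
    · intro j _ hj
      rw [h2, if_neg (fun hc => hj (by linear_combination -hc)), mul_zero, map_zero, zero_mul]
    · intro hc; exact absurd (Finset.mem_univ _) hc
  · intro k _ hk
    apply Finset.sum_eq_zero
    intro l _
    simp only [e, Matrix.of_apply]
    rw [if_neg (fun hc => hk (by rw [hc]; ring)), zero_mul]
  · intro hc; exact absurd (Finset.mem_univ _) hc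

/-- the inclusion -/
noncomputable def phi (eq : ZMod s ≃ Fin s) :
    D (s := s) →ₐ[ℝ] Matrix (Fin s) (Fin s) L :=
  ((Matrix.reindexAlgEquiv ℝ L eq : MA s →ₐ[ℝ] _)).comp (D (s := s)).val

theorem phi_apply (eq : ZMod s ≃ Fin s) (x : D (s := s)) (i j : Fin s) :
    phi eq x i j = (x : MA s) (eq.symm i) (eq.symm j) := rfl

theorem dense (eq : ZMod s ≃ Fin s) (ι : Type) [Fintype ι]
    (f : MvPolynomial (ι × Fin s × Fin s) ℝ) (hf : f ≠ 0) :
    ∃ ξ : ι → D (s := s), MvPolynomial.aeval (fun u => phi eq (ξ u.1) u.2.1 u.2.2) f ≠ 0 := by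
  classical
  have hinj : Function.Injective (algebraMap ℝ L) := (algebraMap ℝ L).injective
  have hInf : (Set.range (algebraMap ℝ L)).Infinite := Set.infinite_range_of_injective hinj
  have : Infinite L := Infinite.of_injective _ hinj
  set f' : MvPolynomial (ι × Fin s × Fin s) L := MvPolynomial.map (algebraMap ℝ L) f with hf'
  have hf'0 : f' ≠ 0 := by
    intro hc
    apply hf
    apply MvPolynomial.map_injective _ hinj
    rw [map_zero]; exact hc
  set g : MvPolynomial (ι × ZMod s × ZMod s) L := MvPolynomial.bind₁ (fun u =>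
    ∑ k, ∑ l, MvPolynomial.C (e k l (eq.symm u.2.1) (eq.symm u.2.2)) *
      MvPolynomial.X (u.1, k, l)) f' with hg
  have hev : ∀ y : ι × ZMod s × ZMod s → L, MvPolynomial.eval y g =
      MvPolynomial.eval (fun u => ∑ k, ∑ l, e k l (eq.symm u.2.1) (eq.symm u.2.2) * y (u.1, k, l))
        f' := by
    intro y
    rw [hg, ← MvPolynomial.coe_aeval_eq_eval, RingHom.coe_coe, MvPolynomial.aeval_bind₁,
      ← MvPolynomial.coe_aeval_eq_eval, RingHom.coe_coe]
    congr 2
    ext u
    simp
  have hg0 : g ≠ 0 := by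
    intro hc
    apply hf'0
    apply MvPolynomial.funext
    intro z
    have h1 := hev (fun v => co (Matrix.of fun p q => z (v.1, eq p, eq q)) v.2.1 v.2.2)
    rw [hc, map_zero] at h1
    rw [map_zero, h1]
    have h2 : ∀ u : ι × Fin s × Fin s, z u = ∑ k, ∑ l, e k l (eq.symm u.2.1) (eq.symm u.2.2) *
        co (Matrix.of fun p q => z (u.1, eq p, eq q)) k l := by
      intro u
      rw [co_sum]
      simp
    have h3 : z = fun u : ι × Fin s × Fin s => ∑ k, ∑ l, e k l (eq.symm u.2.1) (eq.symm u.2.2) *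
        co (Matrix.of fun p q => z (u.1, eq p, eq q)) k l := funext h2
    have h4 : MvPolynomial.eval z f' = MvPolynomial.eval (fun u : ι × Fin s × Fin s =>
        ∑ k, ∑ l, e k l (eq.symm u.2.1) (eq.symm u.2.2) *
        co (Matrix.of fun p q => z (u.1, eq p, eq q)) k l) f' := by
      rw [← h3]
    exact h4
  have hex : ∃ y : ι × ZMod s × ZMod s → ℝ, MvPolynomial.eval (fun v => algebraMap ℝ L (y v)) g ≠ 0 := by
    by_contra hc
    push Not at hc
    apply hg0
    apply MvPolynomial.funext_set (fun _ => Set.range (algebraMap ℝ L)) (fun _ => hInf)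
    intro x hx
    have h2 : ∀ v, ∃ r : ℝ, algebraMap ℝ L r = x v := fun v => hx v (Set.mem_univ _)
    choose y hy using h2
    have := hc y
    simp only [hy] at this
    rw [map_zero]; exact this
  obtain ⟨y, hy⟩ := hex
  refine ⟨fun i => ⟨∑ k, ∑ l, y (i, k, l) • e k l, ?_⟩, ?_⟩
  · exact Subalgebra.sum_mem _ fun k _ => Subalgebra.sum_mem _ fun l _ =>
      Subalgebra.smul_mem _ (e_mem k l) _
  · rw [hev] at hy
    intro hc
    apply hy
    rw [hf', MvPolynomial.eval_map, ← MvPolynomial.aeval_def]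
    rw [← hc]
    congr 2
    funext u
    rw [phi_apply]
    show _ = (∑ k, ∑ l, y (u.1, k, l) • e k l) (eq.symm u.2.1) (eq.symm u.2.2)
    simp only [Matrix.sum_apply, Matrix.smul_apply]
    apply Finset.sum_congr rfl
    intro k _
    apply Finset.sum_congr rfl
    intro l _
    exact (mul_comm _ _).trans (Algebra.smul_def (y (u.1, k, l))
      (e k l (eq.symm u.2.1) (eq.symm u.2.2))).symm

end

end Pool.Agent.H412.TH.Div

namespace Pool.Agent.H412.TH

/-- DIV -/
theorem t_div : S_div := by
  intro s hs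
  have : NeZero s := ⟨hs.ne'⟩
  have eq : ZMod s ≃ Fin s := Fintype.equivFinOfCardEq (ZMod.card s)
  exact ⟨Div.D (s := s), Div.instDR, inferInstance, Div.L, inferInstance, inferInstance,
    Div.phi eq, fun ι _ f hf => Div.dense eq ι f hf⟩

end Pool.Agent.H412.TH
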