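import Pool.Agent.H412.TH.Basic

/-!
MP_0219da (project TH of helper412), task TH-Full: the blocks of the inverses of an irreducible
graded pencil span all matrices.
-/

set_option autoImplicit false

namespace Pool.Agent.H412.TH

namespace Full

open Matrix

/-! ## Burnside's theorem -/

theorem burnside {n : ℕ} (hn : 0 < n) (A : Subalgebra ℂ (Matrix (Fin n) (Fin n) ℂ))
    (h : ∀ U : Submodule ℂ (Fin n → ℂ), (∀ a ∈ A, ∀ u ∈ U, a *ᵥ u ∈ U) →
      Module.finrank ℂ U = 0 ∨ Module.finrank ℂ U = n) : A = ⊤ := by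
  classical
  let V := Fin n → ℂ
  let A' : Subalgebra ℂ (Module.End ℂ V) := A.map (Matrix.toLinAlgEquiv' (R := ℂ) (n := Fin n))
  have : Nonempty (Fin n) := ⟨⟨0, hn⟩⟩
  have : Nontrivial V := Function.nontrivial
  have hsimple : IsSimpleModule A' V := by
    rw [isSimpleModule_iff]
    refine { exists_pair_ne := ⟨⊥, ⊤, bot_ne_top⟩, eq_bot_or_eq_top := ?_ }
    intro U
    let U' : Submodule ℂ V := U.restrictScalars ℂ
    have hU' := h U' (by
      intro a ha u hu
      have := U.smul_mem (⟨Matrix.toLinAlgEquiv' a, a, ha, rfl⟩ : A') hu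
      exact this)
    rcases hU' with h0 | h1
    · left
      have : U' = ⊥ := Submodule.finrank_eq_zero.1 h0
      ext x
      have hx : x ∈ U ↔ x ∈ U' := Iff.rfl
      rw [hx, this]
      simp
    · right
      have : U' = ⊤ := Submodule.eq_top_of_finrank_eq (by rw [h1]; simp [V])
      ext x
      have hx : x ∈ U ↔ x ∈ U' := Iff.rfl
      rw [hx, this]
      simp
  have hschur := IsSimpleModule.algebraMap_end_bijective_of_isAlgClosed (A := A') (V := V) ℂ
  rw [eq_top_iff]
  intro X _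
  let f : Module.End ℂ V := Matrix.toLinAlgEquiv' X
  let F : Module.End (Module.End A' V) V :=
    { toFun := f
      map_add' := f.map_add
      map_smul' := by
        intro g v
        obtain ⟨c, rfl⟩ := hschur.2 g
        have h1 : ∀ w : V, (algebraMap ℂ (Module.End A' V) c) • w = c • w := fun w => rfl
        rw [h1, RingHom.id_apply, h1, map_smul] }
  obtain ⟨r, hr⟩ := jacobson_density (R := A') (M := V) F
    (Finset.univ.image fun i : Fin n => (Pi.single i (1 : ℂ) : V))
  obtain ⟨r, a, ha, rfl⟩ := r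
  have hXa : X = a := by
    apply (Matrix.toLinAlgEquiv' (R := ℂ) (n := Fin n)).injective
    apply LinearMap.pi_ext'
    intro i
    apply LinearMap.ext_ring
    have := hr (Pi.single i 1) (Finset.mem_image_of_mem _ (Finset.mem_univ i))
    exact this
  rw [hXa]
  exact ha

/-! ## degenerations of subspaces -/

section grading

variable {n : ℕ} (γ : Fin n → ℤ)

/-- vectors of degree at most `e` -/
def low (e : ℤ) : Submodule ℂ (Fin n → ℂ) where
  carrier := {v | ∀ q, e < γ q → v q = 0}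
  add_mem' := by
    intro a b ha hb q hq
    simp [ha q hq, hb q hq]
  zero_mem' := by
    intro q _
    rfl
  smul_mem' := by
    intro c a ha q hq
    simp [ha q hq]

/-- the homogeneous component -/
def pr (e : ℤ) : (Fin n → ℂ) →ₗ[ℂ] (Fin n → ℂ) where
  toFun v q := if γ q = e then v q else 0
  map_add' := by
    intro a b
    ext q
    by_cases h : γ q = e <;> simp [h]
  map_smul' := by
    intro c a
    ext q
    by_cases h : γ q = e <;> simp [h]

theorem pr_apply (e : ℤ) (v : Fin n → ℂ) (q : Fin n) :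
    pr γ e v q = if γ q = e then v q else 0 := rfl

theorem mem_low (e : ℤ) (v : Fin n → ℂ) : v ∈ low γ e ↔ ∀ q, e < γ q → v q = 0 := Iff.rfl

/-- the span of the top components -/
def gr (V : Submodule ℂ (Fin n → ℂ)) : Submodule ℂ (Fin n → ℂ) :=
  ⨅ e, ((V ⊓ low γ e).map (pr γ e)).comap (pr γ e)

theorem mem_gr (V : Submodule ℂ (Fin n → ℂ)) (v : Fin n → ℂ) :
    v ∈ gr γ V ↔ ∀ e, ∃ u ∈ V, u ∈ low γ e ∧ pr γ e u = pr γ e v := by
  simp only [gr, Submodule.mem_iInf, Submodule.mem_comap, Submodule.mem_map, Submodule.mem_inf,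
    and_assoc]

theorem pr_pr (e e' : ℤ) (v : Fin n → ℂ) :
    pr γ e (pr γ e' v) = if e = e' then pr γ e v else 0 := by
  ext q
  by_cases h : e = e'
  · subst h
    simp only [pr_apply, if_true]
    split_ifs <;> rfl
  · simp only [pr_apply, h, if_false, Pi.zero_apply]
    by_cases h1 : γ q = e
    · have h2 : γ q ≠ e' := fun h3 => h (h1.symm.trans h3)
      simp [h2]
    · simp [h1]

theorem pr_mem_gr (V : Submodule ℂ (Fin n → ℂ)) (v : Fin n → ℂ) (hv : v ∈ gr γ V) (e : ℤ) :
    pr γ e v ∈ gr γ V := by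
  rw [mem_gr] at hv ⊢
  intro e'
  by_cases h : e' = e
  · subst h
    obtain ⟨u, h1, h2, h3⟩ := hv e'
    exact ⟨u, h1, h2, by rw [h3, pr_pr, if_pos rfl]⟩
  · exact ⟨0, V.zero_mem, (low γ e').zero_mem, by rw [pr_pr, if_neg h, map_zero]⟩

theorem map_gr (V : Submodule ℂ (Fin n → ℂ)) (e : ℤ) :
    (gr γ V ⊓ low γ e).map (pr γ e) = (V ⊓ low γ e).map (pr γ e) := by
  apply le_antisymm
  · rintro _ ⟨v, ⟨hv, -⟩, rfl⟩
    obtain ⟨u, h1, h2, h3⟩ := (mem_gr γ V v).1 hv e
    exact ⟨u, ⟨h1, h2⟩, h3⟩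
  · rintro _ ⟨u, ⟨hu, hu'⟩, rfl⟩
    refine ⟨pr γ e u, ⟨?_, ?_⟩, ?_⟩
    · refine (mem_gr γ V _).2 fun e' => ?_
      by_cases h : e' = e
      · subst h
        exact ⟨u, hu, hu', by rw [pr_pr, if_pos rfl]⟩
      · exact ⟨0, V.zero_mem, (low γ e').zero_mem, by rw [pr_pr, if_neg h, map_zero]⟩
    · intro q hq
      rw [pr_apply, if_neg (ne_of_gt hq)]
    · rw [pr_pr, if_pos rfl]

theorem finrank_step (V : Submodule ℂ (Fin n → ℂ)) (e : ℤ) :
    Module.finrank ℂ ((V ⊓ low γ e).map (pr γ e) : Submodule ℂ (Fin n → ℂ)) +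
      Module.finrank ℂ (V ⊓ low γ (e - 1) : Submodule ℂ (Fin n → ℂ)) =
      Module.finrank ℂ (V ⊓ low γ e : Submodule ℂ (Fin n → ℂ)) := by
  have h1 := LinearMap.finrank_range_add_finrank_ker ((pr γ e).domRestrict (V ⊓ low γ e))
  rw [LinearMap.range_domRestrict] at h1
  rw [← h1]
  congr 1
  have h2 : LinearMap.ker ((pr γ e).domRestrict (V ⊓ low γ e)) =
      (V ⊓ low γ (e - 1)).comap (V ⊓ low γ e).subtype := by
    ext ⟨x, hx, hx'⟩
    simp only [LinearMap.mem_ker, LinearMap.domRestrict_apply, Submodule.mem_comap,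
      Submodule.subtype_apply, Submodule.mem_inf]
    constructor
    · intro h
      refine ⟨hx, fun q hq => ?_⟩
      rcases eq_or_ne (γ q) e with h3 | h3
      · have := congrFun h q
        rwa [pr_apply, if_pos h3] at this
      · exact hx' q (by omega)
    · rintro ⟨-, h⟩
      ext q
      rw [pr_apply]
      split_ifs with h3
      · exact h q (by omega)
      · rfl
  rw [h2]
  refine (Submodule.comapSubtypeEquivOfLe ?_).finrank_eq.symm
  refine le_inf inf_le_left (inf_le_right.trans ?_)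
  intro x hx q hq
  exact hx q (by omega)

theorem finrank_gr (V : Submodule ℂ (Fin n → ℂ)) :
    Module.finrank ℂ (gr γ V) = Module.finrank ℂ V := by
  have hb : ∀ q, |γ q| ≤ ∑ q', |γ q'| := fun q =>
    Finset.single_le_sum (f := fun q' => |γ q'|) (fun _ _ => abs_nonneg _) (Finset.mem_univ q)
  have hlow : low γ (-(∑ q, |γ q|) - 1) = ⊥ := by
    rw [eq_bot_iff]
    intro v hv
    rw [Submodule.mem_bot]
    ext q
    refine hv q ?_
    have := hb q
    have := neg_abs_le (γ q)
    omega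
  have hhigh : low γ (∑ q, |γ q|) = ⊤ := by
    rw [eq_top_iff]
    intro v _ q hq
    have := hb q
    have := le_abs_self (γ q)
    omega
  have key : ∀ e : ℤ, -(∑ q, |γ q|) - 1 ≤ e →
      Module.finrank ℂ (gr γ V ⊓ low γ e : Submodule ℂ (Fin n → ℂ)) =
        Module.finrank ℂ (V ⊓ low γ e : Submodule ℂ (Fin n → ℂ)) := by
    intro e he
    induction e, he using Int.le_induction with
    | base => rw [hlow, inf_bot_eq, inf_bot_eq]
    | succ e _ ih =>
      have h1 := finrank_step γ V (e + 1)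
      have h2 := finrank_step γ (gr γ V) (e + 1)
      rw [map_gr] at h2
      rw [add_sub_cancel_right] at h1 h2
      rw [← h1, ← h2, ih]
  have := key (∑ q, |γ q|) (by
    have : 0 ≤ ∑ q, |γ q| := Finset.sum_nonneg fun _ _ => abs_nonneg _
    omega)
  rwa [hhigh, inf_top_eq, inf_top_eq] at this

end grading

/-- homogeneous maps are compatible with degenerations -/
theorem map_gr_mem {n : ℕ} (γ γ' : Fin n → ℤ) (δ : ℤ) (A : Matrix (Fin n) (Fin n) ℂ)
    (hA : ∀ p q, A p q ≠ 0 → γ' p + δ = γ q) (V V' : Submodule ℂ (Fin n → ℂ))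
    (h : ∀ v ∈ V, A *ᵥ v ∈ V') : ∀ v ∈ gr γ V, A *ᵥ v ∈ gr γ' V' := by
  intro v hv
  have hpr : ∀ (e : ℤ) (v : Fin n → ℂ), pr γ' e (A *ᵥ v) = A *ᵥ (pr γ (e + δ) v) := by
    intro e v
    ext p
    simp only [pr_apply, Matrix.mulVec, dotProduct]
    by_cases hp : γ' p = e
    · rw [if_pos hp]
      refine Finset.sum_congr rfl fun q _ => ?_
      by_cases hz : A p q = 0
      · simp [hz]
      · rw [if_pos (by rw [← hp, hA p q hz])]
    · rw [if_neg hp]
      symm
      refine Finset.sum_eq_zero fun q _ => ?_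
      by_cases hz : A p q = 0
      · simp [hz]
      · have := hA p q hz
        rw [if_neg (by omega), mul_zero]
  rw [mem_gr] at hv ⊢
  intro e
  obtain ⟨u, h1, h2, h3⟩ := hv (e + δ)
  refine ⟨A *ᵥ u, h u h1, ?_, ?_⟩
  · intro p hp
    simp only [Matrix.mulVec, dotProduct]
    refine Finset.sum_eq_zero fun q _ => ?_
    by_cases hz : A p q = 0
    · simp [hz]
    · have := hA p q hz
      rw [h2 q (by omega), mul_zero]
  · rw [hpr, hpr, h3]

/-- there is no proper reducing pair of subspaces, graded or not -/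
theorem irr_ungraded {ι : Type} {n : ℕ} (α β : Fin n → ℤ)
    (W : Option ι → Matrix (Fin n) (Fin n) ℂ) (hW : Graded α β W) (hI : Irr α β W)
    (V V' : Submodule ℂ (Fin n → ℂ)) (h : ∀ j, ∀ v ∈ V, W j *ᵥ v ∈ V')
    (hd : Module.finrank ℂ V = Module.finrank ℂ V') :
    Module.finrank ℂ V = 0 ∨ Module.finrank ℂ V = n := by
  have h1 := hI (gr β V) (gr (fun p => -α p) V') ?_ ?_ ?_ ?_
  · rwa [finrank_gr] at h1
  · intro v hv e
    exact pr_mem_gr β V v hv e
  · intro v hv e
    have h2 := pr_mem_gr (fun p => -α p) V' v hv (-e)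
    have h3 : pr (fun p => -α p) (-e) v = fun q => if α q = e then v q else 0 := by
      ext q
      simp only [pr_apply, neg_inj]
    rwa [h3] at h2
  · intro j v hv
    rcases j with _ | i
    · refine map_gr_mem β (fun p => -α p) 0 (W none) ?_ V V' (h none) v hv
      intro p q hpq
      have := hW.1 p q hpq
      show -α p + 0 = β q
      omega
    · refine map_gr_mem β (fun p => -α p) 1 (W (some i)) ?_ V V' (h (some i)) v hv
      intro p q hpq
      have := hW.2 i p q hpq
      show -α p + 1 = β q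
      omega
  · rw [finrank_gr, finrank_gr, hd]


/-! ## blocks -/

/-- exchange of inner and outer indices -/
def blk {m κ R : Type} (A : Matrix m m (Matrix κ κ R)) : Matrix κ κ (Matrix m m R) :=
  fun p q u v => A u v p q

theorem blk_blk {m κ R : Type} (A : Matrix m m (Matrix κ κ R)) : blk (blk A) = A := rfl

theorem blk_mul {m κ R : Type} [Fintype m] [Fintype κ] [Ring R]
    (A B : Matrix m m (Matrix κ κ R)) : blk (A * B) = blk A * blk B := by
  ext p q u v
  simp only [blk, Matrix.mul_apply, Matrix.sum_apply]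
  exact Finset.sum_comm

theorem blk_one {m κ R : Type} [DecidableEq m] [DecidableEq κ] [Ring R] :
    blk (1 : Matrix m m (Matrix κ κ R)) = 1 := by
  ext p q u v
  simp only [blk, Matrix.one_apply]
  by_cases h1 : u = v <;> by_cases h2 : p = q <;> simp [h1, h2, Matrix.one_apply]

theorem blk_inv {m κ R : Type} [Fintype m] [Fintype κ] [DecidableEq m] [DecidableEq κ] [Ring R]
    {A M : Matrix m m (Matrix κ κ R)} (h : IsInv A M) : IsInv (blk A) (blk M) :=
  ⟨by rw [← blk_mul, h.1, blk_one], by rw [← blk_mul, h.2, blk_one]⟩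

/-- the value of a pencil, with exchanged indices -/
def WW {ι κ m : Type} [Fintype ι] [DecidableEq κ] (W : Option ι → Matrix m m ℂ)
    (X : ι → Matrix κ κ ℂ) : Matrix κ κ (Matrix m m ℂ) :=
  fun p q => (if p = q then W none else 0) + ∑ i, X i p q • W (some i)

theorem blk_pev {ι κ m : Type} [Fintype ι] [Fintype κ] [DecidableEq κ]
    (W : Option ι → Matrix m m ℂ) (X : ι → Matrix κ κ ℂ) : blk (pev W X) = WW W X := by
  ext p q u v
  simp only [blk, pev, WW, Matrix.add_apply, Matrix.sum_apply, Matrix.smul_apply, smul_eq_mul,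
    Matrix.algebraMap_matrix_apply, Algebra.algebraMap_self, RingHom.id_apply]
  congr 1
  · by_cases h : p = q <;> simp [h]
  · exact Finset.sum_congr rfl fun i _ => mul_comm _ _

theorem isUnit_blk {m κ R : Type} [Fintype m] [Fintype κ] [DecidableEq m] [DecidableEq κ]
    [Ring R] (A : Matrix m m (Matrix κ κ R)) : IsUnit A ↔ IsUnit (blk A) := by
  constructor
  · intro h
    obtain ⟨M, hM, hM'⟩ := isUnit_iff_exists.1 h
    have := blk_inv (A := A) (M := M) ⟨hM, hM'⟩
    exact isUnit_iff_exists.2 ⟨_, this.1, this.2⟩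
  · intro h
    obtain ⟨M, hM, hM'⟩ := isUnit_iff_exists.1 h
    have := blk_inv (A := blk A) (M := M) ⟨hM, hM'⟩
    exact isUnit_iff_exists.2 ⟨_, this.1, this.2⟩

theorem pev_map' {𝔽 ι R R' m n : Type} [Fintype ι] [CommSemiring 𝔽] [Ring R] [Algebra 𝔽 R]
    [Ring R'] [Algebra 𝔽 R'] (φ : R →ₐ[𝔽] R') (Q : Option ι → Matrix m n 𝔽) (X : ι → R) :
    (pev Q X).map φ = pev Q (fun i => φ (X i)) := by
  ext p q
  simp [pev, Matrix.map_apply]

/-! ## the span of the blocks -/

section span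

variable {ι : Type} [Fintype ι] {r n : ℕ} (T : Option ι → Matrix (Fin r) (Fin r) ℂ)
  (W : Option ι → Matrix (Fin n) (Fin n) ℂ)

/-- the span of the blocks of the inverses -/
def CC : Submodule ℂ (Matrix (Fin n) (Fin n) ℂ) :=
  Submodule.span ℂ {B : Matrix (Fin n) (Fin n) ℂ | ∃ (k : ℕ) (Y : ι → Matrix (Fin k) (Fin k) ℝ)
    (M : Matrix (Fin n) (Fin n) (Matrix (Fin k) (Fin k) ℂ)) (p q : Fin k), Adm T Y ∧
    IsInv (pev W (cx Y)) M ∧ B = fun u v => M u v p q}

/-- admissible points with arbitrary index types -/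
theorem reindex_point {κ : Type} [Fintype κ] [DecidableEq κ] (Y : ι → Matrix κ κ ℝ)
    (hY : ∀ i, (Y i)ᵀ = Y i) (hT : IsUnit (pev T (cx Y))) :
    ∃ (k : ℕ) (e : κ ≃ Fin k) (Y' : ι → Matrix (Fin k) (Fin k) ℝ), Adm T Y' ∧
      ∀ i, cx Y' i = (cx Y i).submatrix e.symm e.symm := by
  let e := Fintype.equivFin κ
  refine ⟨_, e, fun i => (Y i).submatrix e.symm e.symm, ⟨fun i => ?_, ?_⟩, fun i => rfl⟩
  · rw [Matrix.transpose_submatrix, hY i]
  · let φ : Matrix κ κ ℂ →ₐ[ℂ] Matrix (Fin (Fintype.card κ)) (Fin (Fintype.card κ)) ℂ :=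
      (Matrix.reindexAlgEquiv ℂ ℂ e).toAlgHom
    have h1 := pev_map' φ T (cx Y)
    have h2 : (fun i => φ (cx Y i)) = cx (fun i => (Y i).submatrix e.symm e.symm) := rfl
    rw [← h2, ← h1]
    exact hT.map (RingHom.mapMatrix
      (φ : Matrix κ κ ℂ →+* Matrix (Fin (Fintype.card κ)) (Fin (Fintype.card κ)) ℂ))

variable {T W}

theorem mem_CC (hA : Adapted T W) {κ : Type} [Fintype κ] [DecidableEq κ] (Y : ι → Matrix κ κ ℝ)
    (hY : ∀ i, (Y i)ᵀ = Y i) (hT : IsUnit (pev T (cx Y))) :
    ∃ N : Matrix κ κ (Matrix (Fin n) (Fin n) ℂ), IsInv (WW W (cx Y)) N ∧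
      ∀ p q, N p q ∈ CC T W := by
  obtain ⟨k, e, Y', hY', hcx⟩ := reindex_point T Y hY hT
  obtain ⟨M', hM1, hM2⟩ := isUnit_iff_exists.1 (hA k Y' hY')
  let ψ : Matrix (Fin k) (Fin k) ℂ →ₐ[ℂ] Matrix κ κ ℂ :=
    (Matrix.reindexAlgEquiv ℂ ℂ e.symm).toAlgHom
  have h1 := pev_map' ψ W (cx Y')
  have h2 : (fun i => ψ (cx Y' i)) = cx Y := by
    funext i
    rw [hcx i]
    ext p q
    simp [ψ, Matrix.reindex_apply]
  rw [h2] at h1
  have h3 : IsInv (pev W (cx Y)) (M'.map ψ) := by
    constructor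
    · rw [← h1, ← Matrix.map_mul, hM1, Matrix.map_one _ (map_zero ψ) (map_one ψ)]
    · rw [← h1, ← Matrix.map_mul, hM2, Matrix.map_one _ (map_zero ψ) (map_one ψ)]
  refine ⟨blk (M'.map ψ), ?_, ?_⟩
  · rw [← blk_pev]
    exact blk_inv h3
  · intro p q
    apply Submodule.subset_span
    refine ⟨k, Y', M', e p, e q, hY', ⟨hM1, hM2⟩, ?_⟩
    ext u v
    simp [blk, ψ, Matrix.reindex_apply]

end span

/-! ## continuity -/

theorem isInv_unique {m R : Type} [Fintype m] [DecidableEq m] [Ring R] {A M N : Matrix m m R}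
    (h : IsInv A M) (h' : IsInv A N) : M = N := by
  calc M = M * (A * N) := by rw [h'.1, Matrix.mul_one]
    _ = N := by rw [← Matrix.mul_assoc, h.2, Matrix.one_mul]

/-- a limit argument: blocks of the inverse of a perturbed matrix -/
theorem limit_mem {κ : Type} [Fintype κ] [DecidableEq κ] {n r : ℕ}
    (C : Submodule ℂ (Matrix (Fin n) (Fin n) ℂ))
    (A E M : Matrix κ κ (Matrix (Fin n) (Fin n) ℂ)) (hM : IsInv A M)
    (AT ET MT : Matrix κ κ (Matrix (Fin r) (Fin r) ℂ)) (hMT : IsInv AT MT) (p q : κ)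
    (h0 : M p q = 0)
    (h : ∀ e : ℝ, e ≠ 0 → IsUnit (AT + (e : ℂ) • ET) →
      ∃ N, IsInv (A + (e : ℂ) • E) N ∧ N p q ∈ C) :
    (M * E * M) p q ∈ C := by
  classical
  let cA : ℝ → Matrix (κ × Fin n) (κ × Fin n) ℂ := fun e =>
    Matrix.comp κ κ (Fin n) (Fin n) ℂ (A + (e : ℂ) • E)
  let G : ℝ → Matrix κ κ (Matrix (Fin n) (Fin n) ℂ) := fun e =>
    (Matrix.comp κ κ (Fin n) (Fin n) ℂ).symm (Matrix.adjugate (cA e))
  have hG : ∀ (e : ℝ) (N : Matrix κ κ (Matrix (Fin n) (Fin n) ℂ)),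
      IsInv (A + (e : ℂ) • E) N → G e = (cA e).det • N := by
    intro e N hN
    have h1 : cA e * Matrix.comp κ κ (Fin n) (Fin n) ℂ N = 1 := by
      have := (Matrix.compRingEquiv κ (Fin n) ℂ).map_mul (A + (e : ℂ) • E) N
      rw [hN.1, map_one] at this
      exact this.symm
    have h2 : Matrix.adjugate (cA e) = (cA e).det • Matrix.comp κ κ (Fin n) (Fin n) ℂ N := by
      calc Matrix.adjugate (cA e)
          = Matrix.adjugate (cA e) * (cA e * Matrix.comp κ κ (Fin n) (Fin n) ℂ N) := by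
            rw [h1, Matrix.mul_one]
        _ = (cA e).det • Matrix.comp κ κ (Fin n) (Fin n) ℂ N := by
            rw [← Matrix.mul_assoc, Matrix.adjugate_mul, Matrix.smul_mul, Matrix.one_mul]
    show (Matrix.comp κ κ (Fin n) (Fin n) ℂ).symm (Matrix.adjugate (cA e)) = _
    rw [h2]
    rfl
  have hcA : Continuous cA := by
    refine continuous_matrix fun i j => ?_
    show Continuous fun e : ℝ => A i.1 j.1 i.2 j.2 + (e : ℂ) * E i.1 j.1 i.2 j.2
    fun_prop
  have hcG : Continuous G := by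
    refine continuous_matrix fun i j => continuous_matrix fun a b => ?_
    exact (hcA.matrix_adjugate).matrix_elem (i, a) (j, b)
  have hcont : Continuous fun e : ℝ => (M * E * G e) p q := by
    have : Continuous fun e : ℝ => M * E * G e := continuous_const.mul hcG
    exact this.matrix_elem p q
  -- the good set
  let cT : ℝ → Matrix (κ × Fin r) (κ × Fin r) ℂ := fun e =>
    Matrix.comp κ κ (Fin r) (Fin r) ℂ (AT + (e : ℂ) • ET)
  have hcT : Continuous fun e => (cT e).det := by
    refine Continuous.matrix_det (continuous_matrix fun i j => ?_)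
    show Continuous fun e : ℝ => AT i.1 j.1 i.2 j.2 + (e : ℂ) * ET i.1 j.1 i.2 j.2
    fun_prop
  have hT0 : (cT 0).det ≠ 0 := by
    have h1 : IsUnit (cT 0) := by
      rw [Matrix.isUnit_comp_iff]
      simp only [Complex.ofReal_zero, zero_smul, add_zero]
      exact isUnit_iff_exists.2 ⟨MT, hMT.1, hMT.2⟩
    exact isUnit_iff_ne_zero.1 ((Matrix.isUnit_iff_isUnit_det _).1 h1)
  have hev : ∀ᶠ e in nhds (0 : ℝ), (cT e).det ≠ 0 :=
    hcT.continuousAt.eventually_ne hT0
  have hgood : ∀ e : ℝ, e ≠ 0 → (cT e).det ≠ 0 → (M * E * G e) p q ∈ C := by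
    intro e he hdet
    have hu : IsUnit (AT + (e : ℂ) • ET) := by
      rw [← Matrix.isUnit_comp_iff, Matrix.isUnit_iff_isUnit_det]
      exact isUnit_iff_ne_zero.2 hdet
    obtain ⟨N, hN, hNC⟩ := h e he hu
    rw [hG e N hN, Matrix.mul_smul]
    have he' : (e : ℂ) ≠ 0 := by exact_mod_cast he
    have h1 : M * (A + (e : ℂ) • E) * N = M := by
      rw [Matrix.mul_assoc, hN.1, Matrix.mul_one]
    have h2 : M * (A + (e : ℂ) • E) * N = N + (e : ℂ) • (M * E * N) := by
      rw [Matrix.mul_add, hM.2, Matrix.mul_smul, Matrix.add_mul, Matrix.one_mul, Matrix.smul_mul]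
    have h3 : M * E * N = (e : ℂ)⁻¹ • (M - N) := by
      rw [h2] at h1
      have h4 : (e : ℂ) • (M * E * N) = M - N := eq_sub_of_add_eq' h1
      rw [← h4, smul_smul, inv_mul_cancel₀ he', one_smul]
    rw [Matrix.smul_apply, h3, Matrix.smul_apply, Matrix.sub_apply, h0, zero_sub]
    exact C.smul_mem _ (C.smul_mem _ (C.neg_mem hNC))
  have hclosed : IsClosed (C : Set (Matrix (Fin n) (Fin n) ℂ)) :=
    Submodule.closed_of_finiteDimensional C
  have hlim : (M * E * G 0) p q ∈ C := by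
    have hfreq : ∃ᶠ e in nhdsWithin (0 : ℝ) {0}ᶜ, (M * E * G e) p q ∈ (C : Set _) := by
      apply Filter.Eventually.frequently
      filter_upwards [nhdsWithin_le_nhds hev, self_mem_nhdsWithin] with e h1 h2
      exact hgood e h2 h1
    exact hclosed.mem_of_frequently_of_tendsto hfreq
      (hcont.continuousAt.tendsto.mono_left nhdsWithin_le_nhds)
  have hM0 : IsInv (A + ((0 : ℝ) : ℂ) • E) M := by
    simpa using hM
  rw [hG 0 M hM0, Matrix.mul_smul, Matrix.smul_apply] at hlim
  have hd0 : (cA 0).det ≠ 0 := by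
    have h1 : IsUnit (cA 0) := by
      rw [Matrix.isUnit_comp_iff]
      exact isUnit_iff_exists.2 ⟨M, hM0.1, hM0.2⟩
    exact isUnit_iff_ne_zero.1 ((Matrix.isUnit_iff_isUnit_det _).1 h1)
  have := C.smul_mem ((cA 0).det)⁻¹ hlim
  rwa [smul_smul, inv_mul_cancel₀ hd0, one_smul] at this


/-! ## products -/

section products

variable {ι : Type} [Fintype ι] {r n : ℕ} {T : Option ι → Matrix (Fin r) (Fin r) ℂ}
  {W : Option ι → Matrix (Fin n) (Fin n) ℂ}

/-- the connecting point -/
noncomputable def YY [DecidableEq ι] {k k' : ℕ} (Y : ι → Matrix (Fin k) (Fin k) ℝ)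
    (Y' : ι → Matrix (Fin k') (Fin k') ℝ) (i : ι) (q : Fin k) (p' : Fin k') (e : ℝ) (l : ι) :
    Matrix (Fin k ⊕ Fin k') (Fin k ⊕ Fin k') ℝ :=
  Matrix.fromBlocks (Y l) (e • if l = i then Matrix.single q p' (1 : ℝ) else 0)
    (e • if l = i then Matrix.single p' q (1 : ℝ) else 0) (Y' l)

theorem YY_symm [DecidableEq ι] {k k' : ℕ} (Y : ι → Matrix (Fin k) (Fin k) ℝ)
    (Y' : ι → Matrix (Fin k') (Fin k') ℝ) (hY : ∀ i, (Y i)ᵀ = Y i) (hY' : ∀ i, (Y' i)ᵀ = Y' i)
    (i : ι) (q : Fin k) (p' : Fin k') (e : ℝ) (l : ι) :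
    (YY Y Y' i q p' e l)ᵀ = YY Y Y' i q p' e l := by
  rw [YY, Matrix.fromBlocks_transpose, hY, hY']
  by_cases h : l = i <;> simp [h, Matrix.transpose_single]

theorem WW_YY [DecidableEq ι] {k k' s : ℕ} (S : Option ι → Matrix (Fin s) (Fin s) ℂ)
    (Y : ι → Matrix (Fin k) (Fin k) ℝ) (Y' : ι → Matrix (Fin k') (Fin k') ℝ)
    (i : ι) (q : Fin k) (p' : Fin k') (e : ℝ) :
    WW S (cx (YY Y Y' i q p' e)) =
      Matrix.fromBlocks (WW S (cx Y)) 0 0 (WW S (cx Y')) +
      (e : ℂ) • Matrix.fromBlocks 0 (Matrix.single q p' (S (some i)))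
        (Matrix.single p' q (S (some i))) 0 := by
  ext a b
  rcases a with a | a <;> rcases b with b | b
  · simp [WW, cx, YY, Matrix.map_apply]
  · simp only [WW, cx, YY, Matrix.map_apply, Matrix.fromBlocks_apply₁₂, Matrix.add_apply,
      Matrix.smul_apply, reduceCtorEq, if_false, zero_add, Matrix.zero_apply]
    congr 2
    rw [Finset.sum_eq_single i]
    · rw [if_pos rfl]
      simp only [Matrix.single_apply, smul_eq_mul]
      by_cases h : q = a ∧ p' = b <;> simp [h]
    · intro l _ hl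
      simp [hl]
    · intro h
      exact absurd (Finset.mem_univ i) h
  · simp only [WW, cx, YY, Matrix.map_apply, Matrix.fromBlocks_apply₂₁, Matrix.add_apply,
      Matrix.smul_apply, reduceCtorEq, if_false, zero_add, Matrix.zero_apply]
    congr 2
    rw [Finset.sum_eq_single i]
    · rw [if_pos rfl]
      simp only [Matrix.single_apply, smul_eq_mul]
      by_cases h : p' = a ∧ q = b <;> simp [h]
    · intro l _ hl
      simp [hl]
    · intro h
      exact absurd (Finset.mem_univ i) h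
  · simp [WW, cx, YY, Matrix.map_apply]

theorem isInv_fromBlocks {R k l : Type} [Ring R] [Fintype k] [DecidableEq k] [Fintype l]
    [DecidableEq l] {A M : Matrix k k R} {B N : Matrix l l R} (h : IsInv A M) (h' : IsInv B N) :
    IsInv (Matrix.fromBlocks A 0 0 B) (Matrix.fromBlocks M 0 0 N) := by
  constructor <;>
  · rw [Matrix.fromBlocks_multiply, ← Matrix.fromBlocks_one]
    congr 1 <;> simp [h.1, h.2, h'.1, h'.2]

theorem generators_mul (hA : Adapted T W) (i : ι) {k k' : ℕ} (Y : ι → Matrix (Fin k) (Fin k) ℝ)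
    (M : Matrix (Fin n) (Fin n) (Matrix (Fin k) (Fin k) ℂ)) (hY : Adm T Y)
    (hM : IsInv (pev W (cx Y)) M) (p q : Fin k) (Y' : ι → Matrix (Fin k') (Fin k') ℝ)
    (M' : Matrix (Fin n) (Fin n) (Matrix (Fin k') (Fin k') ℂ)) (hY' : Adm T Y')
    (hM' : IsInv (pev W (cx Y')) M') (p' q' : Fin k') :
    blk M p q * W (some i) * blk M' p' q' ∈ CC T W := by
  classical
  have hN := blk_inv hM
  have hN' := blk_inv hM'
  rw [blk_pev] at hN hN'
  have hTY : ∃ MT, IsInv (WW T (cx Y)) MT := by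
    obtain ⟨MT, h1, h2⟩ := isUnit_iff_exists.1 ((isUnit_blk _).1 hY.2)
    rw [blk_pev] at h1 h2
    exact ⟨MT, h1, h2⟩
  have hTY' : ∃ MT, IsInv (WW T (cx Y')) MT := by
    obtain ⟨MT, h1, h2⟩ := isUnit_iff_exists.1 ((isUnit_blk _).1 hY'.2)
    rw [blk_pev] at h1 h2
    exact ⟨MT, h1, h2⟩
  obtain ⟨MT, hMT⟩ := hTY
  obtain ⟨MT', hMT'⟩ := hTY'
  have key := limit_mem (CC T W) (Matrix.fromBlocks (WW W (cx Y)) 0 0 (WW W (cx Y')))
    (Matrix.fromBlocks 0 (Matrix.single q p' (W (some i))) (Matrix.single p' q (W (some i))) 0)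
    (Matrix.fromBlocks (blk M) 0 0 (blk M')) (isInv_fromBlocks hN hN')
    (Matrix.fromBlocks (WW T (cx Y)) 0 0 (WW T (cx Y')))
    (Matrix.fromBlocks 0 (Matrix.single q p' (T (some i))) (Matrix.single p' q (T (some i))) 0)
    (Matrix.fromBlocks MT 0 0 MT') (isInv_fromBlocks hMT hMT') (Sum.inl p) (Sum.inr q') rfl
    (by
      intro e _ hu
      rw [← WW_YY T Y Y' i q p' e, ← blk_pev, ← isUnit_blk] at hu
      obtain ⟨N, h1, h2⟩ := mem_CC hA (YY Y Y' i q p' e) (YY_symm Y Y' hY.1 hY'.1 i q p' e) hu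
      rw [WW_YY] at h1
      exact ⟨N, h1, h2 _ _⟩)
  have hval : (Matrix.fromBlocks (blk M) 0 0 (blk M') *
      Matrix.fromBlocks 0 (Matrix.single q p' (W (some i))) (Matrix.single p' q (W (some i))) 0 *
      Matrix.fromBlocks (blk M) 0 0 (blk M')) (Sum.inl p) (Sum.inr q') =
      blk M p q * W (some i) * blk M' p' q' := by
    rw [Matrix.fromBlocks_multiply, Matrix.fromBlocks_multiply, Matrix.fromBlocks_apply₁₂]
    simp only [Matrix.mul_zero, Matrix.zero_mul, add_zero, zero_add]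
    rw [Matrix.mul_apply, Finset.sum_eq_single p']
    · rw [Matrix.mul_single_apply_same]
    · intro b _ hb
      rw [Matrix.mul_single_apply_of_ne _ _ _ _ _ hb, Matrix.zero_mul]
    · intro h
      exact absurd (Finset.mem_univ p') h
  rwa [hval] at key

theorem CC_mul_some (hA : Adapted T W) (i : ι) (B B' : Matrix (Fin n) (Fin n) ℂ)
    (hB : B ∈ CC T W) (hB' : B' ∈ CC T W) : B * W (some i) * B' ∈ CC T W := by
  induction hB using Submodule.span_induction with
  | mem B hB =>
    obtain ⟨k, Y, M, p, q, hY, hM, rfl⟩ := hB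
    induction hB' using Submodule.span_induction with
    | mem B' hB' =>
      obtain ⟨k', Y', M', p', q', hY', hM', rfl⟩ := hB'
      exact generators_mul hA i Y M hY hM p q Y' M' hY' hM' p' q'
    | zero => rw [Matrix.mul_zero]; exact (CC T W).zero_mem
    | add x y _ _ h1 h2 => rw [Matrix.mul_add]; exact (CC T W).add_mem h1 h2
    | smul c x _ h1 => rw [Matrix.mul_smul]; exact (CC T W).smul_mem _ h1
  | zero => rw [Matrix.zero_mul, Matrix.zero_mul]; exact (CC T W).zero_mem
  | add x y _ _ h1 h2 => rw [Matrix.add_mul, Matrix.add_mul]; exact (CC T W).add_mem h1 h2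
  | smul c x _ h1 => rw [Matrix.smul_mul, Matrix.smul_mul]; exact (CC T W).smul_mem _ h1

theorem mul_WW_apply {κ : Type} [Fintype κ] [DecidableEq κ] (X : ι → Matrix κ κ ℂ)
    (N : Matrix κ κ (Matrix (Fin n) (Fin n) ℂ)) (p q : κ) :
    (N * WW W X) p q = N p q * W none + ∑ a, ∑ i, X i a q • (N p a * W (some i)) := by
  rw [Matrix.mul_apply]
  simp only [WW, mul_add, Finset.sum_add_distrib, mul_ite, mul_zero, Finset.sum_ite_eq',
    Finset.mem_univ, if_true, Finset.mul_sum, mul_smul_comm]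

theorem CC_mul_none (hA : Adapted T W) (B C : Matrix (Fin n) (Fin n) ℂ)
    (hB : B ∈ CC T W) (hC : C ∈ CC T W) : B * W none * C ∈ CC T W := by
  classical
  induction hB using Submodule.span_induction with
  | mem B hB =>
    obtain ⟨k, Y, M, p, q, hY, hM, rfl⟩ := hB
    have hN := blk_inv hM
    rw [blk_pev] at hN
    have h1 := congrFun (congrFun hN.2 p) q
    rw [mul_WW_apply] at h1
    have h2 : blk M p q * W none = (1 : Matrix (Fin k) (Fin k) (Matrix (Fin n) (Fin n) ℂ)) p q -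
        ∑ a, ∑ i, cx Y i a q • (blk M p a * W (some i)) := by
      rw [← h1, add_sub_cancel_right]
    show blk M p q * W none * C ∈ CC T W
    rw [h2, sub_mul]
    refine (CC T W).sub_mem ?_ ?_
    · by_cases h : p = q
      · subst h
        rw [Matrix.one_apply_eq, one_mul]
        exact hC
      · rw [Matrix.one_apply_ne h, zero_mul]
        exact (CC T W).zero_mem
    · rw [Finset.sum_mul]
      refine (CC T W).sum_mem fun a _ => ?_
      rw [Finset.sum_mul]
      refine (CC T W).sum_mem fun i _ => ?_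
      rw [smul_mul_assoc]
      refine (CC T W).smul_mem _ (CC_mul_some hA i _ _ ?_ hC)
      exact Submodule.subset_span ⟨k, Y, M, p, a, hY, hM, rfl⟩
  | zero => rw [Matrix.zero_mul, Matrix.zero_mul]; exact (CC T W).zero_mem
  | add x y _ _ h1 h2 => rw [Matrix.add_mul, Matrix.add_mul]; exact (CC T W).add_mem h1 h2
  | smul c x _ h1 => rw [Matrix.smul_mul, Matrix.smul_mul]; exact (CC T W).smul_mem _ h1

theorem CC_mul (hA : Adapted T W) (j : Option ι) (B C : Matrix (Fin n) (Fin n) ℂ)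
    (hB : B ∈ CC T W) (hC : C ∈ CC T W) : B * W j * C ∈ CC T W := by
  rcases j with _ | i
  · exact CC_mul_none hA B C hB hC
  · exact CC_mul_some hA i B C hB hC

variable (T W)

/-- the left multipliers of `CC` -/
def LL : Subalgebra ℂ (Matrix (Fin n) (Fin n) ℂ) where
  carrier := {X | ∀ C ∈ CC T W, X * C ∈ CC T W}
  mul_mem' := by
    intro a b ha hb C hC
    rw [Matrix.mul_assoc]
    exact ha _ (hb C hC)
  add_mem' := by
    intro a b ha hb C hC
    rw [Matrix.add_mul]
    exact (CC T W).add_mem (ha C hC) (hb C hC)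
  algebraMap_mem' := by
    intro c C hC
    rw [Algebra.algebraMap_eq_smul_one, Matrix.smul_mul, Matrix.one_mul]
    exact (CC T W).smul_mem _ hC

end products

/-! ## blocks acting on vectors -/

section act

variable {n : ℕ} {κ : Type} [Fintype κ] [DecidableEq κ]

theorem act_mul (A B : Matrix κ κ (Matrix (Fin n) (Fin n) ℂ)) (x : κ → Fin n → ℂ) (p : κ) :
    ∑ q, A p q *ᵥ (∑ s, B q s *ᵥ x s) = ∑ s, (A * B) p s *ᵥ x s := by
  simp only [Matrix.mulVec_sum, Matrix.mulVec_mulVec, Matrix.mul_apply, Matrix.sum_mulVec]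
  exact Finset.sum_comm

theorem act_one (x : κ → Fin n → ℂ) (p : κ) :
    ∑ s, (1 : Matrix κ κ (Matrix (Fin n) (Fin n) ℂ)) p s *ᵥ x s = x p := by
  rw [Finset.sum_eq_single p]
  · rw [Matrix.one_apply_eq, Matrix.one_mulVec]
  · intro s _ hs
    rw [Matrix.one_apply_ne hs.symm, Matrix.zero_mulVec]
  · intro h
    exact absurd (Finset.mem_univ p) h

theorem finrank_eq_of_act (A N : Matrix κ κ (Matrix (Fin n) (Fin n) ℂ)) (h : IsInv A N)
    [Nonempty κ] (U V : Submodule ℂ (Fin n → ℂ)) (hA : ∀ p q, ∀ u ∈ U, A p q *ᵥ u ∈ V)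
    (hN : ∀ p q, ∀ v ∈ V, N p q *ᵥ v ∈ U) : Module.finrank ℂ U = Module.finrank ℂ V := by
  let e : (κ → U) ≃ₗ[ℂ] (κ → V) :=
    { toFun := fun x p => ⟨∑ q, A p q *ᵥ (x q : Fin n → ℂ),
        V.sum_mem fun q _ => hA p q _ (x q).2⟩
      map_add' := by
        intro x y
        funext p
        apply Subtype.ext
        simp [Matrix.mulVec_add, Finset.sum_add_distrib]
      map_smul' := by
        intro c x
        funext p
        apply Subtype.ext
        simp [Matrix.mulVec_smul, Finset.smul_sum]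
      invFun := fun y p => ⟨∑ q, N p q *ᵥ (y q : Fin n → ℂ),
        U.sum_mem fun q _ => hN p q _ (y q).2⟩
      left_inv := by
        intro x
        funext p
        apply Subtype.ext
        show ∑ q, N p q *ᵥ (∑ s, A q s *ᵥ (x s : Fin n → ℂ)) = x p
        rw [act_mul N A (fun s => (x s : Fin n → ℂ)), h.2]
        exact act_one (fun s => (x s : Fin n → ℂ)) p
      right_inv := by
        intro y
        funext p
        apply Subtype.ext
        show ∑ q, A p q *ᵥ (∑ s, N q s *ᵥ (y s : Fin n → ℂ)) = y p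
        rw [act_mul A N (fun s => (y s : Fin n → ℂ)), h.1]
        exact act_one (fun s => (y s : Fin n → ℂ)) p }
  have h1 := e.finrank_eq
  rw [Module.finrank_pi_fintype, Module.finrank_pi_fintype] at h1
  simp only [Finset.sum_const, Finset.card_univ, smul_eq_mul] at h1
  exact Nat.eq_of_mul_eq_mul_left Fintype.card_pos h1

end act

end Full

open Matrix Full in
/-- blocks of the inverses of an irreducible graded pencil span all matrices -/
theorem t_full : S_full := by
  classical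
  intro ι _ r n T α β W hW hA hI hn hex
  change CC T W = ⊤
  obtain ⟨k, Y, hk, hY⟩ := hex
  obtain ⟨N, hN, hNC⟩ := mem_CC hA Y hY.1 hY.2
  have hLL : LL T W = ⊤ := by
    refine burnside hn (LL T W) ?_
    intro U hU
    let V : Submodule ℂ (Fin n → ℂ) := ⨆ j, U.map (W j).mulVecLin
    have hUV : ∀ j, ∀ u ∈ U, W j *ᵥ u ∈ V := by
      intro j u hu
      exact (le_iSup (fun j => U.map (W j).mulVecLin) j) ⟨u, hu, rfl⟩
    have hVU : ∀ C ∈ CC T W, ∀ v ∈ V, C *ᵥ v ∈ U := by
      intro C hC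
      have : V ≤ U.comap C.mulVecLin := by
        refine iSup_le fun j => ?_
        rintro _ ⟨u, hu, rfl⟩
        show C *ᵥ (W j *ᵥ u) ∈ U
        rw [Matrix.mulVec_mulVec]
        exact hU _ (fun C' hC' => CC_mul hA j C C' hC hC') u hu
      exact this
    have hfr : Module.finrank ℂ U = Module.finrank ℂ V := by
      have : Nonempty (Fin k) := ⟨⟨0, hk⟩⟩
      refine finrank_eq_of_act (WW W (cx Y)) N hN U V ?_ (fun p q => hVU _ (hNC p q))
      intro p q u hu
      rw [WW, Matrix.add_mulVec, Matrix.sum_mulVec]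
      refine V.add_mem ?_ (V.sum_mem fun i _ => ?_)
      · split_ifs
        · exact hUV none u hu
        · rw [Matrix.zero_mulVec]
          exact V.zero_mem
      · rw [Matrix.smul_mulVec]
        exact V.smul_mem _ (hUV (some i) u hu)
    exact irr_ungraded α β W hW hI U V hUV hfr
  have hmul : ∀ (X C : Matrix (Fin n) (Fin n) ℂ), C ∈ CC T W → X * C ∈ CC T W := by
    intro X C hC
    have hX : X ∈ LL T W := by
      rw [hLL]
      exact Algebra.mem_top
    exact hX C hC
  have h1 : (1 : Matrix (Fin n) (Fin n) ℂ) ∈ CC T W := by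
    have h2 := congrFun (congrFun hN.1 ⟨0, hk⟩) ⟨0, hk⟩
    rw [Matrix.one_apply_eq, Matrix.mul_apply] at h2
    rw [← h2]
    exact (CC T W).sum_mem fun a _ => hmul _ _ (hNC _ _)
  rw [eq_top_iff]
  intro X _
  have := hmul X 1 h1
  rwa [Matrix.mul_one] at this

end Pool.Agent.H412.TH
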