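import Pool.Agent.H412.TH.Basic

/-!
MP_0219da (helper412): a graded pencil is invertible at a formal point (assembly).
-/

set_option autoImplicit false

namespace Pool.Agent.H412.TH

open Matrix

/-- the span statement of `S_full` for one pencil -/
def SpanTop {ι : Type} [Fintype ι] {r n : ℕ} (T : Option ι → Matrix (Fin r) (Fin r) ℂ)
    (W : Option ι → Matrix (Fin n) (Fin n) ℂ) : Prop :=
  Submodule.span ℂ {B : Matrix (Fin n) (Fin n) ℂ | ∃ (k : ℕ) (Y : ι → Matrix (Fin k) (Fin k) ℝ)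
    (M : Matrix (Fin n) (Fin n) (Matrix (Fin k) (Fin k) ℂ)) (p q : Fin k), Adm T Y ∧
    IsInv (pev W (cx Y)) M ∧ B = fun u v => M u v p q} = ⊤

/-- `S_full` for graded `T` -/
def S_full' : Prop := ∀ {ι : Type} [Fintype ι] {r n : ℕ}
    (T : Option ι → Matrix (Fin r) (Fin r) ℂ) (αT βT : Fin r → ℤ), Graded αT βT T →
    ∀ (α β : Fin n → ℤ)
    (W : Option ι → Matrix (Fin n) (Fin n) ℂ), Graded α β W → Adapted T W → Irr α β W → 0 < n →
  (∃ (k : ℕ) (Y : ι → Matrix (Fin k) (Fin k) ℝ), 0 < k ∧ Adm T Y) → SpanTop T W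

/-- `S_wit` from the span statements -/
def S_wit' : Prop := ∀ {ι : Type} [Fintype ι] {r : ℕ} (T : Option ι → Matrix (Fin r) (Fin r) ℂ),
  (∃ (k : ℕ) (Y : ι → Matrix (Fin k) (Fin k) ℝ), 0 < k ∧ Adm T Y) →
  ∀ l : List (GP ι), (∀ w ∈ l, 0 < w.n ∧ Adapted T w.W ∧ Irr w.α w.β w.W) →
  (∀ w ∈ l, SpanTop T w.W) →
  ∃ (k : ℕ) (b : ι → Matrix (Fin 2) (Fin k) ℝ) (Y : ι → Matrix (Fin k) (Fin k) ℝ), Adm T Y ∧
    ∀ w ∈ l, (∃ i, w.W (some i) ≠ 0) →
      ∀ M, IsInv (pev w.W (cx Y)) M → IsUnit (K0 w.W (cx b) M)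

theorem wit'_of_wit (h : S_wit) : S_wit' := fun T hT l hl _ => h T hT l hl

/-- complexification of a pencil -/
noncomputable def cpen {ι : Type} {r : ℕ} (W : Option ι → Matrix (Fin r) (Fin r) ℝ) :
    Option ι → Matrix (Fin r) (Fin r) ℂ := fun j => (W j).map (fun c => (c : ℂ))

theorem graded_cpen {ι : Type} {r : ℕ} {W : Option ι → Matrix (Fin r) (Fin r) ℝ}
    {α β : Fin r → ℤ} (h : Graded α β W) : Graded α β (cpen W) := by
  constructor
  · intro p q hpq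
    refine h.1 p q fun h0 => hpq ?_
    simp [cpen, h0]
  · intro i p q hpq
    refine h.2 i p q fun h0 => hpq ?_
    simp [cpen, h0]

theorem adm_cpen {ι : Type} [Fintype ι] {r s : ℕ} {W : Option ι → Matrix (Fin r) (Fin r) ℝ}
    {Z : ι → Matrix (Fin s) (Fin s) ℝ} (hs : ∀ i, (Z i)ᵀ = Z i) (h : IsUnit (pev W Z)) :
    Adm (cpen W) Z := by
  refine ⟨hs, ?_⟩
  have h1 : pev (cpen W) (cx Z) = (Complex.ofRealHom.mapMatrix (m := Fin s)).mapMatrix (pev W Z) := by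
    ext p q u v
    simp only [pev, cpen, cx, RingHom.mapMatrix_apply, Matrix.map_apply, Matrix.add_apply,
      Matrix.sum_apply, Matrix.smul_apply, Matrix.algebraMap_matrix_apply, map_add, map_sum]
    congr 1
    · split_ifs <;> simp
    · refine Finset.sum_congr rfl fun i _ => ?_
      simp
  rw [h1]
  exact h.map _

theorem pev_cpen {ι K A : Type} [Fintype ι] [Fintype K] [DecidableEq K] [Ring A] [Algebra ℂ A]
    {r : ℕ} (W : Option ι → Matrix (Fin r) (Fin r) ℝ) (X : ι → FR K A) :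
    pev (cpen W) X = pev W X := by
  ext1 p q
  simp only [pev, cpen, Matrix.map_apply]
  congr 1

/-- a constant pencil which is invertible at some matrices is invertible at all points -/
theorem isUnit_const {ι : Type} [Fintype ι] {n k : ℕ} (hk : 0 < k)
    (W : Option ι → Matrix (Fin n) (Fin n) ℂ) (hW : ∀ i, W (some i) = 0)
    (Y : ι → Matrix (Fin k) (Fin k) ℂ) (h : IsUnit (pev W Y)) {R : Type} [Ring R] [Algebra ℂ R]
    (X : ι → R) : IsUnit (pev W X) := by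
  have hc : ∀ (R : Type) [Ring R] [Algebra ℂ R] (X : ι → R),
      pev W X = (algebraMap ℂ R).mapMatrix (W none) := by
    intro R _ _ X
    ext p q
    simp [pev, hW]
  rw [hc]
  refine IsUnit.map _ ?_
  rw [Matrix.isUnit_iff_isUnit_det, isUnit_iff_ne_zero]
  intro hdet
  obtain ⟨v, hv, hv0⟩ := Matrix.exists_mulVec_eq_zero_iff.2 hdet
  rw [hc] at h
  have : Nonempty (Fin k) := ⟨⟨0, hk⟩⟩
  set B : Matrix (Fin n) (Fin n) ℂ := fun p _ => v p with hB
  have h1 : W none * B = 0 := by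
    ext p q
    exact congrFun hv0 p
  have h2 : (algebraMap ℂ (Matrix (Fin k) (Fin k) ℂ)).mapMatrix (W none) *
      (algebraMap ℂ (Matrix (Fin k) (Fin k) ℂ)).mapMatrix B = 0 := by
    rw [← map_mul, h1, map_zero]
  have h3 := (h.mul_right_eq_zero).1 h2
  apply hv
  funext p
  have h4 := congrFun (congrFun h3 p) p
  simp only [RingHom.mapMatrix_apply, Matrix.map_apply, hB, Matrix.zero_apply] at h4
  exact (map_eq_zero_iff _ (algebraMap ℂ (Matrix (Fin k) (Fin k) ℂ)).injective).1 h4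

theorem t_gr (hdec : S_dec) (hfull : S_full') (hwit : S_wit') (hsch : S_sch) : S_gr := by
  intro ι _ r W α β hgr ⟨s, hs, Z, hZs, hZu⟩
  have hT : Graded α β (cpen W) := graded_cpen hgr
  have hadm : ∃ (k : ℕ) (Y : ι → Matrix (Fin k) (Fin k) ℝ), 0 < k ∧ Adm (cpen W) Y :=
    ⟨s, Z, hs, adm_cpen hZs hZu⟩
  obtain ⟨l, hl, hl2⟩ := hdec (cpen W) α β hT hadm
  obtain ⟨k, b, Y, hY, hK⟩ := hwit (cpen W) hadm l hl fun w hw =>
    hfull (cpen W) α β hT w.α w.β w.W w.gr (hl w hw).2.1 (hl w hw).2.2 (hl w hw).1 hadm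
  refine ⟨k, b, Y, hY.1, fun A _ _ a => ?_⟩
  rw [← pev_cpen]
  refine hl2 _ _ fun w hw => ?_
  by_cases hc : ∃ i, w.W (some i) ≠ 0
  · obtain ⟨U, hU⟩ := (hl w hw).2.1 k Y hY
    have hinv : IsInv (pev w.W (cx Y)) (Units.val U⁻¹) := by
      rw [← hU]
      exact ⟨U.mul_inv, U.inv_mul⟩
    exact hsch w.W w.α w.β w.gr b Y _ hinv (hK w hw hc _ hinv) A a
  · push Not at hc
    exact isUnit_const hs w.W hc (cx Z) ((hl w hw).2.1 s Z (adm_cpen hZs hZu)) _

end Pool.Agent.H412.TH
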