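import Pool.Agent.H412.TH.Basic

/-!
MP_0219da (helper412): linearisation of rational expressions by pencils.
-/

set_option autoImplicit false

namespace Pool.Agent.H412.TH

open Matrix

namespace Lin

/-! ## inverses of block matrices -/

section blocks

variable {R : Type} [Ring R] {m n : Type} [Fintype m] [Fintype n] [DecidableEq m] [DecidableEq n]

theorem isUnit_iff {A : Matrix n n R} : IsUnit A ↔ ∃ M, IsInv A M := by
  constructor
  · rintro ⟨u, rfl⟩
    exact ⟨_, u.mul_inv, u.inv_mul⟩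
  · rintro ⟨M, h⟩
    exact ⟨⟨A, M, h.1, h.2⟩, rfl⟩

theorem isInv_unique {A M M' : Matrix n n R} (h : IsInv A M) (h' : IsInv A M') : M = M' := by
  calc M = M * (A * M') := by rw [h'.1, mul_one]
    _ = M' := by rw [← mul_assoc, h.2, one_mul]

theorem isInv_diag {A M : Matrix m m R} {D N : Matrix n n R} (h : IsInv A M) (h' : IsInv D N) :
    IsInv (fromBlocks A 0 0 D) (fromBlocks M 0 0 N) := by
  constructor
  · rw [fromBlocks_multiply, ← fromBlocks_one]
    simp [h.1, h'.1]
  · rw [fromBlocks_multiply, ← fromBlocks_one]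
    simp [h.2, h'.2]

theorem isInv_of_diag {A : Matrix m m R} {D : Matrix n n R} {M : Matrix (m ⊕ n) (m ⊕ n) R}
    (h : IsInv (fromBlocks A 0 0 D) M) :
    IsInv A M.toBlocks₁₁ ∧ IsInv D M.toBlocks₂₂ ∧ M = fromBlocks M.toBlocks₁₁ 0 0 M.toBlocks₂₂ := by
  have key : IsInv A M.toBlocks₁₁ ∧ IsInv D M.toBlocks₂₂ := by
    obtain ⟨h1, h2⟩ := h
    rw [← fromBlocks_toBlocks M, fromBlocks_multiply, ← fromBlocks_one, fromBlocks_inj] at h1 h2
    simp only [Matrix.zero_mul, Matrix.mul_zero, add_zero, zero_add] at h1 h2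
    exact ⟨⟨h1.1, h2.1⟩, ⟨h1.2.2.2, h2.2.2.2⟩⟩
  exact ⟨key.1, key.2, isInv_unique h (isInv_diag key.1 key.2)⟩

theorem isInv_upper {A M : Matrix m m R} {B : Matrix m n R} {D N : Matrix n n R} (h : IsInv A M)
    (h' : IsInv D N) : IsInv (fromBlocks A (-B) 0 D) (fromBlocks M (M * B * N) 0 N) := by
  constructor
  · rw [fromBlocks_multiply, ← fromBlocks_one]
    have : A * (M * B * N) = B * N := by
      rw [← Matrix.mul_assoc, ← Matrix.mul_assoc, h.1, Matrix.one_mul]
    simp [h.1, h'.1, this]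
  · rw [fromBlocks_multiply, ← fromBlocks_one]
    have : M * B * N * D = M * B := by
      rw [Matrix.mul_assoc (M * B), h'.2, Matrix.mul_one]
    simp [h.2, h'.2, this]

/-- the Schur complement -/
theorem isInv_schur {Q M : Matrix m m R} (B : Matrix m n R) (C : Matrix n m R)
    {V : Matrix n n R} (h : IsInv Q M) (W : Matrix n n R) (hV : C * M * B = V) (hW : IsInv V W) :
    IsInv (fromBlocks Q B (-C) 0) (fromBlocks (M - M * B * W * C * M) (-(M * B * W)) (W * C * M) W) := by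
  have e1 : ∀ {l : Type} (Z : Matrix m l R), Q * (M * Z) = Z := fun Z => by
    rw [← Matrix.mul_assoc, h.1, Matrix.one_mul]
  have e2 : ∀ {l : Type} (Z : Matrix m l R), M * (Q * Z) = Z := fun Z => by
    rw [← Matrix.mul_assoc, h.2, Matrix.one_mul]
  have e3 : ∀ {l : Type} (Z : Matrix n l R), C * (M * (B * (W * Z))) = Z := fun Z => by
    rw [← Matrix.mul_assoc, ← Matrix.mul_assoc, ← Matrix.mul_assoc, hV, hW.1, Matrix.one_mul]
  have e4 : ∀ {l : Type} (Z : Matrix n l R), W * (C * (M * (B * Z))) = Z := fun Z => by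
    rw [← Matrix.mul_assoc M, ← Matrix.mul_assoc C, ← Matrix.mul_assoc C, hV, ← Matrix.mul_assoc,
      hW.2, Matrix.one_mul]
  have e3' : C * (M * (B * W)) = 1 := by simpa using e3 (1 : Matrix n n R)
  have e4' : W * (C * (M * B)) = 1 := by simpa using e4 (1 : Matrix n n R)
  constructor
  · rw [fromBlocks_multiply, ← fromBlocks_one, fromBlocks_inj]
    simp only [Matrix.mul_assoc, Matrix.mul_sub, e1, e3, e3', h.1,
      Matrix.mul_neg, Matrix.neg_mul, Matrix.zero_mul, neg_neg, add_zero]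
    refine ⟨by abel, by abel, by abel, trivial⟩
  · rw [fromBlocks_multiply, ← fromBlocks_one, fromBlocks_inj]
    simp only [Matrix.mul_assoc, Matrix.sub_mul, e4', h.2,
      Matrix.mul_neg, Matrix.neg_mul, Matrix.mul_zero, neg_neg, add_zero,
      Matrix.mul_one]
    refine ⟨by abel, by abel, by abel, trivial⟩

theorem isInv_of_schur {Q M : Matrix m m R} (B : Matrix m n R) (C : Matrix n m R)
    (h : IsInv Q M) {N : Matrix (m ⊕ n) (m ⊕ n) R} (hN : IsInv (fromBlocks Q B (-C) 0) N) :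
    IsInv (C * M * B) N.toBlocks₂₂ := by
  obtain ⟨h1, h2⟩ := hN
  rw [← fromBlocks_toBlocks N, fromBlocks_multiply, ← fromBlocks_one, fromBlocks_inj] at h1 h2
  obtain ⟨-, h12, -, h122⟩ := h1
  obtain ⟨-, -, h221, h222⟩ := h2
  simp only [Matrix.zero_mul, Matrix.mul_zero, add_zero, Matrix.mul_neg, Matrix.neg_mul] at *
  have hs : N.toBlocks₁₂ = -(M * B * N.toBlocks₂₂) := by
    have h3 := congrArg (fun Z => M * Z) h12
    simp only [Matrix.mul_add, Matrix.mul_zero] at h3
    rw [← Matrix.mul_assoc, h.2, Matrix.one_mul, ← Matrix.mul_assoc] at h3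
    exact eq_neg_of_add_eq_zero_left h3
  have ht : N.toBlocks₂₁ = N.toBlocks₂₂ * C * M := by
    have h3 := congrArg (fun Z => Z * M) h221
    simp only [Matrix.add_mul, Matrix.zero_mul] at h3
    rw [Matrix.mul_assoc, h.1, Matrix.mul_one, Matrix.neg_mul] at h3
    exact (neg_add_eq_zero.1 (by rw [add_comm]; exact h3)).symm
  constructor
  · rw [hs] at h122
    rw [← h122]
    simp only [Matrix.mul_neg, neg_neg, Matrix.mul_assoc]
  · rw [ht] at h222
    rw [← h222]
    simp only [Matrix.mul_assoc]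

end blocks

/-! ## rows, columns and values -/

section values

variable {R : Type} [Ring R] [Algebra ℝ R] {m n : Type} [Fintype m] [Fintype n]

/-- the value of an inverse -/
noncomputable def val (c : m → ℝ) (b : n → ℝ) (M : Matrix m n R) : R :=
  ∑ i, ∑ j, (c i * b j) • M i j

/-- a column -/
noncomputable def colM (R : Type) [Ring R] [Algebra ℝ R] (b : n → ℝ) : Matrix n Unit R :=
  fun i _ => algebraMap ℝ R (b i)

/-- a row -/
noncomputable def rowM (R : Type) [Ring R] [Algebra ℝ R] (c : n → ℝ) : Matrix Unit n R :=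
  fun _ i => algebraMap ℝ R (c i)

theorem row_mul_col (c : m → ℝ) (b : n → ℝ) (M : Matrix m n R) (u v : Unit) :
    (rowM R c * M * colM R b) u v = val c b M := by
  simp only [Matrix.mul_apply, rowM, colM, val, Finset.sum_mul]
  rw [Finset.sum_comm]
  refine Finset.sum_congr rfl fun i _ => Finset.sum_congr rfl fun j _ => ?_
  rw [← Algebra.smul_def, ← Algebra.commutes, ← Algebra.smul_def, smul_smul, mul_comm]

end values

section pencils

variable {ι : Type} [Fintype ι] {m n m' n' : Type}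

theorem pev_fromBlocks {R : Type} [Ring R] [Algebra ℝ R] (A : Option ι → Matrix m n ℝ)
    (B : Option ι → Matrix m n' ℝ) (C : Option ι → Matrix m' n ℝ) (D : Option ι → Matrix m' n' ℝ)
    (X : ι → R) :
    pev (fun j => fromBlocks (A j) (B j) (C j) (D j)) X =
      fromBlocks (pev A X) (pev B X) (pev C X) (pev D X) := by
  ext p q
  rcases p with p | p <;> rcases q with q | q <;> rfl

theorem pev_zero {R : Type} [Ring R] [Algebra ℝ R] (X : ι → R) :
    pev (fun _ => (0 : Matrix m n ℝ)) X = 0 := by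
  ext p q
  simp [pev]

/-- a constant pencil -/
def cst (K : Matrix m n ℝ) : Option ι → Matrix m n ℝ
  | none => K
  | some _ => 0

theorem pev_cst {R : Type} [Ring R] [Algebra ℝ R] (K : Matrix m n ℝ) (X : ι → R) :
    pev (cst K) X = K.map (algebraMap ℝ R) := by
  ext p q
  simp [pev, cst]

open Classical in
/-- a linear pencil -/
noncomputable def lnr (i : ι) (K : Matrix m n ℝ) : Option ι → Matrix m n ℝ
  | none => 0
  | some j => if j = i then K else 0

theorem pev_lnr {R : Type} [Ring R] [Algebra ℝ R] (i : ι) (K : Matrix m n ℝ) (X : ι → R) :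
    pev (lnr i K) X = fun p q => K p q • X i := by
  classical
  ext p q
  simp only [pev, lnr, Matrix.zero_apply, map_zero, zero_add]
  rw [Finset.sum_eq_single i]
  · simp
  · intro j _ hj
    simp [hj]
  · intro h
    exact absurd (Finset.mem_univ i) h

/-- the pencil `Q` with the vectors `c`, `b` represents the expression `ρ` -/
def Rep [Fintype n] [DecidableEq n] (ρ : RE ι) (Q : Option ι → Matrix n n ℝ) (c b : n → ℝ) : Prop :=
  ∀ (R : Type) [Ring R] [Algebra ℝ R] (X : ι → R), (ρ.Dom X ↔ IsUnit (pev Q X)) ∧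
    ∀ M : Matrix n n R, IsInv (pev Q X) M → ρ.ev X = val c b M

theorem rep_reindex [Fintype n] [DecidableEq n] [Fintype m] [DecidableEq m] {ρ : RE ι}
    {Q : Option ι → Matrix n n ℝ} {c b : n → ℝ} (h : Rep ρ Q c b) (e : m ≃ n) :
    Rep ρ (fun j => (Q j).submatrix e e) (c ∘ e) (b ∘ e) := by
  intro R _ _ X
  have hp : pev (fun j => (Q j).submatrix e e) X = (pev Q X).submatrix e e := rfl
  obtain ⟨h1, h2⟩ := h R X
  rw [hp]
  refine ⟨?_, ?_⟩
  · rw [h1, isUnit_iff, isUnit_iff]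
    constructor
    · rintro ⟨M, hM⟩
      refine ⟨M.submatrix e e, ?_, ?_⟩
      · rw [Matrix.submatrix_mul_equiv, hM.1, Matrix.submatrix_one_equiv]
      · rw [Matrix.submatrix_mul_equiv, hM.2, Matrix.submatrix_one_equiv]
    · rintro ⟨M, hM⟩
      refine ⟨M.submatrix e.symm e.symm, ?_, ?_⟩
      · have := congrArg (fun A => Matrix.submatrix A e.symm e.symm) hM.1
        simpa [Matrix.submatrix_one_equiv, ← Matrix.submatrix_mul_equiv _ _ e.symm e.symm e.symm]
          using this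
      · have := congrArg (fun A => Matrix.submatrix A e.symm e.symm) hM.2
        simpa [Matrix.submatrix_one_equiv, ← Matrix.submatrix_mul_equiv _ _ e.symm e.symm e.symm]
          using this
  · intro M hM
    have hM' : IsInv (pev Q X) (M.submatrix e.symm e.symm) := by
      constructor
      · have := congrArg (fun A => Matrix.submatrix A e.symm e.symm) hM.1
        simpa [Matrix.submatrix_one_equiv, ← Matrix.submatrix_mul_equiv _ _ e.symm e.symm e.symm]
          using this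
      · have := congrArg (fun A => Matrix.submatrix A e.symm e.symm) hM.2
        simpa [Matrix.submatrix_one_equiv, ← Matrix.submatrix_mul_equiv _ _ e.symm e.symm e.symm]
          using this
    rw [h2 _ hM']
    simp only [val]
    rw [← e.sum_comp]
    refine Finset.sum_congr rfl fun i _ => ?_
    rw [← e.sum_comp]
    simp

/-! ## the induction -/

theorem rep_const (r : ℝ) : Rep (RE.const r : RE ι) (cst (1 : Matrix Unit Unit ℝ)) (fun _ => r)
    (fun _ => 1) := by
  intro R _ _ X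
  have hp : pev (cst (1 : Matrix Unit Unit ℝ)) X = 1 := by
    rw [pev_cst]
    simp
  rw [hp]
  refine ⟨iff_of_true trivial isUnit_one, ?_⟩
  intro M hM
  have : M = 1 := by simpa using hM.1
  subst this
  simp [val, RE.ev, Algebra.algebraMap_eq_smul_one]

theorem pev_neg {R : Type} [Ring R] [Algebra ℝ R] (A : Option ι → Matrix m n ℝ) (X : ι → R) :
    pev (fun j => -(A j)) X = -(pev A X) := by
  ext p q
  simp [pev]
  abel

theorem rep_var (i : ι) : Rep (RE.var i : RE ι)
    (fun j => fromBlocks (cst (1 : Matrix Unit Unit ℝ) j) (-(lnr i (1 : Matrix Unit Unit ℝ) j)) 0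
      (cst (1 : Matrix Unit Unit ℝ) j)) (Sum.elim (fun _ => 1) (fun _ => 0))
    (Sum.elim (fun _ => 0) (fun _ => 1)) := by
  intro R _ _ X
  have h1 : IsInv (pev (cst (1 : Matrix Unit Unit ℝ)) X) 1 := by
    rw [pev_cst]
    constructor <;> simp
  have hp : pev (fun j => fromBlocks (cst (1 : Matrix Unit Unit ℝ) j)
      (-(lnr i (1 : Matrix Unit Unit ℝ) j)) 0 (cst (1 : Matrix Unit Unit ℝ) j)) X =
      fromBlocks (pev (cst (1 : Matrix Unit Unit ℝ)) X) (-(pev (lnr i (1 : Matrix Unit Unit ℝ)) X))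
        0 (pev (cst (1 : Matrix Unit Unit ℝ)) X) := by
    rw [pev_fromBlocks, pev_neg, pev_zero]
  rw [hp]
  have hI := isInv_upper (B := pev (lnr i (1 : Matrix Unit Unit ℝ)) X) h1 h1
  refine ⟨iff_of_true trivial (isUnit_iff.2 ⟨_, hI⟩), ?_⟩
  intro M hM
  rw [isInv_unique hM hI, pev_lnr]
  simp [val, RE.ev]

theorem rep_add [Fintype m] [DecidableEq m] [Fintype n] [DecidableEq n] {ρ σ : RE ι}
    {Q : Option ι → Matrix m m ℝ} {c b : m → ℝ} {Q' : Option ι → Matrix n n ℝ} {c' b' : n → ℝ}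
    (h : Rep ρ Q c b) (h' : Rep σ Q' c' b') :
    Rep (ρ.add σ) (fun j => fromBlocks (Q j) 0 0 (Q' j)) (Sum.elim c c') (Sum.elim b b') := by
  intro R _ _ X
  have hp : pev (fun j => fromBlocks (Q j) 0 0 (Q' j)) X = fromBlocks (pev Q X) 0 0 (pev Q' X) := by
    rw [pev_fromBlocks, pev_zero, pev_zero]
  rw [hp]
  obtain ⟨h1, h2⟩ := h R X
  obtain ⟨h1', h2'⟩ := h' R X
  refine ⟨?_, ?_⟩
  · show (ρ.Dom X ∧ σ.Dom X) ↔ _
    rw [h1, h1', isUnit_iff, isUnit_iff, isUnit_iff]
    constructor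
    · rintro ⟨⟨M, hM⟩, ⟨N, hN⟩⟩
      exact ⟨_, isInv_diag hM hN⟩
    · rintro ⟨M, hM⟩
      obtain ⟨ha, hb, -⟩ := isInv_of_diag hM
      exact ⟨⟨_, ha⟩, ⟨_, hb⟩⟩
  · intro M hM
    obtain ⟨ha, hb, hc⟩ := isInv_of_diag hM
    rw [hc]
    simp [val, RE.ev, h2 _ ha, h2' _ hb, Fintype.sum_sum_type]

/-- the product of a column and a row -/
def crM (b : m → ℝ) (c : n → ℝ) : Matrix m n ℝ := fun i j => b i * c j

theorem pev_crM {R : Type} [Ring R] [Algebra ℝ R] (b : m → ℝ) (c : n → ℝ) (X : ι → R) :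
    pev (cst (crM b c)) X = colM R b * rowM R c := by
  ext p q
  simp [pev_cst, crM, colM, rowM, Matrix.mul_apply]

theorem rep_mul [Fintype m] [DecidableEq m] [Fintype n] [DecidableEq n] {ρ σ : RE ι}
    {Q : Option ι → Matrix m m ℝ} {c b : m → ℝ} {Q' : Option ι → Matrix n n ℝ} {c' b' : n → ℝ}
    (h : Rep ρ Q c b) (h' : Rep σ Q' c' b') :
    Rep (ρ.mul σ) (fun j => fromBlocks (fromBlocks (Q j) 0 0 (Q' j)) 0 0
      (fromBlocks (Q j) (-(cst (crM b c') j)) 0 (Q' j))) (Sum.elim 0 (Sum.elim c 0))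
      (Sum.elim 0 (Sum.elim 0 b')) := by
  intro R _ _ X
  have hp : pev (fun j => fromBlocks (fromBlocks (Q j) 0 0 (Q' j)) 0 0
      (fromBlocks (Q j) (-(cst (crM b c') j)) 0 (Q' j))) X =
      fromBlocks (fromBlocks (pev Q X) 0 0 (pev Q' X)) 0 0
        (fromBlocks (pev Q X) (-(colM R b * rowM R c')) 0 (pev Q' X)) := by
    simp only [pev_fromBlocks, pev_zero, pev_neg, pev_crM]
  rw [hp]
  obtain ⟨h1, h2⟩ := h R X
  obtain ⟨h1', h2'⟩ := h' R X
  refine ⟨?_, ?_⟩
  · show (ρ.Dom X ∧ σ.Dom X) ↔ _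
    rw [h1, h1', isUnit_iff, isUnit_iff, isUnit_iff]
    constructor
    · rintro ⟨⟨M, hM⟩, ⟨N, hN⟩⟩
      exact ⟨_, isInv_diag (isInv_diag hM hN) (isInv_upper hM hN)⟩
    · rintro ⟨M, hM⟩
      obtain ⟨ha, -, -⟩ := isInv_of_diag hM
      obtain ⟨ha, hb, -⟩ := isInv_of_diag ha
      exact ⟨⟨_, ha⟩, ⟨_, hb⟩⟩
  · intro M hM
    obtain ⟨h0, -, -⟩ := isInv_of_diag hM
    obtain ⟨ha, hb, -⟩ := isInv_of_diag h0
    have hI := isInv_diag (isInv_diag ha hb) (isInv_upper (B := colM R b * rowM R c') ha hb)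
    rw [isInv_unique hM hI]
    generalize M.toBlocks₁₁.toBlocks₁₁ = M1 at ha hI
    generalize M.toBlocks₁₁.toBlocks₂₂ = M2 at hb hI
    have e : val c b' (M1 * (colM R b * rowM R c') * M2) = ρ.ev X * σ.ev X := by
      rw [h2 _ ha, h2' _ hb, ← row_mul_col c b M1 () (), ← row_mul_col c' b' M2 () (),
        ← row_mul_col c b' _ () ()]
      have : rowM R c * (M1 * (colM R b * rowM R c') * M2) * colM R b' =
          (rowM R c * M1 * colM R b) * (rowM R c' * M2 * colM R b') := by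
        simp only [Matrix.mul_assoc]
      rw [this, Matrix.mul_apply]
      simp
    show ρ.ev X * σ.ev X = _
    rw [← e]
    simp [val, Fintype.sum_sum_type]

/-- a `1 × 1` matrix -/
def uM {R : Type} (w : R) : Matrix Unit Unit R := fun _ _ => w

theorem uM_self {R : Type} (W : Matrix Unit Unit R) : uM (W () ()) = W := by
  ext u v
  rfl

theorem uM_inv {R : Type} [Ring R] {v w : R} : IsInv (uM v) (uM w) ↔ v * w = 1 ∧ w * v = 1 := by
  constructor
  · rintro ⟨h1, h2⟩
    refine ⟨?_, ?_⟩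
    · have := congrFun (congrFun h1 ()) ()
      simpa [Matrix.mul_apply, uM] using this
    · have := congrFun (congrFun h2 ()) ()
      simpa [Matrix.mul_apply, uM] using this
  · rintro ⟨h1, h2⟩
    constructor
    · ext u v
      simp [Matrix.mul_apply, uM, h1]
    · ext u v
      simp [Matrix.mul_apply, uM, h2]

/-- a column of reals -/
def colR (b : n → ℝ) : Matrix n Unit ℝ := fun i _ => b i

/-- a row of reals -/
def rowR (b : n → ℝ) : Matrix Unit n ℝ := fun _ i => b i

theorem rep_inv [Fintype n] [DecidableEq n] {ρ : RE ι}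
    {Q : Option ι → Matrix n n ℝ} {c b : n → ℝ} (h : Rep ρ Q c b) :
    Rep (ρ.inv) (fun j => fromBlocks (Q j) 0 0
      (fromBlocks (Q j) (cst (colR b) j) (-(cst (rowR c) j)) 0)) (Sum.elim 0 (Sum.elim 0 1))
      (Sum.elim 0 (Sum.elim 0 1)) := by
  intro R _ _ X
  have hc : pev (cst (colR b)) X = colM R b := by
    rw [pev_cst]; rfl
  have hr : pev (cst (rowR c)) X = rowM R c := by
    rw [pev_cst]; rfl
  have hp : pev (fun j => fromBlocks (Q j) 0 0
      (fromBlocks (Q j) (cst (colR b) j) (-(cst (rowR c) j)) 0)) X =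
      fromBlocks (pev Q X) 0 0 (fromBlocks (pev Q X) (colM R b) (-(rowM R c)) 0) := by
    simp only [pev_fromBlocks, pev_zero, pev_neg, hc, hr]
  rw [hp]
  obtain ⟨h1, h2⟩ := h R X
  -- the value as a `1 × 1` matrix
  have hv : ∀ M, IsInv (pev Q X) M → rowM R c * M * colM R b = uM (ρ.ev X) := by
    intro M hM
    ext u v
    rw [row_mul_col, h2 M hM]
    rfl
  refine ⟨?_, ?_⟩
  · show (ρ.Dom X ∧ IsUnit (ρ.ev X)) ↔ _
    rw [h1, isUnit_iff, isUnit_iff]
    constructor
    · rintro ⟨⟨M, hM⟩, ⟨u, hu⟩⟩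
      have hw : IsInv (uM (ρ.ev X)) (uM (u⁻¹ : Rˣ)) :=
        uM_inv.2 ⟨by rw [← hu]; exact u.mul_inv, by rw [← hu]; exact u.inv_mul⟩
      exact ⟨_, isInv_diag hM (isInv_schur (colM R b) (rowM R c) hM _ (hv M hM) hw)⟩
    · rintro ⟨M, hM⟩
      obtain ⟨ha, hb, -⟩ := isInv_of_diag hM
      refine ⟨⟨_, ha⟩, ?_⟩
      have := isInv_of_schur (colM R b) (rowM R c) ha hb
      rw [hv _ ha, ← uM_self M.toBlocks₂₂.toBlocks₂₂, uM_inv] at this
      exact ⟨⟨_, _, this.1, this.2⟩, rfl⟩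
  · intro M hM
    obtain ⟨ha, hb, hc⟩ := isInv_of_diag hM
    have := isInv_of_schur (colM R b) (rowM R c) ha hb
    rw [hv _ ha, ← uM_self M.toBlocks₂₂.toBlocks₂₂, uM_inv] at this
    show Ring.inverse (ρ.ev X) = _
    have h3 : Ring.inverse (ρ.ev X) = M.toBlocks₂₂.toBlocks₂₂ () () := by
      exact Ring.inverse_unit (⟨_, _, this.1, this.2⟩ : Rˣ)
    rw [h3]
    simp [val, Fintype.sum_sum_type, toBlocks₂₂]

/-- the induction -/
theorem exists_rep (ρ : RE ι) : ∃ (n : Type) (_ : Fintype n) (_ : DecidableEq n)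
    (Q : Option ι → Matrix n n ℝ) (c b : n → ℝ), Rep ρ Q c b := by
  induction ρ with
  | const r => exact ⟨_, _, _, _, _, _, rep_const r⟩
  | var i => exact ⟨_, _, _, _, _, _, rep_var i⟩
  | add a b iha ihb =>
    obtain ⟨m, _, _, Q, c, b, h⟩ := iha
    obtain ⟨n, _, _, Q', c', b', h'⟩ := ihb
    exact ⟨_, _, _, _, _, _, rep_add h h'⟩
  | mul a b iha ihb =>
    obtain ⟨m, _, _, Q, c, b, h⟩ := iha
    obtain ⟨n, _, _, Q', c', b', h'⟩ := ihb
    exact ⟨_, _, _, _, _, _, rep_mul h h'⟩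
  | inv a iha =>
    obtain ⟨m, _, _, Q, c, b, h⟩ := iha
    exact ⟨_, _, _, _, _, _, rep_inv h⟩

end pencils

end Lin

/-- LIN: linearisation of rational expressions -/
theorem t_lin : S_lin := by
  intro ι _ ρ
  obtain ⟨n, _, _, Q, c, b, h⟩ := Lin.exists_rep ρ
  exact ⟨Fintype.card n, _, _, _, Lin.rep_reindex h (Fintype.equivFin n).symm⟩

end Pool.Agent.H412.TH
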