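import Pool.Agent.H412.TH.Basic
import Pool.Graph.R_pool_sql_team_seeded_620a6dc7.Helper418_HL.NoMdl
import Pool.Graph.R_seed8.W494.RC.Polar

/-!
MP_0219da (helper412), task NH: the quantitative inequality for the non-hyperlinear group.
-/

set_option autoImplicit false

namespace Pool.Agent.H412.TH

namespace Nh

open Matrix Filter Topology Helper418HL Pool.Agent.W661.RC Pool.Agent.W683.RC
open scoped ComplexOrder

/-! ## compressions to coordinates -/

section cmp
variable {n m : ℕ} (e : Fin m ↪ Fin n)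

/-- the isometry of the coordinates -/
noncomputable def W : Matrix (Fin n) (Fin m) ℂ := fun i a => if i = e a then 1 else 0

lemma mul_W (X : Mt n) (i : Fin n) (a : Fin m) : (X * W e) i a = X i (e a) := by
  rw [Matrix.mul_apply, Finset.sum_eq_single (e a)]
  · simp [W]
  · intro j _ hj
    simp [W, hj]
  · intro h; exact absurd (Finset.mem_univ _) h

lemma WW : (W e)ᴴ * W e = 1 := by
  ext a b
  rw [Matrix.mul_apply, Finset.sum_eq_single (e a)]
  · simp only [Matrix.conjTranspose_apply, W, if_true, star_one, one_mul, Matrix.one_apply]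
    by_cases h : a = b
    · simp [h]
    · have : e a ≠ e b := fun hh => h (e.injective hh)
      simp [h, this]
  · intro j _ hj
    simp [W, hj]
  · intro h; exact absurd (Finset.mem_univ _) h

lemma PP : IsPr (W e * (W e)ᴴ) := by
  refine ⟨by rw [Matrix.conjTranspose_mul, Matrix.conjTranspose_conjTranspose], ?_⟩
  calc W e * (W e)ᴴ * (W e * (W e)ᴴ) = W e * ((W e)ᴴ * W e) * (W e)ᴴ := by
        simp only [Matrix.mul_assoc]
    _ = _ := by rw [WW, Matrix.mul_one]

lemma hs_mul_W (X : Mt n) : hs (X * W e) = ∑ a, ∑ i, ‖X i (e a)‖ ^ 2 := by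
  unfold hs
  rw [Finset.sum_comm]
  simp only [mul_W]

lemma P_apply (X : Matrix (Fin n) (Fin m) ℂ) (i : Fin n) (a : Fin m) :
    (W e * (W e)ᴴ * X) i a = if i ∈ Set.range e then X i a else 0 := by
  rw [Matrix.mul_assoc, Matrix.mul_apply]
  by_cases h : i ∈ Set.range e
  · obtain ⟨b, rfl⟩ := h
    rw [if_pos ⟨b, rfl⟩, Finset.sum_eq_single b]
    · rw [Matrix.mul_apply, Finset.sum_eq_single (e b)]
      · simp [W]
      · intro j _ hj
        simp [W, hj]
      · intro h; exact absurd (Finset.mem_univ _) h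
    · intro c _ hc
      have : e b ≠ e c := fun hh => hc (e.injective hh).symm
      simp [W, this]
    · intro h; exact absurd (Finset.mem_univ _) h
  · rw [if_neg h]
    refine Finset.sum_eq_zero fun b _ => ?_
    have : i ≠ e b := fun hh => h ⟨b, hh.symm⟩
    simp [W, this]

lemma hs_compl (X : Mt n) : hs (X * W e - W e * (W e)ᴴ * (X * W e)) =
    ∑ a, ∑ i ∈ (Finset.univ.map e)ᶜ, ‖X i (e a)‖ ^ 2 := by
  classical
  unfold hs
  rw [Finset.sum_comm]
  refine Finset.sum_congr rfl fun a _ => ?_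
  rw [← Finset.sum_filter_add_sum_filter_not Finset.univ (fun i => i ∈ Set.range e)]
  have h1 : ∑ i ∈ Finset.univ.filter (fun i => i ∈ Set.range e),
      ‖(X * W e - W e * (W e)ᴴ * (X * W e)) i a‖ ^ 2 = 0 := by
    refine Finset.sum_eq_zero fun i hi => ?_
    rw [Matrix.sub_apply, P_apply, if_pos (Finset.mem_filter.1 hi).2]
    simp
  have h2 : Finset.univ.filter (fun i => ¬ i ∈ Set.range e) = (Finset.univ.map e)ᶜ := by
    ext i
    simp
  rw [h1, zero_add, h2]
  refine Finset.sum_congr rfl fun i hi => ?_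
  have : i ∉ Set.range e := by
    rw [← h2] at hi
    exact (Finset.mem_filter.1 hi).2
  rw [Matrix.sub_apply, P_apply, if_neg this, mul_W, sub_zero]

lemma tr_cmp (X : Mt n) : tr ((W e)ᴴ * X * W e) = ∑ a, (X (e a) (e a)).re := by
  unfold tr
  rw [Matrix.trace, Complex.re_sum]
  refine Finset.sum_congr rfl fun a _ => ?_
  rw [Matrix.diag_apply, Matrix.mul_assoc, Matrix.mul_apply, Finset.sum_eq_single (e a)]
  · rw [mul_W]
    simp [W]
  · intro j _ hj
    simp [W, hj]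
  · intro h; exact absurd (Finset.mem_univ _) h

/-- the compression -/
noncomputable def cmp (X : Mt n) : Mt m := (W e)ᴴ * X * W e

lemma W_contr : Le (((W e)ᴴ)ᴴ * (W e)ᴴ) 1 := by
  rw [Matrix.conjTranspose_conjTranspose]
  exact pr_le_one (PP e)

/-- compression of a product -/
lemma hs_cmp_mul {X Y Z : Mt n} (hX : Xᴴ * X = 1) :
    hs (cmp e X * cmp e Y - cmp e Z) ≤ 2 * hs ((X * Y - Z) * W e) +
      2 * hs (Y * W e - W e * (W e)ᴴ * (Y * W e)) := by
  have h : cmp e X * cmp e Y - cmp e Z = (W e)ᴴ * ((X * Y - Z) * W e) -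
      (W e)ᴴ * (X * (Y * W e - W e * (W e)ᴴ * (Y * W e))) := by
    unfold cmp
    simp only [Matrix.mul_sub, Matrix.sub_mul, Matrix.mul_assoc]
    abel
  rw [h]
  have h1 := hs_sub_le ((W e)ᴴ * ((X * Y - Z) * W e))
    ((W e)ᴴ * (X * (Y * W e - W e * (W e)ᴴ * (Y * W e))))
  have h2 := hs_mul_le (W_contr e) ((X * Y - Z) * W e)
  have h3 := hs_mul_le (W_contr e) (X * (Y * W e - W e * (W e)ᴴ * (Y * W e)))
  rw [hs_unit_mul hX] at h3
  linarith

/-- the compression is a contraction -/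
lemma cmp_contr {X : Mt n} (hX : Xᴴ * X = 1) : Le ((cmp e X)ᴴ * cmp e X) 1 := by
  have h1 := Le_conj (pr_le_one (PP e)) (X * W e)
  have h2 : (X * W e)ᴴ * (1 : Mt n) * (X * W e) = 1 := by
    rw [Matrix.mul_one, Matrix.conjTranspose_mul, Matrix.mul_assoc, ← Matrix.mul_assoc Xᴴ, hX,
      Matrix.one_mul, WW]
  have h3 : (cmp e X)ᴴ * cmp e X = (X * W e)ᴴ * (W e * (W e)ᴴ) * (X * W e) := by
    unfold cmp
    simp only [Matrix.conjTranspose_mul, Matrix.conjTranspose_conjTranspose, Matrix.mul_assoc]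
  rw [h2] at h1
  rw [h3]
  exact h1

lemma hs_cmp {X : Mt n} (hX : Xᴴ * X = 1) :
    (m : ℝ) = hs (cmp e X) + hs (X * W e - W e * (W e)ᴴ * (X * W e)) := by
  set P := W e * (W e)ᴴ with hP
  set Y := X * W e with hY
  have hp := PP e
  rw [← hP] at hp
  have h1 : hs Y = m := by
    rw [hY, hs_unit_mul hX, hs_eq_tr, WW, tr_one]
  have h2 : hs (cmp e X) = tr (Yᴴ * P * Y) := by
    rw [hs_eq_tr]
    unfold cmp
    simp only [hY, hP, Matrix.conjTranspose_mul, Matrix.conjTranspose_conjTranspose,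
      Matrix.mul_assoc]
  have h3 : hs (Y - P * Y) = hs Y - tr (Yᴴ * P * Y) := by
    have : (Y - P * Y)ᴴ * (Y - P * Y) = Yᴴ * Y - Yᴴ * P * Y := by
      have e1 : (P * Y)ᴴ = Yᴴ * P := by rw [Matrix.conjTranspose_mul, hp.1]
      rw [Matrix.conjTranspose_sub, e1]
      simp only [Matrix.mul_sub, Matrix.sub_mul]
      have e2 : Yᴴ * P * (P * Y) = Yᴴ * P * Y := by
        rw [Matrix.mul_assoc, ← Matrix.mul_assoc P, hp.2, ← Matrix.mul_assoc]
      rw [e2, ← Matrix.mul_assoc Yᴴ P Y]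
      abel
    rw [hs_eq_tr, this, tr_sub, ← hs_eq_tr]
  rw [h2, h3, h1]
  ring

end cmp

/-- a contraction with large Hilbert-Schmidt norm is near a unitary matrix -/
lemma near_unitary {m : ℕ} (C : Mt m) (hC : Le (Cᴴ * C) 1) :
    ∃ v : Mt m, vᴴ * v = 1 ∧ hs (v - C) ≤ m - hs C := by
  obtain ⟨v, a, c, h1, -, h3, -, h5⟩ := Pool.Agent.W494.RC.polar C 1 1 pr_one pr_one
    (by rw [Matrix.one_mul, Matrix.mul_one]) le_rfl
  refine ⟨v, h1, ?_⟩
  have ha : aᴴ = a := by rw [h3, Matrix.conjTranspose_mul, Matrix.conjTranspose_conjTranspose]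
  have hap : a.PosSemidef := by rw [h3]; exact Matrix.posSemidef_conjTranspose_mul_self c
  have haa : Cᴴ * C = a * a := by
    rw [← h5, Matrix.conjTranspose_mul, Matrix.mul_assoc, ← Matrix.mul_assoc vᴴ, h1,
      Matrix.one_mul, ha]
  rw [haa] at hC
  have hle : Le a 1 := by
    unfold Le at *
    have e : (1 - a : Mt m) = ((1 / 2 : ℝ) : ℂ) • ((1 - a)ᴴ * (1 - a) + (1 - a * a)) := by
      rw [Matrix.conjTranspose_sub, Matrix.conjTranspose_one, ha]
      have : (1 - a) * (1 - a) + (1 - a * a) = (2 : ℂ) • (1 - a) := by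
        simp only [Matrix.mul_sub, Matrix.sub_mul, Matrix.one_mul, Matrix.mul_one, two_smul]
        abel
      rw [this, smul_smul]
      norm_num
    rw [e]
    exact psd_smul ((Matrix.posSemidef_conjTranspose_mul_self _).add hC) (by norm_num)
  have e1 : v - C = v * (1 - a) := by rw [Matrix.mul_sub, Matrix.mul_one, h5]
  have e2 : hs C = tr (a * a) := by rw [hs_eq_tr, haa]
  have e3 : hs (1 - a) = m - 2 * tr a + tr (a * a) := by
    rw [hs_eq_tr, Matrix.conjTranspose_sub, Matrix.conjTranspose_one, ha]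
    simp only [Matrix.mul_sub, Matrix.sub_mul, Matrix.one_mul, Matrix.mul_one, tr_sub, tr_one]
    ring
  have e4 : 0 ≤ tr (a * (1 - a)) := tr_mul_nonneg hap hle
  rw [Matrix.mul_sub, Matrix.mul_one, tr_sub] at e4
  rw [e1, hs_unit_mul h1, e3, e2]
  linarith

/-! ## the group -/

/-- the non-hyperlinear group, quantitative form -/
lemma group_data : ∃ (G : Type) (_ : Group G) (_ : Countable G) (g0 : G), g0 ≠ 1 ∧
    ∀ (𝒰 : Ultrafilter ℕ), (𝒰 : Filter ℕ) ≤ cofinite → ∀ (M : Mdl G 𝒰) (c0 : ℝ), 0 < c0 →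
      ¬ ∀ᶠ n in (𝒰 : Filter ℕ), c0 * M.d n ≤ hs (M.U g0 n - 1) := by
  obtain ⟨x, y, L⟩ := Helper418.exists_leav
  obtain ⟨s, k, P, a, Γ, hs, hk, hsgen, hPk, hP, haP, hΓK, hΓc, hh, t, z, w, hhh, ht, hz, h1, h2,
    hw, h3⟩ := Helper418.Alg2.exists_data L
  have e : Fin 15 ≃ Fin 3 × Fin 5 := (Fintype.equivFinOfCardEq (by simp)).symm
  have hrs : Set.range (s ∘ e) = Set.range s := e.surjective.range_comp s
  have hrk : Set.range (k ∘ e) = Set.range k := e.surjective.range_comp k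
  have hTG : HasT (Helper418.Alg2.GG x y) := hasT_of_tsystem hs hsgen
  have hTK : HasT (Subgroup.closure (Set.range (k ∘ e))) := by
    rw [hrk]
    let k' : Fin 3 × Fin 5 → Subgroup.closure (Set.range k) := fun j =>
      ⟨k j, Subgroup.subset_closure ⟨j, rfl⟩⟩
    have hk' : Helper418.IsTSystem 101 10 k' :=
      Helper418.Alg2.tsystem_comap (Subgroup.subtype _) (Subgroup.subtype_injective _) hk
    have hk2 : Subgroup.closure (Set.range k') = ⊤ := by
      apply Subgroup.map_injective (Subgroup.subtype_injective (Subgroup.closure (Set.range k)))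
      rw [MonoidHom.map_closure, ← Set.range_comp, ← MonoidHom.range_eq_map, Subgroup.range_subtype]
      rfl
    exact hasT_of_tsystem hk' hk2
  have hΓw : w ∈ Γ := by
    have : Subgroup.closure (Set.range hh) ≤ Γ := by
      rw [Subgroup.closure_le]
      rintro _ ⟨i, rfl⟩
      exact hhh i
    exact this hw
  have hne : z * w * z⁻¹ * w⁻¹ ≠ 1 := by
    intro hc
    apply h3
    show z * w = w * z
    have : z * w = (z * w * z⁻¹ * w⁻¹) * (w * z) := by group
    rw [this, hc, one_mul]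
  refine ⟨Helper418.Alg2.GG x y, inferInstance, inferInstance, z * w * z⁻¹ * w⁻¹, hne, ?_⟩
  intro 𝒰 hU M c0 hc0 hx
  refine not_faithful hU M (s ∘ e) (by rw [hrs]; exact hsgen) hTG (k ∘ e) hTK P hP ?_ a haP z w
    (fun j => hΓc z hz _) (by rw [hrk]; exact hΓK hΓw) hc0 hx
  intro v hv j
  rw [hrk]
  exact hPk v hv _

/-! ## the defect -/

section defect
variable {G : Type} [Group G] {n : ℕ}

lemma col_le {X : Mt n} (hX : Xᴴ * X = 1) (j : Fin n) : ∑ i, ‖X i j‖ ^ 2 = 1 := by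
  have h := congrFun (congrFun hX j) j
  rw [Matrix.mul_apply, Matrix.one_apply_eq] at h
  have h2 : ∑ i, Xᴴ j i * X i j = ((∑ i, ‖X i j‖ ^ 2 : ℝ) : ℂ) := by
    push_cast
    refine Finset.sum_congr rfl fun i _ => ?_
    rw [Matrix.conjTranspose_apply]
    have := Complex.conj_mul' (X i j)
    exact this
  rw [h2] at h
  exact_mod_cast h

lemma re_ge {X : Mt n} (hX : Xᴴ * X = 1) (j : Fin n) : -1 ≤ (X j j).re := by
  have h1 := col_le hX j
  have h2 : ‖X j j‖ ^ 2 ≤ 1 := by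
    rw [← h1]
    exact Finset.single_le_sum (f := fun i => ‖X i j‖ ^ 2) (fun i _ => by positivity)
      (Finset.mem_univ j)
  have h3 : ‖X j j‖ ≤ 1 := by
    have := abs_le_of_sq_le_sq (a := ‖X j j‖) (b := 1) (by simpa using h2) zero_le_one
    exact (le_abs_self _).trans this
  have h4 := Complex.abs_re_le_norm (X j j)
  have h5 := neg_abs_le (X j j).re
  linarith

open Classical in
lemma def_mul_le (F : Finset G) (S : Finset (Fin n)) (V : G → Mt n) {g h : G} (hg : g ∈ F)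
    (hh : h ∈ F) (hgh : g * h ∈ F) :
    ∑ j ∈ S, ∑ i, ‖(V g * V h - V (g * h)) i j‖ ^ 2 ≤ defS F S V := by
  unfold defS
  have h1 : 0 ≤ ∑ g ∈ F, ∑ j ∈ S, ∑ i ∈ Sᶜ, ‖V g i j‖ ^ 2 := by positivity
  have h2 : ∀ g' ∈ F, ∀ h' ∈ F, 0 ≤ (if g' * h' ∈ F then
      ∑ j ∈ S, ∑ i, ‖(V g' * V h' - V (g' * h')) i j‖ ^ 2 else 0) := by
    intro g' _ h' _
    split_ifs
    · positivity
    · exact le_rfl
  have h3 := Finset.single_le_sum (f := fun g' => ∑ h' ∈ F, if g' * h' ∈ F then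
      ∑ j ∈ S, ∑ i, ‖(V g' * V h' - V (g' * h')) i j‖ ^ 2 else 0)
    (fun g' hg' => Finset.sum_nonneg (h2 g' hg')) hg
  have h4 := Finset.single_le_sum (f := fun h' => if g * h' ∈ F then
      ∑ j ∈ S, ∑ i, ‖(V g * V h' - V (g * h')) i j‖ ^ 2 else 0) (h2 g hg) hh
  simp only [hgh, if_true] at h4
  linarith

open Classical in
lemma def_off_le (F : Finset G) (S : Finset (Fin n)) (V : G → Mt n) {g : G} (hg : g ∈ F) :
    ∑ j ∈ S, ∑ i ∈ Sᶜ, ‖V g i j‖ ^ 2 ≤ defS F S V := by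
  unfold defS
  have h1 := Finset.single_le_sum (f := fun g => ∑ j ∈ S, ∑ i ∈ Sᶜ, ‖V g i j‖ ^ 2)
    (fun g' _ => by positivity) hg
  have h2 : 0 ≤ ∑ g' ∈ F, ∑ h' ∈ F, (if g' * h' ∈ F then
      ∑ j ∈ S, ∑ i, ‖(V g' * V h' - V (g' * h')) i j‖ ^ 2 else 0) := by
    refine Finset.sum_nonneg fun g' _ => Finset.sum_nonneg fun h' _ => ?_
    split_ifs
    · positivity
    · exact le_rfl
  linarith

lemma def_nonneg (F : Finset G) (S : Finset (Fin n)) (V : G → Mt n) {g : G} (hg : g ∈ F) :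
    0 ≤ defS F S V := le_trans (by positivity) (def_off_le F S V hg)

end defect

/-- the real part of the trace -/
lemma tr_le {m : ℕ} (X : Mt m) : tr X ≤ (m : ℝ) / 8 + 2 * hs X := by
  have h := two_tr_conj_mul_le (m := Fin m) (n := Fin m) (((1 / 2 : ℝ) : ℂ) • (1 : Mt m))
    (((2 : ℝ) : ℂ) • X)
  rw [Matrix.conjTranspose_smul, Matrix.conjTranspose_one, Matrix.smul_mul, Matrix.one_mul,
    hs_smul_real, hs_smul_real] at h
  have e1 : hs (1 : Mt m) = m := by rw [hs_eq_tr, Matrix.conjTranspose_one, Matrix.one_mul, tr_one]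
  have e2 : star ((1 / 2 : ℝ) : ℂ) = ((1 / 2 : ℝ) : ℂ) := Complex.conj_ofReal _
  rw [e1, e2, tr_smul, tr_smul] at h
  nlinarith

/-- one failure of the inequality gives a good family of unitary matrices of size `m` -/
lemma compress {G : Type} [Group G] (F : Finset G) {g0 : G} (hg0 : g0 ∈ F) {N : ℕ} (hN : 1 ≤ N)
    {n : ℕ} (S : Finset (Fin n)) (V : G → Mt n) (hV : ∀ g, (V g)ᴴ * V g = 1)
    (hlt : (N : ℝ) * defS F S V + ∑ j ∈ S, ((V g0 j j).re - 1 / 2) < 0) :
    ∃ (m : ℕ) (U : G → Mt m), 0 < m ∧ (∀ g, (U g)ᴴ * U g = 1) ∧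
      (∀ g ∈ F, ∀ h ∈ F, g * h ∈ F → hs (U (g * h) - U g * U h) ≤ 100 * m / N) ∧
      (24 ≤ N → 1 / 2 * (m : ℝ) ≤ hs (U g0 - 1)) := by
  classical
  have hN0 : (0 : ℝ) < N := by exact_mod_cast hN
  have hdef := def_nonneg F S V hg0
  -- the size
  have hSne : 0 < S.card := by
    rw [Finset.card_pos]
    by_contra hS
    rw [Finset.not_nonempty_iff_eq_empty] at hS
    rw [hS, Finset.sum_empty, add_zero] at hlt
    rw [hS] at hdef
    have := mul_nonneg hN0.le hdef
    linarith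
  set m := S.card with hm
  have hm0 : (0 : ℝ) < m := by exact_mod_cast hSne
  let e : Fin m ↪ Fin n := (S.orderEmbOfFin rfl).toEmbedding
  have he : Finset.univ.map e = S := Finset.map_orderEmbOfFin_univ S rfl
  have hsum : ∀ f : Fin n → ℝ, ∑ a, f (e a) = ∑ j ∈ S, f j := by
    intro f
    rw [← he, Finset.sum_map]
  -- the defect is small
  have hre : ∑ j ∈ S, ((V g0 j j).re - 1 / 2) ≥ -(3 / 2) * m := by
    have h1 : ∑ j ∈ S, (-(3 / 2) : ℝ) ≤ ∑ j ∈ S, ((V g0 j j).re - 1 / 2) := by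
      refine Finset.sum_le_sum fun j _ => ?_
      have := re_ge (hV g0) j
      linarith
    rw [Finset.sum_const, nsmul_eq_mul] at h1
    linarith
  have hd : defS F S V ≤ 3 / 2 * m / N := by
    rw [le_div_iff₀ hN0]
    linarith
  have hoff : ∀ g ∈ F, hs (V g * W e - W e * (W e)ᴴ * (V g * W e)) ≤ 3 / 2 * m / N := by
    intro g hg
    rw [hs_compl, he, hsum (fun j => ∑ i ∈ Sᶜ, ‖V g i j‖ ^ 2)]
    exact (def_off_le F S V hg).trans hd
  have hmul : ∀ g ∈ F, ∀ h ∈ F, g * h ∈ F →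
      hs ((V g * V h - V (g * h)) * W e) ≤ 3 / 2 * m / N := by
    intro g hg h hh hgh
    rw [hs_mul_W, hsum (fun j => ∑ i, ‖(V g * V h - V (g * h)) i j‖ ^ 2)]
    exact (def_mul_le F S V hg hh hgh).trans hd
  choose U hU1 hU2 using fun g => near_unitary (cmp e (V g)) (cmp_contr e (hV g))
  have hUC : ∀ g ∈ F, hs (U g - cmp e (V g)) ≤ 3 / 2 * m / N := by
    intro g hg
    have h1 := hs_cmp e (hV g)
    have h2 := hoff g hg
    have h3 := hU2 g
    linarith
  refine ⟨m, U, hSne, hU1, ?_, ?_⟩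
  · intro g hg h hh hgh
    have e1 : U (g * h) - U g * U h = (U (g * h) - cmp e (V (g * h))) -
        (cmp e (V g) * cmp e (V h) - cmp e (V (g * h))) -
        (U g - cmp e (V g)) * cmp e (V h) - U g * (U h - cmp e (V h)) := by
      simp only [Matrix.mul_sub, Matrix.sub_mul]
      abel
    set A := U (g * h) - cmp e (V (g * h)) with hA
    set B := cmp e (V g) * cmp e (V h) - cmp e (V (g * h)) with hB
    set X := (U g - cmp e (V g)) * cmp e (V h) with hX
    set Y := U g * (U h - cmp e (V h)) with hY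
    have b1 : hs A ≤ 3 / 2 * m / N := hUC _ hgh
    have b2 : hs B ≤ 4 * (3 / 2 * m / N) := by
      have h1 := hs_cmp_mul e (Y := V h) (Z := V (g * h)) (hV g)
      have h2 := hmul g hg h hh hgh
      have h3 := hoff h hh
      linarith
    have b3 : hs X ≤ 3 / 2 * m / N :=
      (hs_mul_le_right (cmp_contr e (hV h)) _).trans (hUC g hg)
    have b4 : hs Y ≤ 3 / 2 * m / N := by
      rw [hY, hs_unit_mul (hU1 g)]
      exact hUC h hh
    have i1 := hs_sub_le (A - B - X) Y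
    have i2 := hs_sub_le (A - B) X
    have i3 := hs_sub_le A B
    have e2 : 100 * (m : ℝ) / N = 200 / 3 * (3 / 2 * m / N) := by ring
    have e3 : 0 ≤ 3 / 2 * (m : ℝ) / N := by positivity
    rw [e1, e2]
    linarith
  · intro h24
    have hN24 : (24 : ℝ) ≤ N := by exact_mod_cast h24
    have h1 := hUC g0 hg0
    have h2 : tr (cmp e (V g0)) = ∑ j ∈ S, (V g0 j j).re := by
      unfold cmp
      rw [tr_cmp, hsum (fun j => (V g0 j j).re)]
    have h3 : ∑ j ∈ S, (V g0 j j).re < m / 2 := by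
      have h4 : ∑ j ∈ S, ((V g0 j j).re - 1 / 2) = ∑ j ∈ S, (V g0 j j).re - m / 2 := by
        rw [Finset.sum_sub_distrib, Finset.sum_const, nsmul_eq_mul]
        ring
      rw [h4] at hlt
      have := mul_nonneg hN0.le hdef
      linarith
    have h5 := tr_le (U g0 - cmp e (V g0))
    rw [tr_sub] at h5
    have h6 : hs (U g0 - 1) = 2 * m - 2 * tr (U g0) := by
      rw [hs_eq_tr, Matrix.conjTranspose_sub, Matrix.conjTranspose_one]
      simp only [Matrix.mul_sub, Matrix.sub_mul, Matrix.one_mul, Matrix.mul_one, tr_sub, tr_one,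
        hU1, tr_conjTranspose]
      ring
    have h7 : 3 / 2 * (m : ℝ) / N ≤ m / 16 := by
      rw [div_le_div_iff₀ hN0 (by norm_num)]
      nlinarith
    rw [h6]
    linarith

end Nh

open Matrix Nh Filter Topology Helper418HL Pool.Agent.W661.RC Pool.Agent.W683.RC in
/-- NH: the quantitative inequality for the non-hyperlinear group -/
theorem t_nh : S_nh := by
  classical
  obtain ⟨G, iG, iC, g0, hg0, hno⟩ := Nh.group_data
  by_contra hcon
  obtain ⟨f, hf⟩ := exists_surjective_nat G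
  let A : ℕ → Finset G := fun n => insert g0 ((Finset.range n).image f)
  have hA1 : ∀ n, g0 ∈ A n := fun n => Finset.mem_insert_self _ _
  obtain ⟨𝒰, hU⟩ := exists_free
  have hAt : (𝒰 : Filter ℕ) ≤ atTop := by rw [← Nat.cofinite_eq_atTop]; exact hU
  have hAg : ∀ g : G, ∀ᶠ n in (𝒰 : Filter ℕ), g ∈ A n := by
    intro g
    obtain ⟨k, rfl⟩ := hf g
    filter_upwards [hAt (eventually_gt_atTop k)] with n hn
    exact Finset.mem_insert_of_mem (Finset.mem_image_of_mem f (Finset.mem_range.2 hn))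
  -- the failures
  have hfail : ∀ N : ℕ, ∃ (n : ℕ) (S : Finset (Fin n)) (V : G → Matrix (Fin n) (Fin n) ℂ),
      (∀ g, (V g)ᴴ * V g = 1) ∧
      ((N + 1 : ℕ) : ℝ) * defS (A N) S V + ∑ j ∈ S, ((V g0 j j).re - 1 / 2) < 0 := by
    intro N
    by_contra h
    apply hcon
    refine ⟨G, iG, g0, A N, ((N + 1 : ℕ) : ℝ), hg0, hA1 N, Nat.cast_nonneg _, ?_⟩
    intro n S V hV
    by_contra h2
    exact h ⟨n, S, V, hV, not_le.1 h2⟩
  have hgood : ∀ N : ℕ, ∃ (m : ℕ) (U : G → Mt m), 0 < m ∧ (∀ g, (U g)ᴴ * U g = 1) ∧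
      (∀ g ∈ A N, ∀ h ∈ A N, g * h ∈ A N →
        hs (U (g * h) - U g * U h) ≤ 100 * m / ((N + 1 : ℕ) : ℝ)) ∧
      (24 ≤ N + 1 → 1 / 2 * (m : ℝ) ≤ hs (U g0 - 1)) := by
    intro N
    obtain ⟨n, S, V, hV, hlt⟩ := hfail N
    exact Nh.compress (A N) (hA1 N) (Nat.le_add_left 1 N) S V hV hlt
  choose m U hm hU1 hU2 hU3 using hgood
  have hmul : ∀ g h, Tendsto (fun n => hs (U n (g * h) - U n g * U n h) / m n) 𝒰 (𝓝 0) := by
    intro g k
    have hlim : Tendsto (fun n : ℕ => 100 * (1 / ((n : ℝ) + 1))) 𝒰 (𝓝 0) := by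
      have h0 : Tendsto (fun n : ℕ => 100 * (1 / ((n : ℝ) + 1))) atTop (𝓝 (100 * 0)) :=
        (tendsto_one_div_add_atTop_nhds_zero_nat (𝕜 := ℝ)).const_mul 100
      rw [mul_zero] at h0
      exact h0.mono_left hAt
    refine tendsto_of_tendsto_of_tendsto_of_le_of_le' tendsto_const_nhds hlim
      (Eventually.of_forall fun n => div_nonneg (hs_nonneg _) (Nat.cast_nonneg _)) ?_
    filter_upwards [hAg g, hAg k, hAg (g * k)] with n hg hk hgk
    have h4 := hU2 n g hg k hk hgk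
    have hm0 : (0 : ℝ) < m n := by exact_mod_cast hm n
    rw [div_le_iff₀ hm0]
    refine h4.trans (le_of_eq ?_)
    push_cast
    ring
  let M : Mdl G 𝒰 := ⟨m, hm, fun g n => U n g, fun g n => hU1 n g, hmul⟩
  refine hno 𝒰 hU M (1 / 2) (by norm_num) ?_
  filter_upwards [hAt (eventually_ge_atTop 24)] with n hn
  exact hU3 n (by omega)

end Pool.Agent.H412.TH
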