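import Pool.Agent.H412.TH.Basic

/-!
MP_0219da (helper412): one variable.
-/

set_option autoImplicit false

namespace Pool.Agent.H412.TH

open Polynomial

namespace One

/-- a real polynomial which is nonnegative on the line is a sum of squares -/
theorem poly_sos (n : ℕ) : ∀ p : ℝ[X], p.natDegree ≤ n → (∀ x, 0 ≤ p.eval x) →
    ∃ l : List ℝ[X], p = (l.map fun q => q * q).sum := by
  induction n using Nat.strong_induction_on with
  | _ n ih =>
    intro p hpn hp
    rcases Nat.eq_zero_or_pos p.natDegree with h0 | h0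
    · rw [Polynomial.natDegree_eq_zero] at h0
      obtain ⟨c, rfl⟩ := h0
      have hc : 0 ≤ c := by simpa using hp 0
      refine ⟨[C (Real.sqrt c)], ?_⟩
      simp only [List.map_cons, List.map_nil, List.sum_cons, List.sum_nil, add_zero]
      rw [← C_mul, Real.mul_self_sqrt hc]
    · -- the minimum
      have htend : Filter.Tendsto (fun x => p.eval x) (Filter.cocompact ℝ) Filter.atTop := by
        have h1 := Polynomial.tendsto_norm_atTop (α := ℝ) p
          (Polynomial.natDegree_pos_iff_degree_pos.1 h0) (l := Filter.cocompact ℝ)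
          (z := fun x => x) tendsto_norm_cocompact_atTop
        refine h1.congr fun x => ?_
        rw [Real.norm_of_nonneg (hp x)]
      obtain ⟨c, hc⟩ := p.continuous.exists_forall_le htend
      have hc0 : 0 ≤ p.eval c := hp c
      have hdvd : (X - C c) ^ 2 ∣ p - C (p.eval c) := by
        have hr : (p - C (p.eval c)).IsRoot c := by simp
        have hd : (derivative (p - C (p.eval c))).IsRoot c := by
          have hmin : IsLocalMin (fun x => p.eval x) c := Filter.Eventually.of_forall hc
          have h2 := hmin.deriv_eq_zero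
          rw [Polynomial.deriv] at h2
          simp [Polynomial.IsRoot, h2]
        have hne : p - C (p.eval c) ≠ 0 := by
          intro h
          have : p = C (p.eval c) := sub_eq_zero.1 h
          rw [this, natDegree_C] at h0
          exact lt_irrefl _ h0
        have h3 := (Polynomial.one_lt_rootMultiplicity_iff_isRoot hne).2 ⟨hr, hd⟩
        exact (Polynomial.le_rootMultiplicity_iff hne).1 h3
      obtain ⟨q, hq⟩ := hdvd
      have hqe : ∀ x, p.eval x - p.eval c = (x - c) ^ 2 * q.eval x := by
        intro x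
        have := congrArg (Polynomial.eval x) hq
        simpa using this
      have hq0 : ∀ x, 0 ≤ q.eval x := by
        have hcl : IsClosed {x : ℝ | 0 ≤ q.eval x} := isClosed_le continuous_const q.continuous
        have hsub : ({c}ᶜ : Set ℝ) ⊆ {x : ℝ | 0 ≤ q.eval x} := by
          intro x hx
          have h4 : 0 < (x - c) ^ 2 := by
            have : x - c ≠ 0 := sub_ne_zero.2 hx
            positivity
          have h5 : 0 ≤ (x - c) ^ 2 * q.eval x := by
            rw [← hqe]
            linarith [hc x]
          exact nonneg_of_mul_nonneg_right h5 h4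
        intro x
        have h6 := hcl.closure_subset_iff.2 hsub
        rw [(dense_compl_singleton c).closure_eq] at h6
        exact h6 (Set.mem_univ x)
      have hdeg : q.natDegree < n := by
        rcases eq_or_ne q 0 with rfl | hqne
        · simpa using lt_of_lt_of_le h0 hpn
        · have h7 : (p - C (p.eval c)).natDegree = 2 + q.natDegree := by
            rw [hq, Polynomial.natDegree_mul (pow_ne_zero 2 (X_sub_C_ne_zero c)) hqne,
              Polynomial.natDegree_pow, natDegree_X_sub_C]
          rw [Polynomial.natDegree_sub_C] at h7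
          omega
      obtain ⟨l, hl⟩ := ih q.natDegree hdeg q le_rfl hq0
      refine ⟨C (Real.sqrt (p.eval c)) :: l.map fun r => (X - C c) * r, ?_⟩
      have h8 : ∀ l : List ℝ[X], ((l.map fun r => (X - C c) * r).map fun q => q * q).sum =
          (X - C c) ^ 2 * (l.map fun q => q * q).sum := by
        intro l
        induction l with
        | nil => simp
        | cons a l ihl =>
          simp only [List.map_cons, List.sum_cons] at ihl ⊢
          rw [ihl]
          ring
      rw [List.map_cons, List.sum_cons, h8, ← hl, ← hq, ← C_mul, Real.mul_self_sqrt hc0]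
      ring

/-- expressions of polynomials in one variable -/
theorem expr_poly (q : ℝ[X]) : ∃ ρ : RE (Fin 1), ∀ (R : Type) [Ring R] [Algebra ℝ R]
    (Z : Fin 1 → R), ρ.Dom Z ∧ ρ.adj.Dom Z ∧ ρ.ev Z = aeval (Z 0) q ∧
      ρ.adj.ev Z = aeval (Z 0) q := by
  induction q using Polynomial.induction_on with
  | C c =>
    exact ⟨RE.const c, fun R _ _ Z => ⟨trivial, trivial, by simp [RE.ev], by
      simp [RE.ev, RE.adj]⟩⟩
  | add p q ihp ihq =>
    obtain ⟨ρ, hρ⟩ := ihp
    obtain ⟨σ, hσ⟩ := ihq
    exact ⟨ρ.add σ, fun R _ _ Z => ⟨⟨(hρ R Z).1, (hσ R Z).1⟩, ⟨(hρ R Z).2.1, (hσ R Z).2.1⟩, by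
      simp only [RE.ev, (hρ R Z).2.2.1, (hσ R Z).2.2.1, map_add], by
      simp only [RE.adj, RE.ev, (hρ R Z).2.2.2, (hσ R Z).2.2.2, map_add]⟩⟩
  | monomial n c ih =>
    obtain ⟨ρ, hρ⟩ := ih
    refine ⟨ρ.mul (RE.var 0), fun R _ _ Z => ⟨⟨(hρ R Z).1, trivial⟩, ⟨trivial, (hρ R Z).2.1⟩, ?_,
      ?_⟩⟩
    · simp only [RE.ev, (hρ R Z).2.2.1]
      rw [pow_succ, ← mul_assoc, map_mul (aeval (Z 0)) (C c * X ^ n) X, aeval_X]
    · simp only [RE.adj, RE.ev, (hρ R Z).2.2.2]
      rw [pow_succ', ← mul_assoc, mul_comm (C c) X, mul_assoc, map_mul (aeval (Z 0)) X, aeval_X]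

/-- in one variable there is always a certificate -/
theorem one (p : FreeAlgebra ℝ (Fin 1)) (hp : TracePos p) : Cert p := by
  set P : ℝ[X] := FreeAlgebra.lift ℝ (fun _ => (X : ℝ[X])) p with hP
  have hev : ∀ (R : Type) [Ring R] [Algebra ℝ R] (Z : Fin 1 → R),
      FreeAlgebra.lift ℝ Z p = aeval (Z 0) P := by
    intro R _ _ Z
    have : FreeAlgebra.lift ℝ Z =
        (aeval (Z 0)).comp (FreeAlgebra.lift ℝ (fun _ : Fin 1 => (X : ℝ[X]))) := by
      ext i
      have : i = 0 := Subsingleton.elim _ _
      subst this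
      simp
    rw [this]
    rfl
  have hpos : ∀ x, 0 ≤ P.eval x := by
    intro x
    have h1 := hp 1 (fun _ => algebraMap ℝ _ x) (fun _ => by
      ext i j
      rw [Matrix.transpose_apply, Matrix.algebraMap_matrix_apply, Matrix.algebraMap_matrix_apply]
      have : i = j := Subsingleton.elim _ _
      subst this; rfl)
    rw [hev, Polynomial.aeval_algebraMap_apply, Polynomial.coe_aeval_eq_eval] at h1
    simpa [Matrix.trace, Matrix.algebraMap_matrix_apply] using h1
  obtain ⟨l, hl⟩ := poly_sos _ P le_rfl hpos
  choose f hf using expr_poly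
  refine ⟨l.map f, [], ?_, by simp, ?_⟩
  · intro ρ hρ
    obtain ⟨q, _, rfl⟩ := List.mem_map.1 hρ
    exact ⟨1, one_pos, fun _ => 0, (hf q _ _).1⟩
  · intro n Z _ _
    rw [hev, hl, List.map_nil, List.sum_nil, add_zero, List.map_map, map_list_sum, List.map_map]
    congr 1
    refine List.map_congr_left fun q _ => ?_
    simp only [Function.comp_apply, (hf q _ Z).2.2.1, (hf q _ Z).2.2.2, map_mul]

end One

end Pool.Agent.H412.TH
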