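import Pool.Agent.H412.TH.Basic

/-!
MP_0219da: the polynomial (`S_ine → S_pol`).
-/

set_option autoImplicit false
set_option linter.unusedSectionVars false

namespace Pool.Agent.H412.TH

open Matrix
open scoped ComplexOrder

namespace Pol

/-! ### the group algebra with coefficients in the 2×2 matrices -/

/-- the coefficients -/
abbrev M2 : Type := Matrix (Fin 2) (Fin 2) ℂ

/-- the group algebra over the matrices -/
def GA (G : Type) : Type := MonoidAlgebra M2 G

section GAsec

variable {G : Type} [Group G]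

noncomputable instance : Ring (GA G) := inferInstanceAs (Ring (MonoidAlgebra M2 G))

noncomputable instance : Algebra ℂ (GA G) := inferInstanceAs (Algebra ℂ (MonoidAlgebra M2 G))

/-- monomials -/
noncomputable def sg (g : G) (a : M2) : GA G := MonoidAlgebra.single g a

/-- monomials, as an additive map -/
noncomputable def sgHom (g : G) : M2 →+ GA G where
  toFun := sg g
  map_zero' := MonoidAlgebra.single_zero g
  map_add' := MonoidAlgebra.single_add g

theorem sg_mul (g h : G) (a b : M2) : sg g a * sg h b = sg (g * h) (a * b) :=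
  MonoidAlgebra.single_mul_single ..

theorem one_eq : (1 : GA G) = sg 1 1 := rfl

theorem sg_add (g : G) (a b : M2) : sg g (a + b) = sg g a + sg g b := MonoidAlgebra.single_add ..

theorem sg_zero (g : G) : sg g 0 = 0 := MonoidAlgebra.single_zero g

theorem sg_neg (g : G) (a : M2) : sg g (-a) = -sg g a := map_neg (sgHom g) a

@[elab_as_elim]
theorem ind {P : GA G → Prop} (x : GA G) (h0 : P 0) (hadd : ∀ x y, P x → P y → P (x + y))
    (hs : ∀ g a, P (sg g a)) : P x :=
  MonoidAlgebra.induction_linear (motive := P) x h0 hadd hs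

/-- the coefficients, as an additive map -/
noncomputable def cf : GA G →+ (G →₀ M2) := MonoidAlgebra.coeffAddEquiv.toAddMonoidHom

theorem cf_sg (g : G) (a : M2) : cf (sg g a) = Finsupp.single g a := rfl

theorem cf_inj {x : GA G} (h : cf x = 0) : x = 0 :=
  MonoidAlgebra.coeff_injective (show MonoidAlgebra.coeff x = MonoidAlgebra.coeff 0 from h)

/-- the star as an additive map -/
noncomputable def stH : GA G →+ GA G :=
  (Finsupp.liftAddHom fun g : G =>
    (sgHom g⁻¹).comp (starAddEquiv : M2 ≃+ M2).toAddMonoidHom).comp cf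

theorem stH_sg (g : G) (a : M2) : stH (sg g a) = sg g⁻¹ (star a) := by
  unfold stH
  rw [AddMonoidHom.comp_apply, cf_sg, Finsupp.liftAddHom_apply_single]
  rfl

theorem stH_eq (x : GA G) : stH x = (cf x).sum fun g a => sg g⁻¹ (star a) := rfl

noncomputable instance : StarRing (GA G) where
  star := stH
  star_involutive x := by
    refine ind x ?_ ?_ ?_
    · rw [map_zero, map_zero]
    · intro x y hx hy
      rw [map_add, map_add, hx, hy]
    · intro g a
      rw [stH_sg, stH_sg, inv_inv, star_star]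
  star_mul x y := by
    refine ind x ?_ ?_ ?_
    · show stH (0 * y) = stH y * stH 0
      rw [zero_mul, map_zero, mul_zero]
    · intro x x' hx hx'
      show stH ((x + x') * y) = stH y * stH (x + x')
      have hx1 : stH (x * y) = stH y * stH x := hx
      have hx2 : stH (x' * y) = stH y * stH x' := hx'
      rw [add_mul, map_add, map_add, mul_add, hx1, hx2]
    · intro g a
      refine ind y ?_ ?_ ?_
      · show stH (sg g a * 0) = stH 0 * stH (sg g a)
        rw [mul_zero, map_zero, zero_mul]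
      · intro x x' hx hx'
        have hx1 : stH (sg g a * x) = stH x * stH (sg g a) := hx
        have hx2 : stH (sg g a * x') = stH x' * stH (sg g a) := hx'
        show stH (sg g a * (x + x')) = stH (x + x') * stH (sg g a)
        rw [mul_add, map_add, map_add, add_mul, hx1, hx2]
      · intro h b
        show stH (sg g a * sg h b) = stH (sg h b) * stH (sg g a)
        rw [sg_mul, stH_sg, stH_sg, stH_sg, sg_mul, _root_.mul_inv_rev, star_mul]
  star_add := map_add stH

theorem star_sg (g : G) (a : M2) : star (sg g a) = sg g⁻¹ (star a) := stH_sg g a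

/-- the trace -/
noncomputable def tt : GA G →+ ℝ :=
  Complex.reAddGroupHom.comp ((Matrix.traceAddMonoidHom (Fin 2) ℂ).comp
    ((Finsupp.applyAddHom (1 : G)).comp cf))

theorem tt_eq (x : GA G) : tt x = (trace (cf x 1)).re := rfl

theorem tt_sg (g : G) (a : M2) [Decidable (g = 1)] :
    tt (sg g a) = if g = 1 then (trace a).re else 0 := by
  rw [tt_eq, cf_sg, Finsupp.single_apply]
  split_ifs
  · rfl
  · simp

theorem tt_comm (x y : GA G) : tt (x * y) = tt (y * x) := by
  classical
  refine ind x ?_ ?_ ?_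
  · rw [zero_mul, mul_zero]
  · intro x x' hx hx'
    rw [add_mul, mul_add, map_add, map_add, hx, hx']
  · intro g a
    refine ind y ?_ ?_ ?_
    · rw [zero_mul, mul_zero]
    · intro x x' hx hx'
      rw [add_mul, mul_add, map_add, map_add, hx, hx']
    · intro h b
      rw [sg_mul, sg_mul, tt_sg, tt_sg, trace_mul_comm, mul_eq_one_iff_eq_inv]
      have : g = h⁻¹ ↔ h * g = 1 := by rw [mul_eq_one_iff_eq_inv, inv_eq_iff_eq_inv.symm.trans eq_comm]
      simp only [this]

theorem tt_left (g : G) (a : M2) (x : GA G) : tt (sg g⁻¹ a * x) = (trace (a * cf x g)).re := by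
  classical
  refine ind x ?_ ?_ ?_
  · rw [mul_zero, map_zero, map_zero]
    simp
  · intro x x' hx hx'
    rw [mul_add, map_add, map_add, hx, hx', Finsupp.add_apply, mul_add, trace_add, Complex.add_re]
  · intro h b
    rw [sg_mul, tt_sg, cf_sg, Finsupp.single_apply]
    have : g⁻¹ * h = 1 ↔ h = g := by rw [inv_mul_eq_one, eq_comm]
    simp only [this]
    split_ifs
    · rfl
    · simp

end GAsec

/-! ### Hilbert-Schmidt norms -/

theorem trace_hs {n : ℕ} (X : Matrix (Fin n) (Fin n) ℂ) : (trace (Xᴴ * X)).re = hs2 X := by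
  unfold hs2 trace
  rw [Complex.re_sum, Finset.sum_comm]
  refine Finset.sum_congr rfl fun j _ => ?_
  rw [diag_apply, mul_apply, Complex.re_sum]
  refine Finset.sum_congr rfl fun i _ => ?_
  rw [conjTranspose_apply, ← Complex.normSq_eq_norm_sq, Complex.normSq_apply]
  simp [Complex.mul_re]

theorem hs2_nonneg {n : ℕ} (X : Matrix (Fin n) (Fin n) ℂ) : 0 ≤ hs2 X :=
  Finset.sum_nonneg fun _ _ => Finset.sum_nonneg fun _ _ => sq_nonneg _

theorem hs2_pos {n : ℕ} {X : Matrix (Fin n) (Fin n) ℂ} (h : X ≠ 0) : 0 < hs2 X := by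
  by_contra h1
  apply h
  have h2 : hs2 X = 0 := le_antisymm (not_lt.1 h1) (hs2_nonneg X)
  unfold hs2 at h2
  rw [Finset.sum_eq_zero_iff_of_nonneg fun _ _ => Finset.sum_nonneg fun _ _ => sq_nonneg _] at h2
  ext i j
  have h3 := h2 i (Finset.mem_univ _)
  rw [Finset.sum_eq_zero_iff_of_nonneg fun _ _ => sq_nonneg _] at h3
  simpa using h3 j (Finset.mem_univ _)

theorem tt_pos {G : Type} [Group G] (x : GA G) (hx : x ≠ 0) : 0 < tt (star x * x) := by
  have h1 : star x = (cf x).sum fun g a => sg g⁻¹ (star a) := stH_eq x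
  have h2 : tt (star x * x) = ∑ g ∈ (cf x).support, hs2 (cf x g) := by
    rw [h1, Finsupp.sum, Finset.sum_mul, map_sum]
    refine Finset.sum_congr rfl fun g _ => ?_
    rw [tt_left, star_eq_conjTranspose, trace_hs]
  rw [h2]
  have h3 : cf x ≠ 0 := fun h => hx (cf_inj h)
  refine Finset.sum_pos (fun g hg => hs2_pos (Finsupp.mem_support_iff.1 hg)) ?_
  exact Finsupp.support_nonempty_iff.2 h3

/-! ### the polynomial -/

/-- values of the variables -/
structure Vl (G R : Type) : Type where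
  x0 : R
  xX : R
  xZ : R
  x1 : G → R
  x2 : G → R

namespace Vl

section ring

variable {G R R' : Type} [Ring R] [Ring R'] (v : Vl G R)

/-- the elements `y_h` -/
def y (h : G) : R := v.x0 ^ 3 * v.x1 h + v.x0 * v.x2 h * v.xX * v.xZ

/-- the adjoints of the elements `y_h` -/
def ys (h : G) : R := v.x1 h * v.x0 ^ 3 + v.xZ * v.xX * v.x2 h * v.x0

/-- the element `H` -/
def H : R := v.x0 ^ 4

/-- application of a map -/
def map (f : R → R') : Vl G R' :=
  ⟨f v.x0, f v.xX, f v.xZ, fun h => f (v.x1 h), fun h => f (v.x2 h)⟩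

open Classical in
/-- the main part of the polynomial -/
noncomputable def SS [Group G] (F : Finset G) : R :=
  (∑ h ∈ F, ∑ k ∈ F, if h * k ∈ F then
    (v.ys k * v.ys h - v.H * v.ys (h * k)) * (v.y h * v.y k - v.y (h * k) * v.H) else 0) +
  ∑ h ∈ F, ((v.ys h * v.H - v.H * v.ys h) * (v.H * v.y h - v.y h * v.H) +
    (v.ys h * v.y h - v.H * v.H) * (v.ys h * v.y h - v.H * v.H) +
    (v.y h * v.ys h - v.H * v.H) * (v.y h * v.ys h - v.H * v.H))

/-- the polynomial -/
noncomputable def PP [Group G] [Algebra ℝ R] (F : Finset G) (g0 : G) (C : ℝ) : R :=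
  C • v.SS F + (1 / 2 : ℝ) • (v.H * v.H * v.H * v.y g0 + v.ys g0 * (v.H * v.H * v.H)) -
    (1 / 4 : ℝ) • (v.H * v.H * v.H * v.H)

theorem map_y (φ : R →+* R') (h : G) : (v.map φ).y h = φ (v.y h) := by
  simp [y, map]

theorem map_ys (φ : R →+* R') (h : G) : (v.map φ).ys h = φ (v.ys h) := by
  simp [ys, map]

theorem map_H (φ : R →+* R') : (v.map φ).H = φ v.H := by
  simp [H, map]

theorem map_SS [Group G] (φ : R →+* R') (F : Finset G) : (v.map φ).SS F = φ (v.SS F) := by
  unfold SS
  simp only [map_y, map_ys, map_H, map_add, map_sum, map_mul, map_sub, apply_ite φ, map_zero]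

theorem map_PP [Group G] [Algebra ℝ R] [Algebra ℝ R'] (φ : R →ₐ[ℝ] R') (F : Finset G) (g0 : G)
    (C : ℝ) : (v.map φ).PP F g0 C = φ (v.PP F g0 C) := by
  have h1 := v.map_SS (φ : R →+* R') F
  have h2 : ∀ h, (v.map φ).y h = φ (v.y h) := v.map_y (φ : R →+* R')
  have h3 : ∀ h, (v.map φ).ys h = φ (v.ys h) := v.map_ys (φ : R →+* R')
  have h4 : (v.map φ).H = φ v.H := v.map_H (φ : R →+* R')
  have h5 : (v.map φ).SS F = φ (v.SS F) := h1
  unfold PP
  simp only [h2, h3, h4, h5, map_add, map_sub, map_smul, map_mul]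

end ring

section scale

variable {G R : Type} [Ring R] (v : Vl G R) {z : R} (hz : ∀ y, z * y = y * z)

include hz

theorem cz (n : ℕ) (y : R) : y * z ^ n = z ^ n * y :=
  ((show Commute z y from hz y).pow_left n).eq.symm

theorem sc_pow (x : R) (n : ℕ) : (z * x) ^ n = z ^ n * x ^ n :=
  (show Commute z x from hz x).mul_pow n

theorem sc2 (m n : ℕ) (a b : R) : z ^ m * a * (z ^ n * b) = z ^ (m + n) * (a * b) := by
  rw [mul_assoc, ← mul_assoc a, cz hz, mul_assoc (z ^ n), ← mul_assoc, ← pow_add]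

theorem sc4 (a b c d : R) : z * a * (z * b) * (z * c) * (z * d) = z ^ 4 * (a * b * c * d) := by
  have h1 := sc2 hz 1 1 a b
  have h2 := sc2 hz 2 1 (a * b) c
  have h3 := sc2 hz 3 1 (a * b * c) d
  rw [pow_one] at h1 h2 h3
  rw [h1, h2, h3]

theorem sc_y (h : G) : (v.map (z * ·)).y h = z ^ 4 * v.y h := by
  simp only [y, map, sc_pow hz]
  have e1 : z ^ 3 * v.x0 ^ 3 * (z * v.x1 h) = z ^ 4 * (v.x0 ^ 3 * v.x1 h) := by
    have := sc2 hz 3 1 (v.x0 ^ 3) (v.x1 h)
    rwa [pow_one] at this
  rw [e1, sc4 hz, mul_add]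

theorem sc_ys (h : G) : (v.map (z * ·)).ys h = z ^ 4 * v.ys h := by
  simp only [ys, map, sc_pow hz]
  have e1 : z * v.x1 h * (z ^ 3 * v.x0 ^ 3) = z ^ 4 * (v.x1 h * v.x0 ^ 3) := by
    have := sc2 hz 1 3 (v.x1 h) (v.x0 ^ 3)
    rwa [pow_one] at this
  rw [e1, sc4 hz, mul_add]

theorem sc_H : (v.map (z * ·)).H = z ^ 4 * v.H := by
  simp only [H, map, sc_pow hz]

theorem sc_SS [Group G] (F : Finset G) : (v.map (z * ·)).SS F = z ^ 16 * v.SS F := by
  have a3 : ∀ x y x' y' : R, z ^ 4 * x * (z ^ 4 * y) - z ^ 4 * x' * (z ^ 4 * y') =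
      z ^ 8 * (x * y - x' * y') := fun x y x' y' => by
    rw [sc2 hz, sc2 hz, mul_sub]
  have a4 : ∀ x y : R, z ^ 8 * x * (z ^ 8 * y) = z ^ 16 * (x * y) := fun x y => sc2 hz 8 8 x y
  unfold SS
  simp only [sc_y v hz, sc_ys v hz, sc_H v hz, a3, a4, mul_add, Finset.mul_sum, mul_ite, mul_zero]

theorem sc_PP [Group G] [Algebra ℝ R] (F : Finset G) (g0 : G) (C : ℝ) :
    (v.map (z * ·)).PP F g0 C = z ^ 16 * v.PP F g0 C := by
  have a4 : ∀ x y x' y' : R, z ^ 4 * x * (z ^ 4 * y) * (z ^ 4 * x') * (z ^ 4 * y') =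
      z ^ 16 * (x * y * x' * y') := fun x y x' y' => by
    rw [sc2 hz, sc2 hz, sc2 hz]
  have a5 : ∀ x y x' y' : R, z ^ 4 * x * (z ^ 4 * y * (z ^ 4 * x') * (z ^ 4 * y')) =
      z ^ 16 * (x * (y * x' * y')) := fun x y x' y' => by
    have := a4 x y x' y'
    simp only [mul_assoc] at this ⊢
    exact this
  unfold PP
  simp only [sc_y v hz, sc_ys v hz, sc_H v hz, sc_SS v hz, a4, a5, mul_add, mul_sub,
    mul_smul_comm]

end scale

section star

variable {G R : Type} [Ring R] [StarRing R] {v : Vl G R}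

/-- all variables are self-adjoint -/
structure SA (v : Vl G R) : Prop where
  h0 : star v.x0 = v.x0
  hX : star v.xX = v.xX
  hZ : star v.xZ = v.xZ
  h1 : ∀ h, star (v.x1 h) = v.x1 h
  h2 : ∀ h, star (v.x2 h) = v.x2 h

variable (hv : v.SA)

include hv

theorem star_y (h : G) : star (v.y h) = v.ys h := by
  simp only [y, ys, star_add, star_mul, star_pow, hv.h0, hv.hX, hv.hZ, hv.h1, hv.h2, mul_assoc]

theorem star_ys (h : G) : star (v.ys h) = v.y h := by
  rw [← star_y hv, star_star]

theorem star_H : star v.H = v.H := by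
  simp only [H, star_pow, hv.h0]

theorem star_SS [Group G] (F : Finset G) : star (v.SS F) = v.SS F := by
  unfold SS
  simp only [star_add, star_sum, apply_ite star, star_zero, star_mul, star_sub, star_y hv,
    star_ys hv, star_H hv]

theorem star_PP [Group G] [Algebra ℝ R]
    (hs : ∀ c : ℝ, star (algebraMap ℝ R c) = algebraMap ℝ R c) (F : Finset G) (g0 : G) (C : ℝ) :
    star (v.PP F g0 C) = v.PP F g0 C := by
  have h1 : ∀ (c : ℝ) (x : R), star (c • x) = c • star x := fun c x => by
    rw [Algebra.smul_def, star_mul, hs, ← Algebra.commutes, ← Algebra.smul_def]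
  unfold PP
  simp only [star_add, star_sub, h1, star_SS hv, star_mul, star_y hv, star_ys hv, star_H hv]
  simp only [mul_assoc]
  rw [add_comm (v.ys g0 * _)]

end star

/-- the trace of the polynomial -/
theorem trace_PP {G : Type} [Group G] {n : ℕ} {v : Vl G (Matrix (Fin n) (Fin n) ℂ)} (hv : v.SA)
    (F : Finset G) (g0 : G) (C : ℝ) :
    (trace (v.PP F g0 C)).re = C * defH F v.H v.y + (v.H * v.H * v.H * v.y g0).trace.re -
      1 / 4 * (v.H * v.H * v.H * v.H).trace.re := by
  have hH : (v.H)ᴴ = v.H := star_H hv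
  have hy : ∀ h, (v.y h)ᴴ = v.ys h := star_y hv
  have hys : ∀ h, (v.ys h)ᴴ = v.y h := star_ys hv
  have e1 : (trace (v.SS F)).re = defH F v.H v.y := by
    have a1 : ∀ h k, (trace ((v.ys k * v.ys h - v.H * v.ys (h * k)) *
        (v.y h * v.y k - v.y (h * k) * v.H))).re = hs2 (v.y h * v.y k - v.y (h * k) * v.H) := by
      intro h k
      rw [← trace_hs]
      simp only [conjTranspose_sub, conjTranspose_mul, hH, hy]
    have a2 : ∀ h, (trace ((v.ys h * v.H - v.H * v.ys h) * (v.H * v.y h - v.y h * v.H))).re =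
        hs2 (v.H * v.y h - v.y h * v.H) := by
      intro h
      rw [← trace_hs]
      simp only [conjTranspose_sub, conjTranspose_mul, hH, hy]
    have a3 : ∀ h, (trace ((v.ys h * v.y h - v.H * v.H) * (v.ys h * v.y h - v.H * v.H))).re =
        hs2 (v.ys h * v.y h - v.H * v.H) := by
      intro h
      rw [← trace_hs]
      simp only [conjTranspose_sub, conjTranspose_mul, hH, hy, hys]
    have a4 : ∀ h, (trace ((v.y h * v.ys h - v.H * v.H) * (v.y h * v.ys h - v.H * v.H))).re =
        hs2 (v.y h * v.ys h - v.H * v.H) := by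
      intro h
      rw [← trace_hs]
      simp only [conjTranspose_sub, conjTranspose_mul, hH, hy, hys]
    unfold SS defH
    simp only [trace_add, trace_sum, Complex.add_re, Complex.re_sum, apply_ite trace,
      apply_ite Complex.re, a1, a2, a3, a4, trace_zero, Complex.zero_re, hy]
  have e2 : (trace (v.ys g0 * (v.H * v.H * v.H))).re = (v.H * v.H * v.H * v.y g0).trace.re := by
    have : v.ys g0 * (v.H * v.H * v.H) = (v.H * v.H * v.H * v.y g0)ᴴ := by
      simp only [conjTranspose_mul, hH, hy, mul_assoc]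
    rw [this, trace_conjTranspose]
    exact Complex.conj_re _
  unfold PP
  rw [trace_sub, trace_add, trace_smul, trace_smul, trace_smul, trace_add, Complex.sub_re,
    Complex.add_re, Complex.smul_re, Complex.smul_re, Complex.smul_re, Complex.add_re, e1, e2]
  simp only [smul_eq_mul]
  ring

end Vl

/-! ### the variables -/

section vars

variable {G : Type} [Group G] (F : Finset G)

/-- the index set of the variables -/
abbrev Ix : Type := Fin 3 ⊕ (F × Bool)

/-- the number of variables -/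
noncomputable def nv : ℕ := Fintype.card (Ix F)

/-- the enumeration of the variables -/
noncomputable def en : Ix F ≃ Fin (nv F) := Fintype.equivFin (Ix F)

open Classical in
/-- the values of the variables -/
noncomputable def vl {R : Type} [Ring R] (X : Fin (nv F) → R) : Vl G R where
  x0 := X (en F (Sum.inl 0))
  xX := X (en F (Sum.inl 1))
  xZ := X (en F (Sum.inl 2))
  x1 := fun h => if hh : h ∈ F then X (en F (Sum.inr (⟨h, hh⟩, false))) else 0
  x2 := fun h => if hh : h ∈ F then X (en F (Sum.inr (⟨h, hh⟩, true))) else 0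

theorem vl_map {R R' : Type} [Ring R] [Ring R'] (X : Fin (nv F) → R) (f : R → R') (hf : f 0 = 0) :
    (vl F X).map f = vl F (fun i => f (X i)) := by
  unfold vl Vl.map
  simp only [Vl.mk.injEq, true_and]
  constructor <;>
  · funext h
    split_ifs
    · rfl
    · exact hf

theorem vl_SA {R : Type} [Ring R] [StarRing R] (X : Fin (nv F) → R) (hX : ∀ i, star (X i) = X i) :
    (vl F X).SA where
  h0 := hX _
  hX := hX _
  hZ := hX _
  h1 h := by
    unfold vl
    simp only []
    split_ifs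
    · exact hX _
    · exact star_zero _
  h2 h := by
    unfold vl
    simp only []
    split_ifs
    · exact hX _
    · exact star_zero _

/-- the polynomial -/
noncomputable def pp (g0 : G) (C : ℝ) : FreeAlgebra ℝ (Fin (nv F)) :=
  (vl F (FreeAlgebra.ι ℝ)).PP F g0 C

theorem lift_pp (g0 : G) (C : ℝ) {R : Type} [Ring R] [Algebra ℝ R] (X : Fin (nv F) → R) :
    FreeAlgebra.lift ℝ X (pp F g0 C) = (vl F X).PP F g0 C := by
  unfold pp
  rw [← Vl.map_PP, vl_map F _ _ (map_zero _)]
  simp only [FreeAlgebra.lift_ι_apply]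

/-- the matrix `[[0,1],[1,0]]` -/
def sX : M2 := !![0, 1; 1, 0]

/-- the matrix `[[1,0],[0,-1]]` -/
def sZ : M2 := !![1, 0; 0, -1]

/-- the inverse of `sX * sZ`, divided by two -/
noncomputable def sJ : M2 := !![0, 1 / 2; -1 / 2, 0]

/-- one half -/
noncomputable def sI : M2 := !![1 / 2, 0; 0, 1 / 2]

/-- the point -/
noncomputable def aa (i : Fin (nv F)) : GA G :=
  match (en F).symm i with
  | Sum.inl j => if j = 0 then 1 else if j = 1 then sg 1 sX else sg 1 sZ
  | Sum.inr (h, b) => if b = false then sg (h : G) sI + sg (h : G)⁻¹ sI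
      else sg (h : G) sJ - sg (h : G)⁻¹ sJ

theorem aa_0 : aa F (en F (Sum.inl 0)) = 1 := by
  simp [aa]

theorem aa_X : aa F (en F (Sum.inl 1)) = sg 1 sX := by
  simp [aa]

theorem aa_Z : aa F (en F (Sum.inl 2)) = sg 1 sZ := by
  simp [aa]

theorem aa_1 (h : F) : aa F (en F (Sum.inr (h, false))) = sg (h : G) sI + sg (h : G)⁻¹ sI := by
  simp [aa]

theorem aa_2 (h : F) : aa F (en F (Sum.inr (h, true))) = sg (h : G) sJ - sg (h : G)⁻¹ sJ := by
  simp [aa]

theorem st_X : star sX = sX := by
  ext i j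
  fin_cases i <;> fin_cases j <;> simp [sX, star_apply]

theorem st_Z : star sZ = sZ := by
  ext i j
  fin_cases i <;> fin_cases j <;> simp [sZ, star_apply]

theorem st_I : star sI = sI := by
  ext i j
  fin_cases i <;> fin_cases j <;> simp [sI, star_apply]

theorem st_J : star sJ = -sJ := by
  ext i j
  fin_cases i <;> fin_cases j <;> simp [sJ, star_apply] <;> ring

theorem aa_star (i : Fin (nv F)) : star (aa F i) = aa F i := by
  obtain ⟨j, rfl⟩ := (en F).surjective i
  rcases j with j | ⟨h, b⟩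
  · fin_cases j
    · exact (congrArg star (aa_0 F)).trans ((star_one _).trans (aa_0 F).symm)
    · refine (congrArg star (aa_X F)).trans (Eq.trans ?_ (aa_X F).symm)
      rw [star_sg, st_X, inv_one]
    · refine (congrArg star (aa_Z F)).trans (Eq.trans ?_ (aa_Z F).symm)
      rw [star_sg, st_Z, inv_one]
  · cases b
    · rw [aa_1, star_add, star_sg, star_sg, st_I, inv_inv, add_comm]
    · rw [aa_2, star_sub, star_sg, star_sg, st_J, inv_inv, sg_neg, sg_neg]
      abel

theorem mJ : sJ * sX * sZ = sI := by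
  ext i j
  fin_cases i <;> fin_cases j <;> simp [sJ, sX, sZ, sI, Matrix.mul_apply, Fin.sum_univ_two]
  ring

theorem mJ' : sZ * sX * sJ = -sI := by
  ext i j
  fin_cases i <;> fin_cases j <;> simp [sJ, sX, sZ, sI, Matrix.mul_apply, Fin.sum_univ_two]
  ring

theorem II : sI + sI = 1 := by
  ext i j
  fin_cases i <;> fin_cases j <;> simp [sI] <;> ring

theorem H_aa : (vl F (aa F)).H = 1 := by
  show aa F (en F (Sum.inl 0)) ^ 4 = 1
  rw [aa_0, one_pow]

theorem y_aa {h : G} (hh : h ∈ F) : (vl F (aa F)).y h = sg h 1 := by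
  have e1 : (vl F (aa F)).x1 h = sg h sI + sg h⁻¹ sI := by
    simp only [vl, dif_pos hh]
    exact aa_1 F ⟨h, hh⟩
  have e2 : (vl F (aa F)).x2 h = sg h sJ - sg h⁻¹ sJ := by
    simp only [vl, dif_pos hh]
    exact aa_2 F ⟨h, hh⟩
  have e3 : (vl F (aa F)).x0 = 1 := aa_0 F
  have e4 : (vl F (aa F)).xX = sg 1 sX := aa_X F
  have e5 : (vl F (aa F)).xZ = sg 1 sZ := aa_Z F
  unfold Vl.y
  rw [e1, e2, e3, e4, e5, one_pow, one_mul, one_mul, sub_mul, sub_mul, sg_mul, sg_mul, sg_mul,
    sg_mul, mul_one, mul_one, mul_one, mul_one, mJ, ← II, sg_add]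
  abel

theorem ys_aa {h : G} (hh : h ∈ F) : (vl F (aa F)).ys h = sg h⁻¹ 1 := by
  rw [← Vl.star_y (vl_SA F _ (aa_star F)), y_aa F hh, star_sg, star_one]

theorem SS_aa : (vl F (aa F)).SS F = 0 := by
  unfold Vl.SS
  rw [H_aa]
  have e1 : ∀ h ∈ F, ∀ k ∈ F, h * k ∈ F →
      (vl F (aa F)).y h * (vl F (aa F)).y k - (vl F (aa F)).y (h * k) * 1 = 0 := by
    intro h hh k hk hhk
    rw [y_aa F hh, y_aa F hk, y_aa F hhk, sg_mul, mul_one, mul_one, sub_self]
  have e2 : ∀ h ∈ F, (vl F (aa F)).ys h * (vl F (aa F)).y h - 1 * 1 = 0 := by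
    intro h hh
    rw [y_aa F hh, ys_aa F hh, sg_mul, mul_one, mul_one, inv_mul_cancel, one_eq, sub_self]
  have e3 : ∀ h ∈ F, (vl F (aa F)).y h * (vl F (aa F)).ys h - 1 * 1 = 0 := by
    intro h hh
    rw [y_aa F hh, ys_aa F hh, sg_mul, mul_one, mul_one, mul_inv_cancel, one_eq, sub_self]
  rw [Finset.sum_eq_zero, Finset.sum_eq_zero, add_zero]
  · intro h hh
    rw [e2 h hh, e3 h hh]
    simp only [mul_one, one_mul, sub_self, mul_zero, add_zero]
  · intro h hh
    refine Finset.sum_eq_zero fun k hk => ?_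
    split_ifs with h1
    · rw [e1 h hh k hk h1, mul_zero]
    · rfl

theorem tt_smul (r : ℝ) (x : GA G) : tt (r • x) = r * tt x := by
  have h1 : r • x = (r : ℂ) • x := (Complex.coe_smul r x).symm
  have h2 : cf ((r : ℂ) • x) = (r : ℂ) • cf x := rfl
  rw [h1, tt_eq, tt_eq, h2, Finsupp.smul_apply, trace_smul, smul_eq_mul, Complex.re_ofReal_mul]

theorem tt_aa {g0 : G} (hg : g0 ≠ 1) (hF : g0 ∈ F) (C : ℝ) :
    tt ((vl F (aa F)).PP F g0 C) < 0 := by
  classical
  unfold Vl.PP
  rw [SS_aa, H_aa, y_aa F hF, ys_aa F hF, smul_zero, zero_add]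
  simp only [mul_one, one_mul]
  rw [map_sub, tt_smul, tt_smul, map_add, tt_sg, tt_sg, one_eq, tt_sg, if_neg hg,
    if_neg (by simpa using hg), if_pos rfl, trace_one]
  norm_num

end vars

/-- real matrices as complex matrices, as an algebra homomorphism -/
noncomputable def cm (n : ℕ) : Matrix (Fin n) (Fin n) ℝ →ₐ[ℝ] Matrix (Fin n) (Fin n) ℂ :=
  Complex.ofRealAm.mapMatrix

theorem cm_trace {n : ℕ} (X : Matrix (Fin n) (Fin n) ℝ) : (trace (cm n X)).re = trace X := by
  unfold trace
  rw [Complex.re_sum]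
  rfl

theorem cm_star {n : ℕ} (X : Matrix (Fin n) (Fin n) ℝ) (hX : Xᵀ = X) : star (cm n X) = cm n X := by
  ext i j
  rw [star_apply]
  have h1 : ∀ i j, cm n X i j = ((X i j : ℝ) : ℂ) := fun _ _ => rfl
  rw [h1, h1, ← congrFun (congrFun hX i) j, transpose_apply]
  exact Complex.conj_ofReal _

theorem pp_pos {G : Type} [Group G] (F : Finset G) (g0 : G) (C : ℝ)
    (hine : ∀ (n : ℕ) (H : Matrix (Fin n) (Fin n) ℂ) (Y : G → Matrix (Fin n) (Fin n) ℂ),
      H.PosSemidef →
      0 ≤ C * defH F H Y + (H * H * H * Y g0).trace.re - 1 / 4 * (H * H * H * H).trace.re) :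
    TracePos (pp F g0 C) := by
  intro n X hX
  have h1 : cm n (FreeAlgebra.lift ℝ X (pp F g0 C)) =
      (vl F (fun i => cm n (X i))).PP F g0 C := by
    rw [lift_pp, ← Vl.map_PP, vl_map F _ _ (map_zero _)]
  rw [← cm_trace, h1]
  have h2 : (vl F (fun i => cm n (X i))).SA := vl_SA F _ fun i => cm_star _ (hX i)
  rw [Vl.trace_PP h2]
  refine hine n _ _ ?_
  have h3 : (vl F (fun i => cm n (X i))).H = ((cm n (X (en F (Sum.inl 0)))) ^ 2)ᴴ *
      (cm n (X (en F (Sum.inl 0)))) ^ 2 := by
    rw [conjTranspose_pow]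
    have : (cm n (X (en F (Sum.inl 0))))ᴴ = cm n (X (en F (Sum.inl 0))) := cm_star _ (hX _)
    rw [this, ← pow_add]
    rfl
  rw [h3]
  exact posSemidef_conjTranspose_mul_self _

end Pol

open Pol in
/-- **POL** -/
theorem t_pol : S_ine → S_pol := by
  rintro ⟨G, _, g0, F, C, hg, hF, -, hine⟩
  refine ⟨nv F, pp F g0 C, 16, GA G, inferInstance, inferInstance, inferInstance, tt, aa F,
    ?_, pp_pos F g0 C hine, ?_, ?_, tt_comm, tt_pos, aa_star F, ?_⟩
  · exact Vl.star_PP (vl_SA F _ fun i => FreeAlgebra.star_ι i)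
      (fun c => FreeAlgebra.star_algebraMap c) F g0 C
  · intro R _ _ z hz X
    rw [lift_pp, lift_pp, ← vl_map F X (z * ·) (mul_zero z), Vl.sc_PP _ hz]
  · intro c
    have h1 : algebraMap ℂ (GA G) c = sg 1 (algebraMap ℂ M2 c) := rfl
    rw [h1, star_sg, inv_one]
    congr 1
    ext i j
    rw [star_apply, algebraMap_matrix_apply, algebraMap_matrix_apply]
    by_cases h : j = i
    · rw [if_pos h, if_pos h.symm]
      exact Complex.conj_ofReal c
    · rw [if_neg h, if_neg fun h' => h h'.symm, star_zero]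
  · rw [lift_pp]
    exact tt_aa F hg hF C

end Pool.Agent.H412.TH
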