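import Pool.Agent.H412.TH.Basic

/-!
MP_0219da (project TH of helper412), task TH-Rank: the noncommutative rank of a pencil.
-/

set_option autoImplicit false

namespace Pool.Agent.H412.TH

namespace Rank

open Matrix

/-! ## invertible submatrices over a noncommutative ring -/

theorem injective_of_isUnit {R n : Type} [Ring R] [Nontrivial R] {k : ℕ} (A : Matrix n n R)
    (a b : Fin k → n) (h : IsUnit (A.submatrix a b)) : Function.Injective a := by
  intro i j hij
  by_contra hne
  obtain ⟨M, hM, -⟩ := isUnit_iff_exists.1 h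
  have h1 : (A.submatrix a b * M) i i = (A.submatrix a b * M) j i := by
    simp only [Matrix.mul_apply, Matrix.submatrix_apply, hij]
  rw [hM, Matrix.one_apply_eq, Matrix.one_apply_ne (Ne.symm hne)] at h1
  exact one_ne_zero h1

theorem le_card_of_isUnit {R n : Type} [Ring R] [Nontrivial R] [Fintype n] {k : ℕ}
    (A : Matrix n n R) (a b : Fin k → n) (h : IsUnit (A.submatrix a b)) :
    k ≤ Fintype.card n := by
  simpa using Fintype.card_le_of_injective a (injective_of_isUnit A a b h)

/-- block matrices with an invertible corner and an invertible Schur complement -/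
theorem isUnit_fromBlocks {R k l : Type} [Ring R] [Fintype k] [DecidableEq k] [Fintype l]
    [DecidableEq l] (U V : Matrix k k R) (v : Matrix k l R) (w : Matrix l k R) (d s : Matrix l l R)
    (h1 : U * V = 1) (h2 : V * U = 1) (h3 : (d - w * V * v) * s = 1)
    (h4 : s * (d - w * V * v) = 1) : IsUnit (Matrix.fromBlocks U v w d) := by
  have e : Matrix.fromBlocks U v w d =
      Matrix.fromBlocks 1 0 (w * V) 1 * (Matrix.fromBlocks U 0 0 (d - w * V * v) *
        Matrix.fromBlocks 1 (V * v) 0 1) := by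
    rw [Matrix.fromBlocks_multiply, Matrix.fromBlocks_multiply]
    congr 1
    · simp
    · simp only [Matrix.mul_zero, Matrix.zero_mul, Matrix.mul_one, Matrix.one_mul, add_zero]
      rw [← Matrix.mul_assoc, h1, Matrix.one_mul]
    · simp only [Matrix.mul_zero, Matrix.zero_mul, Matrix.mul_one, Matrix.one_mul, add_zero]
      rw [Matrix.mul_assoc, h2, Matrix.mul_one]
    · simp only [Matrix.mul_zero, Matrix.zero_mul, Matrix.mul_one, Matrix.one_mul, add_zero,
        zero_add]
      rw [← Matrix.mul_assoc U, h1, Matrix.one_mul]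
      abel
  rw [e]
  refine IsUnit.mul ?_ (IsUnit.mul ?_ ?_)
  · refine isUnit_iff_exists.2 ⟨Matrix.fromBlocks 1 0 (-(w * V)) 1, ?_, ?_⟩ <;>
    · rw [Matrix.fromBlocks_multiply, ← Matrix.fromBlocks_one]
      congr 1 <;> simp
  · refine isUnit_iff_exists.2 ⟨Matrix.fromBlocks V 0 0 s, ?_, ?_⟩ <;>
    · rw [Matrix.fromBlocks_multiply, ← Matrix.fromBlocks_one]
      congr 1 <;> simp [h1, h2, h3, h4]
  · refine isUnit_iff_exists.2 ⟨Matrix.fromBlocks 1 (-(V * v)) 0 1, ?_, ?_⟩ <;>
    · rw [Matrix.fromBlocks_multiply, ← Matrix.fromBlocks_one]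
      congr 1 <;> simp

/-- reindexing preserves invertibility -/
theorem isUnit_submatrix_equiv {R k l : Type} [Ring R] [Fintype k] [DecidableEq k] [Fintype l]
    [DecidableEq l] (e : l ≃ k) (A : Matrix k k R) (h : IsUnit A) : IsUnit (A.submatrix e e) := by
  obtain ⟨M, hM, hM'⟩ := isUnit_iff_exists.1 h
  refine isUnit_iff_exists.2 ⟨M.submatrix e e, ?_, ?_⟩
  · rw [Matrix.submatrix_mul_equiv, hM, Matrix.submatrix_one_equiv]
  · rw [Matrix.submatrix_mul_equiv, hM', Matrix.submatrix_one_equiv]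

/-- rank factorisation over a division ring -/
theorem exists_factor {D n : Type} [DivisionRing D] [Fintype n] (A : Matrix n n D) :
    ∃ (k : ℕ) (a b : Fin k → n), IsUnit (A.submatrix a b) ∧
      ∃ (B : Matrix n (Fin k) D) (C : Matrix (Fin k) n D), A = B * C := by
  classical
  let P : ℕ → Prop := fun k => ∃ a b : Fin k → n, IsUnit (A.submatrix a b)
  have hP0 : P 0 := ⟨Fin.elim0, Fin.elim0, isUnit_iff_exists.2 ⟨1, Subsingleton.elim _ _,
    Subsingleton.elim _ _⟩⟩
  obtain ⟨k, hPk, hmax⟩ : ∃ k, P k ∧ ∀ l, P l → l ≤ k :=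
    ⟨Nat.findGreatest P (Fintype.card n), Nat.findGreatest_spec (P := P) (Nat.zero_le _) hP0,
      fun l hl => Nat.le_findGreatest (le_card_of_isUnit A _ _ hl.choose_spec.choose_spec) hl⟩
  obtain ⟨a, b, hab⟩ := hPk
  refine ⟨k, a, b, hab, ?_⟩
  obtain ⟨V, hV, hV'⟩ := isUnit_iff_exists.1 hab
  refine ⟨A.submatrix id b * V, A.submatrix a id, ?_⟩
  by_contra hne
  obtain ⟨p, q, hpq⟩ : ∃ p q, A p q ≠ (A.submatrix id b * V * A.submatrix a id) p q := by
    by_contra hcon
    push Not at hcon
    exact hne (Matrix.ext hcon)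
  have hPs : P (k + 1) := by
    let e : Fin (k + 1) ≃ Fin k ⊕ Fin 1 := finSumFinEquiv.symm
    refine ⟨fun i => Sum.elim a (fun _ => p) (e i), fun i => Sum.elim b (fun _ => q) (e i), ?_⟩
    have hb : IsUnit (Matrix.fromBlocks (A.submatrix a b) (A.submatrix a (fun _ : Fin 1 => q))
        (A.submatrix (fun _ : Fin 1 => p) b)
        (A.submatrix (fun _ : Fin 1 => p) (fun _ : Fin 1 => q))) := by
      have hs : (A p q - (A.submatrix id b * V * A.submatrix a id) p q) ≠ 0 := sub_ne_zero.2 hpq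
      set σ := A p q - (A.submatrix id b * V * A.submatrix a id) p q with hσ
      have hd : A.submatrix (fun _ : Fin 1 => p) (fun _ : Fin 1 => q) -
          A.submatrix (fun _ : Fin 1 => p) b * V * A.submatrix a (fun _ : Fin 1 => q) =
          Matrix.of (fun _ _ => σ) := by
        ext i j
        simp only [Matrix.sub_apply, Matrix.submatrix_apply, Matrix.of_apply, hσ]
        congr 1
      refine isUnit_fromBlocks (A.submatrix a b) V _ _ _ (Matrix.of (fun _ _ => σ⁻¹)) hV hV' ?_ ?_
      · rw [hd]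
        ext i j
        have : i = j := Subsingleton.elim _ _
        subst this
        simp [Matrix.mul_apply, hs]
      · rw [hd]
        ext i j
        have : i = j := Subsingleton.elim _ _
        subst this
        simp [Matrix.mul_apply, hs]
    have := isUnit_submatrix_equiv e _ hb
    convert this using 1
    ext i j
    simp only [Matrix.submatrix_apply]
    rcases e i with i' | i' <;> rcases e j with j' | j' <;> simp
  have := hmax _ hPs
  omega

/-! ## ranks over a field -/

theorem exists_compress {F m m' : Type} [Field F] [Fintype m] [DecidableEq m] [Fintype m']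
    [DecidableEq m'] (A : Matrix m m' F) (k : ℕ) (h : k ≤ A.rank) :
    ∃ (P : Matrix (Fin k) m F) (Q : Matrix m' (Fin k) F), P * A * Q = 1 := by
  classical
  obtain ⟨f, hf⟩ := exists_linearIndependent_of_le_finrank (R := F)
    (M := LinearMap.range A.mulVecLin) (n := k) h
  have hf' : LinearIndependent F (fun i => (f i : m → F)) :=
    hf.map' (LinearMap.range A.mulVecLin).subtype (Submodule.ker_subtype _)
  choose w hw using fun i => (f i).2
  let Q : Matrix m' (Fin k) F := Matrix.of fun x i => w i x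
  have hAQ : ∀ x i, (A * Q) x i = (f i : m → F) x := by
    intro x i
    have := congrFun (hw i) x
    rw [← this]
    rfl
  have hinj : LinearMap.ker (A * Q).mulVecLin = ⊥ := by
    rw [LinearMap.ker_eq_bot']
    intro c hc
    have h1 : ∑ i, c i • (f i : m → F) = 0 := by
      ext x
      have := congrFun hc x
      simp only [Matrix.mulVecLin_apply, Matrix.mulVec, dotProduct, hAQ, Pi.zero_apply] at this
      simp only [Finset.sum_apply, Pi.smul_apply, smul_eq_mul, Pi.zero_apply]
      rw [← this]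
      exact Finset.sum_congr rfl fun i _ => mul_comm _ _
    have h2 := (Fintype.linearIndependent_iff.1 hf') c h1
    exact funext h2
  obtain ⟨g, hg⟩ := LinearMap.exists_leftInverse_of_injective _ hinj
  refine ⟨LinearMap.toMatrix' g, Q, ?_⟩
  rw [Matrix.mul_assoc]
  apply (Matrix.toLin' (R := F) (m := Fin k) (n := Fin k)).injective
  rw [Matrix.toLin'_mul, Matrix.toLin'_toMatrix', Matrix.toLin'_one]
  exact hg

theorem le_rank_of_compress {F m m' : Type} [Field F] [Fintype m] [DecidableEq m] [Fintype m']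
    [DecidableEq m'] (A : Matrix m m' F) (k : ℕ) (P : Matrix (Fin k) m F)
    (Q : Matrix m' (Fin k) F) (h : (P * A * Q).det ≠ 0) : k ≤ A.rank := by
  have h1 : (P * A * Q).rank = k := by
    rw [Matrix.rank_of_isUnit _ ((Matrix.isUnit_iff_isUnit_det _).2 (isUnit_iff_ne_zero.2 h)),
      Fintype.card_fin]
  calc k = (P * A * Q).rank := h1.symm
    _ ≤ (P * A).rank := Matrix.rank_mul_le_left _ _
    _ ≤ A.rank := Matrix.rank_mul_le_right _ _

/-! ## the big matrices -/

/-- the matrix over `F` behind a matrix of matrices -/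
abbrev big {F m m' : Type} {s : ℕ} (A : Matrix m m' (Matrix (Fin s) (Fin s) F)) :
    Matrix (m × Fin s) (m' × Fin s) F := Matrix.comp m m' (Fin s) (Fin s) F A

theorem big_mul {F m m' m'' : Type} {s : ℕ} [Semiring F] [Fintype m']
    (A : Matrix m m' (Matrix (Fin s) (Fin s) F)) (B : Matrix m' m'' (Matrix (Fin s) (Fin s) F)) :
    big (A * B) = big A * big B := by
  ext ⟨i, k⟩ ⟨j, l⟩
  simp only [big, Matrix.comp_apply, Matrix.mul_apply, Fintype.sum_prod_type, Matrix.sum_apply]

theorem big_one {F m : Type} {s : ℕ} [Semiring F] [DecidableEq m] :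
    big (1 : Matrix m m (Matrix (Fin s) (Fin s) F)) = 1 := by
  ext ⟨i, k⟩ ⟨j, l⟩
  simp only [big, Matrix.comp_apply, Matrix.one_apply, Prod.mk.injEq]
  by_cases h : i = j
  · subst h
    simp [Matrix.one_apply]
  · simp [h]

theorem isUnit_big {F m : Type} {s : ℕ} [Semiring F] [Fintype m] [DecidableEq m]
    (A : Matrix m m (Matrix (Fin s) (Fin s) F)) : IsUnit A ↔ IsUnit (big A) := by
  constructor
  · intro h
    obtain ⟨M, hM, hM'⟩ := isUnit_iff_exists.1 h
    exact isUnit_iff_exists.2 ⟨big M, by rw [← big_mul, hM, big_one],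
      by rw [← big_mul, hM', big_one]⟩
  · intro h
    obtain ⟨M, hM, hM'⟩ := isUnit_iff_exists.1 h
    obtain ⟨M, rfl⟩ := (Matrix.comp m m (Fin s) (Fin s) F).surjective M
    refine isUnit_iff_exists.2 ⟨M, ?_, ?_⟩
    · apply (Matrix.comp m m (Fin s) (Fin s) F).injective
      exact (big_mul A M).trans (hM.trans big_one.symm)
    · apply (Matrix.comp m m (Fin s) (Fin s) F).injective
      exact (big_mul M A).trans (hM'.trans big_one.symm)

/-! ## generic matrices -/

/-- the polynomial ring in the entries -/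
abbrev P (ι : Type) (s : ℕ) : Type := MvPolynomial (ι × Fin s × Fin s) ℝ

/-- generic matrices -/
noncomputable def gen (ι : Type) (s : ℕ) (i : ι) : Matrix (Fin s) (Fin s) (P ι s) :=
  Matrix.of fun a b => MvPolynomial.X (i, a, b)

theorem map_gen {ι L : Type} [CommRing L] [Algebra ℝ L] {s : ℕ}
    (Z : ι → Matrix (Fin s) (Fin s) L) (i : ι) :
    (MvPolynomial.aeval (fun u : ι × Fin s × Fin s => Z u.1 u.2.1 u.2.2)).mapMatrix
      (gen ι s i) = Z i := by
  ext a b
  simp [gen]

theorem big_pev_gen {ι L m m' : Type} [Fintype ι] [CommRing L] [Algebra ℝ L] {s : ℕ}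
    (T : Option ι → Matrix m m' ℝ) (Z : ι → Matrix (Fin s) (Fin s) L) :
    (big (pev T (gen ι s))).map
      (MvPolynomial.aeval (fun u : ι × Fin s × Fin s => Z u.1 u.2.1 u.2.2)) =
      big (pev T Z) := by
  have h := pev_map (MvPolynomial.aeval
    (fun u : ι × Fin s × Fin s => Z u.1 u.2.1 u.2.2)).mapMatrix T (gen ι s)
  have h2 : (fun i => (MvPolynomial.aeval
      (fun u : ι × Fin s × Fin s => Z u.1 u.2.1 u.2.2)).mapMatrix (gen ι s i)) = Z :=
    funext fun i => map_gen Z i
  rw [h2] at h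
  rw [← h]
  ext ⟨i, k⟩ ⟨j, l⟩
  simp [big, Matrix.comp_apply, Matrix.map_apply]

/-- the determinant of a compressed generic pencil -/
noncomputable def gdet {ι m m' : Type} [Fintype ι] [Fintype m] [Fintype m'] {s k : ℕ}
    (T : Option ι → Matrix m m' ℝ) (A : Matrix (Fin k) (m × Fin s) ℝ)
    (B : Matrix (m' × Fin s) (Fin k) ℝ) : P ι s :=
  (A.map (algebraMap ℝ (P ι s)) * big (pev T (gen ι s)) * B.map (algebraMap ℝ (P ι s))).det

theorem aeval_gdet {ι m m' L : Type} [Fintype ι] [Fintype m] [Fintype m'] {s k : ℕ}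
    [CommRing L] [Algebra ℝ L]
    (T : Option ι → Matrix m m' ℝ) (A : Matrix (Fin k) (m × Fin s) ℝ)
    (B : Matrix (m' × Fin s) (Fin k) ℝ) (Z : ι → Matrix (Fin s) (Fin s) L) :
    MvPolynomial.aeval (fun u : ι × Fin s × Fin s => Z u.1 u.2.1 u.2.2) (gdet T A B) =
      (A.map (algebraMap ℝ L) * big (pev T Z) * B.map (algebraMap ℝ L)).det := by
  rw [gdet, AlgHom.map_det, AlgHom.mapMatrix_apply, Matrix.map_mul, Matrix.map_mul]
  congr 2
  · congr 1
    · ext i j
      simp
    · exact big_pev_gen T Z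
  · ext i j
    simp

theorem le_rank_of_gdet {ι m m' L : Type} [Fintype ι] [Fintype m] [DecidableEq m] [Fintype m']
    [DecidableEq m'] {s k : ℕ} [Field L] [Algebra ℝ L]
    (T : Option ι → Matrix m m' ℝ) (A : Matrix (Fin k) (m × Fin s) ℝ)
    (B : Matrix (m' × Fin s) (Fin k) ℝ) (Z : ι → Matrix (Fin s) (Fin s) L)
    (h : MvPolynomial.aeval (fun u : ι × Fin s × Fin s => Z u.1 u.2.1 u.2.2) (gdet T A B) ≠ 0) :
    k ≤ (big (pev T Z)).rank := by
  rw [aeval_gdet] at h
  exact le_rank_of_compress _ k _ _ h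

/-- from a point over a field to a real point -/
theorem exists_real {ι L m : Type} [Fintype ι] [Fintype m] [DecidableEq m] {s : ℕ}
    [Field L] [Algebra ℝ L] (T : Option ι → Matrix m m ℝ) (Z : ι → Matrix (Fin s) (Fin s) L)
    (h : IsUnit (pev T Z)) : ∃ Z' : ι → Matrix (Fin s) (Fin s) ℝ, IsUnit (pev T Z') := by
  have h1 : (big (pev T Z)).det ≠ 0 :=
    isUnit_iff_ne_zero.1 ((Matrix.isUnit_iff_isUnit_det _).1 ((isUnit_big _).1 h))
  have key : ∀ {K : Type} [Field K] [Algebra ℝ K] (Y : ι → Matrix (Fin s) (Fin s) K),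
      MvPolynomial.aeval (fun u : ι × Fin s × Fin s => Y u.1 u.2.1 u.2.2)
        (big (pev T (gen ι s))).det = (big (pev T Y)).det := by
    intro K _ _ Y
    rw [AlgHom.map_det, AlgHom.mapMatrix_apply, big_pev_gen]
  have h2 : (big (pev T (gen ι s))).det ≠ 0 := by
    intro h0
    apply h1
    rw [← key Z, h0, map_zero]
  obtain ⟨z, hz⟩ : ∃ z : ι × Fin s × Fin s → ℝ,
      MvPolynomial.eval z (big (pev T (gen ι s))).det ≠ 0 := by
    by_contra hcon
    push Not at hcon
    exact h2 (MvPolynomial.funext fun z => by rw [hcon z, map_zero])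
  refine ⟨fun i => Matrix.of fun a b => z (i, a, b), ?_⟩
  rw [isUnit_big, Matrix.isUnit_iff_isUnit_det, isUnit_iff_ne_zero, ← key]
  rw [← MvPolynomial.coe_aeval_eq_eval] at hz
  exact hz

end Rank

open Matrix Rank in
theorem t_rank : S_div → S_rank := by
  classical
  intro hdiv ι n _ _ _ T
  let P : ℕ → Prop := fun r => ∃ a b : Fin r → n, ∃ s : ℕ, 0 < s ∧
    ∃ Z : ι → Matrix (Fin s) (Fin s) ℝ, IsUnit (pev (psub T a b) Z)
  have hP0 : P 0 := ⟨Fin.elim0, Fin.elim0, 1, one_pos, fun _ => 0,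
    isUnit_iff_exists.2 ⟨1, Subsingleton.elim _ _, Subsingleton.elim _ _⟩⟩
  have hbd : ∀ l, P l → l ≤ Fintype.card n := by
    rintro l ⟨a, b, s, hs, Z, h⟩
    have : Nonempty (Fin s) := ⟨⟨0, hs⟩⟩
    exact le_card_of_isUnit (pev T Z) a b h
  obtain ⟨r, hPr, hmax⟩ : ∃ r, P r ∧ ∀ l, P l → l ≤ r :=
    ⟨Nat.findGreatest P (Fintype.card n), Nat.findGreatest_spec (P := P) (Nat.zero_le _) hP0,
      fun l hl => Nat.le_findGreatest (hbd l hl) hl⟩
  obtain ⟨a, b, hab⟩ := hPr
  refine ⟨r, a, b, hab, ?_⟩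
  intro s Z
  by_contra hlt
  push Not at hlt
  rcases Nat.eq_zero_or_pos s with hs | hs
  · subst hs
    have h0 : (Matrix.comp n n (Fin 0) (Fin 0) ℝ (pev T Z)).rank ≤ 0 := by
      refine (Matrix.rank_le_card_width _).trans ?_
      simp
    omega
  obtain ⟨D, _, _, L, _, _, φ, hφ⟩ := hdiv s hs
  obtain ⟨A, B, hAB⟩ := exists_compress (big (pev T Z)) (r * s + 1) hlt
  have hg : gdet T A B ≠ 0 := by
    intro h0
    have h1 := aeval_gdet T A B Z
    rw [h0, map_zero] at h1
    have h2 : A.map (algebraMap ℝ ℝ) * big (pev T Z) * B.map (algebraMap ℝ ℝ) = 1 := by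
      rw [← hAB]
      rfl
    rw [h2, Matrix.det_one] at h1
    exact zero_ne_one h1
  obtain ⟨ξ, hξ⟩ := hφ ι (gdet T A B) hg
  have hrank := le_rank_of_gdet T A B (fun i => φ (ξ i)) hξ
  obtain ⟨k, a', b', hu, B', C', hBC⟩ := exists_factor (pev T ξ)
  have hk : k ≤ r := by
    apply hmax
    refine ⟨a', b', s, hs, ?_⟩
    apply exists_real (psub T a' b') (fun i => φ (ξ i))
    rw [← pev_map]
    obtain ⟨M, hM, hM'⟩ := isUnit_iff_exists.1 hu
    refine isUnit_iff_exists.2 ⟨M.map φ, ?_, ?_⟩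
    · rw [← Matrix.map_mul]
      have : pev (psub T a' b') ξ * M = 1 := hM
      rw [this, Matrix.map_one _ (map_zero φ) (map_one φ)]
    · rw [← Matrix.map_mul]
      have : M * pev (psub T a' b') ξ = 1 := hM'
      rw [this, Matrix.map_one _ (map_zero φ) (map_one φ)]
  have h3 : (big (pev T fun i => φ (ξ i))).rank ≤ k * s := by
    rw [← pev_map, hBC, Matrix.map_mul, big_mul]
    refine (Matrix.rank_mul_le_left _ _).trans ((Matrix.rank_le_card_width _).trans ?_)
    simp
  have h4 : k * s ≤ r * s := Nat.mul_le_mul_right s hk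
  omega

end Pool.Agent.H412.TH
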