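import Pool.Agent.H412.TH.Basic

/-!
MP_0219da, task TH-Sch (helper200): a graded pencil is invertible at the point `pt a b Y`.

After multiplication with diagonal matrices of powers of `t` the matrix becomes a power series with
matrix coefficients whose constant term is the complex block matrix
`[[0, W_lin(b)], [W_lin(bᵀ), W(Y)]]`, which is invertible by the Schur complement `-K0`.
-/

set_option autoImplicit false

namespace Pool.Agent.H412.TH

open Matrix

namespace Sch

section ps
variable {J A : Type} [Fintype J] [DecidableEq J] [Ring A]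

/-- power series with matrix coefficients as matrices of power series -/
noncomputable def mp : PowerSeries (Matrix J J A) →+* Matrix J J (PowerSeries A) where
  toFun f := Matrix.of fun i j => PowerSeries.mk fun n => PowerSeries.coeff n f i j
  map_one' := by
    ext i j n
    rw [Matrix.of_apply, PowerSeries.coeff_mk, PowerSeries.coeff_one, Matrix.one_apply]
    by_cases hn : n = 0
    · rw [if_pos hn, Matrix.one_apply]
      by_cases hij : i = j
      · rw [if_pos hij, if_pos hij, PowerSeries.coeff_one, if_pos hn]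
      · rw [if_neg hij, if_neg hij, map_zero]
    · rw [if_neg hn]
      by_cases hij : i = j
      · rw [if_pos hij, PowerSeries.coeff_one, if_neg hn]
        rfl
      · rw [if_neg hij, map_zero]
        rfl
  map_mul' f g := by
    ext i j n
    rw [Matrix.of_apply, PowerSeries.coeff_mk, PowerSeries.coeff_mul, Matrix.mul_apply, map_sum,
      Matrix.sum_apply]
    simp only [Matrix.mul_apply, Matrix.of_apply, PowerSeries.coeff_mul, PowerSeries.coeff_mk]
    exact Finset.sum_comm
  map_zero' := by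
    ext i j n
    rw [Matrix.of_apply, PowerSeries.coeff_mk, map_zero]
    rfl
  map_add' f g := by
    ext i j n
    simp only [Matrix.of_apply, PowerSeries.coeff_mk, map_add, Matrix.add_apply]

theorem mp_X_pow_mul (k : ℕ) (m : Matrix J J A) (i j : J) :
    mp (PowerSeries.X ^ k * PowerSeries.C m) i j = PowerSeries.X ^ k * PowerSeries.C (m i j) := by
  ext n
  change PowerSeries.coeff n (PowerSeries.mk fun n =>
    PowerSeries.coeff n (PowerSeries.X ^ k * PowerSeries.C m : PowerSeries (Matrix J J A)) i j) = _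
  rw [PowerSeries.coeff_mk, PowerSeries.coeff_X_pow_mul', PowerSeries.coeff_X_pow_mul']
  split_ifs with h
  · rw [PowerSeries.coeff_C, PowerSeries.coeff_C]
    split_ifs
    · rfl
    · rfl
  · rfl

/-- power series with matrix coefficients as matrices of Laurent series -/
noncomputable def Phi : PowerSeries (Matrix J J A) →+* Matrix J J (HahnSeries ℤ A) :=
  (HahnSeries.ofPowerSeries ℤ A).mapMatrix.comp mp

theorem Phi_X_pow_mul (k : ℕ) (m : Matrix J J A) (i j : J) :
    Phi (PowerSeries.X ^ k * PowerSeries.C m) i j = HahnSeries.single (k : ℤ) (m i j) := by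
  change HahnSeries.ofPowerSeries ℤ A (mp (PowerSeries.X ^ k * PowerSeries.C m) i j) = _
  rw [mp_X_pow_mul, map_mul, HahnSeries.ofPowerSeries_X_pow, HahnSeries.ofPowerSeries_C,
    HahnSeries.C_apply, HahnSeries.single_mul_single, add_zero, one_mul]

theorem isUnit_ps (f : PowerSeries (Matrix J J A)) (h : IsUnit (PowerSeries.constantCoeff f)) :
    IsUnit f := by
  obtain ⟨u, hu⟩ := h
  exact ⟨⟨f, PowerSeries.invOfUnit f u, PowerSeries.mul_invOfUnit f u hu.symm,
    PowerSeries.invOfUnit_mul f u hu.symm⟩, rfl⟩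

/-- diagonal matrices of powers of `t` -/
noncomputable def Dg (w : J → ℤ) : Matrix J J (HahnSeries ℤ A) :=
  Matrix.diagonal fun x => HahnSeries.single (w x) 1

theorem isUnit_Dg (w : J → ℤ) : IsUnit (Dg (A := A) w) := by
  have h : ∀ w : J → ℤ, Dg (A := A) w * Dg (-w) = 1 := by
    intro w
    rw [Dg, Dg, Matrix.diagonal_mul_diagonal]
    simp only [HahnSeries.single_mul_single, Pi.neg_apply, add_neg_cancel, one_mul]
    exact Matrix.diagonal_one
  refine ⟨⟨Dg w, Dg (-w), h w, ?_⟩, rfl⟩
  have := h (-w)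
  rwa [neg_neg] at this

/-- the main point: `g0 + t g1 + t ^ 4 g4`, with monomial factors -/
theorem isUnit_main (P : Matrix J J (HahnSeries ℤ A)) (w1 w2 : J → ℤ) (g0 g1 g4 : Matrix J J A)
    (h0 : IsUnit g0)
    (hP : ∀ x y, P x y = HahnSeries.single (w1 x + w2 y) (g0 x y) +
      HahnSeries.single (w1 x + w2 y + 1) (g1 x y) +
      HahnSeries.single (w1 x + w2 y + 4) (g4 x y)) : IsUnit P := by
  have hG : IsUnit (PowerSeries.X ^ 0 * PowerSeries.C g0 + PowerSeries.X ^ 1 * PowerSeries.C g1 +
      PowerSeries.X ^ 4 * PowerSeries.C g4 : PowerSeries (Matrix J J A)) := by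
    apply isUnit_ps
    simpa using h0
  have h2 : P = Dg w1 * Phi (PowerSeries.X ^ 0 * PowerSeries.C g0 +
      PowerSeries.X ^ 1 * PowerSeries.C g1 + PowerSeries.X ^ 4 * PowerSeries.C g4) * Dg w2 := by
    ext1 x y
    rw [Dg, Dg, Matrix.mul_diagonal, Matrix.diagonal_mul, map_add, map_add, Matrix.add_apply,
      Matrix.add_apply, Phi_X_pow_mul, Phi_X_pow_mul, Phi_X_pow_mul, hP, mul_add, mul_add, add_mul,
      add_mul]
    simp only [HahnSeries.single_mul_single, one_mul, mul_one]
    have e0 : w1 x + ((0 : ℕ) : ℤ) + w2 y = w1 x + w2 y := by push_cast; ring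
    have e1 : w1 x + ((1 : ℕ) : ℤ) + w2 y = w1 x + w2 y + 1 := by push_cast; ring
    have e4 : w1 x + ((4 : ℕ) : ℤ) + w2 y = w1 x + w2 y + 4 := by push_cast; ring
    rw [e0, e1, e4]
  rw [h2]
  exact ((isUnit_Dg w1).mul (hG.map Phi)).mul (isUnit_Dg w2)

end ps

section hs
variable {A : Type} [Ring A]

theorem single_smul [Algebra ℂ A] (m : ℤ) (c : ℂ) (x : A) :
    HahnSeries.single m (c • x) = c • HahnSeries.single m x := by
  ext j
  rw [HahnSeries.coeff_smul, HahnSeries.coeff_single, HahnSeries.coeff_single]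
  by_cases h : j = m
  · subst h; simp
  · simp [h]

theorem single_sum {ι : Type} (m : ℤ) (s : Finset ι) (f : ι → A) :
    HahnSeries.single m (∑ i ∈ s, f i) = ∑ i ∈ s, HahnSeries.single m (f i) :=
  map_sum (HahnSeries.single.addMonoidHom (R := A) m) f s

end hs

section cpx

variable {ι : Type} [Fintype ι] {n k : ℕ} (W : Option ι → Matrix (Fin n) (Fin n) ℂ)
  (b : ι → Matrix (Fin 2) (Fin k) ℝ) (Y : ι → Matrix (Fin k) (Fin k) ℝ)

/-- the upper right block -/
noncomputable def B12 : Matrix (Fin n × Fin 2) (Fin n × Fin k) ℂ :=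
  fun x y => ∑ i, W (some i) x.1 y.1 * (b i x.2 y.2 : ℂ)

/-- the lower left block -/
noncomputable def B21 : Matrix (Fin n × Fin k) (Fin n × Fin 2) ℂ :=
  fun x y => ∑ i, W (some i) x.1 y.1 * (b i y.2 x.2 : ℂ)

/-- the lower right block -/
noncomputable def B22 : Matrix (Fin n × Fin k) (Fin n × Fin k) ℂ :=
  fun x y => (if x.2 = y.2 then W none x.1 y.1 else 0) +
    ∑ i, W (some i) x.1 y.1 * (Y i x.2 y.2 : ℂ)

theorem B22_eq : B22 W Y = Matrix.comp _ _ _ _ _ (pev W (cx Y)) := by
  ext ⟨p, u⟩ ⟨q, v⟩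
  change (if u = v then W none p q else 0) + ∑ i, W (some i) p q * (Y i u v : ℂ) =
    (algebraMap ℂ (Matrix (Fin k) (Fin k) ℂ) (W none p q) + ∑ i, W (some i) p q • cx Y i) u v
  rw [Matrix.add_apply, Matrix.sum_apply, Matrix.algebraMap_matrix_apply]
  rfl

theorem schur (M : Matrix (Fin n) (Fin n) (Matrix (Fin k) (Fin k) ℂ)) :
    B12 W b * Matrix.comp _ _ _ _ _ M * B21 W b =
      Matrix.comp _ _ _ _ _ (K0 W (cx b) M) := by
  ext ⟨p, u⟩ ⟨q, v⟩
  have h1 : ∀ (r : Fin n) (y : Fin k), (B12 W b * Matrix.comp _ _ _ _ _ M) (p, u) (r, y) =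
      ∑ s, ∑ i, W (some i) p s * (cx b i * M s r) u y := by
    intro r y
    rw [Matrix.mul_apply, Fintype.sum_prod_type]
    refine Finset.sum_congr rfl fun s _ => ?_
    simp only [Matrix.mul_apply, Finset.mul_sum]
    rw [Finset.sum_comm]
    refine Finset.sum_congr rfl fun x _ => ?_
    change (∑ i, W (some i) p s * (b i u x : ℂ)) * M s r x y = _
    rw [Finset.sum_mul]
    refine Finset.sum_congr rfl fun i _ => ?_
    change _ = W (some i) p s * ((b i u x : ℂ) * M s r x y)
    ring
  rw [Matrix.mul_apply, Fintype.sum_prod_type]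
  simp only [h1]
  change _ = (∑ i, ∑ j, ∑ s, ∑ r, (W (some i) p s * W (some j) r q) •
    (cx b i * M s r * (cx b j)ᵀ)) u v
  have h2 : ∀ r : Fin n, ∑ y : Fin k, (∑ s, ∑ i, W (some i) p s * (cx b i * M s r) u y) *
      B21 W b (r, y) (q, v) =
      ∑ i, ∑ j, ∑ s, (W (some i) p s * W (some j) r q) * (cx b i * M s r * (cx b j)ᵀ) u v := by
    intro r
    have h3 : ∀ y, B21 W b (r, y) (q, v) = ∑ j, W (some j) r q * (b j v y : ℂ) := fun y => rfl
    simp only [h3]
    calc ∑ y : Fin k, (∑ s, ∑ i, W (some i) p s * (cx b i * M s r) u y) *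
          ∑ j, W (some j) r q * (b j v y : ℂ)
        = ∑ y : Fin k, ∑ s, ∑ i, ∑ j, (W (some i) p s * W (some j) r q) *
            ((cx b i * M s r) u y * (b j v y : ℂ)) := by
          refine Finset.sum_congr rfl fun y _ => ?_
          rw [Finset.sum_mul]
          refine Finset.sum_congr rfl fun s _ => ?_
          rw [Finset.sum_mul]
          refine Finset.sum_congr rfl fun i _ => ?_
          rw [Finset.mul_sum]
          refine Finset.sum_congr rfl fun j _ => ?_
          ring
      _ = ∑ s, ∑ i, ∑ j, ∑ y : Fin k, (W (some i) p s * W (some j) r q) *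
            ((cx b i * M s r) u y * (b j v y : ℂ)) := by
          rw [Finset.sum_comm]
          refine Finset.sum_congr rfl fun s _ => ?_
          rw [Finset.sum_comm]
          refine Finset.sum_congr rfl fun i _ => ?_
          rw [Finset.sum_comm]
      _ = ∑ s, ∑ i, ∑ j, (W (some i) p s * W (some j) r q) *
            (cx b i * M s r * (cx b j)ᵀ) u v := by
          refine Finset.sum_congr rfl fun s _ => Finset.sum_congr rfl fun i _ =>
            Finset.sum_congr rfl fun j _ => ?_
          rw [Matrix.mul_apply, Finset.mul_sum]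
          rfl
      _ = _ := by
          rw [Finset.sum_comm]
          refine Finset.sum_congr rfl fun i _ => ?_
          rw [Finset.sum_comm]
  simp only [h2]
  rw [Finset.sum_comm, Matrix.sum_apply]
  refine Finset.sum_congr rfl fun i _ => ?_
  rw [Finset.sum_comm, Matrix.sum_apply]
  refine Finset.sum_congr rfl fun j _ => ?_
  rw [Finset.sum_comm, Matrix.sum_apply]
  refine Finset.sum_congr rfl fun s _ => ?_
  rw [Matrix.sum_apply]
  refine Finset.sum_congr rfl fun r _ => ?_
  rw [Matrix.smul_apply, smul_eq_mul]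

theorem isUnit_blocks (M : Matrix (Fin n) (Fin n) (Matrix (Fin k) (Fin k) ℂ))
    (hM : IsInv (pev W (cx Y)) M) (hK : IsUnit (K0 W (cx b) M)) :
    IsUnit (Matrix.fromBlocks (0 : Matrix (Fin n × Fin 2) (Fin n × Fin 2) ℂ) (B12 W b) (B21 W b)
      (B22 W Y)) := by
  have e1 : B22 W Y * Matrix.comp _ _ _ _ _ M = 1 := by
    rw [B22_eq]
    have := congrArg (Matrix.compRingEquiv (Fin n) (Fin k) ℂ) hM.1
    rwa [map_mul, map_one] at this
  have e2 : Matrix.comp _ _ _ _ _ M * B22 W Y = 1 := by
    rw [B22_eq]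
    have := congrArg (Matrix.compRingEquiv (Fin n) (Fin k) ℂ) hM.2
    rwa [map_mul, map_one] at this
  let _ : Invertible (B22 W Y) := ⟨Matrix.comp _ _ _ _ _ M, e2, e1⟩
  rw [Matrix.isUnit_fromBlocks_iff_of_invertible₂₂]
  have h3 : ⅟(B22 W Y) = Matrix.comp _ _ _ _ _ M := rfl
  rw [h3, schur, zero_sub]
  exact (hK.map (Matrix.compRingEquiv (Fin n) (Fin 2) ℂ)).neg

/-- the complex block matrix with a combined index -/
noncomputable def BB : Matrix (Fin n × (Fin 2 ⊕ Fin k)) (Fin n × (Fin 2 ⊕ Fin k)) ℂ :=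
  (Matrix.fromBlocks (0 : Matrix (Fin n × Fin 2) (Fin n × Fin 2) ℂ) (B12 W b) (B21 W b)
      (B22 W Y)).submatrix (Equiv.prodSumDistrib _ _ _) (Equiv.prodSumDistrib _ _ _)

theorem isUnit_BB (M : Matrix (Fin n) (Fin n) (Matrix (Fin k) (Fin k) ℂ))
    (hM : IsInv (pev W (cx Y)) M) (hK : IsUnit (K0 W (cx b) M)) : IsUnit (BB W b Y) := by
  have h := isUnit_blocks W b Y M hM hK
  rw [Matrix.isUnit_iff_isUnit_det] at h ⊢
  rwa [BB, Matrix.det_submatrix_equiv_self]

end cpx

end Sch

theorem t_sch : S_unit → S_sch := by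
  intro _ ι _ n k W α β hW b Y M hM hK A _ _ a
  classical
  have hu := Sch.isUnit_BB W b Y M hM hK
  have hu2 : IsUnit ((Sch.BB W b Y).map (algebraMap ℂ A)) :=
    hu.map (algebraMap ℂ A).mapMatrix
  -- the coefficients
  let g1 : Matrix (Fin n × (Fin 2 ⊕ Fin k)) (Fin n × (Fin 2 ⊕ Fin k)) A := fun x y =>
    Sum.elim (fun u => Sum.elim (fun v => if u = v then ∑ i, W (some i) x.1 y.1 • a i else 0)
      (fun _ => 0) y.2) (fun _ => 0) x.2
  let g4 : Matrix (Fin n × (Fin 2 ⊕ Fin k)) (Fin n × (Fin 2 ⊕ Fin k)) A := fun x y =>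
    Sum.elim (fun u => Sum.elim (fun v => if u = v then algebraMap ℂ A (W none x.1 y.1) else 0)
      (fun _ => 0) y.2) (fun _ => 0) x.2
  let w1 : Fin n × (Fin 2 ⊕ Fin k) → ℤ := fun x =>
    3 * α x.1 - Sum.elim (fun _ => 2) (fun _ => 0) x.2
  let w2 : Fin n × (Fin 2 ⊕ Fin k) → ℤ := fun x =>
    3 * β x.1 - Sum.elim (fun _ => 2) (fun _ => 0) x.2
  have hP : IsUnit (Matrix.compRingEquiv (Fin n) (Fin 2 ⊕ Fin k) (HahnSeries ℤ A)
      (pev W (pt a b Y))) := by
    refine Sch.isUnit_main _ w1 w2 ((Sch.BB W b Y).map (algebraMap ℂ A)) g1 g4 hu2 ?_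
    rintro ⟨p, u⟩ ⟨q, v⟩
    have hN : ∀ m : ℤ, HahnSeries.single (3 * α p + 3 * β q + m) (algebraMap ℂ A (W none p q)) =
        HahnSeries.single m (algebraMap ℂ A (W none p q)) := by
      intro m
      by_cases h : W none p q = 0
      · rw [h, map_zero, map_zero, map_zero]
      · have := hW.1 p q h
        congr 2
        linarith
    have hL : ∀ (m : ℤ) (i : ι) (c : A), HahnSeries.single (3 * α p + 3 * β q + m)
        (W (some i) p q • c) = HahnSeries.single (m + 3) (W (some i) p q • c) := by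
      intro m i c
      by_cases h : W (some i) p q = 0
      · rw [h, zero_smul, map_zero, map_zero]
      · have := hW.2 i p q h
        congr 2
        linarith
    change ((algebraMap ℂ (FR (Fin 2 ⊕ Fin k) A) (W none p q)) +
      ∑ i, W (some i) p q • pt a b Y i) u v = _
    rw [Matrix.add_apply, Matrix.sum_apply, Matrix.algebraMap_matrix_apply]
    simp only [Matrix.smul_apply]
    have hC : algebraMap ℂ (HahnSeries ℤ A) (W none p q) =
        HahnSeries.single 0 (algebraMap ℂ A (W none p q)) := HahnSeries.algebraMap_apply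
    rcases u with u | u <;> rcases v with v | v
    · -- the first block
      have eB : (Sch.BB W b Y).map (algebraMap ℂ A) (p, Sum.inl u) (q, Sum.inl v) = 0 :=
        map_zero (algebraMap ℂ A)
      have eX : ∀ i, pt a b Y i (Sum.inl u) (Sum.inl v) =
          if u = v then HahnSeries.single 0 (a i) else 0 := fun i => by
        change Matrix.scalar (Fin 2) (HahnSeries.single 0 (a i)) u v = _
        rw [Matrix.scalar_apply, Matrix.diagonal_apply]
      have eg1 : g1 (p, Sum.inl u) (q, Sum.inl v) =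
          if u = v then ∑ i, W (some i) p q • a i else 0 := rfl
      have eg4 : g4 (p, Sum.inl u) (q, Sum.inl v) =
          if u = v then algebraMap ℂ A (W none p q) else 0 := rfl
      have ew1 : w1 (p, Sum.inl u) + w2 (q, Sum.inl v) + 1 = 3 * α p + 3 * β q + (-3) := by
        change 3 * α p - 2 + (3 * β q - 2) + 1 = _
        ring
      have ew4 : w1 (p, Sum.inl u) + w2 (q, Sum.inl v) + 4 = 3 * α p + 3 * β q + 0 := by
        change 3 * α p - 2 + (3 * β q - 2) + 4 = _
        ring
      rw [eB, eg1, eg4, ew1, ew4, map_zero, zero_add]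
      simp only [eX, Sum.inl.injEq]
      by_cases huv : u = v
      · simp only [if_pos huv]
        rw [hN, hC, Sch.single_sum, add_comm]
        congr 1
        refine Finset.sum_congr rfl fun i _ => ?_
        rw [hL, ← Sch.single_smul]
        rfl
      · simp only [if_neg huv, smul_zero, Finset.sum_const_zero, map_zero, add_zero]
    · have eB : (Sch.BB W b Y).map (algebraMap ℂ A) (p, Sum.inl u) (q, Sum.inr v) =
          algebraMap ℂ A (∑ i, W (some i) p q * (b i u v : ℂ)) := rfl
      have eX : ∀ i, pt a b Y i (Sum.inl u) (Sum.inr v) =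
          HahnSeries.single 1 (algebraMap ℂ A (b i u v)) := fun i => rfl
      have eg1 : g1 (p, Sum.inl u) (q, Sum.inr v) = 0 := rfl
      have eg4 : g4 (p, Sum.inl u) (q, Sum.inr v) = 0 := rfl
      have ew : w1 (p, Sum.inl u) + w2 (q, Sum.inr v) = 3 * α p + 3 * β q + (-2) := by
        change 3 * α p - 2 + (3 * β q - 0) = _
        ring
      rw [eB, eg1, eg4, ew, map_zero, map_zero, add_zero, add_zero, if_neg (by simp), zero_add,
        map_sum, Sch.single_sum]
      refine Finset.sum_congr rfl fun i _ => ?_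
      rw [eX, map_mul, ← Algebra.smul_def, hL, ← Sch.single_smul]
      rfl
    · have eB : (Sch.BB W b Y).map (algebraMap ℂ A) (p, Sum.inr u) (q, Sum.inl v) =
          algebraMap ℂ A (∑ i, W (some i) p q * (b i v u : ℂ)) := rfl
      have eX : ∀ i, pt a b Y i (Sum.inr u) (Sum.inl v) =
          HahnSeries.single 1 (algebraMap ℂ A (b i v u)) := fun i => rfl
      have eg1 : g1 (p, Sum.inr u) (q, Sum.inl v) = 0 := rfl
      have eg4 : g4 (p, Sum.inr u) (q, Sum.inl v) = 0 := rfl
      have ew : w1 (p, Sum.inr u) + w2 (q, Sum.inl v) = 3 * α p + 3 * β q + (-2) := by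
        change 3 * α p - 0 + (3 * β q - 2) = _
        ring
      rw [eB, eg1, eg4, ew, map_zero, map_zero, add_zero, add_zero, if_neg (by simp), zero_add,
        map_sum, Sch.single_sum]
      refine Finset.sum_congr rfl fun i _ => ?_
      rw [eX, map_mul, ← Algebra.smul_def, hL, ← Sch.single_smul]
      rfl
    · have eB : (Sch.BB W b Y).map (algebraMap ℂ A) (p, Sum.inr u) (q, Sum.inr v) =
          algebraMap ℂ A ((if u = v then W none p q else 0) +
            ∑ i, W (some i) p q * (Y i u v : ℂ)) := rfl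
      have eX : ∀ i, pt a b Y i (Sum.inr u) (Sum.inr v) =
          HahnSeries.single 3 (algebraMap ℂ A (Y i u v)) := fun i => rfl
      have eg1 : g1 (p, Sum.inr u) (q, Sum.inr v) = 0 := rfl
      have eg4 : g4 (p, Sum.inr u) (q, Sum.inr v) = 0 := rfl
      have ew : w1 (p, Sum.inr u) + w2 (q, Sum.inr v) = 3 * α p + 3 * β q + 0 := by
        change 3 * α p - 0 + (3 * β q - 0) = _
        ring
      have hadd : ∀ (m : ℤ) (x y : A), HahnSeries.single m (x + y) =
          HahnSeries.single m x + HahnSeries.single m y := fun m x y =>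
        map_add (HahnSeries.single.addMonoidHom (R := A) m) x y
      rw [eB, eg1, eg4, ew, map_zero, map_zero, add_zero, add_zero, map_add, hadd,
        map_sum, Sch.single_sum]
      congr 1
      · simp only [Sum.inr.injEq]
        by_cases huv : u = v
        · rw [if_pos huv, if_pos huv, hN, hC]
        · rw [if_neg huv, if_neg huv, map_zero, map_zero]
      · refine Finset.sum_congr rfl fun i _ => ?_
        rw [eX, map_mul, ← Algebra.smul_def, hL, ← Sch.single_smul]
        rfl
  have := hP.map (Matrix.compRingEquiv (Fin n) (Fin 2 ⊕ Fin k) (HahnSeries ℤ A)).symm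
  rwa [RingEquiv.symm_apply_apply] at this

end Pool.Agent.H412.TH
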