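import Pool.Agent.H412.TH.Basic

/-!
TH-Sep (helper388): the formal ring over a free algebra has enough homomorphisms to matrices
over fields.
-/

set_option autoImplicit false

namespace Pool.Agent.H412.TH

open Matrix

namespace Sep

/-! ### the free algebra is separated by matrices -/

open Classical in
/-- the representation attached to the word `w`: the generators -/
noncomputable def gen {ι : Type} (w : List ι) (i : ι) :
    Matrix (Fin (w.length + 1)) (Fin (w.length + 1)) ℂ :=
  fun a b => if w.drop a = i :: w.drop b then 1 else 0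

/-- the representation attached to the word `w` -/
noncomputable def rep {ι : Type} (w : List ι) :
    FreeMonoid ι →* Matrix (Fin (w.length + 1)) (Fin (w.length + 1)) ℂ :=
  FreeMonoid.lift (gen w)

theorem drop_inj {ι : Type} (w : List ι) (a b : Fin (w.length + 1))
    (h : w.drop a = w.drop b) : a = b := by
  have h1 := congrArg List.length h
  simp only [List.length_drop] at h1
  have ha := a.2
  have hb := b.2
  apply Fin.ext
  omega

open Classical in
theorem rep_apply {ι : Type} (w : List ι) (u : List ι) (a b : Fin (w.length + 1)) :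
    rep w (FreeMonoid.ofList u) a b = if w.drop a = u ++ w.drop b then 1 else 0 := by
  induction u generalizing a with
  | nil =>
    have : FreeMonoid.ofList ([] : List ι) = 1 := rfl
    rw [this, map_one, Matrix.one_apply]
    simp only [List.nil_append]
    by_cases h : a = b
    · simp [h]
    · rw [if_neg h, if_neg]
      intro h'
      exact h (drop_inj w a b h')
  | cons i u ih =>
    have : FreeMonoid.ofList (i :: u) = FreeMonoid.of i * FreeMonoid.ofList u := rfl
    rw [this, map_mul, Matrix.mul_apply]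
    have hg : rep w (FreeMonoid.of i) = gen w i := by
      simp [rep]
    rw [hg]
    simp only [ih]
    by_cases h : w.drop a = (i :: u) ++ w.drop b
    · rw [if_pos h]
      have hlt : (a : ℕ) < w.length := by
        by_contra hc
        have : w.drop a = [] := List.drop_eq_nil_of_le (by omega)
        rw [this] at h
        simp at h
      let c : Fin (w.length + 1) := ⟨a + 1, by omega⟩
      have hc : w.drop (a + 1) = u ++ w.drop b := by
        have h2 : w.drop a = w[(a : ℕ)] :: w.drop (a + 1) := List.drop_eq_getElem_cons hlt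
        rw [h2] at h
        simp only [List.cons_append, List.cons.injEq] at h
        exact h.2
      have hc1 : w.drop a = i :: w.drop (a + 1) := by
        rw [hc]; simpa using h
      rw [Finset.sum_eq_single c]
      · simp only [gen, c]
        rw [if_pos hc1, if_pos hc]
        simp
      · intro d _ hd
        rw [if_neg, mul_zero]
        intro h'
        apply hd
        apply drop_inj
        simp only [c]
        rw [h', hc]
      · simp
    · rw [if_neg h]
      apply Finset.sum_eq_zero
      intro d _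
      by_cases h1 : w.drop a = i :: w.drop d
      · rw [if_neg, mul_zero]
        intro h2
        apply h
        rw [h1, h2]; simp
      · simp [gen, h1]

theorem free_sep {ι : Type} (f : FreeAlgebra ℂ ι) (hf : f ≠ 0) :
    ∃ (m : ℕ) (φ : FreeAlgebra ℂ ι →ₐ[ℂ] Matrix (Fin m) (Fin m) ℂ), φ f ≠ 0 := by
  classical
  let e : FreeAlgebra ℂ ι ≃ₐ[ℂ] MonoidAlgebra ℂ (FreeMonoid ι) :=
    FreeAlgebra.equivMonoidAlgebraFreeMonoid
  have hF : e f ≠ 0 := by
    intro h
    exact hf (e.map_eq_zero_iff.mp h)
  obtain ⟨w, hw⟩ : ∃ w, (e f).coeff w ≠ 0 := by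
    by_contra hc
    push Not at hc
    exact hF (MonoidAlgebra.ext (Finsupp.ext fun w => hc w))
  refine ⟨w.toList.length + 1, (MonoidAlgebra.lift ℂ _ (FreeMonoid ι) (rep w.toList)).comp
    e.toAlgHom, ?_⟩
  intro h0
  have h1 : (MonoidAlgebra.lift ℂ _ (FreeMonoid ι) (rep w.toList)) (e f) = 0 := h0
  rw [MonoidAlgebra.lift_apply] at h1
  have h2 := congrFun (congrFun h1 0) (Fin.last _)
  rw [Finsupp.sum, Matrix.sum_apply] at h2
  simp only [Matrix.smul_apply, Matrix.zero_apply, smul_eq_mul] at h2
  rw [Finset.sum_eq_single w] at h2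
  · have h3 := rep_apply w.toList w.toList 0 (Fin.last _)
    rw [if_pos (by simp)] at h3
    rw [show FreeMonoid.ofList w.toList = w from rfl] at h3
    rw [h3, mul_one] at h2
    exact hw h2
  · intro u _ hu
    have h3 := rep_apply w.toList u.toList 0 (Fin.last _)
    rw [if_neg, show FreeMonoid.ofList u.toList = u from rfl] at h3
    · rw [h3, mul_zero]
    · intro h'
      apply hu
      have : w.toList = u.toList := by simpa using h'
      exact (FreeMonoid.toList.injective this).symm
  · intro h'
    simp only [Finsupp.mem_support_iff, not_not] at h'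
    exact absurd h' hw

/-! ### coefficientwise homomorphisms -/

open Finset in
theorem coeff_mul_of_subset {R : Type} [Ring R] (X Y : HahnSeries ℤ R) {s t : Set ℤ}
    (hs : s.IsPWO) (ht : t.IsPWO) (h1 : X.support ⊆ s) (h2 : Y.support ⊆ t) (n : ℤ) :
    (X * Y).coeff n = ∑ ij ∈ Finset.antidiagonal hs ht n, X.coeff ij.1 * Y.coeff ij.2 := by
  rw [HahnSeries.coeff_mul]
  apply Finset.sum_subset_zero_on_sdiff
  · intro ij hij
    rw [Finset.mem_antidiagonal] at hij ⊢
    exact ⟨h1 hij.1, h2 hij.2.1, hij.2.2⟩
  · intro ij hij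
    simp only [mem_sdiff, Finset.mem_antidiagonal, not_and_or, HahnSeries.mem_support] at hij
    rcases hij with ⟨⟨_, _, h5⟩, h6 | h6 | h6⟩
    · rw [not_not.mp h6, zero_mul]
    · rw [not_not.mp h6, mul_zero]
    · exact absurd h5 h6
  · intros; rfl

variable {A : Type} [Ring A] [Algebra ℂ A] {m : ℕ}

/-- the coefficientwise algebra structure -/
@[reducible] noncomputable def algL : Algebra ℝ (HahnSeries ℤ ℂ) where
  algebraMap := HahnSeries.C.comp (algebraMap ℝ ℂ)
  smul_def' r x := by
    ext
    simp
  commutes' r x := mul_comm _ _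

attribute [local instance 2000] algL

/-- the entries of the image -/
noncomputable def ent (φ : A →ₐ[ℂ] Matrix (Fin m) (Fin m) ℂ) (x : HahnSeries ℤ A)
    (a b : Fin m) : HahnSeries ℤ ℂ :=
  x.map ((⟨fun t => φ t a b, by simp⟩ : ZeroHom A ℂ))

theorem ent_coeff (φ : A →ₐ[ℂ] Matrix (Fin m) (Fin m) ℂ) (x : HahnSeries ℤ A)
    (a b : Fin m) (n : ℤ) : (ent φ x a b).coeff n = φ (x.coeff n) a b := rfl

theorem ent_supp (φ : A →ₐ[ℂ] Matrix (Fin m) (Fin m) ℂ) (x : HahnSeries ℤ A)
    (a b : Fin m) : (ent φ x a b).support ⊆ x.support := by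
  intro n hn
  rw [HahnSeries.mem_support] at hn ⊢
  intro h
  apply hn
  rw [ent_coeff, h]
  simp

theorem ent_mul (φ : A →ₐ[ℂ] Matrix (Fin m) (Fin m) ℂ) (x y : HahnSeries ℤ A)
    (a b : Fin m) : ent φ (x * y) a b = ∑ c, ent φ x a c * ent φ y c b := by
  apply HahnSeries.ext
  funext n
  rw [ent_coeff, HahnSeries.coeff_mul, map_sum, Matrix.sum_apply]
  have : (∑ c, ent φ x a c * ent φ y c b).coeff n =
      ∑ c, (ent φ x a c * ent φ y c b).coeff n := by
    rw [← HahnSeries.coeff.addMonoidHom_apply n, map_sum]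
    rfl
  rw [this]
  have h2 : ∀ c, (ent φ x a c * ent φ y c b).coeff n =
      ∑ ij ∈ Finset.antidiagonal x.isPWO_support y.isPWO_support n,
        φ (x.coeff ij.1) a c * φ (y.coeff ij.2) c b := fun c =>
    coeff_mul_of_subset _ _ x.isPWO_support y.isPWO_support (ent_supp φ x a c)
      (ent_supp φ y c b) n
  simp only [h2]
  rw [Finset.sum_comm]
  apply Finset.sum_congr rfl
  intro ij _
  rw [map_mul, Matrix.mul_apply]

/-- the homomorphism to matrices of Laurent series -/
noncomputable def coef (φ : A →ₐ[ℂ] Matrix (Fin m) (Fin m) ℂ) :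
    HahnSeries ℤ A →ₐ[ℝ] Matrix (Fin m) (Fin m) (HahnSeries ℤ ℂ) where
  toFun x := fun a b => ent φ x a b
  map_one' := by
    funext a b
    apply HahnSeries.ext
    funext n
    rw [ent_coeff, HahnSeries.coeff_one, Matrix.one_apply]
    by_cases h : n = 0
    · by_cases h2 : a = b
      · simp [h, h2]
      · simp [h, h2]
    · by_cases h2 : a = b
      · simp [h, h2, HahnSeries.coeff_one]
      · simp [h, h2]
  map_mul' x y := by
    funext a b
    rw [ent_mul, Matrix.mul_apply]
  map_zero' := by
    funext a b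
    apply HahnSeries.ext
    funext n
    rw [ent_coeff]
    simp
  map_add' x y := by
    funext a b
    apply HahnSeries.ext
    funext n
    rw [ent_coeff]
    simp [ent_coeff]
  commutes' r := by
    funext a b
    apply HahnSeries.ext
    funext n
    rw [ent_coeff, HahnSeries.algebraMap_apply, Matrix.algebraMap_matrix_apply]
    have hr : algebraMap ℝ A r = algebraMap ℂ A (r : ℂ) := rfl
    have hr2 : algebraMap ℝ (HahnSeries ℤ ℂ) r = HahnSeries.C (r : ℂ) := rfl
    rw [hr2]
    rw [HahnSeries.C_apply]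
    by_cases h : n = 0
    · subst h
      rw [HahnSeries.coeff_single_same, hr, AlgHom.commutes, Matrix.algebraMap_matrix_apply]
      by_cases h2 : a = b
      · simp [h2]
      · simp [h2]
    · rw [HahnSeries.coeff_single_of_ne h]
      by_cases h2 : a = b
      · simp [h2, HahnSeries.coeff_single_of_ne h]
      · simp [h2]

theorem coef_apply (φ : A →ₐ[ℂ] Matrix (Fin m) (Fin m) ℂ) (x : HahnSeries ℤ A) (a b : Fin m) :
    coef φ x a b = ent φ x a b := rfl

end Sep

attribute [local instance 2000] Sep.algL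

theorem t_sep : S_sep := by
  intro ι K _ _ _ x hx
  classical
  obtain ⟨p, q, hpq⟩ : ∃ p q, x p q ≠ 0 := by
    by_contra hc
    push Not at hc
    exact hx (by ext1 p q; exact hc p q)
  obtain ⟨n, hn⟩ : ∃ n, (x p q).coeff n ≠ 0 := by
    by_contra hc
    push Not at hc
    exact hpq (HahnSeries.ext (funext hc))
  obtain ⟨m, φ, hφ⟩ := Sep.free_sep (ι := ι) ((x p q).coeff n : FA ι) hn
  let φ' : FA ι →ₐ[ℂ] Matrix (Fin m) (Fin m) ℂ := φ
  let ψ : FR K (FA ι) →ₐ[ℝ] Matrix K K (Matrix (Fin m) (Fin m) (HahnSeries ℤ ℂ)) :=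
    (Sep.coef φ').mapMatrix
  let e1 : Matrix K K (Matrix (Fin m) (Fin m) (HahnSeries ℤ ℂ)) ≃ₐ[ℝ]
    Matrix (K × Fin m) (K × Fin m) (HahnSeries ℤ ℂ) :=
    Matrix.compAlgEquiv K (Fin m) (HahnSeries ℤ ℂ) ℝ
  let e2 := Matrix.reindexAlgEquiv ℝ (HahnSeries ℤ ℂ) (Fintype.equivFin (K × Fin m))
  refine ⟨Fintype.card (K × Fin m), HahnSeries ℤ ℂ, inferInstance, inferInstance,
    (e2.toAlgHom.comp e1.toAlgHom).comp ψ, ?_⟩
  intro h0
  have h1 : e2 (e1 (ψ x)) = 0 := h0
  have h2 : e1 (ψ x) = 0 := by simpa using h1
  have h3 : ψ x = 0 := by simpa using h2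
  have h4 : ∀ a b, φ' ((x p q).coeff n) a b = 0 := by
    intro a b
    have h5 := congrFun (congrFun (congrFun (congrFun h3 p) q) a) b
    have h6 : (ψ x p q a b).coeff n = 0 := by
      rw [h5]; rfl
    exact h6
  apply hφ
  ext a b
  exact h4 a b

end Pool.Agent.H412.TH
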