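import Pool.Agent.H412.TH.Basic

/-!
MP_0219da, task SYM (helper722): from arbitrary to symmetric real matrices.
-/

set_option autoImplicit false

namespace Pool.Agent.H412.TH

open Matrix

namespace Sym

/-- homogenized pencil -/
noncomputable def hp {ι n : Type} [Fintype ι] [Fintype n] [DecidableEq n] {r : ℕ}
    (W : Option ι → Matrix (Fin r) (Fin r) ℝ) (X0 : Matrix n n ℝ) (X : ι → Matrix n n ℝ) :
    Matrix (Fin r) (Fin r) (Matrix n n ℝ) :=
  fun p q => W none p q • X0 + ∑ i, W (some i) p q • X i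

theorem pev_eq_hp {ι n : Type} [Fintype ι] [Fintype n] [DecidableEq n] {r : ℕ}
    (W : Option ι → Matrix (Fin r) (Fin r) ℝ) (X : ι → Matrix n n ℝ) :
    pev W X = hp W 1 X := by
  refine Matrix.ext fun p q => ?_
  simp only [pev, hp, Algebra.algebraMap_eq_smul_one]

/-- invertibility on a line fails at finitely many points only -/
theorem line {n : Type} [Fintype n] [DecidableEq n] {r : ℕ}
    (A B : Matrix (Fin r) (Fin r) (Matrix n n ℝ)) (t₀ : ℝ) (h : IsUnit (A + t₀ • B)) :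
    {t : ℝ | ¬ IsUnit (A + t • B)}.Finite := by
  classical
  set A' : Matrix (Fin r × n) (Fin r × n) ℝ := Matrix.compRingEquiv (Fin r) n ℝ A with hA'
  set B' : Matrix (Fin r × n) (Fin r × n) ℝ := Matrix.compRingEquiv (Fin r) n ℝ B with hB'
  let PM : Matrix (Fin r × n) (Fin r × n) (Polynomial ℝ) :=
    A'.map Polynomial.C + (Polynomial.X : Polynomial ℝ) • B'.map Polynomial.C
  have hev : ∀ t : ℝ, PM.det.eval t = (A' + t • B').det := by
    intro t
    have h1 : PM.det.eval t = (Polynomial.evalRingHom t) PM.det := rfl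
    rw [h1, RingHom.map_det]
    congr 1
    ext i j
    simp only [PM, RingHom.mapMatrix_apply, Matrix.map_apply, Matrix.add_apply, Matrix.smul_apply,
      smul_eq_mul, map_add, Polynomial.coe_evalRingHom, Polynomial.eval_C]
    rw [Polynomial.eval_mul, Polynomial.eval_X, Polynomial.eval_C]
  have hiff : ∀ t : ℝ, IsUnit (A + t • B) ↔ PM.det.eval t ≠ 0 := by
    intro t
    rw [hev, ← isUnit_iff_ne_zero, ← Matrix.isUnit_iff_isUnit_det]
    have h2 : A' + t • B' = Matrix.compRingEquiv (Fin r) n ℝ (A + t • B) := by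
      rw [map_add, hA', hB']
      congr 1
    rw [h2]
    exact (isUnit_map_iff (Matrix.compRingEquiv (Fin r) n ℝ) _).symm
  have hne : PM.det ≠ 0 := by
    intro h0
    have := (hiff t₀).1 h
    rw [h0] at this
    simp at this
  refine (PM.det.roots.toFinset.finite_toSet).subset fun t ht => ?_
  simp only [Set.mem_ofPred_eq, hiff, not_not] at ht
  simp only [Finset.mem_coe, Multiset.mem_toFinset]
  exact (Polynomial.mem_roots hne).2 ht

/-- both the tuple and its transpose -/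
theorem step1 {ι n : Type} [Fintype ι] [Fintype n] [DecidableEq n] {r : ℕ}
    (W : Option ι → Matrix (Fin r) (Fin r) ℝ) (Z : ι → Matrix n n ℝ) (h : IsUnit (pev W Z)) :
    ∃ V : ι → Matrix n n ℝ, IsUnit (pev W V) ∧ IsUnit (pev W fun i => (V i)ᵀ) := by
  have key : ∀ (X Y : ι → Matrix n n ℝ) (t : ℝ),
      pev W (fun i => X i + t • (Y i - X i)) = pev W X + t • (pev W Y - pev W X) := by
    intro X Y t
    refine Matrix.ext fun p q => ?_
    simp only [pev, Matrix.add_apply, Matrix.smul_apply, Matrix.sub_apply, smul_add, smul_sub,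
      Finset.sum_add_distrib, Finset.sum_sub_distrib, Finset.smul_sum]
    simp only [smul_comm t]
    abel
  have h1 := line (pev W Z) (pev W (fun i => (Z i)ᵀ) - pev W Z) 0 (by simpa using h)
  have h2 := line (pev W (fun i => (Z i)ᵀ)) (pev W Z - pev W (fun i => (Z i)ᵀ)) 1 (by simpa using h)
  obtain ⟨t, ht⟩ := ((h1.union h2).infinite_compl).nonempty
  simp only [Set.compl_union, Set.mem_inter_iff, Set.mem_compl_iff, Set.mem_ofPred_eq,
    not_not] at ht
  refine ⟨fun i => Z i + t • ((Z i)ᵀ - Z i), ?_, ?_⟩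
  · rw [key Z (fun i => (Z i)ᵀ) t]; exact ht.1
  · have : (fun i => (Z i + t • ((Z i)ᵀ - Z i))ᵀ) =
        fun i => (Z i)ᵀ + t • (Z i - (Z i)ᵀ) := by
      funext i
      simp [Matrix.transpose_add, Matrix.transpose_smul, Matrix.transpose_sub]
    rw [this, key (fun i => (Z i)ᵀ) Z t]; exact ht.2

/-- the doubled tuple -/
theorem step2 {ι n : Type} [Fintype ι] [Fintype n] [DecidableEq n] {r : ℕ}
    (W : Option ι → Matrix (Fin r) (Fin r) ℝ) (V : ι → Matrix n n ℝ) (h : IsUnit (pev W V))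
    (h' : IsUnit (pev W fun i => (V i)ᵀ)) :
    IsUnit (hp W (Matrix.fromBlocks 0 1 1 0 : Matrix (n ⊕ n) (n ⊕ n) ℝ)
      (fun i => Matrix.fromBlocks 0 (V i) (V i)ᵀ 0)) := by
  obtain ⟨u, hu⟩ := h
  obtain ⟨u', hu'⟩ := h'
  have e1 : pev W V * (↑u⁻¹ : Matrix (Fin r) (Fin r) (Matrix n n ℝ)) = 1 := by
    rw [← hu]; exact u.mul_inv
  have e2 : (↑u⁻¹ : Matrix (Fin r) (Fin r) (Matrix n n ℝ)) * pev W V = 1 := by
    rw [← hu]; exact u.inv_mul
  have e1' : pev W (fun i => (V i)ᵀ) * (↑u'⁻¹ : Matrix (Fin r) (Fin r) (Matrix n n ℝ)) = 1 := by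
    rw [← hu']; exact u'.mul_inv
  have e2' : (↑u'⁻¹ : Matrix (Fin r) (Fin r) (Matrix n n ℝ)) * pev W (fun i => (V i)ᵀ) = 1 := by
    rw [← hu']; exact u'.inv_mul
  set M := (↑u⁻¹ : Matrix (Fin r) (Fin r) (Matrix n n ℝ)) with hM
  set M' := (↑u'⁻¹ : Matrix (Fin r) (Fin r) (Matrix n n ℝ)) with hM'
  have hA : ∀ p q, hp W (Matrix.fromBlocks 0 1 1 0 : Matrix (n ⊕ n) (n ⊕ n) ℝ)
      (fun i => Matrix.fromBlocks 0 (V i) (V i)ᵀ 0) p q =
      Matrix.fromBlocks 0 (pev W V p q) (pev W (fun i => (V i)ᵀ) p q) 0 := by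
    intro p q
    rw [pev_eq_hp, pev_eq_hp]
    unfold hp
    have hs : ∀ s : Finset ι, ∑ i ∈ s, W (some i) p q • Matrix.fromBlocks 0 (V i) (V i)ᵀ 0 =
        Matrix.fromBlocks 0 (∑ i ∈ s, W (some i) p q • V i)
          (∑ i ∈ s, W (some i) p q • (V i)ᵀ) (0 : Matrix n n ℝ) := by
      classical
      intro s
      induction s using Finset.induction_on with
      | empty => simp
      | insert a s ha ih =>
        rw [Finset.sum_insert ha, Finset.sum_insert ha, Finset.sum_insert ha, ih,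
          Matrix.fromBlocks_smul, Matrix.fromBlocks_add]
        simp
    rw [hs, Matrix.fromBlocks_smul, Matrix.fromBlocks_add]
    simp
  let N : Matrix (Fin r) (Fin r) (Matrix (n ⊕ n) (n ⊕ n) ℝ) :=
    fun p q => Matrix.fromBlocks 0 (M' p q) (M p q) 0
  have sumB : ∀ (s : Finset (Fin r)) (f g : Fin r → Matrix n n ℝ),
      ∑ i ∈ s, Matrix.fromBlocks (f i) 0 0 (g i) =
        Matrix.fromBlocks (∑ i ∈ s, f i) 0 0 (∑ i ∈ s, g i) := by
    intro s f g
    classical
    induction s using Finset.induction_on with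
    | empty => simp
    | insert a s ha ih =>
      rw [Finset.sum_insert ha, Finset.sum_insert ha, Finset.sum_insert ha, ih,
        Matrix.fromBlocks_add]
      simp
  have oneB : ∀ p q : Fin r, (1 : Matrix (Fin r) (Fin r) (Matrix (n ⊕ n) (n ⊕ n) ℝ)) p q =
      Matrix.fromBlocks ((1 : Matrix (Fin r) (Fin r) (Matrix n n ℝ)) p q) 0 0
        ((1 : Matrix (Fin r) (Fin r) (Matrix n n ℝ)) p q) := by
    intro p q
    by_cases hpq : p = q
    · subst hpq; simp
    · simp [Matrix.one_apply_ne hpq]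
  have m1 : hp W (Matrix.fromBlocks 0 1 1 0 : Matrix (n ⊕ n) (n ⊕ n) ℝ)
      (fun i => Matrix.fromBlocks 0 (V i) (V i)ᵀ 0) * N = 1 := by
    refine Matrix.ext fun p q => ?_
    rw [Matrix.mul_apply, oneB]
    have h0 : Matrix.fromBlocks ((1 : Matrix (Fin r) (Fin r) (Matrix n n ℝ)) p q) 0 0
        ((1 : Matrix (Fin r) (Fin r) (Matrix n n ℝ)) p q) =
        Matrix.fromBlocks ((pev W V * M) p q) 0 0 ((pev W (fun i => (V i)ᵀ) * M') p q) := by
      rw [e1, e1']
    rw [h0, Matrix.mul_apply, Matrix.mul_apply, ← sumB]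
    refine Finset.sum_congr rfl fun i _ => ?_
    rw [hA, Matrix.fromBlocks_multiply]
    simp
  have m2 : N * hp W (Matrix.fromBlocks 0 1 1 0 : Matrix (n ⊕ n) (n ⊕ n) ℝ)
      (fun i => Matrix.fromBlocks 0 (V i) (V i)ᵀ 0) = 1 := by
    refine Matrix.ext fun p q => ?_
    rw [Matrix.mul_apply, oneB]
    have h0 : Matrix.fromBlocks ((1 : Matrix (Fin r) (Fin r) (Matrix n n ℝ)) p q) 0 0
        ((1 : Matrix (Fin r) (Fin r) (Matrix n n ℝ)) p q) =
        Matrix.fromBlocks ((M' * pev W (fun i => (V i)ᵀ)) p q) 0 0 ((M * pev W V) p q) := by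
      rw [e2, e2']
    rw [h0, Matrix.mul_apply, Matrix.mul_apply, ← sumB]
    refine Finset.sum_congr rfl fun i _ => ?_
    rw [hA, Matrix.fromBlocks_multiply]
    simp
  exact ⟨⟨_, N, m1, m2⟩, rfl⟩

end Sym

theorem t_sym : S_sym := by
  intro ι _ r W ⟨s, hs, Z, hZ⟩
  obtain ⟨V, hV, hV'⟩ := Sym.step1 W Z hZ
  have h2 := Sym.step2 W V hV hV'
  set X0 : Matrix (Fin s ⊕ Fin s) (Fin s ⊕ Fin s) ℝ := Matrix.fromBlocks 0 1 1 0 with hX0
  set X : ι → Matrix (Fin s ⊕ Fin s) (Fin s ⊕ Fin s) ℝ :=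
    fun i => Matrix.fromBlocks 0 (V i) (V i)ᵀ 0 with hX
  -- a good value of the parameter
  have h3 := Sym.line (Sym.hp W X0 X) (Sym.hp W 1 0) 0 (by simpa using h2)
  obtain ⟨μ, hμ, hμ1⟩ := (Set.infinite_of_not_bddAbove (s := Set.Ioi (1:ℝ))
    (by simpa using not_bddAbove_Ioi (1:ℝ))).exists_notMem_finite h3
  simp only [Set.mem_ofPred_eq, not_not] at hμ1
  have hμ0 : (1:ℝ) < μ := hμ
  have h4 : Sym.hp W X0 X + μ • Sym.hp W 1 0 = Sym.hp W (X0 + μ • 1) X := by
    refine Matrix.ext fun p q => ?_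
    simp only [Sym.hp, Matrix.add_apply, Matrix.smul_apply, Pi.zero_apply, smul_zero,
      Finset.sum_const_zero, add_zero, smul_add, smul_comm μ]
    abel
  rw [h4] at hμ1
  -- the factorization
  have hμp : 0 < μ := by linarith
  set a : ℝ := Real.sqrt μ with ha
  have ha0 : 0 < a := Real.sqrt_pos.2 hμp
  have haa : a * a = μ := Real.mul_self_sqrt hμp.le
  have hd : 0 < μ - 1 / μ := by
    rw [sub_pos, div_lt_iff₀ hμp]; nlinarith
  set d : ℝ := Real.sqrt (μ - 1 / μ) with hd'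
  have hd0 : 0 < d := Real.sqrt_pos.2 hd
  have hdd : d * d = μ - 1 / μ := Real.mul_self_sqrt hd.le
  set D : Matrix (Fin s ⊕ Fin s) (Fin s ⊕ Fin s) ℝ :=
    Matrix.fromBlocks (a⁻¹ • 1) 0 ((-(a⁻¹ * a⁻¹ * d⁻¹)) • 1) (d⁻¹ • 1) with hD
  set C : Matrix (Fin s ⊕ Fin s) (Fin s ⊕ Fin s) ℝ :=
    Matrix.fromBlocks (a • 1) 0 (a⁻¹ • 1) (d • 1) with hC
  have hne := ha0.ne'
  have hdne := hd0.ne'
  have hDC : D * C = 1 := by
    rw [hD, hC, Matrix.fromBlocks_multiply, ← Matrix.fromBlocks_one]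
    congr 1
    · simp [smul_smul, inv_mul_cancel₀ hne, mul_inv_cancel₀ hne]
    · simp
    · simp only [Matrix.smul_mul, Matrix.mul_smul, Matrix.one_mul, smul_smul, ← add_smul]
      rw [show a * -(a⁻¹ * a⁻¹ * d⁻¹) + a⁻¹ * d⁻¹ = 0 by field_simp; ring, zero_smul]
    · simp [smul_smul, inv_mul_cancel₀ hdne, mul_inv_cancel₀ hdne]
  have hCD : C * D = 1 := mul_eq_one_comm.1 hDC
  have hCC : C * Cᵀ = X0 + μ • 1 := by
    rw [hC, Matrix.fromBlocks_transpose, Matrix.fromBlocks_multiply, hX0,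
      ← Matrix.fromBlocks_one, Matrix.fromBlocks_smul, Matrix.fromBlocks_add]
    congr 1
    · simp [smul_smul, haa]
    · simp [smul_smul, mul_inv_cancel₀ hne, inv_mul_cancel₀ hne]
    · simp [smul_smul, inv_mul_cancel₀ hne, mul_inv_cancel₀ hne]
    · simp only [Matrix.transpose_smul, Matrix.transpose_one, Matrix.smul_mul, Matrix.mul_smul,
        Matrix.mul_one, smul_smul, ← add_smul, zero_add]
      congr 1
      rw [← haa] at hdd ⊢
      rw [hdd]
      field_simp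
      ring
  have hDS : D * (X0 + μ • 1) * Dᵀ = 1 := by
    rw [← hCC]
    calc D * (C * Cᵀ) * Dᵀ = (D * C) * (D * C)ᵀ := by
          rw [Matrix.transpose_mul]; simp only [Matrix.mul_assoc]
      _ = 1 := by rw [hDC]; simp
  set Y : ι → Matrix (Fin s ⊕ Fin s) (Fin s ⊕ Fin s) ℝ := fun i => D * X i * Dᵀ with hY
  have hYs : ∀ i, (Y i)ᵀ = Y i := by
    intro i
    simp only [hY, Matrix.transpose_mul, Matrix.transpose_transpose, Matrix.mul_assoc]
    congr 2
    simp only [hX, Matrix.fromBlocks_transpose, Matrix.transpose_zero, Matrix.transpose_transpose]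
  have h5 : pev W Y = Matrix.scalar (Fin r) D * Sym.hp W (X0 + μ • 1) X *
      Matrix.scalar (Fin r) Dᵀ := by
    refine Matrix.ext fun p q => ?_
    rw [Sym.pev_eq_hp]
    simp only [Matrix.scalar_apply, Matrix.mul_diagonal, Matrix.diagonal_mul]
    unfold Sym.hp
    rw [Matrix.mul_add, Matrix.add_mul, Matrix.mul_smul, Matrix.smul_mul, hDS, Matrix.mul_sum,
      Matrix.sum_mul]
    congr 1
    refine Finset.sum_congr rfl fun i _ => ?_
    rw [Matrix.mul_smul, Matrix.smul_mul]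
  have hDu : IsUnit D := ⟨⟨D, C, hDC, hCD⟩, rfl⟩
  have hDu' : IsUnit Dᵀ := ⟨⟨Dᵀ, Cᵀ, by rw [← Matrix.transpose_mul, hCD, Matrix.transpose_one],
    by rw [← Matrix.transpose_mul, hDC, Matrix.transpose_one]⟩, rfl⟩
  have h6 : IsUnit (pev W Y) := by
    rw [h5]
    exact ((hDu.map (Matrix.scalar (Fin r))).mul hμ1).mul (hDu'.map (Matrix.scalar (Fin r)))
  -- reindex
  let e : Fin s ⊕ Fin s ≃ Fin (s + s) := finSumFinEquiv
  let φ : Matrix (Fin s ⊕ Fin s) (Fin s ⊕ Fin s) ℝ ≃ₐ[ℝ] Matrix (Fin (s + s)) (Fin (s + s)) ℝ :=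
    Matrix.reindexAlgEquiv ℝ ℝ e
  refine ⟨s + s, by omega, fun i => φ (Y i), fun i => ?_, ?_⟩
  · show (Matrix.reindexAlgEquiv ℝ ℝ e (Y i))ᵀ = Matrix.reindexAlgEquiv ℝ ℝ e (Y i)
    rw [Matrix.coe_reindexAlgEquiv, Matrix.transpose_reindex, hYs i]
  · have h7 : pev W (fun i => φ (Y i)) = (pev W Y).map φ := (pev_map φ.toAlgHom W Y).symm
    rw [h7]
    exact h6.map (φ.toAlgHom.toRingHom.mapMatrix (m := Fin r))

end Pool.Agent.H412.TH
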