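import Pool.Agent.H412.TH.Basic

/-!
MP_0219da (helper412): block Toeplitz pencils.
-/

set_option autoImplicit false
set_option linter.unusedSectionVars false

namespace Pool.Agent.H412.TH

open Matrix

namespace Toep

/-! ## linear algebra: ranks and kernels -/

section Gen

variable {I J : Type} [Fintype I] [DecidableEq I] [Fintype J] [DecidableEq J]

/-- the rank-nullity formula for square matrices -/
theorem finrank_ker_add (A : Matrix I I ℝ) :
    A.rank + Module.finrank ℝ (LinearMap.ker A.mulVecLin) = Fintype.card I := by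
  have h := LinearMap.finrank_range_add_finrank_ker A.mulVecLin
  rw [Module.finrank_fintype_fun_eq_card] at h
  exact h

/-- the matrix `M'` put in the rows `b` and columns `a` -/
noncomputable def gmm (a b : J → I) (M : Matrix J J ℝ) : Matrix I I ℝ :=
  fun x y => ∑ u, ∑ v, if b u = x ∧ a v = y then M u v else 0

theorem gmm_eq (a b : J → I) (M : Matrix J J ℝ) :
    gmm a b M = (Matrix.of fun (x : I) (u : J) => if b u = x then (1 : ℝ) else 0) * M *
      (Matrix.of fun (v : J) (y : I) => if a v = y then (1 : ℝ) else 0) := by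
  ext x y
  simp only [gmm, Matrix.mul_apply, Matrix.of_apply]
  simp only [Finset.sum_mul]
  rw [Finset.sum_comm]
  refine Finset.sum_congr rfl fun v _ => Finset.sum_congr rfl fun u _ => ?_
  by_cases h1 : b u = x <;> by_cases h2 : a v = y <;> simp [h1, h2]

theorem sub_eq (R : Matrix I I ℝ) (a b : J → I) :
    R.submatrix a b = (Matrix.of fun (v : J) (y : I) => if a v = y then (1 : ℝ) else 0) * R *
      (Matrix.of fun (x : I) (u : J) => if b u = x then (1 : ℝ) else 0) := by
  ext v u
  simp [Matrix.mul_apply]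

theorem rank_ge (R : Matrix I I ℝ) (a b : J → I) (M : Matrix J J ℝ)
    (h : R.submatrix a b * M = 1) : Fintype.card J ≤ R.rank := by
  rw [sub_eq] at h
  have h1 : (1 : Matrix J J ℝ).rank = Fintype.card J := Matrix.rank_one
  rw [← h1, ← h]
  refine (Matrix.rank_mul_le_left _ _).trans ((Matrix.rank_mul_le_left _ _).trans
    (Matrix.rank_mul_le_right _ _))

theorem sandwich (R : Matrix I I ℝ) (a b : J → I) (M : Matrix J J ℝ)
    (h : R.submatrix a b * M = 1) (hr : R.rank ≤ Fintype.card J) :
    R * gmm a b M * R = R := by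
  rw [gmm_eq]
  rw [sub_eq] at h
  set P : Matrix J I ℝ := Matrix.of fun (v : J) (y : I) => if a v = y then (1 : ℝ) else 0 with hP
  set E : Matrix I J ℝ := Matrix.of fun (x : I) (u : J) => if b u = x then (1 : ℝ) else 0 with hE
  have h1 : (1 : Matrix J J ℝ).rank = Fintype.card J := Matrix.rank_one
  have hC : Fintype.card J ≤ (P * R).rank := by
    rw [← h1, ← h]
    exact (Matrix.rank_mul_le_left _ _).trans (Matrix.rank_mul_le_left _ _)
  have hle : LinearMap.ker R.mulVecLin ≤ LinearMap.ker (P * R).mulVecLin := by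
    intro w hw
    rw [LinearMap.mem_ker, Matrix.mulVecLin_apply] at hw ⊢
    rw [← Matrix.mulVec_mulVec, hw, Matrix.mulVec_zero]
  have hfr : Module.finrank ℝ (LinearMap.ker (P * R).mulVecLin) ≤
      Module.finrank ℝ (LinearMap.ker R.mulVecLin) := by
    have e1 := finrank_ker_add R
    have e2 := LinearMap.finrank_range_add_finrank_ker (P * R).mulVecLin
    rw [Module.finrank_fintype_fun_eq_card] at e2
    have e3 : Module.finrank ℝ (LinearMap.range (P * R).mulVecLin) = (P * R).rank := rfl
    omega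
  have hk : LinearMap.ker R.mulVecLin = LinearMap.ker (P * R).mulVecLin :=
    Submodule.eq_of_le_of_finrank_le hle hfr
  have key : ∀ w, R *ᵥ ((1 - E * M * P * R) *ᵥ w) = 0 := by
    intro w
    have : (1 - E * M * P * R) *ᵥ w ∈ LinearMap.ker (P * R).mulVecLin := by
      rw [LinearMap.mem_ker, Matrix.mulVecLin_apply, Matrix.mulVec_mulVec]
      have : (P * R) * (1 - E * M * P * R) = 0 := by
        rw [Matrix.mul_sub, Matrix.mul_one]
        have e : P * R * (E * M * P * R) = (P * R * E * M) * (P * R) := by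
          simp only [Matrix.mul_assoc]
        rw [e, h, Matrix.one_mul, sub_self]
      rw [this, Matrix.zero_mulVec]
    rw [← hk, LinearMap.mem_ker, Matrix.mulVecLin_apply] at this
    exact this
  have hz : R * (1 - E * M * P * R) = 0 := by
    apply Matrix.ext_of_mulVec_single
    intro i
    rw [← Matrix.mulVec_mulVec, key, Matrix.zero_mulVec]
  rw [Matrix.mul_sub, Matrix.mul_one, sub_eq_zero] at hz
  rw [Matrix.mul_assoc R (E * M * P) R, ← hz]

end Gen

/-! ## block Toeplitz matrices -/

section BT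

variable {m : Type} [Fintype m] [DecidableEq m]

/-- block Toeplitz matrices -/
def BT (A L : Matrix m m ℝ) (N : ℕ) : Matrix (Fin N × m) (Fin N × m) ℝ :=
  fun u v => (if u.1 = v.1 then A u.2 v.2 else 0) +
    (if (u.1 : ℕ) = v.1 + 1 then L u.2 v.2 else 0)

theorem BT_mulVec (A L : Matrix m m ℝ) (N : ℕ) (f : Fin N × m → ℝ) (i : Fin N) (x : m) :
    (BT A L N *ᵥ f) (i, x) = (∑ y, A x y * f (i, y)) +
      ∑ j : Fin N, if (i : ℕ) = j + 1 then ∑ y, L x y * f (j, y) else 0 := by
  simp only [Matrix.mulVec, dotProduct, BT, Fintype.sum_prod_type, add_mul, ite_mul, zero_mul,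
    Finset.sum_add_distrib]
  congr 1
  · rw [Finset.sum_eq_single i]
    · simp
    · intro j _ hj
      simp [Ne.symm hj]
    · simp
  · refine Finset.sum_congr rfl fun j _ => ?_
    by_cases h : (i : ℕ) = j + 1 <;> simp [h]

theorem BT_zero (A L : Matrix m m ℝ) (N : ℕ) (f : Fin (N+1) × m → ℝ) (x : m) :
    (BT A L (N+1) *ᵥ f) (0, x) = ∑ y, A x y * f (0, y) := by
  rw [BT_mulVec]
  simp

theorem BT_succ (A L : Matrix m m ℝ) (N : ℕ) (f : Fin (N+1) × m → ℝ) (i : Fin N) (x : m) :
    (BT A L (N+1) *ᵥ f) (i.succ, x) = (∑ y, A x y * f (i.succ, y)) +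
      ∑ y, L x y * f (i.castSucc, y) := by
  rw [BT_mulVec]
  congr 1
  rw [Finset.sum_eq_single i.castSucc]
  · simp
  · intro j _ hj
    rw [if_neg]
    intro h
    apply hj
    apply Fin.ext
    simp only [Fin.val_succ, Fin.val_castSucc] at h ⊢
    omega
  · simp

/-- shift -/
def ext (N : ℕ) : (Fin N × m → ℝ) →ₗ[ℝ] (Fin (N+1) × m → ℝ) where
  toFun f := fun u => Fin.cases (motive := fun _ => ℝ) 0 (fun j => f (j, u.2)) u.1
  map_add' f g := by
    funext ⟨i, x⟩
    refine Fin.cases ?_ (fun j => ?_) i <;> simp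
  map_smul' c f := by
    funext ⟨i, x⟩
    refine Fin.cases ?_ (fun j => ?_) i <;> simp

@[simp] theorem ext_zero (N : ℕ) (f : Fin N × m → ℝ) (x : m) : ext N f (0, x) = 0 := rfl

@[simp] theorem ext_succ (N : ℕ) (f : Fin N × m → ℝ) (i : Fin N) (x : m) :
    ext N f (i.succ, x) = f (i, x) := rfl

theorem ext_inj (N : ℕ) : Function.Injective (ext (m := m) N) := by
  intro f g h
  funext ⟨i, x⟩
  have := congrFun h (i.succ, x)
  simpa using this

theorem BT_ext (A L : Matrix m m ℝ) (N : ℕ) (f : Fin N × m → ℝ) :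
    BT A L (N+1) *ᵥ (ext N f) = ext N (BT A L N *ᵥ f) := by
  funext ⟨i, x⟩
  refine Fin.cases ?_ (fun k => ?_) i
  · rw [BT_zero]
    simp
  · rw [ext_succ, BT_mulVec, BT_mulVec]
    congr 1
    rw [Fin.sum_univ_succ]
    simp

theorem map_ker_le (A L : Matrix m m ℝ) (N : ℕ) :
    (LinearMap.ker (BT A L N).mulVecLin).map (ext N) ≤
      LinearMap.ker (BT A L (N+1)).mulVecLin := by
  rintro _ ⟨f, hf, rfl⟩
  rw [SetLike.mem_coe, LinearMap.mem_ker, Matrix.mulVecLin_apply] at hf
  rw [LinearMap.mem_ker, Matrix.mulVecLin_apply, BT_ext, hf, map_zero]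

theorem finrank_map_ext (N : ℕ) (K : Submodule ℝ (Fin N × m → ℝ)) :
    Module.finrank ℝ (K.map (ext N)) = Module.finrank ℝ K :=
  (Submodule.equivMapOfInjective (ext N) (ext_inj N) K).finrank_eq.symm

theorem rank_succ_le (A L : Matrix m m ℝ) (N : ℕ) :
    (BT A L (N+1)).rank ≤ (BT A L N).rank + Fintype.card m := by
  have h1 := finrank_ker_add (BT A L (N+1))
  have h2 := finrank_ker_add (BT A L N)
  have h3 := Submodule.finrank_mono (map_ker_le A L N)
  rw [finrank_map_ext] at h3
  simp only [Fintype.card_prod, Fintype.card_fin] at h1 h2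
  have h4 : (N + 1) * Fintype.card m = N * Fintype.card m + Fintype.card m := by ring
  omega

/-- if the rank grows by the maximal amount, kernel vectors have first block `0` -/
theorem first_zero (A L : Matrix m m ℝ) (N : ℕ)
    (h : (BT A L N).rank + Fintype.card m ≤ (BT A L (N+1)).rank) (f : Fin (N+1) × m → ℝ)
    (hf : BT A L (N+1) *ᵥ f = 0) (x : m) : f (0, x) = 0 := by
  have h1 := finrank_ker_add (BT A L (N+1))
  have h2 := finrank_ker_add (BT A L N)
  simp only [Fintype.card_prod, Fintype.card_fin] at h1 h2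
  have h4 : (N + 1) * Fintype.card m = N * Fintype.card m + Fintype.card m := by ring
  have h5 : Module.finrank ℝ (LinearMap.ker (BT A L (N+1)).mulVecLin) ≤
      Module.finrank ℝ ((LinearMap.ker (BT A L N).mulVecLin).map (ext N)) := by
    rw [finrank_map_ext]
    omega
  have h6 := Submodule.eq_of_le_of_finrank_le (map_ker_le A L N) h5
  have h7 : f ∈ LinearMap.ker (BT A L (N+1)).mulVecLin := by
    rw [LinearMap.mem_ker, Matrix.mulVecLin_apply, hf]
  rw [← h6] at h7
  obtain ⟨g, -, rfl⟩ := h7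
  rfl

theorem BT_transpose (A L : Matrix m m ℝ) (N : ℕ) :
    (BT A L N)ᵀ = (BT Aᵀ Lᵀ N).submatrix
      (Equiv.prodCongr Fin.revPerm (Equiv.refl m)) (Equiv.prodCongr Fin.revPerm (Equiv.refl m)) := by
  ext ⟨i, x⟩ ⟨j, y⟩
  simp only [Matrix.transpose_apply, BT, Matrix.submatrix_apply, Equiv.prodCongr_apply,
    Prod.map_apply, Fin.revPerm_apply, Equiv.refl_apply, Fin.rev_inj]
  congr 1
  · by_cases h : i = j
    · simp [h]
    · simp [h, Ne.symm h]
  · have : ((j : ℕ) = i + 1) ↔ ((Fin.rev i : Fin N) : ℕ) = (Fin.rev j : Fin N) + 1 := by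
      simp only [Fin.val_rev]
      omega
    by_cases h : (j : ℕ) = i + 1
    · rw [if_pos h, if_pos (this.1 h)]
    · rw [if_neg h, if_neg (fun h' => h (this.2 h'))]

theorem rank_BT_transpose (A L : Matrix m m ℝ) (N : ℕ) :
    (BT Aᵀ Lᵀ N).rank = (BT A L N).rank := by
  rw [← Matrix.rank_transpose (BT A L N), BT_transpose, Matrix.rank_submatrix]

/-- if the rank grows by the maximal amount, left kernel vectors have last block `0` -/
theorem last_zero (A L : Matrix m m ℝ) (N : ℕ)
    (h : (BT A L N).rank + Fintype.card m ≤ (BT A L (N+1)).rank) (f : Fin (N+1) × m → ℝ)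
    (hf : f ᵥ* BT A L (N+1) = 0) (x : m) : f (Fin.last N, x) = 0 := by
  rw [← Matrix.mulVec_transpose, BT_transpose] at hf
  have key := first_zero Aᵀ Lᵀ N (by rw [rank_BT_transpose, rank_BT_transpose]; exact h)
    (f ∘ (Equiv.prodCongr Fin.revPerm (Equiv.refl m)).symm) ?_ x
  · simpa using key
  · rw [Matrix.submatrix_mulVec_equiv] at hf
    funext u
    have := congrFun hf ((Equiv.prodCongr Fin.revPerm (Equiv.refl m)).symm u)
    rw [Function.comp_apply, Equiv.apply_symm_apply] at this
    exact this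

open Polynomial in
/-- the kernels are bounded -/
theorem rank_lower (A L : Matrix m m ℝ) (hd : (A + L).det ≠ 0) (N : ℕ) :
    N * Fintype.card m ≤ (BT A L N).rank + Fintype.card m := by
  cases N with
  | zero => simp
  | succ N =>
    have h1 := finrank_ker_add (BT A L (N+1))
    simp only [Fintype.card_prod, Fintype.card_fin] at h1
    suffices h : Module.finrank ℝ (LinearMap.ker (BT A L (N+1)).mulVecLin) ≤ Fintype.card m by
      omega
    -- the map `f ↦ L f_N`
    let g : (Fin (N+1) × m → ℝ) →ₗ[ℝ] (m → ℝ) :=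
      L.mulVecLin ∘ₗ (LinearMap.funLeft ℝ ℝ fun y => (Fin.last N, y))
    let g' := g.domRestrict (LinearMap.ker (BT A L (N+1)).mulVecLin)
    have hg : Function.Injective g' := by
      rw [injective_iff_map_eq_zero]
      rintro ⟨f, hf⟩ h0
      rw [LinearMap.mem_ker, Matrix.mulVecLin_apply] at hf
      have hL : ∀ x, ∑ y, L x y * f (Fin.last N, y) = 0 := fun x => congrFun h0 x
      have hA0 : ∀ x, ∑ y, A x y * f (0, y) = 0 := by
        intro x
        rw [← BT_zero A L N f x, hf]
        rfl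
      have hAS : ∀ (i : Fin N) (x : m), (∑ y, A x y * f (i.succ, y)) +
          ∑ y, L x y * f (i.castSucc, y) = 0 := by
        intro i x
        rw [← BT_succ A L N f i x, hf]
        rfl
      -- the polynomial matrix
      let D : Matrix m m ℝ[X] := fun x y => C (A x y) + X * C (L x y)
      have hD : D.det ≠ 0 := by
        intro h
        apply hd
        have h2 := congrArg (Polynomial.evalRingHom (1 : ℝ)) h
        rw [map_zero, RingHom.map_det] at h2
        rw [← h2]
        congr 1
        ext x y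
        simp [D]
      let v : m → ℝ[X] := fun x => ∑ j : Fin (N+1), C (f (j, x)) * X ^ (j : ℕ)
      have hv : D *ᵥ v = 0 := by
        funext x
        have e1 : (D *ᵥ v) x = (∑ j : Fin (N+1), C (∑ y, A x y * f (j, y)) * X ^ (j : ℕ)) +
            ∑ j : Fin (N+1), C (∑ y, L x y * f (j, y)) * X ^ ((j : ℕ) + 1) := by
          simp only [Matrix.mulVec, dotProduct, D, v, add_mul, Finset.sum_add_distrib,
            Finset.mul_sum, map_sum, Finset.sum_mul, map_mul]
          congr 1
          · rw [Finset.sum_comm]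
            refine Finset.sum_congr rfl fun j _ => Finset.sum_congr rfl fun y _ => ?_
            ring
          · rw [Finset.sum_comm]
            refine Finset.sum_congr rfl fun j _ => Finset.sum_congr rfl fun y _ => ?_
            ring
        rw [e1, Fin.sum_univ_succ (n := N), Fin.sum_univ_castSucc (n := N)]
        simp only [hA0, hL, map_zero, zero_mul, zero_add, add_zero, Fin.val_succ,
          Fin.val_castSucc]
        rw [← Finset.sum_add_distrib]
        refine Finset.sum_eq_zero fun i _ => ?_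
        rw [← add_mul, ← map_add, hAS, map_zero, zero_mul]
      have hv0 := Matrix.eq_zero_of_mulVec_eq_zero hD hv
      apply Subtype.ext
      funext ⟨j, x⟩
      have h3 : (v x).coeff (j : ℕ) = 0 := by rw [hv0]; simp
      simp only [v, Polynomial.finsetSum_coeff, Polynomial.coeff_C_mul_X_pow] at h3
      rw [Finset.sum_eq_single j] at h3
      · simpa using h3
      · intro k _ hk
        rw [if_neg]
        intro h
        exact hk (Fin.ext h.symm)
      · simp
    have := LinearMap.finrank_le_finrank_of_injective hg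
    rwa [Module.finrank_fintype_fun_eq_card] at this

end BT

/-! ## translation -/

section Tr

variable {ι : Type} [Fintype ι] {n : ℕ}

/-- the constant part -/
def A0 (Q : Option ι → Matrix (Fin n) (Fin n) ℝ) (s : ℕ) :
    Matrix (Fin n × Fin s) (Fin n × Fin s) ℝ :=
  fun u v => (algebraMap ℝ (Matrix (Fin s) (Fin s) ℝ) (Q none u.1 v.1)) u.2 v.2

/-- the linear part -/
def L0 (Q : Option ι → Matrix (Fin n) (Fin n) ℝ) {s : ℕ} (Z : ι → Matrix (Fin s) (Fin s) ℝ) :
    Matrix (Fin n × Fin s) (Fin n × Fin s) ℝ :=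
  fun u v => ∑ i, Q (some i) u.1 v.1 * Z i u.2 v.2

theorem A0_add_L0 (Q : Option ι → Matrix (Fin n) (Fin n) ℝ) {s : ℕ}
    (Z : ι → Matrix (Fin s) (Fin s) ℝ) :
    A0 Q s + L0 Q Z = Matrix.comp _ _ _ _ ℝ (pev Q Z) := by
  ext ⟨p, k⟩ ⟨q, l⟩
  simp [A0, L0, pev, Matrix.add_apply, Matrix.sum_apply]

theorem comp_toep (Q : Option ι → Matrix (Fin n) (Fin n) ℝ) (N : ℕ) {s : ℕ}
    (Z : ι → Matrix (Fin s) (Fin s) ℝ) :
    Matrix.comp _ _ _ _ ℝ (pev (toep Q N) Z) = (BT (A0 Q s) (L0 Q Z) N).submatrix
      (Equiv.prodAssoc _ _ _) (Equiv.prodAssoc _ _ _) := by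
  ext ⟨⟨i, p⟩, k⟩ ⟨⟨j, q⟩, l⟩
  simp only [Matrix.comp_apply, pev, toep, Matrix.submatrix_apply, Equiv.prodAssoc_apply, BT,
    Matrix.add_apply, Matrix.sum_apply, Matrix.smul_apply, smul_eq_mul, A0, L0]
  congr 1
  · by_cases h : i = j <;> simp [h]
  · by_cases h : (i : ℕ) = j + 1 <;> simp [h]

theorem rank_toep (Q : Option ι → Matrix (Fin n) (Fin n) ℝ) (N : ℕ) {s : ℕ}
    (Z : ι → Matrix (Fin s) (Fin s) ℝ) :
    (Matrix.comp _ _ _ _ ℝ (pev (toep Q N) Z)).rank = (BT (A0 Q s) (L0 Q Z) N).rank := by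
  rw [comp_toep, Matrix.rank_submatrix]

/-- the index map on the fine level -/
def fine {n' : Type} {r : ℕ} (s : ℕ) (a : Fin r → n') : Fin r × Fin s → n' × Fin s :=
  fun u => (a u.1, u.2)

theorem comp_psub {n' : Type} (T : Option ι → Matrix n' n' ℝ) {r s : ℕ} (a b : Fin r → n')
    (Z : ι → Matrix (Fin s) (Fin s) ℝ) :
    Matrix.comp _ _ _ _ ℝ (pev (psub T a b) Z) =
      (Matrix.comp _ _ _ _ ℝ (pev T Z)).submatrix (fine s a) (fine s b) := rfl

theorem comp_gm {n' : Type} [DecidableEq n'] {r s : ℕ} (a b : Fin r → n')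
    (M : Matrix (Fin r) (Fin r) (Matrix (Fin s) (Fin s) ℝ)) :
    Matrix.comp _ _ _ _ ℝ (gm a b M) =
      gmm (fine s a) (fine s b) (Matrix.comp _ _ _ _ ℝ M) := by
  ext ⟨x, k⟩ ⟨y, l⟩
  simp only [Matrix.comp_apply, gm, gmm, fine, Fintype.sum_prod_type, Matrix.sum_apply,
    Prod.mk.injEq]
  refine Finset.sum_congr rfl fun u _ => ?_
  rw [Finset.sum_eq_single k]
  · refine Finset.sum_congr rfl fun v _ => ?_
    rw [Finset.sum_eq_single l]
    · by_cases h : b u = x ∧ a v = y
      · rw [if_pos h, if_pos ⟨⟨h.1, rfl⟩, h.2, rfl⟩]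
      · rw [if_neg h, if_neg (fun h' => h ⟨h'.1.1, h'.2.1⟩)]
        rfl
    · intro j _ hj
      rw [if_neg]
      rintro ⟨-, -, h⟩
      exact hj h
    · simp
  · intro j _ hj
    refine Finset.sum_eq_zero fun v _ => Finset.sum_eq_zero fun w _ => ?_
    rw [if_neg]
    rintro ⟨⟨-, h⟩, -⟩
    exact hj h
  · simp

theorem comp_mul' {I' : Type} [Fintype I'] [DecidableEq I'] {s : ℕ}
    (A B : Matrix I' I' (Matrix (Fin s) (Fin s) ℝ)) :
    Matrix.comp _ _ _ _ ℝ (A * B) = Matrix.comp _ _ _ _ ℝ A * Matrix.comp _ _ _ _ ℝ B :=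
  (Matrix.compRingEquiv I' (Fin s) ℝ).map_mul A B

end Tr

end Toep

open Toep in
/-- a full pencil inside a block Toeplitz pencil -/
theorem t_toep : S_rank → S_toep := by
  intro hrank ι _ n Q hQ
  choose r a b hr1 hr2 using fun N => hrank (toep Q N)
  obtain ⟨t, ht, Zs, hZs⟩ := hQ
  -- the lower bound
  have hdet : (A0 Q t + L0 Q Zs).det ≠ 0 := by
    rw [A0_add_L0]
    have := (Matrix.isUnit_comp_iff _ _ _).2 hZs
    rw [Matrix.isUnit_iff_isUnit_det] at this
    exact this.ne_zero
  have low : ∀ N, N * n ≤ r N + n := by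
    intro N
    have h1 := rank_lower (A0 Q t) (L0 Q Zs) hdet N
    rw [← rank_toep Q N Zs] at h1
    have h2 := hr2 N t Zs
    simp only [Fintype.card_prod, Fintype.card_fin] at h1
    have h3 : (N * n) * t ≤ (r N + n) * t := by
      calc (N * n) * t = N * (n * t) := by ring
        _ ≤ _ := h1
        _ ≤ r N * t + n * t := by omega
        _ = (r N + n) * t := by ring
    exact Nat.le_of_mul_le_mul_right h3 ht
  -- there is a step with a maximal increase
  obtain ⟨N, hN⟩ : ∃ N, r N + n ≤ r (N+1) := by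
    by_contra hcon
    push Not at hcon
    have h4 : ∀ N, r N + N ≤ r 0 + N * n := by
      intro N
      induction N with
      | zero => simp
      | succ N ih =>
        have := hcon N
        have e : (N + 1) * n = N * n + n := by ring
        omega
    have h5 := h4 (r 0 + n + 1)
    have h6 := low (r 0 + n + 1)
    omega
  refine ⟨N, r (N+1), a (N+1), b (N+1), hr1 (N+1), ?_⟩
  intro s Z M hM
  have hcard : Fintype.card (Fin (r (N+1)) × Fin s) = r (N+1) * s := by simp
  -- the inverse on the fine level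
  have hM1 : (Matrix.comp _ _ _ _ ℝ (pev (toep Q (N+1)) Z)).submatrix (fine s (a (N+1)))
      (fine s (b (N+1))) * Matrix.comp _ _ _ _ ℝ M = 1 := by
    rw [← comp_psub, ← comp_mul', hM.1, Matrix.comp_one]
  have hge := rank_ge _ _ _ _ hM1
  have hsand := sandwich _ _ _ _ hM1 (by rw [hcard]; exact hr2 (N+1) s Z)
  rw [hcard] at hge
  rw [← comp_gm, ← comp_mul', ← comp_mul'] at hsand
  have hTGT : pev (toep Q (N+1)) Z * gm (a (N+1)) (b (N+1)) M * pev (toep Q (N+1)) Z =
      pev (toep Q (N+1)) Z := (Matrix.comp _ _ _ _ ℝ).injective hsand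
  -- the rank grows by the maximal amount
  have hstep : (BT (A0 Q s) (L0 Q Z) N).rank + Fintype.card (Fin n × Fin s) ≤
      (BT (A0 Q s) (L0 Q Z) (N+1)).rank := by
    rw [← rank_toep Q N Z, ← rank_toep Q (N+1) Z]
    simp only [Fintype.card_prod, Fintype.card_fin]
    have h1 := hr2 N s Z
    have h2 : (r N + n) * s ≤ r (N+1) * s := Nat.mul_le_mul_right s hN
    rw [add_mul] at h2
    omega
  set T := pev (toep Q (N+1)) Z with hT
  set G := gm (a (N+1)) (b (N+1)) M with hG
  refine ⟨fun p y => ?_, fun x q => ?_⟩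
  · -- the columns of `1 - G T`
    have h0 : T * (1 - G * T) = 0 := by
      rw [Matrix.mul_sub, Matrix.mul_one, ← Matrix.mul_assoc, hTGT, sub_self]
    have h1 : Matrix.comp _ _ _ _ ℝ T * Matrix.comp _ _ _ _ ℝ (1 - G * T) = 0 := by
      rw [← comp_mul', h0]
      rfl
    have h2 : ∀ (k l : Fin s), (1 - G * T) (0, p) y k l = 0 := by
      intro k l
      have h3 := first_zero (A0 Q s) (L0 Q Z) N hstep
        ((fun u => Matrix.comp _ _ _ _ ℝ (1 - G * T) u (y, l)) ∘ (Equiv.prodAssoc _ _ _).symm)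
        ?_ (p, k)
      · exact h3
      · have h4 := congrArg (fun W => fun u => W u (y, l)) h1
        have h5 : Matrix.comp _ _ _ _ ℝ T *ᵥ (fun u => Matrix.comp _ _ _ _ ℝ (1 - G * T) u (y, l))
            = 0 := h4
        rw [hT, comp_toep, Matrix.submatrix_mulVec_equiv] at h5
        funext u
        have h6 := congrFun h5 ((Equiv.prodAssoc _ _ _).symm u)
        rw [Function.comp_apply, Equiv.apply_symm_apply] at h6
        exact h6
    have h3 : (1 - G * T) (0, p) y = 0 := by
      ext k l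
      exact h2 k l
    rw [Matrix.sub_apply, sub_eq_zero] at h3
    exact h3.symm
  · -- the rows of `1 - T G`
    have h0 : (1 - T * G) * T = 0 := by
      rw [Matrix.sub_mul, Matrix.one_mul, hTGT, sub_self]
    have h1 : Matrix.comp _ _ _ _ ℝ (1 - T * G) * Matrix.comp _ _ _ _ ℝ T = 0 := by
      rw [← comp_mul', h0]
      rfl
    have h2 : ∀ (k l : Fin s), (1 - T * G) x (Fin.last N, q) k l = 0 := by
      intro k l
      have h3 := last_zero (A0 Q s) (L0 Q Z) N hstep
        ((fun u => Matrix.comp _ _ _ _ ℝ (1 - T * G) (x, k) u) ∘ (Equiv.prodAssoc _ _ _).symm)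
        ?_ (q, l)
      · exact h3
      · have h4 := congrArg (fun W => W (x, k)) h1
        have h5 : (fun u => Matrix.comp _ _ _ _ ℝ (1 - T * G) (x, k) u) ᵥ*
            Matrix.comp _ _ _ _ ℝ T = 0 := h4
        rw [hT, comp_toep, ← Matrix.mulVec_transpose, Matrix.transpose_submatrix,
          Matrix.submatrix_mulVec_equiv, Matrix.mulVec_transpose] at h5
        funext u
        have h6 := congrFun h5 ((Equiv.prodAssoc _ _ _).symm u)
        rw [Function.comp_apply, Equiv.apply_symm_apply] at h6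
        exact h6
    have h3 : (1 - T * G) x (Fin.last N, q) = 0 := by
      ext k l
      exact h2 k l
    rw [Matrix.sub_apply, sub_eq_zero] at h3
    exact h3.symm

end Pool.Agent.H412.TH
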