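import Pool.Agent.H412.TH.Basic

/-!
MP_0219da: transfer of rational identities from real matrices.
-/

set_option autoImplicit false

namespace Pool.Agent.H412.TH

open Matrix

namespace Tp

/-- block matrices are invertible when the determinant of the big matrix is -/
theorem isUnit_iff {T : Type} [CommRing T] {r s : ℕ}
    (A : Matrix (Fin r) (Fin r) (Matrix (Fin s) (Fin s) T)) :
    IsUnit A ↔ IsUnit (Matrix.comp (Fin r) (Fin r) (Fin s) (Fin s) T A).det := by
  rw [← Matrix.isUnit_iff_isUnit_det]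
  exact (MulEquiv.isUnit_map (Matrix.compRingEquiv (Fin r) (Fin s) T)).symm

/-- evaluation of free polynomials commutes with homomorphisms -/
theorem lift_map {κ R R' : Type} [Ring R] [Algebra ℝ R] [Ring R'] [Algebra ℝ R']
    (φ : R →ₐ[ℝ] R') (g : κ → R) (f : FreeAlgebra ℝ κ) :
    φ (FreeAlgebra.lift ℝ g f) = FreeAlgebra.lift ℝ (fun i => φ (g i)) f := by
  have h : φ.comp (FreeAlgebra.lift ℝ g) = FreeAlgebra.lift ℝ (fun i => φ (g i)) := by
    ext i
    simp
  exact DFunLike.congr_fun h f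

variable {ι : Type} [Fintype ι] {r : ℕ}

/-- the determinant of the big matrix of the pencil -/
noncomputable def dl {T : Type} [CommRing T] [Algebra ℝ T] (W : Option ι → Matrix (Fin r) (Fin r) ℝ)
    {s : ℕ} (Z : ι → Matrix (Fin s) (Fin s) T) : T :=
  (Matrix.comp (Fin r) (Fin r) (Fin s) (Fin s) T (pev W Z)).det

theorem dl_map {T T' : Type} [CommRing T] [Algebra ℝ T] [CommRing T'] [Algebra ℝ T']
    (e : T →ₐ[ℝ] T') (W : Option ι → Matrix (Fin r) (Fin r) ℝ) {s : ℕ}
    (Z : ι → Matrix (Fin s) (Fin s) T) :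
    e (dl W Z) = dl W (fun i => (Z i).map e) := by
  rw [dl, dl]
  have h1 := (e : T →+* T').map_det (Matrix.comp (Fin r) (Fin r) (Fin s) (Fin s) T (pev W Z))
  have h2 : (e : T →+* T').mapMatrix (Matrix.comp (Fin r) (Fin r) (Fin s) (Fin s) T (pev W Z)) =
      Matrix.comp (Fin r) (Fin r) (Fin s) (Fin s) T' (pev W (fun i => (Z i).map e)) := by
    have h3 := pev_map (e.mapMatrix (m := Fin s)) W Z
    have h4 : (fun i => e.mapMatrix (Z i)) = fun i => (Z i).map e := rfl
    rw [h4] at h3
    rw [← h3]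
    rfl
  rw [h2] at h1
  exact h1

theorem inv_unique {n R : Type} [Fintype n] [DecidableEq n] [Ring R] {A M M' : Matrix n n R}
    (h : IsInv A M) (h' : IsInv A M') : M = M' := by
  calc M = M * (A * M') := by rw [h'.1, mul_one]
    _ = M' := by rw [← mul_assoc, h.2, one_mul]

theorem isInv_map {R R' : Type} [Ring R] [Algebra ℝ R] [Ring R'] [Algebra ℝ R']
    (φ : R →ₐ[ℝ] R') (W : Option ι → Matrix (Fin r) (Fin r) ℝ) {X : ι → R}
    {M : Matrix (Fin r) (Fin r) R} (h : IsInv (pev W X) M) :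
    IsInv (pev W (fun i => φ (X i))) (M.map φ) := by
  rw [← pev_map φ W X]
  constructor
  · have := congrArg (fun A => A.map φ) h.1
    simpa [Matrix.map_mul] using this
  · have := congrArg (fun A => A.map φ) h.2
    simpa [Matrix.map_mul] using this

/-- the statement for matrices over a field -/
theorem field_case {s : ℕ} (W : Option ι → Matrix (Fin r) (Fin r) ℝ)
    (f : FreeAlgebra ℝ (ι ⊕ (Fin r × Fin r)))
    (hf : ∀ (Z : ι → Matrix (Fin s) (Fin s) ℝ) (M : Matrix (Fin r) (Fin r) (Matrix _ _ ℝ)),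
      IsInv (pev W Z) M → FreeAlgebra.lift ℝ (Sum.elim Z fun u => M u.1 u.2) f = 0)
    (L : Type) [Field L] [Algebra ℝ L] (Z0 : ι → Matrix (Fin s) (Fin s) L)
    (M0 : Matrix (Fin r) (Fin r) (Matrix (Fin s) (Fin s) L)) (h0 : IsInv (pev W Z0) M0) :
    FreeAlgebra.lift ℝ (Sum.elim Z0 fun u => M0 u.1 u.2) f = 0 := by
  classical
  let P := MvPolynomial (ι × Fin s × Fin s) ℝ
  let Zg : ι → Matrix (Fin s) (Fin s) P := fun i => Matrix.of fun a b => MvPolynomial.X (i, a, b)
  set δ : P := dl W Zg with hδ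
  let Pd := Localization.Away δ
  let j : P →ₐ[ℝ] Pd := IsScalarTower.toAlgHom ℝ P Pd
  have hjδ : IsUnit (j δ) := IsLocalization.Away.algebraMap_isUnit δ
  -- evaluation at a point
  let ev : ∀ (K : Type) [Field K] [Algebra ℝ K], (ι → Matrix (Fin s) (Fin s) K) → (P →ₐ[ℝ] K) :=
    fun K _ _ Z => MvPolynomial.aeval (fun u => Z u.1 u.2.1 u.2.2)
  have hev : ∀ (K : Type) [Field K] [Algebra ℝ K] (Z : ι → Matrix (Fin s) (Fin s) K),
      (fun i => (Zg i).map (ev K Z)) = Z := by
    intro K _ _ Z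
    funext i
    ext a b
    exact MvPolynomial.aeval_X _ (i, a, b)
  have hevδ : ∀ (K : Type) [Field K] [Algebra ℝ K] (Z : ι → Matrix (Fin s) (Fin s) K),
      ev K Z δ = dl W Z := by
    intro K _ _ Z
    rw [hδ, dl_map, hev]
  -- the generic inverse
  let Zd : ι → Matrix (Fin s) (Fin s) Pd := fun i => (Zg i).map j
  have hu : IsUnit (pev W Zd) := by
    rw [isUnit_iff]
    have h1 : (Matrix.comp (Fin r) (Fin r) (Fin s) (Fin s) Pd (pev W Zd)).det = j δ :=
      (dl_map j W Zg).symm
    rw [h1]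
    exact hjδ
  obtain ⟨Mg, hMg1, hMg2⟩ := isUnit_iff_exists.1 hu
  have hMg : IsInv (pev W Zd) Mg := ⟨hMg1, hMg2⟩
  set y := FreeAlgebra.lift ℝ (Sum.elim Zd fun u => Mg u.1 u.2) f with hy
  -- specialisation
  have hspec : ∀ (K : Type) [Field K] [Algebra ℝ K] (Z : ι → Matrix (Fin s) (Fin s) K),
      dl W Z ≠ 0 → ∃ e : Pd →ₐ[ℝ] K, (∀ q : P, e (j q) = ev K Z q) ∧
        ∃ M, IsInv (pev W Z) M ∧
          y.map e = FreeAlgebra.lift ℝ (Sum.elim Z fun u => M u.1 u.2) f := by
    intro K _ _ Z hZ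
    have hz : IsUnit ((ev K Z : P →+* K) δ) := by
      rw [isUnit_iff_ne_zero]
      intro h
      apply hZ
      rw [← hevδ K Z]
      exact h
    let e0 : Pd →+* K := IsLocalization.Away.lift δ hz
    have he0 : ∀ q : P, e0 (algebraMap P Pd q) = ev K Z q := fun q =>
      IsLocalization.Away.lift_eq δ hz q
    let e : Pd →ₐ[ℝ] K := { e0 with
      commutes' := by
        intro c
        have h1 : algebraMap ℝ Pd c = algebraMap P Pd (algebraMap ℝ P c) :=
          IsScalarTower.algebraMap_apply ℝ P Pd c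
        change e0 (algebraMap ℝ Pd c) = _
        rw [h1, he0, AlgHom.commutes] }
    have he : ∀ q : P, e (j q) = ev K Z q := he0
    refine ⟨e, he, Mg.map e.mapMatrix, ?_, ?_⟩
    · have h1 := isInv_map (e.mapMatrix (m := Fin s)) W hMg
      have h2 : (fun i => e.mapMatrix (Zd i)) = Z := by
        rw [← hev K Z]
        funext i
        ext a b
        exact he _
      rw [h2] at h1
      exact h1
    · have h1 := lift_map (e.mapMatrix (m := Fin s)) (Sum.elim Zd fun u => Mg u.1 u.2) f
      rw [← hy] at h1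
      have h2 : (fun i => e.mapMatrix ((Sum.elim Zd fun u => Mg u.1 u.2 :
          ι ⊕ (Fin r × Fin r) → Matrix (Fin s) (Fin s) Pd) i)) =
          Sum.elim Z fun u => (Mg.map e.mapMatrix) u.1 u.2 := by
        funext u
        rcases u with i | u
        · have h3 : e.mapMatrix (Zd i) = Z i := by
            have h4 := congrFun (hev K Z) i
            rw [← h4]
            ext a b
            exact he _
          exact h3
        · rfl
      rw [h2] at h1
      exact h1
  -- the generic value vanishes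
  have hδ0 : dl W Z0 ≠ 0 := by
    have h1 : IsUnit (pev W Z0) := isUnit_iff_exists.2 ⟨M0, h0.1, h0.2⟩
    rw [isUnit_iff] at h1
    exact h1.ne_zero
  have hδne : δ ≠ 0 := by
    intro h
    apply hδ0
    rw [← hevδ L Z0, h, map_zero]
  have hy0 : y = 0 := by
    ext a b
    obtain ⟨k, h, hh⟩ := IsLocalization.Away.surj δ (y a b)
    have h1 : h * δ = 0 := by
      apply MvPolynomial.funext
      intro z
      rw [map_mul, map_zero]
      let Z : ι → Matrix (Fin s) (Fin s) ℝ := fun i => Matrix.of fun a b => z (i, a, b)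
      have hzev : ∀ q : P, MvPolynomial.eval z q = ev ℝ Z q := by
        intro q
        rw [← MvPolynomial.coe_aeval_eq_eval]
        rfl
      by_cases hz : dl W Z = 0
      · rw [hzev δ, hevδ, hz, mul_zero]
      · obtain ⟨e, he1, M, hM, he2⟩ := hspec ℝ Z hz
        rw [hf Z M hM] at he2
        have h2 : e (y a b) = 0 := congrFun (congrFun he2 a) b
        have h3 := congrArg e hh
        rw [map_mul, h2, zero_mul] at h3
        have h4 : e (j h) = 0 := h3.symm
        rw [he1] at h4
        rw [hzev h, h4, zero_mul]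
    have h2 : h = 0 := (mul_eq_zero.1 h1).resolve_right hδne
    rw [h2, map_zero] at hh
    have h3 : IsUnit ((algebraMap P Pd δ) ^ k) := hjδ.pow k
    exact (h3.mul_left_eq_zero).1 hh
  obtain ⟨e, -, M, hM, he2⟩ := hspec L Z0 hδ0
  rw [inv_unique h0 hM, ← he2, hy0]
  ext a b
  simp

end Tp

theorem t_tp : S_tp := by
  intro ι _ r W f hf R _ _ hSep X M hM
  by_contra hne
  obtain ⟨s, L, _, _, φ, hφ⟩ := hSep _ hne
  apply hφ
  rw [Tp.lift_map]
  have h1 := Tp.field_case W f (fun Z M' h => hf s Z M' h) L (fun i => φ (X i)) (M.map φ)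
    (Tp.isInv_map φ W hM)
  rw [← h1]
  congr 2
  funext u
  rcases u with i | u <;> rfl

end Pool.Agent.H412.TH
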