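import Pool.Agent.H412.TH.Main

/-!
MP_0219da (helper412): reduction to two variables.
-/

set_option autoImplicit false

namespace Pool.Agent.H412.TH

open Matrix

namespace Two

/-! ## homogeneous polynomials -/

/-- homogeneous polynomials of degree `k` -/
def HomP {κ : Type} (k : ℕ) (f : FreeAlgebra ℝ κ) : Prop :=
  ∀ (R : Type) [Ring R] [Algebra ℝ R] (z : R), (∀ y, z * y = y * z) → ∀ X : κ → R,
    FreeAlgebra.lift ℝ (fun i => z * X i) f = z^k * FreeAlgebra.lift ℝ X f

section

variable {κ : Type}

theorem HomP.add {k : ℕ} {f f' : FreeAlgebra ℝ κ} (h : HomP k f) (h' : HomP k f') :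
    HomP k (f + f') := by
  intro R _ _ z hz X
  rw [map_add, map_add, h R z hz X, h' R z hz X, mul_add]

theorem HomP.smul {k : ℕ} {f : FreeAlgebra ℝ κ} (c : ℝ) (h : HomP k f) : HomP k (c • f) := by
  intro R _ _ z hz X
  rw [map_smul, map_smul, h R z hz X, mul_smul_comm]

theorem HomP.mul {k l : ℕ} {f f' : FreeAlgebra ℝ κ} (h : HomP k f) (h' : HomP l f') :
    HomP (k + l) (f * f') := by
  intro R _ _ z hz X
  rw [map_mul, map_mul, h R z hz X, h' R z hz X, pow_add, mul_assoc, mul_assoc]
  congr 1
  rw [← mul_assoc, ← mul_assoc, ((show Commute z (FreeAlgebra.lift ℝ X f) from hz _).pow_left l).eq]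

theorem HomP.one : HomP 0 (1 : FreeAlgebra ℝ κ) := by
  intro R _ _ z hz X
  rw [map_one, map_one, pow_zero, one_mul]

theorem HomP.var (i : κ) : HomP 1 (FreeAlgebra.ι ℝ i) := by
  intro R _ _ z hz X
  rw [FreeAlgebra.lift_ι_apply, FreeAlgebra.lift_ι_apply, pow_one]

theorem HomP.pow {k : ℕ} {f : FreeAlgebra ℝ κ} (h : HomP k f) (n : ℕ) : HomP (n * k) (f ^ n) := by
  induction n with
  | zero => rw [pow_zero, Nat.zero_mul]; exact HomP.one
  | succ n ih =>
    rw [pow_succ, Nat.succ_mul]
    exact ih.mul h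

theorem lift_op {R : Type} [Ring R] [Algebra ℝ R] (X : κ → R) (f : FreeAlgebra ℝ κ) :
    FreeAlgebra.lift ℝ X (star f) =
      MulOpposite.unop (FreeAlgebra.lift ℝ (fun i => MulOpposite.op (X i)) f) := by
  induction f using FreeAlgebra.induction with
  | grade0 c =>
    rw [FreeAlgebra.star_algebraMap, AlgHom.commutes, AlgHom.commutes]
    rfl
  | grade1 i =>
    rw [FreeAlgebra.star_ι, FreeAlgebra.lift_ι_apply, FreeAlgebra.lift_ι_apply]
    rfl
  | mul x y ihx ihy => rw [star_mul, map_mul, map_mul, MulOpposite.unop_mul, ihx, ihy]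
  | add x y ihx ihy => rw [star_add, map_add, map_add, MulOpposite.unop_add, ihx, ihy]

theorem lift_star {R : Type} [Ring R] [Algebra ℝ R] [StarRing R]
    (hs : ∀ c : ℝ, star (algebraMap ℝ R c) = algebraMap ℝ R c) (X : κ → R)
    (hX : ∀ i, star (X i) = X i) (f : FreeAlgebra ℝ κ) :
    FreeAlgebra.lift ℝ X (star f) = star (FreeAlgebra.lift ℝ X f) := by
  induction f using FreeAlgebra.induction with
  | grade0 c =>
    rw [FreeAlgebra.star_algebraMap, AlgHom.commutes, hs]
  | grade1 i =>
    rw [FreeAlgebra.star_ι, FreeAlgebra.lift_ι_apply, hX]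
  | mul x y ihx ihy => rw [star_mul, map_mul, map_mul, star_mul, ihx, ihy]
  | add x y ihx ihy => rw [star_add, map_add, map_add, star_add, ihx, ihy]

theorem HomP.star {k : ℕ} {f : FreeAlgebra ℝ κ} (h : HomP k f) : HomP k (star f) := by
  intro R _ _ z hz X
  have h1 : (fun i => MulOpposite.op (z * X i)) =
      fun i => MulOpposite.op z * MulOpposite.op (X i) := by
    funext i
    rw [hz, MulOpposite.op_mul]
  rw [lift_op, lift_op, h1, h Rᵐᵒᵖ (MulOpposite.op z) (fun y => by
    apply MulOpposite.unop_injective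
    simp [hz]), MulOpposite.unop_mul, MulOpposite.unop_pow, MulOpposite.unop_op]
  exact ((show Commute z _ from hz _).pow_left k).eq.symm

/-! ## the algebra of values of homogeneous polynomials -/

/-- values of homogeneous polynomials of all large even degrees -/
def EE {A : Type} [Ring A] [Algebra ℝ A] (X : κ → A) (i0 : κ) (hx : X i0 * X i0 = 1) :
    Subalgebra ℝ A where
  carrier := {v | ∃ e : ℕ, ∀ e' : ℕ, e ≤ e' → ∃ f : FreeAlgebra ℝ κ, HomP (e' * 2) f ∧
    FreeAlgebra.lift ℝ X f = v}
  mul_mem' := by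
    rintro v w ⟨e, he⟩ ⟨l, hl⟩
    refine ⟨e + l, fun e' h => ?_⟩
    obtain ⟨f, hf, hf'⟩ := he (e' - l) (by omega)
    obtain ⟨f1, hf1, hf1'⟩ := hl l le_rfl
    refine ⟨f * f1, ?_, by rw [map_mul, hf', hf1']⟩
    have h2 : e' * 2 = (e' - l) * 2 + l * 2 := by omega
    rw [h2]
    exact hf.mul hf1
  add_mem' := by
    rintro v w ⟨e, he⟩ ⟨l, hl⟩
    refine ⟨e + l, fun e' h => ?_⟩
    obtain ⟨f, hf, hf'⟩ := he e' (by omega)
    obtain ⟨f1, hf1, hf1'⟩ := hl e' (by omega)
    exact ⟨f + f1, hf.add hf1, by rw [map_add, hf', hf1']⟩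
  algebraMap_mem' := by
    intro c
    refine ⟨0, fun e' _ => ⟨c • ((FreeAlgebra.ι ℝ i0 * FreeAlgebra.ι ℝ i0) ^ e'), ?_, ?_⟩⟩
    · exact ((HomP.var i0).mul (HomP.var i0)).pow e' |>.smul c
    · rw [map_smul, map_pow, map_mul, FreeAlgebra.lift_ι_apply, hx, one_pow,
        Algebra.algebraMap_eq_smul_one]

theorem mem_EE {A : Type} [Ring A] [Algebra ℝ A] (X : κ → A) (i0 : κ) (hx : X i0 * X i0 = 1)
    (i j : κ) : X i * X j ∈ EE X i0 hx := by
  refine ⟨1, fun e' h => ⟨(FreeAlgebra.ι ℝ i0 * FreeAlgebra.ι ℝ i0) ^ (e' - 1) *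
    (FreeAlgebra.ι ℝ i * FreeAlgebra.ι ℝ j), ?_, ?_⟩⟩
  · have h2 : e' * 2 = (e' - 1) * (1 + 1) + (1 + 1) := by omega
    rw [h2]
    exact (((HomP.var i0).mul (HomP.var i0)).pow (e' - 1)).mul ((HomP.var i).mul (HomP.var j))
  · rw [map_mul, map_pow, map_mul, map_mul, FreeAlgebra.lift_ι_apply, FreeAlgebra.lift_ι_apply,
      FreeAlgebra.lift_ι_apply, hx, one_pow, one_mul]

end

/-! ## the matrices -/

section

variable {A : Type} [Ring A] [Algebra ℂ A] {g : ℕ}

/-- the index set -/
abbrev KK (g : ℕ) : Type := Fin 2 × Option (Fin g)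

/-- the signs -/
def sn (g : ℕ) (u : KK g) : ℝ := if u.1 = 0 then 1 else -1

theorem sn_mul (u : KK g) : sn g u * sn g u = 1 := by
  unfold sn; split_ifs <;> norm_num

/-- the weights of the edges -/
def wt (a : Fin g → A) : Option (Fin g) → Option (Fin g) → A
  | none, some i => a i
  | _, _ => 1

/-- the off-diagonal part -/
def bb (a : Fin g → A) : Matrix (KK g) (KK g) A := fun u v =>
  if u.1 = 0 ∧ v.1 = 1 then wt a u.2 v.2 else if u.1 = 1 ∧ v.1 = 0 then wt a v.2 u.2 else 0

/-- the first matrix -/
noncomputable def xx (A : Type) [Ring A] [Algebra ℂ A] (g : ℕ) : Matrix (KK g) (KK g) A :=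
  Matrix.diagonal fun u => algebraMap ℝ A (sn g u)

/-- an enumeration by real numbers -/
noncomputable def en (g : ℕ) (u : KK g) : ℝ := ((Fintype.equivFin (KK g) u : ℕ) : ℝ)

theorem en_inj (g : ℕ) : Function.Injective (en g) := by
  intro u v h
  have h1 : ((Fintype.equivFin (KK g) u : ℕ) : ℝ) = ((Fintype.equivFin (KK g) v : ℕ) : ℝ) := h
  have h2 := Nat.cast_injective h1
  exact (Fintype.equivFin (KK g)).injective (Fin.ext h2)

/-- the second matrix -/
noncomputable def yy (a : Fin g → A) : Matrix (KK g) (KK g) A :=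
  Matrix.diagonal (fun u => algebraMap ℝ A (sn g u * en g u)) + bb a

theorem xx_sq : xx A g * xx A g = 1 := by
  rw [xx, Matrix.diagonal_mul_diagonal]
  simp only [← map_mul, sn_mul, map_one, Matrix.diagonal_one]

/-- the diagonal part -/
theorem diag_part (a : Fin g → A) : (1 / 2 : ℝ) • (xx A g * yy a + yy a * xx A g) =
    Matrix.diagonal fun u => algebraMap ℝ A (en g u) := by
  have h1 : xx A g * bb a + bb a * xx A g = 0 := by
    ext u v
    rw [Matrix.add_apply, xx, Matrix.diagonal_mul, Matrix.mul_diagonal, Matrix.zero_apply]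
    rw [← Algebra.commutes, ← add_mul, ← map_add]
    by_cases h0 : u.1 = 0
    · by_cases h0' : v.1 = 0
      · have : bb a u v = 0 := by simp [bb, h0, h0']
        rw [this, mul_zero]
      · have : sn g u + sn g v = 0 := by simp [sn, h0, h0']
        rw [this, map_zero, zero_mul]
    · have h1 : u.1 = 1 := by omega
      by_cases h0' : v.1 = 0
      · have : sn g u + sn g v = 0 := by simp [sn, h0, h0']
        rw [this, map_zero, zero_mul]
      · have h1' : v.1 = 1 := by omega
        have : bb a u v = 0 := by simp [bb, h1, h1']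
        rw [this, mul_zero]
  have h2 : xx A g * yy a + yy a * xx A g = (2 : ℝ) • Matrix.diagonal fun u => algebraMap ℝ A (en g u) := by
    have h3 : ∀ D : Matrix (KK g) (KK g) A, xx A g * (D + bb a) + (D + bb a) * xx A g =
        (xx A g * D + D * xx A g) + (xx A g * bb a + bb a * xx A g) := by
      intro D; rw [mul_add, add_mul]; abel
    rw [yy, h3, h1, add_zero, xx, Matrix.diagonal_mul_diagonal, Matrix.diagonal_mul_diagonal,
      Matrix.diagonal_add, ← Matrix.diagonal_smul]
    congr 1
    funext u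
    rw [← map_mul, ← map_mul, ← map_add]
    have : sn g u * (sn g u * en g u) + sn g u * en g u * sn g u = 2 * en g u := by
      have := sn_mul (g := g) u
      linear_combination (2 * en g u) * this
    rw [this, map_mul, Pi.smul_apply, Algebra.smul_def]
  rw [h2, smul_smul]
  norm_num

/-- the off-diagonal part -/
theorem off_part (a : Fin g → A) :
    xx A g * yy a - Matrix.diagonal (fun u => algebraMap ℝ A (en g u)) = xx A g * bb a := by
  rw [yy, mul_add, xx, Matrix.diagonal_mul_diagonal]
  have : (fun u => algebraMap ℝ A (sn g u) * algebraMap ℝ A (sn g u * en g u)) =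
      fun u => algebraMap ℝ A (en g u) := by
    funext u
    rw [← map_mul, ← mul_assoc, sn_mul, one_mul]
  rw [this]
  abel

theorem star_xx [StarRing A] (hs : ∀ c : ℝ, star (algebraMap ℂ A c) = algebraMap ℂ A c) :
    star (xx A g) = xx A g := by
  rw [xx, Matrix.star_eq_conjTranspose, Matrix.diagonal_conjTranspose]
  congr 1
  funext u
  exact hs _

theorem star_yy [StarRing A] (hs : ∀ c : ℝ, star (algebraMap ℂ A c) = algebraMap ℂ A c) (a : Fin g → A)
    (ha : ∀ i, star (a i) = a i) : star (yy a) = yy a := by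
  have hw : ∀ j j', star (wt a j j') = wt a j j' := by
    rintro (_ | i) (_ | j)
    · exact star_one _
    · exact ha j
    · exact star_one _
    · exact star_one _
  rw [yy, star_add]
  congr 1
  · rw [Matrix.star_eq_conjTranspose, Matrix.diagonal_conjTranspose]
    congr 1
    funext u
    exact hs _
  · ext u v
    rw [Matrix.star_apply]
    unfold bb
    by_cases h1 : u.1 = 0 ∧ v.1 = 1
    · rw [if_pos h1, if_neg (by omega), if_pos ⟨h1.2, h1.1⟩, hw]
    · by_cases h2 : u.1 = 1 ∧ v.1 = 0
      · rw [if_neg h1, if_pos h2, if_pos ⟨h2.2, h2.1⟩, hw]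
      · rw [if_neg h1, if_neg h2, if_neg (by omega), if_neg (by omega), star_zero]

/-- the subalgebra contains the elements `a i ⊗ E` -/
theorem mem_of (a : Fin g → A) (S : Subalgebra ℝ (Matrix (KK g) (KK g) A))
    (h1 : xx A g * yy a ∈ S) (h2 : yy a * xx A g ∈ S) (i : Fin g) :
    Matrix.single (0, none) (0, none) (a i) ∈ S := by
  classical
  have hD : (Matrix.diagonal fun u => algebraMap ℝ A (en g u)) ∈ S := by
    rw [← diag_part a]
    exact S.smul_mem (S.add_mem h1 h2) _
  have hB : xx A g * bb a ∈ S := by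
    rw [← off_part a]
    exact S.sub_mem h1 hD
  -- the projections
  have hE : ∀ u, Matrix.single u u (1 : A) ∈ S := by
    intro u
    set q := Lagrange.basis (Finset.univ : Finset (KK g)) (en g) u with hq
    have h3 : Polynomial.aeval (Matrix.diagonal fun u => algebraMap ℝ A (en g u)) q =
        Matrix.single u u (1 : A) := by
      have h4 : (Matrix.diagonal fun u => algebraMap ℝ A (en g u)) =
          Matrix.diagonalAlgHom ℝ (fun u => algebraMap ℝ A (en g u)) := rfl
      rw [h4, Polynomial.aeval_algHom_apply]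
      have h5 : Polynomial.aeval (fun u => algebraMap ℝ A (en g u)) q = Pi.single u (1 : A) := by
        funext v
        have h6 := Polynomial.aeval_algHom_apply (Pi.evalAlgHom ℝ (fun _ : KK g => A) v)
          (fun u => algebraMap ℝ A (en g u)) q
        have h7 : (Polynomial.aeval (fun u => algebraMap ℝ A (en g u)) q) v =
            Polynomial.aeval (algebraMap ℝ A (en g v)) q := h6.symm
        rw [h7, Polynomial.aeval_algebraMap_apply, Polynomial.coe_aeval_eq_eval]
        by_cases huv : u = v
        · subst huv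
          rw [hq, Lagrange.eval_basis_self (en_inj g).injOn (Finset.mem_univ _), map_one,
            Pi.single_eq_same]
        · rw [hq, Lagrange.eval_basis_of_ne huv (Finset.mem_univ _), map_zero,
            Pi.single_eq_of_ne (Ne.symm huv)]
      rw [h5]
      exact Matrix.diagonal_single u (1 : A)
    rw [← h3]
    have h8 := Polynomial.aeval_algHom_apply S.val (⟨_, hD⟩ : S) q
    have h9 : S.val (⟨_, hD⟩ : S) = Matrix.diagonal fun u => algebraMap ℝ A (en g u) := rfl
    rw [h9] at h8
    rw [h8]
    exact SetLike.coe_mem _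
  have hM : ∀ u v, Matrix.single u v ((xx A g * bb a) u v) ∈ S := by
    intro u v
    have := S.mul_mem (S.mul_mem (hE u) hB) (hE v)
    have h9 : Matrix.single u u (1 : A) * (xx A g * bb a) * Matrix.single v v (1 : A) =
        Matrix.single u v ((xx A g * bb a) u v) := by
      rw [Matrix.single_mul_mul_single]
      simp
    rwa [h9] at this
  have hval : ∀ u v, (xx A g * bb a) u v = algebraMap ℝ A (sn g u) * bb a u v := by
    intro u v
    rw [xx, Matrix.diagonal_mul]
  have e1 := hM (0, none) (1, some i)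
  have e2 := hM (1, some i) (0, some i)
  have e3 := hM (0, some i) (1, none)
  have e4 := hM (1, none) (0, none)
  rw [hval] at e1 e2 e3 e4
  have e5 := S.mul_mem (S.mul_mem (S.mul_mem e1 e2) e3) e4
  simp only [Matrix.single_mul_single_same] at e5
  simpa [bb, sn, wt] using e5

end

/-! ## the trace on matrices -/

section

variable {A K : Type} [Ring A] [Fintype K]

/-- the trace -/
noncomputable def tm (K : Type) [Fintype K] (t : A →+ ℝ) : Matrix K K A →+ ℝ where
  toFun x := ∑ u, t (x u u)
  map_zero' := by simp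
  map_add' x y := by simp [Finset.sum_add_distrib]

theorem tm_apply (t : A →+ ℝ) (x : Matrix K K A) : tm K t x = ∑ u, t (x u u) := rfl

theorem tm_comm (t : A →+ ℝ) (ht : ∀ x y, t (x * y) = t (y * x)) (x y : Matrix K K A) :
    tm K t (x * y) = tm K t (y * x) := by
  rw [tm_apply, tm_apply]
  simp only [Matrix.mul_apply, map_sum]
  rw [Finset.sum_comm]
  exact Finset.sum_congr rfl fun u _ => Finset.sum_congr rfl fun v _ => ht _ _

theorem tm_pos [StarRing A] (t : A →+ ℝ) (ht : ∀ x, x ≠ 0 → 0 < t (star x * x))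
    (x : Matrix K K A) (hx : x ≠ 0) : 0 < tm K t (star x * x) := by
  have h0 : ∀ x, 0 ≤ t (star x * x) := by
    intro x
    by_cases h : x = 0
    · subst h; simp
    · exact (ht x h).le
  rw [tm_apply]
  simp only [Matrix.mul_apply, Matrix.star_apply, map_sum]
  have : ∃ u v, x u v ≠ 0 := by
    by_contra hc
    push Not at hc
    exact hx (by ext i j; exact hc i j)
  obtain ⟨u, v, huv⟩ := this
  refine Finset.sum_pos' (fun κ _ => Finset.sum_nonneg fun κ' _ => h0 _) ⟨v, Finset.mem_univ _, ?_⟩
  exact Finset.sum_pos' (fun κ' _ => h0 _) ⟨u, Finset.mem_univ _, ht _ huv⟩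

end

/-! ## the value at zero -/

theorem zero_value {κ A : Type} [Ring A] [Algebra ℂ A] [StarRing A] (p : FreeAlgebra ℝ κ)
    (hpos : TracePos p) {d : ℕ} (hhom : ∀ (R : Type) [Ring R] [Algebra ℝ R] (z : R),
      (∀ y, z * y = y * z) → ∀ X : κ → R,
      FreeAlgebra.lift ℝ (fun i => z * X i) p = z^d * FreeAlgebra.lift ℝ X p) (t : A →+ ℝ)
    (hstar : ∀ c : ℝ, star (algebraMap ℂ A c) = algebraMap ℂ A c)
    (htpos : ∀ x, x ≠ 0 → 0 < t (star x * x)) (a : κ → A)
    (hneg : t (FreeAlgebra.lift ℝ a p) < 0) :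
    FreeAlgebra.lift ℝ (fun _ : κ => (0 : A)) p = 0 := by
  rcases Nat.eq_zero_or_pos d with hd | hd
  · exfalso
    have h9 := hhom A (0 : A) (fun y => by rw [zero_mul, mul_zero]) a
    rw [hd, pow_zero, one_mul] at h9
    simp only [zero_mul] at h9
    have h10 : ∀ (R : Type) [Ring R] [Algebra ℝ R], FreeAlgebra.lift ℝ (fun _ : κ => (0 : R)) p =
        algebraMap ℝ R (FreeAlgebra.lift ℝ (fun _ : κ => (0 : ℝ)) p) := by
      intro R _ _
      have : FreeAlgebra.lift ℝ (fun _ : κ => (0 : R)) =
          (Algebra.ofId ℝ R).comp (FreeAlgebra.lift ℝ (fun _ : κ => (0 : ℝ))) := by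
        ext i
        simp
      rw [this]
      rfl
    set c0 := FreeAlgebra.lift ℝ (fun _ : κ => (0 : ℝ)) p with hc0
    have h11 : 0 ≤ c0 := by
      have := hpos 1 (fun _ => 0) (fun _ => by simp)
      rw [h10 (Matrix (Fin 1) (Fin 1) ℝ)] at this
      simpa [Matrix.trace, Matrix.algebraMap_matrix_apply] using this
    have h12 : FreeAlgebra.lift ℝ a p = star (algebraMap ℂ A (Real.sqrt c0)) *
        algebraMap ℂ A (Real.sqrt c0) := by
      rw [← h9, h10 A, hstar, ← map_mul, ← Complex.ofReal_mul, Real.mul_self_sqrt h11]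
      rfl
    rw [h12] at hneg
    by_cases h13 : algebraMap ℂ A (Real.sqrt c0) = 0
    · rw [h13] at hneg
      simp at hneg
    · exact absurd (htpos _ h13) (not_lt.2 hneg.le)
  · have h9 := hhom A (0 : A) (fun y => by rw [zero_mul, mul_zero]) a
    rw [zero_pow hd.ne', zero_mul] at h9
    simp only [zero_mul] at h9
    exact h9

/-! ## the reduction -/

theorem red {g : ℕ} (h : PolData (Fin g)) (κ : Type) [DecidableEq κ] (i0 i1 : κ)
    (hne : i0 ≠ i1) : PolData κ := by
  obtain ⟨p, d, A, iA1, iA2, iA3, t, a, hpstar, hpos, hhom, hstar, htr, htpos, hastar, hneg⟩ := h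
  -- the tuple of matrices
  let X : κ → Matrix (KK g) (KK g) A := fun i => if i = i0 then xx A g else
    if i = i1 then yy a else 0
  have hX0 : X i0 = xx A g := if_pos rfl
  have hX1 : X i1 = yy a := by
    show (if i1 = i0 then xx A g else if i1 = i1 then yy a else 0) = _
    rw [if_neg (Ne.symm hne), if_pos rfl]
  have hXstar : ∀ i, star (X i) = X i := by
    intro i
    show star (if i = i0 then xx A g else if i = i1 then yy a else 0) =
      if i = i0 then xx A g else if i = i1 then yy a else 0
    split_ifs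
    · exact star_xx hstar
    · exact star_yy hstar a hastar
    · exact star_zero _
  have hsq : X i0 * X i0 = 1 := by rw [hX0]; exact xx_sq
  have hmem : ∀ i, Matrix.single (0, none) (0, none) (a i) ∈ EE X i0 hsq := by
    intro i
    refine mem_of a _ ?_ ?_ i
    · have := mem_EE X i0 hsq i0 i1
      rwa [hX0, hX1] at this
    · have := mem_EE X i0 hsq i1 i0
      rwa [hX0, hX1] at this
  -- the polynomials
  choose e he using hmem
  set N := Finset.univ.sup e with hN
  have hf : ∀ i : Fin g, ∃ f : FreeAlgebra ℝ κ, HomP (N * 2) f ∧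
      FreeAlgebra.lift ℝ X f = Matrix.single (0, none) (0, none) (a i) :=
    fun i => he i N (Finset.le_sup (Finset.mem_univ i))
  choose f hfh hfv using hf
  set q : Fin g → FreeAlgebra ℝ κ := fun i => (1 / 2 : ℝ) • (f i + star (f i)) with hq
  have hqh : ∀ i, HomP (N * 2) (q i) := fun i => ((hfh i).add (hfh i).star).smul _
  have hqs : ∀ i, star (q i) = q i := by
    intro i
    have h1 : ∀ (c : ℝ) (x : FreeAlgebra ℝ κ), star (c • x) = c • star x := by
      intro c x
      rw [Algebra.smul_def, star_mul, FreeAlgebra.star_algebraMap, Algebra.smul_def,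
        Algebra.commutes]
    rw [hq]
    simp only [h1, star_add, star_star]
    rw [add_comm]
  have hsM : ∀ c : ℝ, star (algebraMap ℂ (Matrix (KK g) (KK g) A) c) =
      algebraMap ℂ (Matrix (KK g) (KK g) A) c := by
    intro c
    ext u v
    rw [Matrix.star_apply, Matrix.algebraMap_matrix_apply, Matrix.algebraMap_matrix_apply]
    by_cases huv : u = v
    · subst huv; rw [if_pos rfl, hstar]
    · rw [if_neg huv, if_neg (Ne.symm huv), star_zero]
  have hsMr : ∀ c : ℝ, star (algebraMap ℝ (Matrix (KK g) (KK g) A) c) =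
      algebraMap ℝ (Matrix (KK g) (KK g) A) c := by
    intro c
    ext u v
    rw [Matrix.star_apply, Matrix.algebraMap_matrix_apply, Matrix.algebraMap_matrix_apply]
    by_cases huv : u = v
    · subst huv; rw [if_pos rfl]; exact hstar c
    · rw [if_neg huv, if_neg (Ne.symm huv), star_zero]
  have hqv : ∀ i, FreeAlgebra.lift ℝ X (q i) =
      Matrix.diagonal (fun u => if u = (0, none) then a i else 0) := by
    intro i
    have h1 : Matrix.single ((0 : Fin 2), (none : Option (Fin g)))
        ((0 : Fin 2), (none : Option (Fin g))) (a i) = Matrix.diagonal (fun u => if u = (0, none) then a i else 0) := by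
      ext u v
      rw [Matrix.single_apply, Matrix.diagonal_apply]
      by_cases h2 : u = v
      · subst h2
        rw [if_pos rfl]
        by_cases h3 : u = (0, none)
        · rw [if_pos ⟨h3.symm, h3.symm⟩, if_pos h3]
        · rw [if_neg (fun h => h3 h.1.symm), if_neg h3]
      · rw [if_neg h2, if_neg]
        rintro ⟨h3, h4⟩
        exact h2 (h3.symm.trans h4)
    have h3 : star (Matrix.single ((0 : Fin 2), (none : Option (Fin g)))
        ((0 : Fin 2), (none : Option (Fin g))) (a i)) =
        Matrix.single (0, none) (0, none) (a i) := by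
      rw [h1, Matrix.star_eq_conjTranspose, Matrix.diagonal_conjTranspose]
      congr 1
      funext u
      simp only [Pi.star_apply]
      split_ifs
      · exact hastar i
      · exact star_zero _
    rw [hq]
    simp only [map_smul, map_add]
    rw [lift_star hsMr X hXstar, hfv, h3, ← two_smul ℝ, smul_smul, h1]
    norm_num
  have hcomp : ∀ (R : Type) [Ring R] [Algebra ℝ R] (Z : κ → R),
      FreeAlgebra.lift ℝ Z (FreeAlgebra.lift ℝ q p) =
        FreeAlgebra.lift ℝ (fun i => FreeAlgebra.lift ℝ Z (q i)) p := by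
    intro R _ _ Z
    have : (FreeAlgebra.lift ℝ Z).comp (FreeAlgebra.lift ℝ q) =
        FreeAlgebra.lift ℝ (fun i => FreeAlgebra.lift ℝ Z (q i)) := by
      ext i
      simp
    rw [← this]
    rfl
  refine ⟨FreeAlgebra.lift ℝ q p, (N * 2) * d, Matrix (KK g) (KK g) A, inferInstance,
    inferInstance, inferInstance, tm (KK g) t, X, ?_, ?_, ?_, hsM, tm_comm t htr, tm_pos t htpos,
    hXstar, ?_⟩
  · rw [← lift_star (fun c => FreeAlgebra.star_algebraMap c) q hqs, hpstar]
  · intro n Z hZ
    rw [hcomp]
    refine hpos n _ fun i => ?_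
    have h1 := lift_star (R := Matrix (Fin n) (Fin n) ℝ) (fun c => by
      rw [Matrix.star_eq_conjTranspose]
      ext i j
      rw [Matrix.conjTranspose_apply, Matrix.algebraMap_matrix_apply,
        Matrix.algebraMap_matrix_apply]
      by_cases h : i = j
      · subst h; simp
      · rw [if_neg h, if_neg (Ne.symm h)]; simp) Z (fun i => by
        rw [Matrix.star_eq_conjTranspose, Matrix.conjTranspose_eq_transpose_of_trivial]
        exact hZ i) (q i)
    rw [hqs, Matrix.star_eq_conjTranspose, Matrix.conjTranspose_eq_transpose_of_trivial] at h1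
    exact h1.symm
  · intro R _ _ z hz Z
    rw [hcomp, hcomp]
    have h1 : (fun i => FreeAlgebra.lift ℝ (fun j => z * Z j) (q i)) =
        fun i => z ^ (N * 2) * FreeAlgebra.lift ℝ Z (q i) := by
      funext i
      exact hqh i R z hz Z
    rw [h1, hhom R (z ^ (N * 2)) (fun y => ((show Commute z y from hz y).pow_left _).eq), ← pow_mul]
  · rw [hcomp]
    have h1 : (fun i => FreeAlgebra.lift ℝ X (q i)) =
        fun i => Matrix.diagonal (fun u => if u = ((0 : Fin 2), (none : Option (Fin g))) then a i
          else 0) := by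
      funext i
      exact hqv i
    rw [h1, lift_diag, tm_apply]
    simp only [Matrix.diagonal_apply_eq]
    rw [← Finset.add_sum_erase _ _ (Finset.mem_univ ((0 : Fin 2), (none : Option (Fin g)))),
      Finset.sum_eq_zero]
    · simpa using hneg
    · intro u hu
      have hu' := Finset.ne_of_mem_erase hu
      simp only [if_neg hu']
      rw [zero_value p hpos hhom t hstar htpos a hneg, map_zero]

end Two

end Pool.Agent.H412.TH
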