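import Pool.Agent.H412.TH.Basic

/-!
MP_0219da (helper412): units in matrices over Laurent series over a noncommutative ring.
-/

set_option autoImplicit false

namespace Pool.Agent.H412.TH

open Matrix

namespace Unit

section

variable {A n : Type} [Ring A] [Fintype n] [DecidableEq n]

/-- power series of matrices as matrices of power series -/
noncomputable def th (f : PowerSeries (Matrix n n A)) : Matrix n n (PowerSeries A) :=
  fun i j => PowerSeries.mk fun m => (PowerSeries.coeff m f) i j

theorem th_mul (f g : PowerSeries (Matrix n n A)) : th (f * g) = th f * th g := by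
  ext i j m
  simp only [th, PowerSeries.coeff_mk, PowerSeries.coeff_mul, Matrix.mul_apply, map_sum,
    Matrix.sum_apply]
  rw [Finset.sum_comm]

theorem th_one : th (1 : PowerSeries (Matrix n n A)) = 1 := by
  ext i j m
  simp only [th, PowerSeries.coeff_mk, PowerSeries.coeff_one, Matrix.one_apply]
  by_cases h : i = j
  · subst h
    by_cases hm : m = 0
    · simp [hm]
    · simp [hm, PowerSeries.coeff_one]
  · by_cases hm : m = 0
    · simp [hm, h]
    · simp [hm, h]

/-- the homomorphism to matrices over Laurent series -/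
noncomputable def ps : PowerSeries (Matrix n n A) →* Matrix n n (HahnSeries ℤ A) where
  toFun f := (HahnSeries.ofPowerSeries ℤ A).mapMatrix (th f)
  map_one' := by rw [th_one, map_one]
  map_mul' f g := by rw [th_mul, map_mul]

theorem isUnit_one_add (G : Matrix n n (HahnSeries ℤ A))
    (hG : ∀ i j, ∀ m : ℤ, m ≤ 0 → (G i j).coeff m = 0) : IsUnit (1 + G) := by
  set f : PowerSeries (Matrix n n A) :=
    PowerSeries.mk fun m => Matrix.of fun i j => ((1 + G) i j).coeff (m : ℤ) with hf
  have hneg : ∀ i j, ∀ m : ℤ, m < 0 → ((1 + G) i j).coeff m = 0 := by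
    intro i j m hm
    rw [Matrix.add_apply, HahnSeries.coeff_add, hG i j m hm.le, add_zero, Matrix.one_apply]
    by_cases h : i = j
    · rw [if_pos h, HahnSeries.coeff_one, if_neg hm.ne]
    · rw [if_neg h, HahnSeries.coeff_zero]
  have h0 : PowerSeries.constantCoeff f = 1 := by
    rw [← PowerSeries.coeff_zero_eq_constantCoeff_apply, hf, PowerSeries.coeff_mk]
    ext i j
    rw [Matrix.of_apply, Matrix.add_apply, HahnSeries.coeff_add, Nat.cast_zero, hG i j 0 le_rfl, add_zero,
      Matrix.one_apply, Matrix.one_apply]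
    by_cases h : i = j
    · rw [if_pos h, if_pos h, HahnSeries.coeff_one, if_pos rfl]
    · rw [if_neg h, if_neg h, HahnSeries.coeff_zero]
  have hu : IsUnit f := by
    have h1 : IsUnit (MvPowerSeries.constantCoeff f) := by
      have : MvPowerSeries.constantCoeff f = 1 := h0
      rw [this]; exact isUnit_one
    exact MvPowerSeries.isUnit_iff_constantCoeff.mpr h1
  have h2 : ps f = 1 + G := by
    ext i j m
    show ((HahnSeries.ofPowerSeries ℤ A).mapMatrix (th f) i j).coeff m = ((1 + G) i j).coeff m
    rw [RingHom.mapMatrix_apply, Matrix.map_apply]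
    rcases le_or_gt 0 m with hm | hm
    · obtain ⟨k, rfl⟩ := Int.eq_ofNat_of_zero_le hm
      have := HahnSeries.ofPowerSeries_apply_coeff (Γ := ℤ) (th f i j) k
      rw [this]
      simp only [th, hf, PowerSeries.coeff_mk, Matrix.of_apply]
    · rw [hneg i j m hm, HahnSeries.ofPowerSeries_apply]
      apply HahnSeries.embDomain_of_notMem_range
      rintro ⟨k, hk⟩
      simp at hk
      omega
  rw [← h2]
  exact hu.map ps

end

end Unit

open Pool.Agent.H412.TH.Unit in
/-- **UNIT** -/
theorem t_unit : S_unit := by
  intro A K J _ _ _ _ _ E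
  refine ⟨1 + ∑ u : (J × J) × (K × K), (E u.1.1 u.1.2 u.2.1 u.2.2).order.natAbs, fun N hN => ?_⟩
  have hN' : ∀ j j' k k', (E j j' k k').order.natAbs < N := by
    intro j j' k k'
    have h1 := Finset.single_le_sum (f := fun u : (J × J) × (K × K) =>
      (E u.1.1 u.1.2 u.2.1 u.2.2).order.natAbs) (fun _ _ => Nat.zero_le _)
      (Finset.mem_univ ((j, j'), (k, k')))
    simp only at h1
    omega
  have hu : IsUnit ((Matrix.compRingEquiv J K (HahnSeries ℤ A))
      (1 + Matrix.scalar J (tau K A N) * E)) := by
    rw [map_add, map_one]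
    apply isUnit_one_add
    rintro ⟨j, k⟩ ⟨j', k'⟩ m hm
    have e : (Matrix.compRingEquiv J K (HahnSeries ℤ A)) (Matrix.scalar J (tau K A N) * E)
        (j, k) (j', k') = HahnSeries.single (N : ℤ) (1 : A) * E j j' k k' := by
      show (Matrix.scalar J (tau K A N) * E) j j' k k' = _
      rw [Matrix.scalar_apply, Matrix.diagonal_mul, tau, Matrix.scalar_apply, Matrix.diagonal_mul]
    rw [e]
    have e2 : m = (m - N) + N := by ring
    rw [e2, HahnSeries.coeff_single_mul_add, one_mul]
    apply HahnSeries.coeff_eq_zero_of_lt_order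
    have := hN' j j' k k'
    omega
  exact (MulEquiv.isUnit_map (Matrix.compRingEquiv J K (HahnSeries ℤ A))).mp hu

end Pool.Agent.H412.TH
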