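import Pool.Agent.H412.TH.Basic

/-!
MP_0219da (helper412), task WIT: a common good point for finitely many irreducible graded pencils.
-/

set_option autoImplicit false

namespace Pool.Agent.H412.TH

open Matrix

namespace Wit

/-! ### polynomials -/

theorem ev_ne {p : Polynomial ℂ} (hp : p ≠ 0) :
    ∀ᶠ s : ℝ in Filter.atTop, p.eval (s : ℂ) ≠ 0 := by
  have hfin : {s : ℝ | p.eval (s : ℂ) = 0}.Finite := by
    have h1 : {z : ℂ | p.eval z = 0}.Finite := by
      have := p.roots.toFinset.finite_toSet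
      refine this.subset ?_
      intro z hz
      simpa [hp] using hz
    exact h1.preimage (Complex.ofReal_injective.injOn)
  obtain ⟨B, hB⟩ := hfin.bddAbove
  filter_upwards [Filter.eventually_gt_atTop B] with s hs h
  exact absurd (hB h) (not_le.2 hs)

/-- matrices over the algebra of 2 by 2 matrices -/
abbrev M2 (n : ℕ) : Type := Matrix (Fin n) (Fin n) (Matrix (Fin 2) (Fin 2) ℂ)

/-- the determinant -/
noncomputable def DD {n : ℕ} (x : M2 n) : ℂ :=
  (Matrix.comp (Fin n) (Fin n) (Fin 2) (Fin 2) ℂ x).det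

theorem DD_iff {n : ℕ} (x : M2 n) : IsUnit x ↔ DD x ≠ 0 := by
  rw [← Matrix.isUnit_comp_iff, Matrix.isUnit_iff_isUnit_det, isUnit_iff_ne_zero]
  rfl

theorem poly_det {m : Type} [Fintype m] [DecidableEq m] (x y : Matrix m m ℂ) :
    ∃ p : Polynomial ℂ, ∀ t : ℂ, p.eval t = (t • x + y).det := by
  refine ⟨((Polynomial.X : Polynomial ℂ) • x.map Polynomial.C + y.map Polynomial.C).det,
    fun t => ?_⟩
  rw [← Polynomial.coe_evalRingHom, RingHom.map_det]
  congr 1
  ext i j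
  simp
  ring

theorem poly_DD {n : ℕ} (x y : M2 n) : ∃ p : Polynomial ℂ, ∀ t : ℂ, p.eval t = DD (t • x + y) :=
  poly_det _ _

theorem unit_smul {R : Type} [Ring R] [Algebra ℂ R] {s : ℂ} (hs : s ≠ 0) {z : R}
    (h : IsUnit z) : IsUnit (s • z) := by
  rw [Algebra.smul_def]
  exact ((isUnit_iff_ne_zero.2 hs).map (algebraMap ℂ R)).mul h

theorem ev_unitA {R : Type} [Ring R] [Algebra ℂ R] (D : R → ℂ) (hD : ∀ x, IsUnit x ↔ D x ≠ 0)
    (hP : ∀ x y, ∃ p : Polynomial ℂ, ∀ t : ℂ, p.eval t = D (t • x + y)) (x y : R) (c : ℂ)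
    (h : IsUnit (c • x + y)) : ∀ᶠ s : ℝ in Filter.atTop, IsUnit ((s : ℂ) • x + y) := by
  obtain ⟨p, hp⟩ := hP x y
  have hp0 : p ≠ 0 := by
    rintro rfl
    have := hp c
    rw [Polynomial.eval_zero] at this
    exact (hD _).1 h this.symm
  filter_upwards [ev_ne hp0] with s hs
  rw [hD, ← hp]
  exact hs

theorem ev_unitB {R : Type} [Ring R] [Algebra ℂ R] (D : R → ℂ) (hD : ∀ x, IsUnit x ↔ D x ≠ 0)
    (hP : ∀ x y, ∃ p : Polynomial ℂ, ∀ t : ℂ, p.eval t = D (t • x + y)) (x y : R)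
    (h : IsUnit x) : ∀ᶠ s : ℝ in Filter.atTop, IsUnit ((s : ℂ) • x + y) := by
  obtain ⟨p, hp⟩ := hP y x
  have h0 : p.eval 0 ≠ 0 := by
    rw [hp, zero_smul, zero_add]
    exact (hD _).1 h
  have ht : Filter.Tendsto (fun s : ℝ => p.eval ((s⁻¹ : ℝ) : ℂ)) Filter.atTop
      (nhds (p.eval 0)) := by
    have h1 : Filter.Tendsto (fun s : ℝ => ((s⁻¹ : ℝ) : ℂ)) Filter.atTop (nhds ((0 : ℝ) : ℂ)) :=
      (Complex.continuous_ofReal.tendsto 0).comp tendsto_inv_atTop_zero
    rw [Complex.ofReal_zero] at h1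
    exact (p.continuous.tendsto 0).comp h1
  filter_upwards [ht.eventually_ne h0, Filter.eventually_gt_atTop 0] with s hs hs0
  have hs' : (s : ℂ) ≠ 0 := by exact_mod_cast hs0.ne'
  have e : (s : ℂ) • x + y = (s : ℂ) • ((((s⁻¹ : ℝ) : ℂ)) • y + x) := by
    rw [smul_add, smul_smul, Complex.ofReal_inv, mul_inv_cancel₀ hs', one_smul, add_comm]
  rw [e]
  apply unit_smul hs'
  rw [hD, ← hp]
  exact hs

theorem ev_unit1 {n : ℕ} (x y : M2 n) (c : ℂ) (h : IsUnit (c • x + y)) :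
    ∀ᶠ s : ℝ in Filter.atTop, IsUnit ((s : ℂ) • x + y) := ev_unitA DD DD_iff poly_DD x y c h

theorem ev_unit2 {n : ℕ} (x y : M2 n) (h : IsUnit x) :
    ∀ᶠ s : ℝ in Filter.atTop, IsUnit ((s : ℂ) • x + y) := ev_unitB DD DD_iff poly_DD x y h

theorem det_iff {n : ℕ} (x : Matrix (Fin n) (Fin n) ℂ) : IsUnit x ↔ x.det ≠ 0 := by
  rw [Matrix.isUnit_iff_isUnit_det, isUnit_iff_ne_zero]

theorem span_unit {n : ℕ} (S : Set (M2 n)) (h0 : (0 : M2 n) ∈ S)
    (hadd : ∀ x ∈ S, ∀ y ∈ S, x + y ∈ S)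
    (hsm : ∀ x ∈ S, ∀ s : ℝ, 0 < s → (s : ℂ) • x ∈ S) (x : M2 n)
    (hx : x ∈ Submodule.span ℂ S) :
    ∀ R : M2 n, IsUnit (x + R) → ∃ y ∈ S, IsUnit (y + R) := by
  induction hx using Submodule.span_induction with
  | mem x h => exact fun R hR => ⟨x, h, hR⟩
  | zero => exact fun R hR => ⟨0, h0, hR⟩
  | add x y _ _ hx hy =>
    intro R hR
    rw [add_assoc] at hR
    obtain ⟨x', hx', h1⟩ := hx _ hR
    rw [add_left_comm] at h1
    obtain ⟨y', hy', h2⟩ := hy _ h1
    refine ⟨x' + y', hadd _ hx' _ hy', ?_⟩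
    rw [add_assoc, add_left_comm]
    exact h2
  | smul c x _ hx =>
    intro R hR
    obtain ⟨s, hs1, hs2⟩ := ((ev_unit1 x R c hR).and (Filter.eventually_gt_atTop 0)).exists
    have hs' : (s : ℂ) ≠ 0 := by exact_mod_cast hs2.ne'
    have h3 : IsUnit (x + (s : ℂ)⁻¹ • R) := by
      have := unit_smul (inv_ne_zero hs') hs1
      rwa [smul_add, smul_smul, inv_mul_cancel₀ hs', one_smul] at this
    obtain ⟨y, hy, h4⟩ := hx _ h3
    refine ⟨(s : ℂ) • y, hsm y hy s hs2, ?_⟩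
    have := unit_smul hs' h4
    rwa [smul_add, smul_smul, mul_inv_cancel₀ hs', one_smul] at this

/-! ### direct sums of points -/

variable {ι : Type} [Fintype ι]

theorem pevm {R R' m n : Type} [Ring R] [Algebra ℂ R] [Ring R'] [Algebra ℂ R']
    (φ : R →ₐ[ℂ] R') (Q : Option ι → Matrix m n ℂ) (X : ι → R) :
    (pev Q X).map φ = pev Q (fun i => φ (X i)) := by
  ext p q
  simp [pev, Matrix.map_apply]

theorem isInv_unit {n R : Type} [Fintype n] [DecidableEq n] [Ring R] {A M : Matrix n n R}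
    (h : IsInv A M) : IsUnit A := ⟨⟨A, M, h.1, h.2⟩, rfl⟩

theorem isInv_inverse {n R : Type} [Fintype n] [DecidableEq n] [Ring R] {A M : Matrix n n R}
    (h : IsInv A M) : Ring.inverse A = M := by
  have : A = ((⟨A, M, h.1, h.2⟩ : (Matrix n n R)ˣ) : Matrix n n R) := rfl
  rw [this, Ring.inverse_unit]
  rfl

theorem isInv_of_unit {n R : Type} [Fintype n] [DecidableEq n] [Ring R] {A : Matrix n n R}
    (h : IsUnit A) : IsInv A (Ring.inverse A) :=
  ⟨Ring.mul_inverse_cancel _ h, Ring.inverse_mul_cancel _ h⟩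

/-- block diagonal matrices -/
noncomputable def fb (k1 k2 : ℕ) : (Matrix (Fin k1) (Fin k1) ℂ × Matrix (Fin k2) (Fin k2) ℂ) →ₐ[ℂ]
    Matrix (Fin k1 ⊕ Fin k2) (Fin k1 ⊕ Fin k2) ℂ where
  toFun p := fromBlocks p.1 0 0 p.2
  map_one' := by simp [fromBlocks_one]
  map_mul' p q := by simp [fromBlocks_multiply]
  map_zero' := by simp [fromBlocks_zero]
  map_add' p q := by simp [fromBlocks_add]
  commutes' c := by
    ext i j
    rcases i with i | i <;> rcases j with j | j <;>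
      simp [Matrix.algebraMap_matrix_apply]

/-- block diagonal matrices -/
noncomputable def dl (k1 k2 : ℕ) : (Matrix (Fin k1) (Fin k1) ℂ × Matrix (Fin k2) (Fin k2) ℂ) →ₐ[ℂ]
    Matrix (Fin (k1 + k2)) (Fin (k1 + k2)) ℂ :=
  ((Matrix.reindexAlgEquiv ℂ ℂ finSumFinEquiv).toAlgHom).comp (fb k1 k2)

theorem dl_apply (k1 k2 : ℕ) (p) : dl k1 k2 p =
    (fromBlocks p.1 0 0 p.2).submatrix finSumFinEquiv.symm finSumFinEquiv.symm := rfl

/-- block diagonal matrices, entrywise -/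
noncomputable def dm {n k1 k2 : ℕ} (A1 : Matrix (Fin n) (Fin n) (Matrix (Fin k1) (Fin k1) ℂ))
    (A2 : Matrix (Fin n) (Fin n) (Matrix (Fin k2) (Fin k2) ℂ)) :
    Matrix (Fin n) (Fin n) (Matrix (Fin (k1 + k2)) (Fin (k1 + k2)) ℂ) :=
  fun x y => dl k1 k2 (A1 x y, A2 x y)

theorem dm_mul {n k1 k2 : ℕ} (A1 M1 : Matrix (Fin n) (Fin n) (Matrix (Fin k1) (Fin k1) ℂ))
    (A2 M2 : Matrix (Fin n) (Fin n) (Matrix (Fin k2) (Fin k2) ℂ)) (h1 : A1 * M1 = 1)
    (h2 : A2 * M2 = 1) : dm A1 A2 * dm M1 M2 = 1 := by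
  apply Matrix.ext
  intro x y
  rw [Matrix.mul_apply]
  show ∑ t, dl k1 k2 (A1 x t, A2 x t) * dl k1 k2 (M1 t y, M2 t y) = _
  simp only [← map_mul, ← map_sum]
  have e : ∑ t, ((A1 x t, A2 x t) : Matrix (Fin k1) (Fin k1) ℂ × Matrix (Fin k2) (Fin k2) ℂ) *
      (M1 t y, M2 t y) = ((A1 * M1) x y, (A2 * M2) x y) := by
    apply Prod.ext
    · rw [Prod.fst_sum]
      rfl
    · rw [Prod.snd_sum]
      rfl
  rw [e, h1, h2]
  by_cases hxy : x = y
  · subst hxy
    rw [Matrix.one_apply_eq, Matrix.one_apply_eq, Matrix.one_apply_eq]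
    exact map_one _
  · rw [Matrix.one_apply_ne hxy, Matrix.one_apply_ne hxy, Matrix.one_apply_ne hxy]
    exact map_zero _

theorem isInv_prod {n k1 k2 : ℕ} {A1 M1 : Matrix (Fin n) (Fin n) (Matrix (Fin k1) (Fin k1) ℂ)}
    {A2 M2 : Matrix (Fin n) (Fin n) (Matrix (Fin k2) (Fin k2) ℂ)} (h1 : IsInv A1 M1)
    (h2 : IsInv A2 M2) : IsInv (dm A1 A2) (dm M1 M2) :=
  ⟨dm_mul _ _ _ _ h1.1 h2.1, dm_mul _ _ _ _ h1.2 h2.2⟩

/-- direct sum of the tuples of symmetric matrices -/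
noncomputable def dY {k1 k2 : ℕ} (Y1 : ι → Matrix (Fin k1) (Fin k1) ℝ)
    (Y2 : ι → Matrix (Fin k2) (Fin k2) ℝ) (i : ι) : Matrix (Fin (k1 + k2)) (Fin (k1 + k2)) ℝ :=
  (fromBlocks (Y1 i) 0 0 (Y2 i)).submatrix finSumFinEquiv.symm finSumFinEquiv.symm

/-- direct sum of the rows -/
noncomputable def db {k1 k2 : ℕ} (b1 : ι → Matrix (Fin 2) (Fin k1) ℝ)
    (b2 : ι → Matrix (Fin 2) (Fin k2) ℝ) (i : ι) : Matrix (Fin 2) (Fin (k1 + k2)) ℝ :=
  (fromCols (b1 i) (b2 i)).submatrix id finSumFinEquiv.symm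

omit [Fintype ι] in
theorem cx_dY {k1 k2 : ℕ} (Y1 : ι → Matrix (Fin k1) (Fin k1) ℝ)
    (Y2 : ι → Matrix (Fin k2) (Fin k2) ℝ) (i : ι) :
    cx (dY Y1 Y2) i = dl k1 k2 (cx Y1 i, cx Y2 i) := by
  rw [dl_apply]
  unfold cx dY
  ext s t
  simp only [Matrix.map_apply, Matrix.submatrix_apply]
  rcases finSumFinEquiv.symm s with s | s <;> rcases finSumFinEquiv.symm t with t | t <;> simp

theorem pev_dY {n k1 k2 : ℕ} (W : Option ι → Matrix (Fin n) (Fin n) ℂ)
    (Y1 : ι → Matrix (Fin k1) (Fin k1) ℝ) (Y2 : ι → Matrix (Fin k2) (Fin k2) ℝ) :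
    pev W (cx (dY Y1 Y2)) = dm (pev W (cx Y1)) (pev W (cx Y2)) := by
  have h : (cx (dY Y1 Y2) : ι → _) = fun i => dl k1 k2 (cx Y1 i, cx Y2 i) := by
    funext i
    exact cx_dY Y1 Y2 i
  rw [h, ← pevm]
  apply Matrix.ext
  intro x y
  rw [Matrix.map_apply]
  show _ = dl k1 k2 (pev W (cx Y1) x y, pev W (cx Y2) x y)
  congr 1
  apply Prod.ext
  · simp [pev, Prod.fst_sum]
  · simp [pev, Prod.snd_sum]

omit [Fintype ι] in
theorem b_mul {k1 k2 : ℕ} (b1 : ι → Matrix (Fin 2) (Fin k1) ℝ)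
    (b2 : ι → Matrix (Fin 2) (Fin k2) ℝ) (i j : ι) (m1 : Matrix (Fin k1) (Fin k1) ℂ)
    (m2 : Matrix (Fin k2) (Fin k2) ℂ) :
    cx (db b1 b2) i * dl k1 k2 (m1, m2) * (cx (db b1 b2) j)ᵀ =
      cx b1 i * m1 * (cx b1 j)ᵀ + cx b2 i * m2 * (cx b2 j)ᵀ := by
  have h : ∀ i, cx (db b1 b2) i = (fromCols (cx b1 i) (cx b2 i)).submatrix id
      finSumFinEquiv.symm := by
    intro i
    unfold cx db
    ext s t
    simp only [Matrix.map_apply, Matrix.submatrix_apply]
    rcases finSumFinEquiv.symm t with t | t <;> simp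
  rw [h, h, dl_apply, Matrix.transpose_submatrix, Matrix.submatrix_mul_equiv,
    Matrix.submatrix_mul_equiv, Matrix.fromCols_mul_fromBlocks, Matrix.transpose_fromCols,
    Matrix.fromCols_mul_fromRows]
  simp

theorem K0_sum {n k1 k2 : ℕ} (W : Option ι → Matrix (Fin n) (Fin n) ℂ)
    (b1 : ι → Matrix (Fin 2) (Fin k1) ℝ) (b2 : ι → Matrix (Fin 2) (Fin k2) ℝ)
    (M1 : Matrix (Fin n) (Fin n) (Matrix (Fin k1) (Fin k1) ℂ))
    (M2 : Matrix (Fin n) (Fin n) (Matrix (Fin k2) (Fin k2) ℂ)) :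
    K0 W (cx (db b1 b2)) (dm M1 M2) = K0 W (cx b1) M1 + K0 W (cx b2) M2 := by
  apply Matrix.ext
  intro x y
  show K0 W _ _ x y = K0 W _ _ x y + K0 W _ _ x y
  unfold K0 dm
  simp only [b_mul, smul_add, Finset.sum_add_distrib]

/-- the value of the Schur complement at a point -/
noncomputable def kap {n k : ℕ} (W : Option ι → Matrix (Fin n) (Fin n) ℂ)
    (b : ι → Matrix (Fin 2) (Fin k) ℝ) (Y : ι → Matrix (Fin k) (Fin k) ℝ) : M2 n :=
  K0 W (cx b) (Ring.inverse (pev W (cx Y)))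

theorem adm_sum {r k1 k2 : ℕ} (T : Option ι → Matrix (Fin r) (Fin r) ℂ)
    (Y1 : ι → Matrix (Fin k1) (Fin k1) ℝ) (Y2 : ι → Matrix (Fin k2) (Fin k2) ℝ)
    (h1 : Adm T Y1) (h2 : Adm T Y2) : Adm T (dY Y1 Y2) := by
  refine ⟨fun i => ?_, ?_⟩
  · unfold dY
    rw [Matrix.transpose_submatrix, Matrix.fromBlocks_transpose, h1.1, h2.1]
    simp
  · rw [pev_dY]
    exact isInv_unit (isInv_prod (isInv_of_unit h1.2) (isInv_of_unit h2.2))

theorem kap_sum {r k1 k2 n : ℕ} (T : Option ι → Matrix (Fin r) (Fin r) ℂ)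
    (b1 : ι → Matrix (Fin 2) (Fin k1) ℝ) (b2 : ι → Matrix (Fin 2) (Fin k2) ℝ)
    (Y1 : ι → Matrix (Fin k1) (Fin k1) ℝ) (Y2 : ι → Matrix (Fin k2) (Fin k2) ℝ)
    (h1 : Adm T Y1) (h2 : Adm T Y2) (W : Option ι → Matrix (Fin n) (Fin n) ℂ)
    (hW : Adapted T W) :
    kap W (db b1 b2) (dY Y1 Y2) = kap W b1 Y1 + kap W b2 Y2 := by
  have e1 := isInv_of_unit (hW _ _ h1)
  have e2 := isInv_of_unit (hW _ _ h2)
  have e3 := isInv_inverse (isInv_prod e1 e2)
  unfold kap
  rw [pev_dY, e3, K0_sum]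

theorem kap_smul {k n : ℕ} (b : ι → Matrix (Fin 2) (Fin k) ℝ)
    (Y : ι → Matrix (Fin k) (Fin k) ℝ) (s : ℝ) (hs : 0 ≤ s)
    (W : Option ι → Matrix (Fin n) (Fin n) ℂ) :
    kap W (fun i => Real.sqrt s • b i) Y = (s : ℂ) • kap W b Y := by
  have h : ∀ i, cx (fun i => Real.sqrt s • b i) i = (Real.sqrt s : ℂ) • cx b i := by
    intro i
    unfold cx
    ext x y
    simp
  have h2 : (Real.sqrt s : ℂ) * (Real.sqrt s : ℂ) = s := by
    rw [← Complex.ofReal_mul, Real.mul_self_sqrt hs]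
  unfold kap
  apply Matrix.ext
  intro x y
  show K0 W _ _ x y = (s : ℂ) • K0 W _ _ x y
  unfold K0
  simp only [h, Matrix.transpose_smul, Matrix.smul_mul, Matrix.mul_smul, smul_smul,
    Finset.smul_sum]
  refine Finset.sum_congr rfl fun i _ => Finset.sum_congr rfl fun j _ =>
    Finset.sum_congr rfl fun u _ => Finset.sum_congr rfl fun v _ => ?_
  congr 1
  rw [← h2]
  ring

theorem kap_zero {k n : ℕ} (Y : ι → Matrix (Fin k) (Fin k) ℝ)
    (W : Option ι → Matrix (Fin n) (Fin n) ℂ) : kap W (fun _ => 0) Y = 0 := by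
  have h : ∀ i : ι, cx (fun _ => (0 : Matrix (Fin 2) (Fin k) ℝ)) i = 0 := by
    intro i
    unfold cx
    ext x y
    simp
  unfold kap
  apply Matrix.ext
  intro x y
  show K0 W _ _ x y = 0
  unfold K0
  simp [h]

/-! ### irreducible graded pencils -/

/-- the homogeneous components -/
noncomputable def pr {n : ℕ} (γ : Fin n → ℤ) (e : ℤ) : (Fin n → ℂ) →ₗ[ℂ] (Fin n → ℂ) where
  toFun v q := if γ q = e then v q else 0
  map_add' v w := by
    funext q
    simp only [Pi.add_apply]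
    split_ifs <;> simp
  map_smul' c v := by
    funext q
    simp

theorem pr_mul {n : ℕ} (A : Matrix (Fin n) (Fin n) ℂ) (α β : Fin n → ℤ) (c : ℤ)
    (h : ∀ p q, A p q ≠ 0 → α p + β q = c) (e : ℤ) (x : Fin n → ℂ) :
    A *ᵥ pr β e x = pr α (c - e) (A *ᵥ x) := by
  funext p
  show ∑ q, A p q * (if β q = e then x q else 0) = if α p = c - e then ∑ q, A p q * x q else 0
  split_ifs with hp
  · refine Finset.sum_congr rfl fun q _ => ?_
    by_cases hA : A p q = 0
    · simp [hA]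
    · rw [if_pos (by have := h p q hA; omega)]
  · refine Finset.sum_eq_zero fun q _ => ?_
    by_cases hA : A p q = 0
    · simp [hA]
    · rw [if_neg (by have := h p q hA; omega), mul_zero]

theorem red {n k : ℕ} (hk : 0 < k) (W : Option ι → Matrix (Fin n) (Fin n) ℂ)
    (Y : ι → Matrix (Fin k) (Fin k) ℝ) (hu : IsUnit (pev W (cx Y)))
    (V V' : Submodule ℂ (Fin n → ℂ)) (h : ∀ j, ∀ v ∈ V, W j *ᵥ v ∈ V') :
    Module.finrank ℂ V ≤ Module.finrank ℂ V' := by
  let Φ : (Fin k → V) →ₗ[ℂ] (Fin k → V') :=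
    { toFun := fun f t => ⟨W none *ᵥ (f t : Fin n → ℂ) +
        ∑ i, ∑ s, (Y i t s : ℂ) • (W (some i) *ᵥ (f s : Fin n → ℂ)),
        V'.add_mem (h _ _ (f t).2) (V'.sum_mem fun i _ => V'.sum_mem fun s _ =>
          V'.smul_mem _ (h _ _ (f s).2))⟩
      map_add' := by
        intro f g
        funext t
        apply Subtype.ext
        simp only [Pi.add_apply, Submodule.coe_add, Matrix.mulVec_add, smul_add,
          Finset.sum_add_distrib]
        abel
      map_smul' := by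
        intro c f
        funext t
        apply Subtype.ext
        simp only [Pi.smul_apply, Submodule.coe_smul, Matrix.mulVec_smul, smul_add,
          Finset.smul_sum, RingHom.id_apply, smul_comm c] }
  have key : ∀ (f : Fin k → V) (u : Fin n) (t : Fin k),
      ((Matrix.comp (Fin n) (Fin n) (Fin k) (Fin k) ℂ (pev W (cx Y))) *ᵥ
        fun p => (f p.2 : Fin n → ℂ) p.1) (u, t) = ((Φ f t : V') : Fin n → ℂ) u := by
    intro f u t
    have e1 : ((Φ f t : V') : Fin n → ℂ) u = ∑ v, W none u v * (f t : Fin n → ℂ) v +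
        ∑ i, ∑ s, (Y i t s : ℂ) * ∑ v, W (some i) u v * (f s : Fin n → ℂ) v := by
      show (W none *ᵥ (f t : Fin n → ℂ) +
        ∑ i, ∑ s, (Y i t s : ℂ) • (W (some i) *ᵥ (f s : Fin n → ℂ))) u = _
      simp only [Pi.add_apply, Finset.sum_apply, Pi.smul_apply, smul_eq_mul]
      rfl
    rw [e1]
    show ∑ p : Fin n × Fin k, pev W (cx Y) u p.1 t p.2 * (f p.2 : Fin n → ℂ) p.1 = _
    rw [Fintype.sum_prod_type]
    have e2 : ∀ v s, pev W (cx Y) u v t s = (if t = s then W none u v else 0) +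
        ∑ i, W (some i) u v * (Y i t s : ℂ) := by
      intro v s
      simp only [pev, Matrix.add_apply, Matrix.sum_apply, Matrix.smul_apply, smul_eq_mul, cx,
        Matrix.map_apply, Matrix.algebraMap_matrix_apply, Algebra.algebraMap_self,
        RingHom.id_apply]
    simp only [e2, add_mul, Finset.sum_add_distrib]
    congr 1
    · refine Finset.sum_congr rfl fun v _ => ?_
      simp
    · simp only [Finset.sum_mul, Finset.mul_sum]
      rw [Finset.sum_comm]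
      calc ∑ s, ∑ v, ∑ i, W (some i) u v * (Y i t s : ℂ) * (f s : Fin n → ℂ) v
          = ∑ s, ∑ i, ∑ v, W (some i) u v * (Y i t s : ℂ) * (f s : Fin n → ℂ) v :=
            Finset.sum_congr rfl fun s _ => Finset.sum_comm
        _ = ∑ i, ∑ s, ∑ v, W (some i) u v * (Y i t s : ℂ) * (f s : Fin n → ℂ) v :=
            Finset.sum_comm
        _ = _ := Finset.sum_congr rfl fun i _ => Finset.sum_congr rfl fun s _ =>
            Finset.sum_congr rfl fun v _ => by ring
  have hinj : Function.Injective Φ := by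
    rw [← LinearMap.ker_eq_bot, LinearMap.ker_eq_bot']
    intro f hf
    have hu' := (Matrix.isUnit_comp_iff _ _ _).2 hu
    have h1 := Matrix.mulVec_injective_iff_isUnit.2 hu'
    have h2 : (Matrix.comp (Fin n) (Fin n) (Fin k) (Fin k) ℂ (pev W (cx Y))) *ᵥ
        (fun p => (f p.2 : Fin n → ℂ) p.1) =
        (Matrix.comp (Fin n) (Fin n) (Fin k) (Fin k) ℂ (pev W (cx Y))) *ᵥ 0 := by
      rw [Matrix.mulVec_zero]
      funext p
      have := key f p.1 p.2
      rw [hf] at this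
      simpa using this
    have h3 := h1 h2
    funext s
    apply Subtype.ext
    funext v
    exact congrFun h3 (v, s)
  have h1 := LinearMap.finrank_le_finrank_of_injective hinj
  rw [Module.finrank_pi_fintype, Module.finrank_pi_fintype] at h1
  simp only [Finset.sum_const, Finset.card_univ, Fintype.card_fin, smul_eq_mul] at h1
  exact Nat.le_of_mul_le_mul_left h1 hk

theorem range_top {n k : ℕ} (hk : 0 < k) (α β : Fin n → ℤ)
    (W : Option ι → Matrix (Fin n) (Fin n) ℂ) (hgr : Graded α β W) (hirr : Irr α β W)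
    (Y : ι → Matrix (Fin k) (Fin k) ℝ) (hu : IsUnit (pev W (cx Y)))
    (hnc : ∃ i, W (some i) ≠ 0) :
    Submodule.span ℂ {v | ∃ (i : ι) (x : Fin n → ℂ), v = W (some i) *ᵥ x} = ⊤ := by
  set U := Submodule.span ℂ {v | ∃ (i : ι) (x : Fin n → ℂ), v = W (some i) *ᵥ x} with hU
  have hmem : ∀ i x, W (some i) *ᵥ x ∈ U := fun i x => Submodule.subset_span ⟨i, x, rfl⟩
  have hUg : GrSub α U := by
    intro v hv e
    have : U ≤ U.comap (pr α e) := by
      conv_lhs => rw [hU]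
      rw [Submodule.span_le]
      rintro _ ⟨i, x, rfl⟩
      show pr α e (W (some i) *ᵥ x) ∈ U
      have := pr_mul (W (some i)) α β 1 (hgr.2 i) (1 - e) x
      rw [sub_sub_cancel] at this
      rw [← this]
      exact hmem _ _
    exact this hv
  set V := U.comap (W none).mulVecLin with hV
  have hVg : GrSub β V := by
    intro v hv e
    show W none *ᵥ (pr β e v) ∈ U
    rw [pr_mul (W none) α β 0 hgr.1 e v]
    exact hUg _ hv _
  have hVU : ∀ j, ∀ v ∈ V, W j *ᵥ v ∈ U := by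
    intro j v hv
    rcases j with _ | i
    · exact hv
    · exact hmem i v
  have h1 := red hk W Y hu V U hVU
  have h2 : Module.finrank ℂ U ≤ Module.finrank ℂ V := by
    have e1 : V = LinearMap.ker (U.mkQ ∘ₗ (W none).mulVecLin) := by
      rw [LinearMap.ker_comp, Submodule.ker_mkQ]
    have e2 := LinearMap.finrank_range_add_finrank_ker (U.mkQ ∘ₗ (W none).mulVecLin)
    rw [← e1] at e2
    have e3 := Submodule.finrank_le (LinearMap.range (U.mkQ ∘ₗ (W none).mulVecLin))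
    have e4 := Submodule.finrank_quotient_add_finrank U
    omega
  have h3 : Module.finrank ℂ V = Module.finrank ℂ U := le_antisymm h1 h2
  rcases hirr V U hVg hUg hVU h3 with h | h
  · exfalso
    rw [h3, Submodule.finrank_eq_zero] at h
    obtain ⟨i, hi⟩ := hnc
    apply hi
    have : ∀ x, W (some i) *ᵥ x = 0 := fun x => by
      have := hmem i x
      rw [h] at this
      simpa using this
    ext p q
    have h5 := congrFun (this (Pi.single q 1)) p
    simpa using h5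
  · apply Submodule.eq_top_of_finrank_eq
    rw [← h3, h]
    simp

theorem ker_bot {n k : ℕ} (hk : 0 < k) (α β : Fin n → ℤ)
    (W : Option ι → Matrix (Fin n) (Fin n) ℂ) (hgr : Graded α β W) (hirr : Irr α β W)
    (Y : ι → Matrix (Fin k) (Fin k) ℝ) (hu : IsUnit (pev W (cx Y)))
    (hnc : ∃ i, W (some i) ≠ 0) (v : Fin n → ℂ) (hv : ∀ i, W (some i) *ᵥ v = 0) : v = 0 := by
  let V : Submodule ℂ (Fin n → ℂ) := ⨅ i : ι, LinearMap.ker (W (some i)).mulVecLin
  have hVm : ∀ v, v ∈ V ↔ ∀ i, W (some i) *ᵥ v = 0 := by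
    intro v
    simp [V, Submodule.mem_iInf]
  have hVg : GrSub β V := by
    intro v hv e
    show pr β e v ∈ V
    rw [hVm] at hv ⊢
    intro i
    rw [pr_mul (W (some i)) α β 1 (hgr.2 i) e v, hv i, map_zero]
  let V' := V.map (W none).mulVecLin
  have hV'g : GrSub α V' := by
    rintro _ ⟨v, hv, rfl⟩ e
    have h1 := pr_mul (W none) α β 0 hgr.1 (-e) v
    rw [zero_sub, neg_neg] at h1
    show pr α e (W none *ᵥ v) ∈ V'
    rw [← h1]
    exact ⟨pr β (-e) v, hVg v hv (-e), rfl⟩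
  have hVV : ∀ j, ∀ v ∈ V, W j *ᵥ v ∈ V' := by
    intro j v hv
    rcases j with _ | i
    · exact ⟨v, hv, rfl⟩
    · rw [(hVm v).1 hv i]
      exact V'.zero_mem
  have h1 := red hk W Y hu V V' hVV
  have h2 : Module.finrank ℂ V' ≤ Module.finrank ℂ V := Submodule.finrank_map_le _ _
  rcases hirr V V' hVg hV'g hVV (le_antisymm h1 h2) with h | h
  · rw [Submodule.finrank_eq_zero] at h
    have := (hVm v).2 hv
    rw [h] at this
    simpa using this
  · exfalso
    have htop : V = ⊤ := by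
      apply Submodule.eq_top_of_finrank_eq
      rw [h]
      simp
    obtain ⟨i, hi⟩ := hnc
    apply hi
    ext p q
    have h5 : (Pi.single q 1 : Fin n → ℂ) ∈ V := by rw [htop]; trivial
    have h6 := congrFun ((hVm _).1 h5 i) p
    simpa using h6

omit [Fintype ι] in
theorem span_top {n : ℕ} (W : Option ι → Matrix (Fin n) (Fin n) ℂ)
    (ha : Submodule.span ℂ {v | ∃ (i : ι) (x : Fin n → ℂ), v = W (some i) *ᵥ x} = ⊤)
    (hb : ∀ v, (∀ i, W (some i) *ᵥ v = 0) → v = 0)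
    (N : Submodule ℂ (Matrix (Fin n) (Fin n) ℂ))
    (hN : ∀ i j B, W (some i) * B * W (some j) ∈ N) : N = ⊤ := by
  have h1 : ∀ (v y : Fin n → ℂ) (j : ι), vecMulVec v (y ᵥ* W (some j)) ∈ N := by
    intro v y j
    have hv : v ∈ Submodule.span ℂ {v | ∃ (i : ι) (x : Fin n → ℂ), v = W (some i) *ᵥ x} := by
      rw [ha]; trivial
    induction hv using Submodule.span_induction with
    | mem v h =>
      obtain ⟨i, x, rfl⟩ := h
      have e : vecMulVec (W (some i) *ᵥ x) (y ᵥ* W (some j)) =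
          W (some i) * vecMulVec x y * W (some j) := by
        rw [Matrix.mul_vecMulVec, Matrix.vecMulVec_mul]
      rw [e]
      exact hN _ _ _
    | zero =>
      rw [Matrix.zero_vecMulVec]
      exact N.zero_mem
    | add x z _ _ hx hz =>
      rw [Matrix.add_vecMulVec]
      exact N.add_mem hx hz
    | smul c x _ hx =>
      rw [Matrix.smul_vecMulVec]
      exact N.smul_mem _ hx
  have hrow : Submodule.span ℂ {z : Fin n → ℂ | ∃ (j : ι) (y : Fin n → ℂ),
      z = y ᵥ* W (some j)} = ⊤ := by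
    by_contra hne
    obtain ⟨f, hf0, hf⟩ := Submodule.exists_le_ker_of_lt_top _ (lt_top_iff_ne_top.2 hne)
    apply hf0
    have hfx : ∀ z, f z = z ⬝ᵥ fun i => f (Pi.single i 1) := by
      intro z
      conv_lhs => rw [← Finset.univ_sum_single z]
      rw [map_sum]
      refine Finset.sum_congr rfl fun i _ => ?_
      have : (Pi.single i (z i) : Fin n → ℂ) = z i • Pi.single i 1 := by
        rw [← Pi.single_smul]; simp
      rw [this, map_smul, smul_eq_mul]
    have hx0 : (fun i => f (Pi.single i 1) : Fin n → ℂ) = 0 := by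
      apply hb
      intro j
      have : ∀ y, y ⬝ᵥ (W (some j) *ᵥ fun i => f (Pi.single i 1)) = 0 := by
        intro y
        rw [Matrix.dotProduct_mulVec, ← hfx]
        exact hf (Submodule.subset_span ⟨j, y, rfl⟩)
      funext i
      have h2 := this (Pi.single i 1)
      simpa using h2
    apply LinearMap.ext
    intro z
    rw [hfx, hx0]
    simp
  have h2 : ∀ (v z : Fin n → ℂ), vecMulVec v z ∈ N := by
    intro v z
    have hz : z ∈ Submodule.span ℂ {z : Fin n → ℂ | ∃ (j : ι) (y : Fin n → ℂ),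
      z = y ᵥ* W (some j)} := by
      rw [hrow]; trivial
    induction hz using Submodule.span_induction with
    | mem z h =>
      obtain ⟨j, y, rfl⟩ := h
      exact h1 v y j
    | zero =>
      rw [Matrix.vecMulVec_zero]
      exact N.zero_mem
    | add x z _ _ hx hz =>
      rw [Matrix.vecMulVec_add]
      exact N.add_mem hx hz
    | smul c x _ hx =>
      rw [Matrix.vecMulVec_smul]
      exact N.smul_mem _ hx
  rw [eq_top_iff]
  intro B _
  have e : B = ∑ j, vecMulVec (fun i => B i j) (Pi.single j 1) := by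
    ext i j
    rw [Matrix.sum_apply]
    simp [Matrix.vecMulVec_apply, Pi.single_apply]
  rw [e]
  exact N.sum_mem fun j _ => h2 _ _

/-! ### antidiagonal matrices -/

/-- antidiagonal matrices -/
noncomputable def anti {n : ℕ} : (Matrix (Fin n) (Fin n) ℂ × Matrix (Fin n) (Fin n) ℂ) →ₗ[ℂ] M2 n where
  toFun P x y := !![0, P.1 x y; P.2 x y, 0]
  map_add' P Q := by
    apply Matrix.ext
    intro x y
    ext s t
    fin_cases s <;> fin_cases t <;> simp
  map_smul' c P := by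
    apply Matrix.ext
    intro x y
    ext s t
    fin_cases s <;> fin_cases t <;> simp

theorem anti_apply {n : ℕ} (P : Matrix (Fin n) (Fin n) ℂ × Matrix (Fin n) (Fin n) ℂ) (x y : Fin n) :
    anti P x y = !![0, P.1 x y; P.2 x y, 0] := rfl

theorem anti_mul {n : ℕ} (A B A' B' : Matrix (Fin n) (Fin n) ℂ) (h1 : A * A' = 1)
    (h2 : B * B' = 1) : anti (A, B) * anti (B', A') = 1 := by
  apply Matrix.ext
  intro x y
  rw [Matrix.mul_apply]
  simp only [anti_apply]
  have e : ∀ t, (!![0, A x t; B x t, 0] * !![0, B' t y; A' t y, 0] : Matrix (Fin 2) (Fin 2) ℂ) =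
      !![A x t * A' t y, 0; 0, B x t * B' t y] := by
    intro t
    ext i j
    fin_cases i <;> fin_cases j <;> simp [Matrix.mul_apply, Fin.sum_univ_two]
  simp only [e]
  have e2 : ∑ t, (!![A x t * A' t y, 0; 0, B x t * B' t y] : Matrix (Fin 2) (Fin 2) ℂ) =
      !![(A * A') x y, 0; 0, (B * B') x y] := by
    ext i j
    rw [Matrix.sum_apply]
    fin_cases i <;> fin_cases j <;> simp [Matrix.mul_apply]
  rw [e2, h1, h2]
  by_cases hxy : x = y
  · subst hxy
    simp only [Matrix.one_apply_eq]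
    ext i j
    fin_cases i <;> fin_cases j <;> simp
  · simp only [Matrix.one_apply_ne hxy]
    ext i j
    fin_cases i <;> fin_cases j <;> simp

theorem anti_unit {n : ℕ} (A B : Matrix (Fin n) (Fin n) ℂ) (hA : IsUnit A) (hB : IsUnit B) :
    IsUnit (anti (A, B)) := by
  obtain ⟨⟨A, A', h1, h2⟩, rfl⟩ := hA
  obtain ⟨⟨B, B', h3, h4⟩, rfl⟩ := hB
  exact ⟨⟨anti (A, B), anti (B', A'), anti_mul _ _ _ _ h1 h3, anti_mul _ _ _ _ h4 h2⟩, rfl⟩

/-! ### special rows -/

open Classical in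
/-- special rows -/
noncomputable def bb {k : ℕ} (c : Fin 2 → ι) (d : Fin 2 → Fin k) (ε : Fin 2 → ℝ) (l : ι) :
    Matrix (Fin 2) (Fin k) ℝ := fun s t => if l = c s ∧ t = d s then ε s else 0

open Classical in
omit [Fintype ι] in
theorem bb_mul {k : ℕ} (c : Fin 2 → ι) (d : Fin 2 → Fin k) (ε : Fin 2 → ℝ) (i j : ι)
    (m : Matrix (Fin k) (Fin k) ℂ) (s t : Fin 2) :
    (cx (bb c d ε) i * m * (cx (bb c d ε) j)ᵀ) s t =
      if i = c s then (if j = c t then (ε s * ε t : ℂ) * m (d s) (d t) else 0) else 0 := by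
  have e : ∀ i s t, cx (bb c d ε) i s t = if i = c s then (if t = d s then (ε s : ℂ) else 0) else 0 := by
    intro i s t
    simp only [cx, bb, Matrix.map_apply]
    split_ifs with h1 h2 h3 <;> simp_all
  simp only [Matrix.mul_apply, Matrix.transpose_apply, e]
  by_cases h1 : i = c s
  · by_cases h2 : j = c t
    · simp only [h1, h2, if_true]
      simp only [ite_mul, zero_mul, mul_ite, mul_zero, Finset.sum_ite_eq', Finset.mem_univ,
        if_true]
      ring
    · simp [h2]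
  · simp [h1]

/-- the matrix of the entries `p q` of the blocks -/
def ent {n k : ℕ} (M : Matrix (Fin n) (Fin n) (Matrix (Fin k) (Fin k) ℂ)) (p q : Fin k) :
    Matrix (Fin n) (Fin n) ℂ := fun u v => M u v p q

theorem K0_bb {n k : ℕ} (W : Option ι → Matrix (Fin n) (Fin n) ℂ)
    (M : Matrix (Fin n) (Fin n) (Matrix (Fin k) (Fin k) ℂ)) (c : Fin 2 → ι) (d : Fin 2 → Fin k)
    (ε : Fin 2 → ℝ) (x y : Fin n) (s t : Fin 2) :
    K0 W (cx (bb c d ε)) M x y s t = (ε s * ε t : ℂ) *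
      (W (some (c s)) * ent M (d s) (d t) *
        W (some (c t))) x y := by
  classical
  unfold K0
  simp only [Matrix.sum_apply, Matrix.smul_apply, smul_eq_mul, bb_mul]
  have e : ∀ i j : ι, (∑ u, ∑ v, W (some i) x u * W (some j) v y *
      (if i = c s then (if j = c t then (ε s * ε t : ℂ) * M u v (d s) (d t) else 0) else 0)) =
      if i = c s then (if j = c t then ∑ u, ∑ v, W (some i) x u * W (some j) v y *
        ((ε s * ε t : ℂ) * M u v (d s) (d t)) else 0) else 0 := by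
    intro i j
    split_ifs <;> simp
  simp only [e]
  rw [Finset.sum_eq_single (c s)]
  · rw [Finset.sum_eq_single (c t)]
    · simp only [if_true, Matrix.mul_apply, Finset.sum_mul, Finset.mul_sum]
      rw [Finset.sum_comm]
      refine Finset.sum_congr rfl fun u _ => Finset.sum_congr rfl fun v _ => ?_
      show _ = (ε s * ε t : ℂ) * (W (some (c s)) x v * M v u (d s) (d t) * W (some (c t)) u y)
      ring
    · intro j _ hj
      simp [hj]
    · simp
  · intro i _ hi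
    simp [hi]
  · simp

theorem anti_mem {n k : ℕ} (W : Option ι → Matrix (Fin n) (Fin n) ℂ)
    (M : Matrix (Fin n) (Fin n) (Matrix (Fin k) (Fin k) ℂ)) (i j : ι) (p q : Fin k) :
    anti (W (some i) * ent M p q * W (some j),
      W (some j) * ent M q p * W (some i)) =
    (1 / 2 : ℂ) • (K0 W (cx (bb ![i, j] ![p, q] ![1, 1])) M -
      K0 W (cx (bb ![i, j] ![p, q] ![1, -1])) M) := by
  apply Matrix.ext
  intro x y
  ext s t
  rw [anti_apply]
  show _ = (1 / 2 : ℂ) * (K0 W (cx (bb ![i, j] ![p, q] ![1, 1])) M x y s t -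
      K0 W (cx (bb ![i, j] ![p, q] ![1, -1])) M x y s t)
  rw [K0_bb, K0_bb]
  fin_cases s <;> fin_cases t <;> simp <;> ring

/-! ### a good point for one pencil -/

theorem single {r : ℕ} (T : Option ι → Matrix (Fin r) (Fin r) ℂ)
    (hT : ∃ (k : ℕ) (Y : ι → Matrix (Fin k) (Fin k) ℝ), 0 < k ∧ Adm T Y) (w : GP ι)
    (hw : Adapted T w.W) (hirr : Irr w.α w.β w.W) (hnc : ∃ i, w.W (some i) ≠ 0)
    (hspan : Submodule.span ℂ {B : Matrix (Fin w.n) (Fin w.n) ℂ | ∃ (k : ℕ)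
      (Y : ι → Matrix (Fin k) (Fin k) ℝ)
      (M : Matrix (Fin w.n) (Fin w.n) (Matrix (Fin k) (Fin k) ℂ)) (p q : Fin k), Adm T Y ∧
      IsInv (pev w.W (cx Y)) M ∧ B = fun u v => M u v p q} = ⊤) :
    ∃ (k : ℕ) (b : ι → Matrix (Fin 2) (Fin k) ℝ) (Y : ι → Matrix (Fin k) (Fin k) ℝ),
      Adm T Y ∧ IsUnit (kap w.W b Y) := by
  obtain ⟨k0, Y0, hk0, hY0⟩ := hT
  have hra := range_top hk0 w.α w.β w.W w.gr hirr Y0 (hw _ _ hY0) hnc
  have hrb := ker_bot hk0 w.α w.β w.W w.gr hirr Y0 (hw _ _ hY0) hnc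
  let S : Set (M2 w.n) := {x | ∃ (k : ℕ) (b : ι → Matrix (Fin 2) (Fin k) ℝ)
    (Y : ι → Matrix (Fin k) (Fin k) ℝ), Adm T Y ∧ x = kap w.W b Y}
  let Q : Submodule ℂ (Matrix (Fin w.n) (Fin w.n) ℂ × Matrix (Fin w.n) (Fin w.n) ℂ) :=
    (Submodule.span ℂ S).comap anti
  have hQ : ∀ (k : ℕ) (Y : ι → Matrix (Fin k) (Fin k) ℝ)
      (M : Matrix (Fin w.n) (Fin w.n) (Matrix (Fin k) (Fin k) ℂ)) (p q : Fin k) (i j : ι),
      Adm T Y → IsInv (pev w.W (cx Y)) M →
      (w.W (some i) * ent M p q * w.W (some j),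
      w.W (some j) * ent M q p * w.W (some i)) ∈ Q := by
    intro k Y M p q i j hY hM
    show anti _ ∈ Submodule.span ℂ S
    rw [anti_mem]
    have e : ∀ b, K0 w.W (cx b) M ∈ Submodule.span ℂ S := fun b =>
      Submodule.subset_span ⟨k, b, Y, hY, by unfold kap; rw [isInv_inverse hM]⟩
    exact Submodule.smul_mem _ _ (Submodule.sub_mem _ (e _) (e _))
  have hN1 : Q.map (LinearMap.fst ℂ _ _) = ⊤ := by
    apply span_top w.W hra hrb
    intro i j B
    have hB : B ∈ Submodule.span ℂ {B : Matrix (Fin w.n) (Fin w.n) ℂ | ∃ (k : ℕ)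
      (Y : ι → Matrix (Fin k) (Fin k) ℝ)
      (M : Matrix (Fin w.n) (Fin w.n) (Matrix (Fin k) (Fin k) ℂ)) (p q : Fin k), Adm T Y ∧
      IsInv (pev w.W (cx Y)) M ∧ B = fun u v => M u v p q} := by
      rw [hspan]; trivial
    induction hB using Submodule.span_induction with
    | mem B h =>
      obtain ⟨k, Y, M, p, q, hY, hM, rfl⟩ := h
      exact ⟨_, hQ k Y M p q i j hY hM, rfl⟩
    | zero =>
      rw [mul_zero, zero_mul]
      exact Submodule.zero_mem _
    | add x z _ _ hx hz =>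
      rw [mul_add, add_mul]
      exact Submodule.add_mem _ hx hz
    | smul c x _ hx =>
      rw [Matrix.mul_smul, Matrix.smul_mul]
      exact Submodule.smul_mem _ _ hx
  have hN2 : Q.map (LinearMap.snd ℂ _ _) = ⊤ := by
    apply span_top w.W hra hrb
    intro i j B
    have hB : B ∈ Submodule.span ℂ {B : Matrix (Fin w.n) (Fin w.n) ℂ | ∃ (k : ℕ)
      (Y : ι → Matrix (Fin k) (Fin k) ℝ)
      (M : Matrix (Fin w.n) (Fin w.n) (Matrix (Fin k) (Fin k) ℂ)) (p q : Fin k), Adm T Y ∧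
      IsInv (pev w.W (cx Y)) M ∧ B = fun u v => M u v p q} := by
      rw [hspan]; trivial
    induction hB using Submodule.span_induction with
    | mem B h =>
      obtain ⟨k, Y, M, p, q, hY, hM, rfl⟩ := h
      exact ⟨_, hQ k Y M q p j i hY hM, rfl⟩
    | zero =>
      rw [mul_zero, zero_mul]
      exact Submodule.zero_mem _
    | add x z _ _ hx hz =>
      rw [mul_add, add_mul]
      exact Submodule.add_mem _ hx hz
    | smul c x _ hx =>
      rw [Matrix.mul_smul, Matrix.smul_mul]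
      exact Submodule.smul_mem _ _ hx
  obtain ⟨⟨A1, B1⟩, h1, e1⟩ : (1 : Matrix (Fin w.n) (Fin w.n) ℂ) ∈
      Q.map (LinearMap.fst ℂ _ _) := by rw [hN1]; trivial
  obtain ⟨⟨A2, B2⟩, h2, e2⟩ : (1 : Matrix (Fin w.n) (Fin w.n) ℂ) ∈
      Q.map (LinearMap.snd ℂ _ _) := by rw [hN2]; trivial
  have e1' : A1 = 1 := e1
  have e2' : B2 = 1 := e2
  subst e1' e2'
  have hu1 : ∀ᶠ s : ℝ in Filter.atTop, IsUnit ((s : ℂ) • A2 + 1) :=
    ev_unitA Matrix.det det_iff poly_det A2 1 0 (by rw [zero_smul, zero_add]; exact isUnit_one)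
  have hu2 : ∀ᶠ s : ℝ in Filter.atTop, IsUnit ((s : ℂ) • (1 : Matrix (Fin w.n) (Fin w.n) ℂ) + B1) :=
    ev_unitB Matrix.det det_iff poly_det 1 B1 isUnit_one
  obtain ⟨s, hs1, hs2⟩ := (hu1.and hu2).exists
  have hx : anti ((s : ℂ) • A2 + 1, (s : ℂ) • (1 : Matrix (Fin w.n) (Fin w.n) ℂ) + B1) ∈
      Submodule.span ℂ S := by
    have : ((s : ℂ) • A2 + 1, (s : ℂ) • (1 : Matrix (Fin w.n) (Fin w.n) ℂ) + B1) =
        (s : ℂ) • (A2, (1 : Matrix (Fin w.n) (Fin w.n) ℂ)) + (1, B1) := rfl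
    show _ ∈ Q
    rw [this]
    exact Q.add_mem (Q.smul_mem _ h2) h1
  have hxu := anti_unit _ _ hs1 hs2
  obtain ⟨y, ⟨k, b, Y, hY, rfl⟩, hy⟩ := span_unit S ⟨k0, fun _ => 0, Y0, hY0, (kap_zero _ _).symm⟩
    (by
      rintro _ ⟨k, b, Y, hY, rfl⟩ _ ⟨k', b', Y', hY', rfl⟩
      exact ⟨_, _, _, adm_sum T Y Y' hY hY', (kap_sum T b b' Y Y' hY hY' w.W hw).symm⟩)
    (by
      rintro _ ⟨k, b, Y, hY, rfl⟩ s hs
      exact ⟨k, _, Y, hY, (kap_smul b Y s hs.le w.W).symm⟩) _ hx 0 (by rw [add_zero]; exact hxu)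
  rw [add_zero] at hy
  exact ⟨k, b, Y, hY, hy⟩

/-- a common good point -/
theorem common {r : ℕ} (T : Option ι → Matrix (Fin r) (Fin r) ℂ)
    (hT : ∃ (k : ℕ) (Y : ι → Matrix (Fin k) (Fin k) ℝ), 0 < k ∧ Adm T Y) (l : List (GP ι))
    (hl : ∀ w ∈ l, Adapted T w.W)
    (hs : ∀ w ∈ l, (∃ i, w.W (some i) ≠ 0) → ∃ (k : ℕ) (b : ι → Matrix (Fin 2) (Fin k) ℝ)
      (Y : ι → Matrix (Fin k) (Fin k) ℝ), Adm T Y ∧ IsUnit (kap w.W b Y)) :
    ∃ (k : ℕ) (b : ι → Matrix (Fin 2) (Fin k) ℝ) (Y : ι → Matrix (Fin k) (Fin k) ℝ), Adm T Y ∧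
      ∀ w ∈ l, (∃ i, w.W (some i) ≠ 0) → IsUnit (kap w.W b Y) := by
  induction l with
  | nil =>
    obtain ⟨k, Y, -, hY⟩ := hT
    exact ⟨k, fun _ => 0, Y, hY, by simp⟩
  | cons w l ih =>
    obtain ⟨k1, b1, Y1, hY1, h1⟩ := ih (fun w' hw' => hl w' (List.mem_cons_of_mem _ hw'))
      (fun w' hw' => hs w' (List.mem_cons_of_mem _ hw'))
    by_cases hnc : ∃ i, w.W (some i) ≠ 0
    · obtain ⟨k2, b2, Y2, hY2, h2⟩ := hs w List.mem_cons_self hnc
      have hev : ∀ᶠ s : ℝ in Filter.atTop, ∀ w' ∈ {w' | w' ∈ l}, (∃ i, w'.W (some i) ≠ 0) →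
          IsUnit ((s : ℂ) • kap w'.W b2 Y2 + kap w'.W b1 Y1) := by
        rw [Filter.eventually_all_finite l.finite_toSet]
        intro w' hw'
        by_cases hnc' : ∃ i, w'.W (some i) ≠ 0
        · have := ev_unit1 (kap w'.W b2 Y2) (kap w'.W b1 Y1) 0
            (by rw [zero_smul, zero_add]; exact h1 w' hw' hnc')
          filter_upwards [this] with s hs _
          exact hs
        · exact Filter.Eventually.of_forall fun s h => absurd h hnc'
      obtain ⟨s, ⟨hs1, hs2⟩, hs3⟩ := ((hev.and (ev_unit2 (kap w.W b2 Y2) (kap w.W b1 Y1) h2)).and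
        (Filter.eventually_ge_atTop 0)).exists
      refine ⟨_, db (fun i => Real.sqrt s • b2 i) b1, dY Y2 Y1, adm_sum T _ _ hY2 hY1, ?_⟩
      intro w' hw' hnc'
      rw [kap_sum T _ _ _ _ hY2 hY1 _ (hl w' hw'), kap_smul _ _ _ hs3]
      rcases List.mem_cons.1 hw' with rfl | hw''
      · exact hs2
      · exact hs1 w' hw'' hnc'
    · refine ⟨k1, b1, Y1, hY1, fun w' hw' hnc' => ?_⟩
      rcases List.mem_cons.1 hw' with rfl | hw''
      · exact absurd hnc' hnc
      · exact h1 w' hw'' hnc'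

end Wit

open Wit in
/-- WIT, from the span property of the pencils in the list -/
theorem wit_of_span {ι : Type} [Fintype ι] {r : ℕ} (T : Option ι → Matrix (Fin r) (Fin r) ℂ)
    (hT : ∃ (k : ℕ) (Y : ι → Matrix (Fin k) (Fin k) ℝ), 0 < k ∧ Adm T Y) (l : List (GP ι))
    (hl : ∀ w ∈ l, 0 < w.n ∧ Adapted T w.W ∧ Irr w.α w.β w.W)
    (hspan : ∀ w ∈ l, Submodule.span ℂ {B : Matrix (Fin w.n) (Fin w.n) ℂ | ∃ (k : ℕ)
      (Y : ι → Matrix (Fin k) (Fin k) ℝ)
      (M : Matrix (Fin w.n) (Fin w.n) (Matrix (Fin k) (Fin k) ℂ)) (p q : Fin k), Adm T Y ∧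
      IsInv (pev w.W (cx Y)) M ∧ B = fun u v => M u v p q} = ⊤) :
    ∃ (k : ℕ) (b : ι → Matrix (Fin 2) (Fin k) ℝ) (Y : ι → Matrix (Fin k) (Fin k) ℝ), Adm T Y ∧
      ∀ w ∈ l, (∃ i, w.W (some i) ≠ 0) →
        ∀ M, IsInv (pev w.W (cx Y)) M → IsUnit (K0 w.W (cx b) M) := by
  obtain ⟨k, b, Y, hY, h⟩ := common T hT l (fun w hw => (hl w hw).2.1)
    (fun w hw hnc => single T hT w (hl w hw).2.1 (hl w hw).2.2 hnc (hspan w hw))
  refine ⟨k, b, Y, hY, fun w hw hnc M hM => ?_⟩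
  have := h w hw hnc
  unfold kap at this
  rwa [isInv_inverse hM] at this

/-- WIT: a common good point for finitely many irreducible graded pencils -/
theorem t_wit : S_full → S_wit := by
  intro hfull ι _ r T hT l hl
  exact wit_of_span T hT l hl fun w hw =>
    hfull T w.α w.β w.W w.gr (hl w hw).2.1 (hl w hw).2.2 (hl w hw).1 hT

end Pool.Agent.H412.TH
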