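import Pool.Agent.H412.TH.Main
import Pool.Agent.H412.TH.Gr
import Pool.Agent.H412.TH.Lin
import Pool.Agent.H412.TH.Com
import Pool.Agent.H412.TH.Div
import Pool.Agent.H412.TH.Rank
import Pool.Agent.H412.TH.Toep
import Pool.Agent.H412.TH.Tp
import Pool.Agent.H412.TH.Sep
import Pool.Agent.H412.TH.Unit
import Pool.Agent.H412.TH.Sym
import Pool.Agent.H412.TH.Dec
import Pool.Agent.H412.TH.Full
import Pool.Agent.H412.TH.Wit
import Pool.Agent.H412.TH.Sch
import Pool.Agent.H412.TH.Nh
import Pool.Agent.H412.TH.Ine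
import Pool.Agent.H412.TH.Pol
import Pool.Agent.H412.TH.Two
import Pool.Agent.H412.TH.One

/-!
MP_0219da (helper412): everything together.
-/

set_option autoImplicit false

namespace Pool.Agent.H412.TH

theorem all_gr : S_gr :=
  t_gr t_dec (fun T _ _ _ α β W hW hA hI hn hex => t_full T α β W hW hA hI hn hex)
    (wit'_of_wit (t_wit t_full)) (t_sch t_unit)

/-- the data of the polynomial give a counterexample -/
theorem all_main {g : ℕ} (hpol : PolData (Fin g)) :
    ∃ p : FreeAlgebra ℝ (Fin g), star p = p ∧ TracePos p ∧ ¬ Cert p :=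
  main (t_toep (t_rank t_div)) t_sym all_gr t_tp t_sep t_unit t_lin (t_com t_lin) hpol

theorem all_pol : ∃ g : ℕ, PolData (Fin g) := t_pol (t_ine t_nh)

/-- the answer -/
theorem all : (∀ p : FreeAlgebra ℝ (Fin 1), TracePos p → Cert p) ∧
    ∀ g : ℕ, 2 ≤ g → ∃ p : FreeAlgebra ℝ (Fin g), star p = p ∧ TracePos p ∧ ¬ Cert p := by
  refine ⟨One.one, fun g hg => ?_⟩
  obtain ⟨g', hg'⟩ := all_pol
  exact all_main (Two.red hg' (Fin g) ⟨0, by omega⟩ ⟨1, by omega⟩
    (fun h => absurd (congrArg Fin.val h) (by norm_num)))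

end Pool.Agent.H412.TH
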