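import Pool.Agent.H412.TH.Stubs

/-!
MP_0219da (helper412): functoriality of rational expressions and pencils; the star and the trace on
Laurent series.
-/

set_option autoImplicit false

namespace Pool.Agent.H412.TH

open Matrix

/-! ## homomorphisms -/

theorem map_inverse_of_isUnit {R R' : Type} [Ring R] [Ring R'] (φ : R →+* R') {x : R}
    (h : IsUnit x) : φ (Ring.inverse x) = Ring.inverse (φ x) := by
  obtain ⟨u, rfl⟩ := h
  rw [Ring.inverse_unit]
  have : φ (u : R) = ((Units.map (φ : R →* R') u : R'ˣ) : R') := rfl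
  rw [this, Ring.inverse_unit]
  rfl

theorem RE.map {ι R R' : Type} [Ring R] [Algebra ℝ R] [Ring R'] [Algebra ℝ R'] (φ : R →ₐ[ℝ] R')
    (X : ι → R) (ρ : RE ι) (h : ρ.Dom X) :
    ρ.Dom (fun i => φ (X i)) ∧ ρ.ev (fun i => φ (X i)) = φ (ρ.ev X) := by
  induction ρ with
  | const c => exact ⟨trivial, by simp [RE.ev]⟩
  | var i => exact ⟨trivial, rfl⟩
  | add a b iha ihb =>
    obtain ⟨ha, hb⟩ := h
    exact ⟨⟨(iha ha).1, (ihb hb).1⟩, by simp only [RE.ev, (iha ha).2, (ihb hb).2, map_add]⟩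
  | mul a b iha ihb =>
    obtain ⟨ha, hb⟩ := h
    exact ⟨⟨(iha ha).1, (ihb hb).1⟩, by simp only [RE.ev, (iha ha).2, (ihb hb).2, map_mul]⟩
  | inv a iha =>
    obtain ⟨ha, hu⟩ := h
    refine ⟨⟨(iha ha).1, ?_⟩, ?_⟩
    · rw [(iha ha).2]; exact hu.map φ
    · simp only [RE.ev, (iha ha).2]
      exact (map_inverse_of_isUnit (φ : R →+* R') hu).symm

theorem pev_map {ι R R' m n : Type} [Fintype ι] [Ring R] [Algebra ℝ R] [Ring R'] [Algebra ℝ R']
    (φ : R →ₐ[ℝ] R') (Q : Option ι → Matrix m n ℝ) (X : ι → R) :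
    (pev Q X).map φ = pev Q (fun i => φ (X i)) := by
  ext p q
  simp [pev, Matrix.map_apply]

/-! ## the involution -/

theorem RE.adj_star {ι R : Type} [Ring R] [Algebra ℝ R] [StarRing R]
    (hs : ∀ c : ℝ, star (algebraMap ℝ R c) = algebraMap ℝ R c) (X : ι → R) (ρ : RE ι) :
    (ρ.adj.Dom X ↔ ρ.Dom (fun i => star (X i))) ∧
      ρ.adj.ev X = star (ρ.ev (fun i => star (X i))) := by
  induction ρ with
  | const c => exact ⟨Iff.rfl, (hs c).symm⟩
  | var i => exact ⟨Iff.rfl, (star_star _).symm⟩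
  | add a b iha ihb =>
    refine ⟨and_congr iha.1 ihb.1, ?_⟩
    simp only [RE.adj, RE.ev, iha.2, ihb.2, star_add]
  | mul a b iha ihb =>
    refine ⟨?_, ?_⟩
    · show (b.adj.Dom X ∧ a.adj.Dom X) ↔ _
      rw [iha.1, ihb.1]
      exact and_comm
    · simp only [RE.adj, RE.ev, iha.2, ihb.2, star_mul]
  | inv a iha =>
    refine ⟨?_, ?_⟩
    · show (a.adj.Dom X ∧ IsUnit (a.adj.ev X)) ↔ _
      rw [iha.1, iha.2, isUnit_star]
      rfl
    · simp only [RE.adj, RE.ev, iha.2]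
      rw [← Ring.inverse_star]

/-! ## expressions of polynomials -/

theorem exists_expr {ι : Type} (p : FreeAlgebra ℝ ι) : ∃ ρ : RE ι,
    ∀ (R : Type) [Ring R] [Algebra ℝ R] (X : ι → R), ρ.Dom X ∧
      ρ.ev X = FreeAlgebra.lift ℝ X p := by
  induction p using FreeAlgebra.induction with
  | grade0 c => exact ⟨RE.const c, fun R _ _ X => ⟨trivial, by simp [RE.ev]⟩⟩
  | grade1 i => exact ⟨RE.var i, fun R _ _ X => ⟨trivial, by simp [RE.ev]⟩⟩
  | mul a b iha ihb =>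
    obtain ⟨ρ, hρ⟩ := iha
    obtain ⟨σ, hσ⟩ := ihb
    exact ⟨ρ.mul σ, fun R _ _ X => ⟨⟨(hρ R X).1, (hσ R X).1⟩, by
      simp only [RE.ev, (hρ R X).2, (hσ R X).2, map_mul]⟩⟩
  | add a b iha ihb =>
    obtain ⟨ρ, hρ⟩ := iha
    obtain ⟨σ, hσ⟩ := ihb
    exact ⟨ρ.add σ, fun R _ _ X => ⟨⟨(hρ R X).1, (hσ R X).1⟩, by
      simp only [RE.ev, (hρ R X).2, (hσ R X).2, map_add]⟩⟩

end Pool.Agent.H412.TH
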