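import Pool.Agent.H412.TH.Expr

/-!
Trace-positive polynomials and the free skew field (MP_0219da, helper412): definitions.

Plan of the proof (a trace-positive homogeneous polynomial `p` with `tr p(a) < 0` in a group algebra
of a non-hyperlinear group cannot be a sum of squares and commutators of rational functions):
rational expressions are linearised by pencils; for a pencil `Q` which is invertible at some matrices
there are a Laurent point `X'` near `a ⊕ 0` and a power `τ^N` such that `Q(τ^N X')` is invertible.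
-/

set_option autoImplicit false

namespace Pool.Agent.H412.TH

open Matrix

/-! ## pencils -/

/-- the value of the pencil `Q none + ∑ Q (some i) x_i` -/
noncomputable def pev {𝔽 R ι m n : Type} [CommSemiring 𝔽] [Ring R] [Algebra 𝔽 R] [Fintype ι]
    (Q : Option ι → Matrix m n 𝔽) (X : ι → R) : Matrix m n R :=
  fun p q => algebraMap 𝔽 R (Q none p q) + ∑ i, Q (some i) p q • X i

/-- `M` is the inverse of `A` -/
def IsInv {n R : Type} [Fintype n] [DecidableEq n] [Ring R] (A M : Matrix n n R) : Prop :=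
  A * M = 1 ∧ M * A = 1

/-- submatrices of a pencil -/
def psub {𝔽 ι n r : Type} (T : Option ι → Matrix n n 𝔽) (a b : r → n) :
    Option ι → Matrix r r 𝔽 := fun j => (T j).submatrix a b

/-- block Toeplitz pencils: `Q none` on the diagonal, `Q (some i)` below it -/
def toep {ι : Type} {n : ℕ} (Q : Option ι → Matrix (Fin n) (Fin n) ℝ) (N : ℕ) :
    Option ι → Matrix (Fin N × Fin n) (Fin N × Fin n) ℝ
  | none => fun u v => if u.1 = v.1 then Q none u.2 v.2 else 0
  | some i => fun u v => if (u.1 : ℕ) = v.1 + 1 then Q (some i) u.2 v.2 else 0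

/-- the matrix `M`, put in the rows `b` and the columns `a` -/
noncomputable def gm {R n : Type} [Ring R] [DecidableEq n] {r : ℕ} (a b : Fin r → n)
    (M : Matrix (Fin r) (Fin r) R) : Matrix n n R :=
  fun x y => ∑ u, ∑ v, if b u = x ∧ a v = y then M u v else 0

/-- enough homomorphisms to matrices over fields -/
def Sep (R : Type) [Ring R] [Algebra ℝ R] : Prop :=
  ∀ x : R, x ≠ 0 → ∃ (s : ℕ) (L : Type) (_ : Field L) (_ : Algebra ℝ L)
    (φ : R →ₐ[ℝ] Matrix (Fin s) (Fin s) L), φ x ≠ 0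

/-! ## the formal point -/

/-- matrices over Laurent series over `A` -/
abbrev FR (K A : Type) [Fintype K] [DecidableEq K] [Ring A] : Type :=
  Matrix K K (HahnSeries ℤ A)

/-- the free algebra over `ℂ` -/
def FA (ι : Type) : Type := FreeAlgebra ℂ ι

noncomputable instance (ι : Type) : Ring (FA ι) := inferInstanceAs (Ring (FreeAlgebra ℂ ι))

noncomputable instance (ι : Type) : Algebra ℂ (FA ι) :=
  inferInstanceAs (Algebra ℂ (FreeAlgebra ℂ ι))

/-- the generators -/
noncomputable def FA.gen {ι : Type} (i : ι) : FA ι := (FreeAlgebra.ι ℂ i : FreeAlgebra ℂ ι)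

/-- `τ^N` -/
noncomputable def tau (K A : Type) [Fintype K] [DecidableEq K] [Ring A] (N : ℤ) : FR K A :=
  Matrix.scalar K (HahnSeries.single N (1 : A))

/-- the point `[[a, τ b], [τ bᵀ, τ³ Y]]` -/
noncomputable def pt {A ι : Type} [Ring A] [Algebra ℂ A] {k : ℕ} (a : ι → A)
    (b : ι → Matrix (Fin 2) (Fin k) ℝ) (Y : ι → Matrix (Fin k) (Fin k) ℝ) (i : ι) :
    FR (Fin 2 ⊕ Fin k) A :=
  Matrix.fromBlocks (Matrix.scalar (Fin 2) (HahnSeries.single 0 (a i)))
    ((b i).map fun c => HahnSeries.single 1 (algebraMap ℂ A c))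
    ((b i)ᵀ.map fun c => HahnSeries.single 1 (algebraMap ℂ A c))
    ((Y i).map fun c => HahnSeries.single 3 (algebraMap ℂ A c))

/-! ## graded pencils -/

/-- a graded pencil: constants in degree `0`, linear forms in degree `1` -/
def Graded {𝔽 ι r : Type} [Zero 𝔽] (α β : r → ℤ) (W : Option ι → Matrix r r 𝔽) : Prop :=
  (∀ p q, W none p q ≠ 0 → α p + β q = 0) ∧ ∀ i p q, W (some i) p q ≠ 0 → α p + β q = 1

/-- real matrices as complex matrices -/
noncomputable def cx {ι m n : Type} (Y : ι → Matrix m n ℝ) (i : ι) : Matrix m n ℂ :=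
  (Y i).map (fun c => (c : ℂ))

/-- the admissible points of a pencil: symmetric real matrices at which it is invertible -/
def Adm {ι : Type} [Fintype ι] {r : ℕ} (T : Option ι → Matrix (Fin r) (Fin r) ℂ) {k : ℕ}
    (Y : ι → Matrix (Fin k) (Fin k) ℝ) : Prop :=
  (∀ i, (Y i)ᵀ = Y i) ∧ IsUnit (pev T (cx Y))

/-- `W` is invertible at all admissible points of `T` -/
def Adapted {ι : Type} [Fintype ι] {r n : ℕ} (T : Option ι → Matrix (Fin r) (Fin r) ℂ)
    (W : Option ι → Matrix (Fin n) (Fin n) ℂ) : Prop :=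
  ∀ (k : ℕ) (Y : ι → Matrix (Fin k) (Fin k) ℝ), Adm T Y → IsUnit (pev W (cx Y))

/-- graded subspaces -/
def GrSub {n : ℕ} (β : Fin n → ℤ) (V : Submodule ℂ (Fin n → ℂ)) : Prop :=
  ∀ v ∈ V, ∀ e : ℤ, (fun q => if β q = e then v q else 0) ∈ V

/-- there is no proper graded reducing pair of subspaces -/
def Irr {ι : Type} {n : ℕ} (α β : Fin n → ℤ) (W : Option ι → Matrix (Fin n) (Fin n) ℂ) : Prop :=
  ∀ V V' : Submodule ℂ (Fin n → ℂ), GrSub β V → GrSub α V' → (∀ j, ∀ v ∈ V, W j *ᵥ v ∈ V') →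
    Module.finrank ℂ V = Module.finrank ℂ V' → Module.finrank ℂ V = 0 ∨ Module.finrank ℂ V = n

/-- graded complex pencils -/
structure GP (ι : Type) where
  n : ℕ
  α : Fin n → ℤ
  β : Fin n → ℤ
  W : Option ι → Matrix (Fin n) (Fin n) ℂ
  gr : Graded α β W

/-- the matrix `W_lin(b) M W_lin(bᵀ)` -/
noncomputable def K0 {ι : Type} [Fintype ι] {n k : ℕ} (W : Option ι → Matrix (Fin n) (Fin n) ℂ)
    (b : ι → Matrix (Fin 2) (Fin k) ℂ) (M : Matrix (Fin n) (Fin n) (Matrix (Fin k) (Fin k) ℂ)) :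
    Matrix (Fin n) (Fin n) (Matrix (Fin 2) (Fin 2) ℂ) :=
  fun p q => ∑ i, ∑ j, ∑ u, ∑ v, (W (some i) p u * W (some j) v q) • (b i * M u v * (b j)ᵀ)

/-! ## the polynomial -/

/-- the squared Hilbert-Schmidt norm -/
noncomputable def hs2 {n : ℕ} (X : Matrix (Fin n) (Fin n) ℂ) : ℝ := ∑ i, ∑ j, ‖X i j‖ ^ 2

open Classical in
/-- the defect of a family of matrices on the coordinates in `S` -/
noncomputable def defS {G : Type} [Group G] (F : Finset G) {n : ℕ} (S : Finset (Fin n))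
    (V : G → Matrix (Fin n) (Fin n) ℂ) : ℝ :=
  (∑ g ∈ F, ∑ h ∈ F, if g * h ∈ F then
    ∑ j ∈ S, ∑ i, ‖(V g * V h - V (g * h)) i j‖ ^ 2 else 0) +
  ∑ g ∈ F, ∑ j ∈ S, ∑ i ∈ Sᶜ, ‖V g i j‖ ^ 2

open Classical in
/-- the homogeneous defect (degree `4`) -/
noncomputable def defH {G : Type} [Group G] (F : Finset G) {n : ℕ}
    (H : Matrix (Fin n) (Fin n) ℂ) (Y : G → Matrix (Fin n) (Fin n) ℂ) : ℝ :=
  (∑ g ∈ F, ∑ h ∈ F, if g * h ∈ F then hs2 (Y g * Y h - Y (g * h) * H) else 0) +
  ∑ g ∈ F, (hs2 (H * Y g - Y g * H) + hs2 ((Y g)ᴴ * Y g - H * H) +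
    hs2 (Y g * (Y g)ᴴ - H * H))

end Pool.Agent.H412.TH
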