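import Mathlib

/-!
Noncommutative rational expressions, trace-positive polynomials and certificates (MP_0219da,
helper412).

The free skew field over the real numbers is described in the usual way by formal noncommutative
rational expressions which can be evaluated at some tuple of real square matrices; two such
expressions define the same noncommutative rational function if they have the same value at all
tuples of real matrices (of all sizes) at which both are defined.
-/

set_option autoImplicit false

namespace Pool.Agent.H412.TH

open Matrix

/-! ## rational expressions -/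

/-- formal rational expressions in the variables `x_i`, `i ∈ ι`, with real coefficients -/
inductive RE (ι : Type) : Type
  | const : ℝ → RE ι
  | var : ι → RE ι
  | add : RE ι → RE ι → RE ι
  | mul : RE ι → RE ι → RE ι
  | inv : RE ι → RE ι

namespace RE

variable {ι : Type} {R : Type} [Ring R] [Algebra ℝ R]

/-- the value at a tuple of elements of an algebra (meaningful on the domain) -/
noncomputable def ev (X : ι → R) : RE ι → R
  | const c => algebraMap ℝ R c
  | var i => X i
  | add a b => ev X a + ev X b
  | mul a b => ev X a * ev X b
  | inv a => Ring.inverse (ev X a)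

/-- the domain: everything that is inverted is invertible -/
def Dom (X : ι → R) : RE ι → Prop
  | const _ => True
  | var _ => True
  | add a b => Dom X a ∧ Dom X b
  | mul a b => Dom X a ∧ Dom X b
  | inv a => Dom X a ∧ IsUnit (ev X a)

/-- the involution: it fixes the variables and reverses products -/
def adj : RE ι → RE ι
  | const c => const c
  | var i => var i
  | add a b => add (adj a) (adj b)
  | mul a b => mul (adj b) (adj a)
  | inv a => inv (adj a)

/-- `ρ` defines an element of the free skew field: it can be evaluated at some matrices -/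
def Nondeg (ρ : RE ι) : Prop :=
  ∃ n : ℕ, 0 < n ∧ ∃ X : ι → Matrix (Fin n) (Fin n) ℝ, Dom X ρ

end RE

/-- `p` is a sum of squares plus a sum of commutators in the free skew field -/
def Cert {ι : Type} (p : FreeAlgebra ℝ ι) : Prop :=
  ∃ (r : List (RE ι)) (c : List (RE ι × RE ι)), (∀ ρ ∈ r, ρ.Nondeg) ∧
    (∀ u ∈ c, u.1.Nondeg ∧ u.2.Nondeg) ∧
    ∀ (n : ℕ) (X : ι → Matrix (Fin n) (Fin n) ℝ), (∀ ρ ∈ r, ρ.Dom X ∧ ρ.adj.Dom X) →
      (∀ u ∈ c, u.1.Dom X ∧ u.2.Dom X) →
      FreeAlgebra.lift ℝ X p = (r.map fun ρ => ρ.adj.ev X * ρ.ev X).sum +
        (c.map fun u => u.1.ev X * u.2.ev X - u.2.ev X * u.1.ev X).sum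

/-- trace-positive polynomials -/
def TracePos {ι : Type} (p : FreeAlgebra ℝ ι) : Prop :=
  ∀ (n : ℕ) (X : ι → Matrix (Fin n) (Fin n) ℝ), (∀ i, (X i)ᵀ = X i) →
    0 ≤ (FreeAlgebra.lift ℝ X p).trace

end Pool.Agent.H412.TH
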