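import Pool.Agent.H412.TH.Laur

/-!
MP_0219da (helper412): a pencil which is invertible at some real matrices is invertible at
`τ^N X'` for a formal point `X'`.
-/

set_option autoImplicit false

namespace Pool.Agent.H412.TH

open Matrix

/-! ## naturality -/

theorem gm_map {R R' n : Type} [Ring R] [Ring R'] [DecidableEq n] {r : ℕ} (φ : R →+* R')
    (a b : Fin r → n) (M : Matrix (Fin r) (Fin r) R) : (gm a b M).map φ = gm a b (M.map φ) := by
  ext x y
  simp only [gm, Matrix.map_apply, map_sum]
  refine Finset.sum_congr rfl fun u _ => Finset.sum_congr rfl fun v _ => ?_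
  split_ifs <;> simp

/-! ## polynomials in the variables and the entries of the inverse -/

/-- the algebra of the generic point and the entries of the generic inverse -/
abbrev FG (ι : Type) (r : ℕ) : Type := FreeAlgebra ℝ (ι ⊕ (Fin r × Fin r))

/-- the generic inverse -/
noncomputable def mgen (ι : Type) (r : ℕ) : Matrix (Fin r) (Fin r) (FG ι r) :=
  fun u v => FreeAlgebra.ι ℝ (Sum.inr (u, v))

/-- the generic point -/
noncomputable def xgen {ι : Type} (r : ℕ) (i : ι) : FG ι r :=
  FreeAlgebra.ι ℝ (Sum.inl i)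

theorem lift_mgen {ι R : Type} [Ring R] [Algebra ℝ R] {r : ℕ} (X : ι → R)
    (M : Matrix (Fin r) (Fin r) R) :
    (mgen ι r).map (FreeAlgebra.lift ℝ (Sum.elim X fun u : Fin r × Fin r => M u.1 u.2)) = M := by
  ext u v
  simp [mgen, FreeAlgebra.lift_ι_apply]

theorem lift_xgen {ι R : Type} [Ring R] [Algebra ℝ R] {r : ℕ} (X : ι → R)
    (M : Matrix (Fin r) (Fin r) R) (i : ι) :
    (FreeAlgebra.lift ℝ (Sum.elim X fun u : Fin r × Fin r => M u.1 u.2)) (xgen r i) = X i := by
  simp [xgen, FreeAlgebra.lift_ι_apply]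

section

variable {ι R n : Type} [Fintype ι] [Ring R] [Algebra ℝ R] [Fintype n] [DecidableEq n] {r : ℕ}

theorem lift_left (T : Option ι → Matrix n n ℝ) (a b : Fin r → n) (X : ι → R)
    (M : Matrix (Fin r) (Fin r) R) (x y : n) :
    FreeAlgebra.lift ℝ (Sum.elim X fun u : Fin r × Fin r => M u.1 u.2)
      ((gm a b (mgen ι r) * pev T (xgen r)) x y - (1 : Matrix n n (FG ι r)) x y) =
    (gm a b M * pev T X) x y - (1 : Matrix n n R) x y := by
  set φ := FreeAlgebra.lift ℝ (Sum.elim X fun u : Fin r × Fin r => M u.1 u.2) with hφ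
  have h1 : (gm a b (mgen ι r) * pev T (xgen r)).map φ = gm a b M * pev T X := by
    have h2 : (gm a b (mgen ι r)).map φ = gm a b M := by
      have := gm_map (φ : FG ι r →+* R) a b (mgen ι r)
      have h3 : (mgen ι r).map φ = M := lift_mgen X M
      change _ = gm a b ((mgen ι r).map φ) at this
      rw [h3] at this
      exact this
    have h3 : (pev T (xgen r)).map φ = pev T X := by
      rw [pev_map]
      congr 1
      funext i
      exact lift_xgen X M i
    rw [← h2, ← h3]
    exact Matrix.map_mul (f := (φ : FG ι r →+* R))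
  rw [map_sub]
  congr 1
  · rw [← h1]; rfl
  · rw [Matrix.one_apply, Matrix.one_apply]
    split_ifs <;> simp

theorem lift_right (T : Option ι → Matrix n n ℝ) (a b : Fin r → n) (X : ι → R)
    (M : Matrix (Fin r) (Fin r) R) (x y : n) :
    FreeAlgebra.lift ℝ (Sum.elim X fun u : Fin r × Fin r => M u.1 u.2)
      ((pev T (xgen r) * gm a b (mgen ι r)) x y - (1 : Matrix n n (FG ι r)) x y) =
    (pev T X * gm a b M) x y - (1 : Matrix n n R) x y := by
  set φ := FreeAlgebra.lift ℝ (Sum.elim X fun u : Fin r × Fin r => M u.1 u.2) with hφ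
  have h1 : (pev T (xgen r) * gm a b (mgen ι r)).map φ = pev T X * gm a b M := by
    have h2 : (gm a b (mgen ι r)).map φ = gm a b M := by
      have := gm_map (φ : FG ι r →+* R) a b (mgen ι r)
      have h3 : (mgen ι r).map φ = M := lift_mgen X M
      change _ = gm a b ((mgen ι r).map φ) at this
      rw [h3] at this
      exact this
    have h3 : (pev T (xgen r)).map φ = pev T X := by
      rw [pev_map]
      congr 1
      funext i
      exact lift_xgen X M i
    rw [← h2, ← h3]
    exact Matrix.map_mul (f := (φ : FG ι r →+* R))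
  rw [map_sub]
  congr 1
  · rw [← h1]; rfl
  · rw [Matrix.one_apply, Matrix.one_apply]
    split_ifs <;> simp

end

/-! ## block Toeplitz matrices -/

section

variable {ι R : Type} [Fintype ι] [Ring R] [Algebra ℝ R] {n : ℕ}

/-- the constant part -/
noncomputable def pc (Q : Option ι → Matrix (Fin n) (Fin n) ℝ) : Matrix (Fin n) (Fin n) R :=
  (Q none).map (algebraMap ℝ R)

/-- the linear part -/
noncomputable def pl (Q : Option ι → Matrix (Fin n) (Fin n) ℝ) (X : ι → R) :
    Matrix (Fin n) (Fin n) R := fun p q => ∑ i, Q (some i) p q • X i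

theorem pev_smul (Q : Option ι → Matrix (Fin n) (Fin n) ℝ) (X : ι → R) (z : R) :
    pev Q (fun i => z * X i) = pc Q + Matrix.scalar (Fin n) z * pl Q X := by
  ext p q
  rw [Matrix.add_apply, Matrix.scalar_apply, Matrix.diagonal_mul]
  simp only [pev, pc, pl, Matrix.map_apply, Finset.mul_sum, mul_smul_comm]

/-- the entries of a block Toeplitz matrix -/
theorem toep_apply (Q : Option ι → Matrix (Fin n) (Fin n) ℝ) (N : ℕ) (X : ι → R)
    (u v : Fin N × Fin n) : pev (toep Q N) X u v =
      (if u.1 = v.1 then pc Q u.2 v.2 else 0) +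
        (if (u.1 : ℕ) = v.1 + 1 then pl Q X u.2 v.2 else 0) := by
  simp only [pev, toep, pc, pl, Matrix.map_apply]
  congr 1
  · split_ifs <;> simp
  · split_ifs <;> simp

end

/-! ## solving the Toeplitz system -/

section

variable {S : Type} [Ring S] {N : ℕ}

/-- the right inverse up to a unit -/
theorem toep_right (Q L Z : S) (hZ : ∀ y, Z * y = y * Z) (G : Fin (N + 1) → S)
    (h0 : Q * G 0 = if (0 : Fin (N + 1)) = Fin.last N then 1 else 0)
    (h1 : ∀ i : Fin N, Q * G i.succ + L * G i.castSucc =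
      if i.succ = Fin.last N then 1 else 0) :
    (Q + Z * L) * (∑ i : Fin (N + 1), Z ^ (i : ℕ) * G i) =
      Z ^ N * (1 + Z * (L * G (Fin.last N))) := by
  have hZp : ∀ (k : ℕ) (y : S), Z ^ k * y = y * Z ^ k := fun k y =>
    ((show Commute Z y from hZ y).pow_left k).eq
  have e1 : Q * (∑ i : Fin (N + 1), Z ^ (i : ℕ) * G i) =
      Q * G 0 + ∑ i : Fin N, Z ^ ((i : ℕ) + 1) * (Q * G i.succ) := by
    rw [Fin.sum_univ_succ, mul_add, Finset.mul_sum]
    congr 1
    · simp
    · refine Finset.sum_congr rfl fun i _ => ?_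
      rw [← mul_assoc, ← hZp, mul_assoc, Fin.val_succ]
  have e2 : Z * L * (∑ i : Fin (N + 1), Z ^ (i : ℕ) * G i) =
      (∑ i : Fin N, Z ^ ((i : ℕ) + 1) * (L * G i.castSucc)) +
        Z ^ (N + 1) * (L * G (Fin.last N)) := by
    rw [Fin.sum_univ_castSucc, mul_add, Finset.mul_sum]
    congr 1
    · refine Finset.sum_congr rfl fun i _ => ?_
      rw [Fin.val_castSucc, pow_succ', mul_assoc, ← mul_assoc L, ← hZp]
      simp only [mul_assoc]
    · rw [Fin.val_last, pow_succ', mul_assoc, ← mul_assoc L, ← hZp]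
      simp only [mul_assoc]
  have e3 : (∑ i : Fin (N + 1), Z ^ (i : ℕ) * (if i = Fin.last N then (1 : S) else 0)) = Z ^ N := by
    rw [Finset.sum_eq_single (Fin.last N)]
    · simp
    · intro i _ hi; simp [hi]
    · simp
  have e4 : Q * G 0 + (∑ i : Fin N, Z ^ ((i : ℕ) + 1) * (Q * G i.succ)) +
      (∑ i : Fin N, Z ^ ((i : ℕ) + 1) * (L * G i.castSucc)) = Z ^ N := by
    rw [← e3, Fin.sum_univ_succ, add_assoc, ← Finset.sum_add_distrib]
    congr 1
    · rw [h0]; simp
    · refine Finset.sum_congr rfl fun i _ => ?_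
      rw [← mul_add, h1, Fin.val_succ]
  rw [add_mul, e1, e2, ← add_assoc, e4, mul_add, mul_one, pow_succ, mul_assoc]

/-- the left inverse up to a unit -/
theorem toep_left (Q L Z : S) (hZ : ∀ y, Z * y = y * Z) (G : Fin (N + 1) → S)
    (h0 : G (Fin.last N) * Q = if (0 : Fin (N + 1)) = Fin.last N then 1 else 0)
    (h1 : ∀ i : Fin N, G i.castSucc * Q + G i.succ * L =
      if (0 : Fin (N + 1)) = i.castSucc then 1 else 0) :
    (∑ i : Fin (N + 1), Z ^ (N - (i : ℕ)) * G i) * (Q + Z * L) =
      Z ^ N * (1 + Z * (G 0 * L)) := by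
  have hZp : ∀ (k : ℕ) (y : S), Z ^ k * y = y * Z ^ k := fun k y =>
    ((show Commute Z y from hZ y).pow_left k).eq
  have e1 : (∑ i : Fin (N + 1), Z ^ (N - (i : ℕ)) * G i) * Q =
      (∑ i : Fin N, Z ^ (N - (i : ℕ)) * (G i.castSucc * Q)) + G (Fin.last N) * Q := by
    rw [Fin.sum_univ_castSucc, add_mul, Finset.sum_mul]
    congr 1
    · refine Finset.sum_congr rfl fun i _ => ?_
      rw [Fin.val_castSucc, mul_assoc]
    · simp
  have e2 : (∑ i : Fin (N + 1), Z ^ (N - (i : ℕ)) * G i) * (Z * L) =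
      Z ^ (N + 1) * (G 0 * L) + (∑ i : Fin N, Z ^ (N - (i : ℕ)) * (G i.succ * L)) := by
    rw [Fin.sum_univ_succ, add_mul, Finset.sum_mul]
    congr 1
    · simp only [Fin.val_zero, Nat.sub_zero]
      rw [← mul_assoc, ← hZ, ← mul_assoc Z, ← pow_succ', mul_assoc]
    · refine Finset.sum_congr rfl fun i _ => ?_
      have : N - (i : ℕ) = N - (i.succ : ℕ) + 1 := by
        rw [Fin.val_succ]; omega
      rw [this, ← mul_assoc, ← hZ, ← mul_assoc Z, ← pow_succ', mul_assoc]
  have e3 : (∑ i : Fin (N + 1), Z ^ (N - (i : ℕ)) *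
      (if (0 : Fin (N + 1)) = i then (1 : S) else 0)) = Z ^ N := by
    rw [Finset.sum_eq_single 0]
    · simp
    · intro i _ hi; simp [Ne.symm hi]
    · simp
  have e4 : (∑ i : Fin N, Z ^ (N - (i : ℕ)) * (G i.castSucc * Q)) + G (Fin.last N) * Q +
      (∑ i : Fin N, Z ^ (N - (i : ℕ)) * (G i.succ * L)) = Z ^ N := by
    rw [← e3, Fin.sum_univ_castSucc, add_right_comm, ← Finset.sum_add_distrib]
    congr 1
    · refine Finset.sum_congr rfl fun i _ => ?_
      rw [← mul_add, h1, Fin.val_castSucc]
    · rw [h0]; simp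
  have e5 : ∀ A B C D : S, A + B + (C + D) = (A + B + D) + C := fun A B C D => by abel
  rw [mul_add, e1, e2, e5, e4, mul_add, mul_one, pow_succ, mul_assoc]

end

/-- left and right inverses up to units -/
theorem isUnit_of_both {S : Type} [Ring S] (C x y u v : S) (hu : IsUnit u) (hv : IsUnit v)
    (h1 : C * x = u) (h2 : y * C = v) : IsUnit C := by
  obtain ⟨u, rfl⟩ := hu
  obtain ⟨v, rfl⟩ := hv
  have a1 : C * (x * (↑u⁻¹ : S)) = 1 := by rw [← mul_assoc, h1, Units.mul_inv]
  have a2 : ((↑v⁻¹ : S) * y) * C = 1 := by rw [mul_assoc, h2, Units.inv_mul]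
  have a3 := left_inv_eq_right_inv a2 a1
  exact ⟨⟨C, x * (↑u⁻¹ : S), a1, by rw [← a3]; exact a2⟩, rfl⟩

section

variable {ι K A : Type} [Fintype ι] [Fintype K] [DecidableEq K] [Ring A] [Algebra ℂ A] {n : ℕ}

/-- from the conclusions of the Toeplitz trick to invertibility -/
theorem unit_of_toep (hu : S_unit) (Q : Option ι → Matrix (Fin n) (Fin n) ℝ) (N : ℕ)
    (X : ι → FR K A) (G : Matrix (Fin (N+1) × Fin n) (Fin (N+1) × Fin n) (FR K A))
    (hL : ∀ (p : Fin n) (y : Fin (N+1) × Fin n), (G * pev (toep Q (N+1)) X) ((0 : Fin (N+1)), p) y =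
          (1 : Matrix (Fin (N+1) × Fin n) (Fin (N+1) × Fin n) (FR K A)) (0, p) y)
    (hR : ∀ (x : Fin (N+1) × Fin n) (q : Fin n),
        (pev (toep Q (N+1)) X * G) x (Fin.last N, q) =
          (1 : Matrix (Fin (N+1) × Fin n) (Fin (N+1) × Fin n) (FR K A)) x (Fin.last N, q)) :
    ∃ c : ℕ, ∀ m : ℕ, c ≤ m → IsUnit (pev Q fun i => tau K A m * X i) := by
  set T := pev (toep Q (N+1)) X with hT
  set P : Matrix (Fin n) (Fin n) (FR K A) := pc Q with hP
  set L : Matrix (Fin n) (Fin n) (FR K A) := pl Q X with hLdef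
  let Gc : Fin (N+1) → Matrix (Fin n) (Fin n) (FR K A) := fun i p q => G (i, p) (Fin.last N, q)
  let Hr : Fin (N+1) → Matrix (Fin n) (Fin n) (FR K A) := fun j p q => G (0, p) (j, q)
  have hpc : ∀ u v : Fin (N+1) × Fin n, T u v =
      (if u.1 = v.1 then P u.2 v.2 else 0) + (if (u.1 : ℕ) = v.1 + 1 then L u.2 v.2 else 0) :=
    fun u v => toep_apply Q (N+1) X u v
  have r0 : P * Gc 0 = if (0 : Fin (N + 1)) = Fin.last N then 1 else 0 := by
    ext1 p q
    have h := hR (0, p) q
    rw [Matrix.mul_apply, Fintype.sum_prod_type] at h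
    have h2 : ∀ j : Fin (N+1), (∑ p', T (0, p) (j, p') * G (j, p') (Fin.last N, q)) =
        if (0 : Fin (N+1)) = j then (P * Gc 0) p q else 0 := by
      intro j
      split_ifs with hj
      · subst hj
        rw [Matrix.mul_apply]
        refine Finset.sum_congr rfl fun p' _ => ?_
        rw [hpc]
        simp [Gc]
      · refine Finset.sum_eq_zero fun p' _ => ?_
        rw [hpc]
        simp [hj]
    rw [Finset.sum_congr rfl fun j _ => h2 j, Finset.sum_ite_eq, if_pos (Finset.mem_univ _)] at h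
    rw [h, Matrix.one_apply]
    split_ifs with h3 h4 h4
    · have : p = q := by simpa using (Prod.ext_iff.1 h3).2
      subst this; simp
    · exact absurd (Prod.ext_iff.1 h3).1 h4
    · have : p ≠ q := by
        rintro rfl
        exact h3 (by rw [h4])
      rw [Matrix.one_apply_ne this]
    · rfl
  have r1 : ∀ i : Fin N, P * Gc i.succ + L * Gc i.castSucc =
      if i.succ = Fin.last N then 1 else 0 := by
    intro i
    ext1 p q
    have h := hR (i.succ, p) q
    rw [Matrix.mul_apply, Fintype.sum_prod_type] at h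
    have h2 : ∀ j : Fin (N+1), (∑ p', T (i.succ, p) (j, p') * G (j, p') (Fin.last N, q)) =
        (if i.succ = j then (P * Gc i.succ) p q else 0) +
        (if i.castSucc = j then (L * Gc i.castSucc) p q else 0) := by
      intro j
      have h3 : ∀ p', T (i.succ, p) (j, p') * G (j, p') (Fin.last N, q) =
          (if i.succ = j then P p p' * G (i.succ, p') (Fin.last N, q) else 0) +
          (if i.castSucc = j then L p p' * G (i.castSucc, p') (Fin.last N, q) else 0) := by
        intro p'
        rw [hpc, add_mul]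
        congr 1
        · by_cases hj : i.succ = j
          · rw [if_pos hj, if_pos hj, ← hj]
          · rw [if_neg hj, if_neg hj, zero_mul]
        · have : (((i.succ : Fin (N+1)) : ℕ) = (j : ℕ) + 1) ↔ i.castSucc = j := by
            rw [Fin.ext_iff, Fin.val_succ, Fin.val_castSucc]; omega
          by_cases hj : i.castSucc = j
          · rw [if_pos hj, if_pos (this.2 hj), ← hj]
          · rw [if_neg hj, if_neg (fun h => hj (this.1 h)), zero_mul]
      rw [Finset.sum_congr rfl fun p' _ => h3 p', Finset.sum_add_distrib]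
      congr 1
      · split_ifs
        · rfl
        · simp
      · split_ifs
        · rfl
        · simp
    rw [Finset.sum_congr rfl fun j _ => h2 j, Finset.sum_add_distrib, Finset.sum_ite_eq,
      Finset.sum_ite_eq, if_pos (Finset.mem_univ _), if_pos (Finset.mem_univ _)] at h
    rw [Matrix.add_apply, h, Matrix.one_apply]
    split_ifs with h3 h4 h4
    · have : p = q := by simpa using (Prod.ext_iff.1 h3).2
      subst this; simp
    · exact absurd (Prod.ext_iff.1 h3).1 h4
    · have : p ≠ q := by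
        rintro rfl
        exact h3 (by rw [h4])
      rw [Matrix.one_apply_ne this]
    · rfl
  have l0 : Hr (Fin.last N) * P = if (0 : Fin (N + 1)) = Fin.last N then 1 else 0 := by
    ext1 p q
    have h := hL p (Fin.last N, q)
    rw [Matrix.mul_apply, Fintype.sum_prod_type] at h
    have h2 : ∀ j : Fin (N+1), (∑ p', G (0, p) (j, p') * T (j, p') (Fin.last N, q)) =
        if Fin.last N = j then (Hr (Fin.last N) * P) p q else 0 := by
      intro j
      have hne : ¬ ((j : ℕ) = ((Fin.last N : Fin (N+1)) : ℕ) + 1) := by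
        have := j.2
        rw [Fin.val_last]; omega
      split_ifs with hj
      · subst hj
        rw [Matrix.mul_apply]
        refine Finset.sum_congr rfl fun p' _ => ?_
        rw [hpc]
        simp [Hr]
      · refine Finset.sum_eq_zero fun p' _ => ?_
        rw [hpc]
        simp only at hne ⊢
        rw [if_neg (Ne.symm hj), if_neg hne, add_zero, mul_zero]
    rw [Finset.sum_congr rfl fun j _ => h2 j, Finset.sum_ite_eq, if_pos (Finset.mem_univ _)] at h
    rw [h, Matrix.one_apply]
    split_ifs with h3 h4 h4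
    · have : p = q := by simpa using (Prod.ext_iff.1 h3).2
      subst this; simp
    · exact absurd (Prod.ext_iff.1 h3).1 h4
    · have : p ≠ q := by
        rintro rfl
        exact h3 (by rw [h4])
      rw [Matrix.one_apply_ne this]
    · rfl
  have l1 : ∀ i : Fin N, Hr i.castSucc * P + Hr i.succ * L =
      if (0 : Fin (N + 1)) = i.castSucc then 1 else 0 := by
    intro i
    ext1 p q
    have h := hL p (i.castSucc, q)
    rw [Matrix.mul_apply, Fintype.sum_prod_type] at h
    have h2 : ∀ j : Fin (N+1), (∑ p', G (0, p) (j, p') * T (j, p') (i.castSucc, q)) =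
        (if i.castSucc = j then (Hr i.castSucc * P) p q else 0) +
        (if i.succ = j then (Hr i.succ * L) p q else 0) := by
      intro j
      have h3 : ∀ p', G (0, p) (j, p') * T (j, p') (i.castSucc, q) =
          (if i.castSucc = j then G (0, p) (i.castSucc, p') * P p' q else 0) +
          (if i.succ = j then G (0, p) (i.succ, p') * L p' q else 0) := by
        intro p'
        rw [hpc, mul_add]
        congr 1
        · by_cases hj : i.castSucc = j
          · rw [if_pos hj, if_pos hj.symm, ← hj]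
          · rw [if_neg hj, if_neg (Ne.symm hj), mul_zero]
        · have : ((j : ℕ) = ((i.castSucc : Fin (N+1)) : ℕ) + 1) ↔ i.succ = j := by
            rw [Fin.ext_iff, Fin.val_succ, Fin.val_castSucc]; omega
          by_cases hj : i.succ = j
          · rw [if_pos hj, if_pos (this.2 hj), ← hj]
          · rw [if_neg hj, if_neg (fun h => hj (this.1 h)), mul_zero]
      rw [Finset.sum_congr rfl fun p' _ => h3 p', Finset.sum_add_distrib]
      congr 1
      · split_ifs
        · rfl
        · simp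
      · split_ifs
        · rfl
        · simp
    rw [Finset.sum_congr rfl fun j _ => h2 j, Finset.sum_add_distrib, Finset.sum_ite_eq,
      Finset.sum_ite_eq, if_pos (Finset.mem_univ _), if_pos (Finset.mem_univ _)] at h
    rw [Matrix.add_apply, h, Matrix.one_apply]
    split_ifs with h3 h4 h4
    · have : p = q := by simpa using (Prod.ext_iff.1 h3).2
      subst this; simp
    · exact absurd (Prod.ext_iff.1 h3).1 h4
    · have : p ≠ q := by
        rintro rfl
        exact h3 (by rw [h4])
      rw [Matrix.one_apply_ne this]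
    · rfl
  obtain ⟨c1, hc1⟩ := hu A K (Fin n) (L * Gc (Fin.last N))
  obtain ⟨c2, hc2⟩ := hu A K (Fin n) (Hr 0 * L)
  refine ⟨max c1 c2, fun m hm => ?_⟩
  set Z : Matrix (Fin n) (Fin n) (FR K A) := Matrix.scalar (Fin n) (tau K A m) with hZdef
  have hZ : ∀ y, Z * y = y * Z := fun y =>
    (Matrix.scalar_commute (tau K A m) (fun r => tau_comm _ r) y).eq
  have hZu : IsUnit Z := (isUnit_tau (A := A) (K := K) (m : ℤ)).map (Matrix.scalar (Fin n))
  rw [pev_smul, ← hZdef]
  exact isUnit_of_both _ _ _ _ _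
    ((hZu.pow N).mul (hc1 m (le_trans (le_max_left _ _) hm)))
    ((hZu.pow N).mul (hc2 m (le_trans (le_max_right _ _) hm)))
    (toep_right P L Z hZ Gc r0 r1) (toep_left P L Z hZ Hr l0 l1)

end

/-- block Toeplitz pencils are graded -/
theorem graded_toep {ι : Type} {n : ℕ} (Q : Option ι → Matrix (Fin n) (Fin n) ℝ) (N r : ℕ)
    (a b : Fin r → Fin N × Fin n) :
    Graded (fun p => (((a p).1 : ℕ) : ℤ)) (fun q => -(((b q).1 : ℕ) : ℤ))
      (psub (toep Q N) a b) := by
  constructor
  · intro p q h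
    change (if (a p).1 = (b q).1 then Q none (a p).2 (b q).2 else 0) ≠ 0 at h
    split_ifs at h with h1
    · simp only [h1]; ring
    · exact absurd rfl h
  · intro i p q h
    change (if ((a p).1 : ℕ) = (b q).1 + 1 then Q (some i) (a p).2 (b q).2 else 0) ≠ 0 at h
    split_ifs at h with h1
    · simp only [h1]; push_cast; ring
    · exact absurd rfl h

/-- a pencil which is invertible at some real matrices is invertible at a formal point -/
theorem formal_unit (h1 : S_toep) (h2 : S_sym) (h3 : S_gr) (h4 : S_tp) (h5 : S_sep)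
    (h6 : S_unit) {ι : Type} [Fintype ι] {n : ℕ} (Q : Option ι → Matrix (Fin n) (Fin n) ℝ)
    (hQ : ∃ s : ℕ, 0 < s ∧ ∃ Z : ι → Matrix (Fin s) (Fin s) ℝ, IsUnit (pev Q Z)) :
    ∃ (k : ℕ) (b : ι → Matrix (Fin 2) (Fin k) ℝ) (Y : ι → Matrix (Fin k) (Fin k) ℝ),
      (∀ i, (Y i)ᵀ = Y i) ∧ ∃ m : ℕ,
        IsUnit (pev Q fun i => tau (Fin 2 ⊕ Fin k) (FA ι) m * pt FA.gen b Y i) := by
  obtain ⟨N, r, a, b, hfull, hid⟩ := h1 Q hQ
  obtain ⟨k, b', Y, hY, hunit⟩ := h3 (psub (toep Q (N+1)) a b) _ _ (graded_toep Q (N+1) r a b)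
    (h2 _ hfull)
  refine ⟨k, b', Y, hY, ?_⟩
  obtain ⟨U, hU⟩ := hunit (FA ι) FA.gen
  set X := pt (FA.gen (ι := ι)) b' Y with hX
  set M : Matrix (Fin r) (Fin r) (FR (Fin 2 ⊕ Fin k) (FA ι)) := Units.val U⁻¹ with hM
  have hinv : IsInv (pev (psub (toep Q (N+1)) a b) X) M := by
    rw [← hU]
    exact ⟨U.mul_inv, U.inv_mul⟩
  have hsep : Sep (FR (Fin 2 ⊕ Fin k) (FA ι)) := h5 ι (Fin 2 ⊕ Fin k)
  obtain ⟨c, hc⟩ := unit_of_toep h6 Q N X (gm a b M) (fun p y => by
    have h := h4 (psub (toep Q (N+1)) a b)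
      ((gm a b (mgen ι r) * pev (toep Q (N+1)) (xgen r)) (0, p) y -
        (1 : Matrix (Fin (N+1) × Fin n) (Fin (N+1) × Fin n) (FG ι r)) (0, p) y)
      (fun s Z M hM => by
        have e := lift_left (toep Q (N+1)) a b Z M (0, p) y
        refine e.trans ?_
        rw [(hid s Z M hM).1 p y, sub_self]) _ hsep X M hinv
    have e := lift_left (toep Q (N+1)) a b X M (0, p) y
    rw [h] at e
    exact (sub_eq_zero.1 e.symm)) (fun x q => by
    have h := h4 (psub (toep Q (N+1)) a b)
      ((pev (toep Q (N+1)) (xgen r) * gm a b (mgen ι r)) x (Fin.last N, q) -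
        (1 : Matrix (Fin (N+1) × Fin n) (Fin (N+1) × Fin n) (FG ι r)) x (Fin.last N, q))
      (fun s Z M hM => by
        have e := lift_right (toep Q (N+1)) a b Z M x (Fin.last N, q)
        refine e.trans ?_
        rw [(hid s Z M hM).2 x q, sub_self]) _ hsep X M hinv
    have e := lift_right (toep Q (N+1)) a b X M x (Fin.last N, q)
    rw [h] at e
    exact (sub_eq_zero.1 e.symm))
  exact ⟨c, hc c le_rfl⟩

end Pool.Agent.H412.TH
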