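import Pool.Agent.H412.TH.Basic
import Pool.Graph.R_seed8.W494.RC.Polar

/-!
MP_0219da (helper412), piece INE: the homogeneous matrix inequality.
-/

set_option autoImplicit false

namespace Pool.Agent.H412.TH

namespace Ine

open Matrix
open scoped ComplexOrder Matrix.Norms.Frobenius

/-- square matrices -/
abbrev M (n : ℕ) : Type := Matrix (Fin n) (Fin n) ℂ

variable {n : ℕ}

theorem hs2_eq (X : M n) : hs2 X = ‖X‖ ^ 2 := by
  rw [Matrix.frobenius_norm_def, ← Real.sqrt_eq_rpow, Real.sq_sqrt]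
  · unfold hs2
    simp
  · positivity

theorem hs2_trace (X : M n) : hs2 X = (Xᴴ * X).trace.re := by
  unfold hs2
  rw [Matrix.trace, Complex.re_sum, Finset.sum_comm]
  refine Finset.sum_congr rfl fun j _ => ?_
  rw [Matrix.diag_apply, Matrix.mul_apply, Complex.re_sum]
  refine Finset.sum_congr rfl fun i _ => ?_
  rw [Matrix.conjTranspose_apply, Complex.star_def, mul_comm, Complex.mul_conj,
    Complex.normSq_eq_norm_sq]
  exact (Complex.ofReal_re _).symm

theorem norm_of_hs2_le {X : M n} {c : ℝ} (hc : 0 ≤ c) (h : hs2 X ≤ c ^ 2) : ‖X‖ ≤ c := by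
  rw [hs2_eq] at h
  exact (pow_le_pow_iff_left₀ (norm_nonneg _) hc two_ne_zero).1 h

theorem hs2_nonneg (X : M n) : 0 ≤ hs2 X := by
  rw [hs2_eq]; positivity

theorem norm_unitary_left {U : M n} (hU : Uᴴ * U = 1) (X : M n) : ‖U * X‖ = ‖X‖ := by
  have h : ‖U * X‖ ^ 2 = ‖X‖ ^ 2 := by
    rw [← hs2_eq, ← hs2_eq, hs2_trace, hs2_trace, Matrix.conjTranspose_mul]
    congr 2
    calc Xᴴ * Uᴴ * (U * X) = Xᴴ * (Uᴴ * U) * X := by simp only [Matrix.mul_assoc]
      _ = Xᴴ * X := by rw [hU, Matrix.mul_one]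
  exact (pow_left_inj₀ (norm_nonneg _) (norm_nonneg _) two_ne_zero).1 h

theorem norm_unitary_right {U : M n} (hU : U * Uᴴ = 1) (X : M n) : ‖X * U‖ = ‖X‖ := by
  rw [← Matrix.frobenius_norm_conjTranspose (X * U), Matrix.conjTranspose_mul,
    norm_unitary_left (by rwa [Matrix.conjTranspose_conjTranspose]),
    Matrix.frobenius_norm_conjTranspose]

/-- Cauchy-Schwarz for the trace -/
theorem trace_le (A B : M n) : |(A * B).trace.re| ≤ ‖A‖ * ‖B‖ := by
  have h1 : |(A * B).trace.re| ≤ ∑ p : Fin n × Fin n, ‖A p.1 p.2‖ * ‖B p.2 p.1‖ := by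
    refine (Complex.abs_re_le_norm _).trans ?_
    rw [Matrix.trace, Fintype.sum_prod_type]
    refine (norm_sum_le _ _).trans (Finset.sum_le_sum fun i _ => ?_)
    rw [Matrix.diag_apply, Matrix.mul_apply]
    refine (norm_sum_le _ _).trans (Finset.sum_le_sum fun j _ => ?_)
    exact (norm_mul_le _ _)
  refine h1.trans ((Real.sum_mul_le_sqrt_mul_sqrt _ _ _).trans (le_of_eq ?_))
  have h2 : ∑ p : Fin n × Fin n, ‖A p.1 p.2‖ ^ 2 = ‖A‖ ^ 2 := by
    rw [← hs2_eq, hs2, Fintype.sum_prod_type]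
  have h3 : ∑ p : Fin n × Fin n, ‖B p.2 p.1‖ ^ 2 = ‖B‖ ^ 2 := by
    rw [← hs2_eq, hs2, Fintype.sum_prod_type, Finset.sum_comm]
  rw [h2, h3, Real.sqrt_sq (norm_nonneg _), Real.sqrt_sq (norm_nonneg _)]

theorem hs2_mul_le (A B : M n) : hs2 (A * B) ≤ ‖Aᴴ * A‖ * ‖B * Bᴴ‖ := by
  rw [hs2_trace, Matrix.conjTranspose_mul]
  have h : (Bᴴ * Aᴴ * (A * B)).trace = (Aᴴ * A * (B * Bᴴ)).trace := by
    calc (Bᴴ * Aᴴ * (A * B)).trace = (Bᴴ * (Aᴴ * (A * B))).trace := by rw [Matrix.mul_assoc]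
      _ = ((Aᴴ * (A * B)) * Bᴴ).trace := Matrix.trace_mul_comm _ _
      _ = (Aᴴ * A * (B * Bᴴ)).trace := by simp only [Matrix.mul_assoc]
  rw [h]
  exact (le_abs_self _).trans (trace_le _ _)

/-- unitary diagonalisation of Hermitian matrices -/
theorem diagonalise {A : M n} (hA : A.IsHermitian) : ∃ (U : M n) (t : Fin n → ℝ),
    Uᴴ * U = 1 ∧ U * Uᴴ = 1 ∧ A = U * Matrix.diagonal (fun i => (t i : ℂ)) * Uᴴ := by
  refine ⟨(hA.eigenvectorUnitary : M n), hA.eigenvalues, ?_, ?_, ?_⟩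
  · exact Matrix.mem_unitaryGroup_iff'.1 hA.eigenvectorUnitary.2
  · exact Matrix.mem_unitaryGroup_iff.1 hA.eigenvectorUnitary.2
  · have := hA.spectral_theorem
    rw [Unitary.conjStarAlgAut_apply] at this
    exact this

/-- an inequality of Powers and Stoermer -/
theorem powers {P R : M n} (hP : P.PosSemidef) (hR : R.PosSemidef) :
    hs2 ((P - R) * (P - R)) ≤ hs2 (P * P - R * R) := by
  obtain ⟨U, d, hU1, hU2, hd⟩ := diagonalise (hP.1.sub hR.1)
  set P' : M n := Uᴴ * P * U with hP'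
  set R' : M n := Uᴴ * R * U with hR'
  have cU : ∀ X : M n, ‖Uᴴ * X * U‖ = ‖X‖ := by
    intro X
    rw [norm_unitary_right hU2, norm_unitary_left (by rwa [Matrix.conjTranspose_conjTranspose])]
  have cm : ∀ X Y : M n, Uᴴ * X * U * (Uᴴ * Y * U) = Uᴴ * (X * Y) * U := by
    intro X Y
    calc Uᴴ * X * U * (Uᴴ * Y * U) = Uᴴ * X * (U * Uᴴ) * Y * U := by
          simp only [Matrix.mul_assoc]
      _ = Uᴴ * (X * Y) * U := by rw [hU2, Matrix.mul_one]; simp only [Matrix.mul_assoc]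
  have hPR : P' - R' = Uᴴ * (P - R) * U := by
    rw [hP', hR', Matrix.mul_sub, Matrix.sub_mul]
  have hd' : P' - R' = Matrix.diagonal (fun i => (d i : ℂ)) := by
    rw [hPR, hd]
    calc Uᴴ * (U * Matrix.diagonal (fun i => (d i : ℂ)) * Uᴴ) * U =
        (Uᴴ * U) * Matrix.diagonal (fun i => (d i : ℂ)) * (Uᴴ * U) := by
          simp only [Matrix.mul_assoc]
      _ = _ := by rw [hU1, Matrix.one_mul, Matrix.mul_one]
  have pP : P'.PosSemidef := hP.conjTranspose_mul_mul_same U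
  have pR : R'.PosSemidef := hR.conjTranspose_mul_mul_same U
  have e1 : hs2 ((P - R) * (P - R)) = hs2 ((P' - R') * (P' - R')) := by
    have : (P' - R') * (P' - R') = Uᴴ * ((P - R) * (P - R)) * U := by
      rw [← cm, hPR]
    rw [this, hs2_eq, hs2_eq, cU]
  have e2 : hs2 (P * P - R * R) = hs2 (P' * P' - R' * R') := by
    have : P' * P' - R' * R' = Uᴴ * (P * P - R * R) * U := by
      rw [hP', hR', cm, cm, Matrix.mul_sub, Matrix.sub_mul]
    rw [this, hs2_eq, hs2_eq, cU]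
  rw [e1, e2, hd']
  have e3 : ∀ i, (P' * P' - R' * R') i i = (d i : ℂ) * ((P' i i) + (R' i i)) := by
    intro i
    have h1 : (2 : ℂ) • (P' * P' - R' * R') = (P' - R') * (P' + R') + (P' + R') * (P' - R') := by
      rw [two_smul]
      noncomm_ring
    have h2 := congrFun (congrFun h1 i) i
    rw [hd', Matrix.smul_apply, Matrix.add_apply, Matrix.diagonal_mul, Matrix.mul_diagonal,
      Matrix.add_apply] at h2
    simp only [smul_eq_mul] at h2
    linear_combination (1 / 2 : ℂ) * h2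
  have e4 : ∀ i, |d i| ≤ (P' i i).re + (R' i i).re := by
    intro i
    have h1 := congrFun (congrFun hd' i) i
    rw [Matrix.sub_apply, Matrix.diagonal_apply_eq] at h1
    have h2 := congrArg Complex.re h1
    rw [Complex.sub_re, Complex.ofReal_re] at h2
    have h3 := (Complex.le_def.1 (pP.diag_nonneg (i := i))).1
    have h4 := (Complex.le_def.1 (pR.diag_nonneg (i := i))).1
    rw [Complex.zero_re] at h3 h4
    rw [abs_le]
    constructor <;> linarith
  have e5 : hs2 (Matrix.diagonal (fun i => (d i : ℂ)) * Matrix.diagonal (fun i => (d i : ℂ)) : M n) =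
      ∑ i, (|d i| * |d i|) ^ 2 := by
    unfold hs2
    rw [Matrix.diagonal_mul_diagonal]
    refine Finset.sum_congr rfl fun i _ => ?_
    rw [Finset.sum_eq_single i]
    · rw [Matrix.diagonal_apply_eq, norm_mul, Complex.norm_real, Real.norm_eq_abs]
    · intro j _ hj
      rw [Matrix.diagonal_apply_ne _ (Ne.symm hj), norm_zero]
      norm_num
    · intro h
      exact absurd (Finset.mem_univ _) h
  rw [e5]
  unfold hs2
  refine Finset.sum_le_sum fun i _ => ?_
  refine le_trans ?_ (Finset.single_le_sum (f := fun j => ‖(P' * P' - R' * R') i j‖ ^ 2)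
    (fun j _ => by positivity) (Finset.mem_univ i))
  refine pow_le_pow_left₀ (by positivity) ?_ 2
  rw [e3, norm_mul, Complex.norm_real, Real.norm_eq_abs]
  refine mul_le_mul_of_nonneg_left ((e4 i).trans ?_) (abs_nonneg _)
  rw [← Complex.add_re]
  exact (le_abs_self _).trans (Complex.abs_re_le_norm _)

/-- layers -/
theorem layers (x : Fin n → ℝ) (y : Fin n → Fin n → ℝ)
    (h : ∀ S : Finset (Fin n), 0 ≤ ∑ j ∈ S, x j + ∑ j ∈ S, ∑ i ∈ Sᶜ, y i j) :
    ∀ (m : ℕ) (τ : Fin n → ℝ), (Finset.univ.filter fun j => τ j ≠ 0).card ≤ m →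
      (∀ j, 0 ≤ τ j) →
      0 ≤ ∑ j, x j * τ j + ∑ j, ∑ i, y i j * max (τ j - τ i) 0 := by
  intro m
  induction m with
  | zero =>
    intro τ hτ _
    have h0 : ∀ j, τ j = 0 := by
      intro j
      by_contra hj
      have : j ∈ Finset.univ.filter fun j => τ j ≠ 0 := by simp [hj]
      rw [Finset.card_eq_zero.1 (Nat.le_zero.1 hτ)] at this
      exact absurd this (Finset.notMem_empty _)
    simp [h0]
  | succ m ih =>
    intro τ hc hτ
    set S := Finset.univ.filter fun j => τ j ≠ 0 with hS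
    rcases S.eq_empty_or_nonempty with hSe | hSn
    · exact ih τ (by rw [← hS, hSe]; simp) hτ
    obtain ⟨j0, hj0, hmin⟩ := S.exists_min_image τ hSn
    have hδ : 0 < τ j0 := lt_of_le_of_ne (hτ j0) (Ne.symm (by simpa [hS] using hj0))
    set δ := τ j0 with hδdef
    set τ' : Fin n → ℝ := fun j => if j ∈ S then τ j - δ else 0 with hτ'
    have hout : ∀ j, j ∉ S → τ j = 0 := by
      intro j hj
      by_contra hne
      exact hj (by simp [hS, hne])
    have h1 : ∀ j, 0 ≤ τ' j := by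
      intro j
      simp only [hτ']
      split_ifs with hj
      · linarith [hmin j hj]
      · exact le_rfl
    have h2 : (Finset.univ.filter fun j => τ' j ≠ 0).card ≤ m := by
      have hsub : (Finset.univ.filter fun j => τ' j ≠ 0) ⊆ S.erase j0 := by
        intro j hj
        simp only [Finset.mem_filter, Finset.mem_univ, true_and, hτ'] at hj
        rw [Finset.mem_erase]
        by_cases hjS : j ∈ S
        · rw [if_pos hjS] at hj
          refine ⟨?_, hjS⟩
          rintro rfl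
          exact hj (sub_self _)
        · rw [if_neg hjS] at hj
          exact absurd rfl hj
      have h3 := Finset.card_le_card hsub
      rw [Finset.card_erase_of_mem hj0] at h3
      omega
    have h3 := ih τ' h2 h1
    have h4 := mul_nonneg hδ.le (h S)
    have e1 : ∑ j, x j * τ j = ∑ j, x j * τ' j + δ * ∑ j ∈ S, x j := by
      rw [Finset.mul_sum, ← Finset.sum_filter_add_sum_filter_not Finset.univ (fun j => j ∈ S)
        (fun j => x j * τ j), ← Finset.sum_filter_add_sum_filter_not Finset.univ (fun j => j ∈ S)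
        (fun j => x j * τ' j)]
      have a1 : (Finset.univ.filter fun j => j ∈ S) = S := by ext j; simp
      rw [a1]
      have a2 : ∑ j ∈ S, x j * τ j = ∑ j ∈ S, x j * τ' j + ∑ j ∈ S, δ * x j := by
        rw [← Finset.sum_add_distrib]
        refine Finset.sum_congr rfl fun j hj => ?_
        simp only [hτ', if_pos hj]
        ring
      have a3 : ∑ j ∈ Finset.univ.filter (fun j => j ∉ S), x j * τ j = 0 := by
        refine Finset.sum_eq_zero fun j hj => ?_
        rw [hout j (Finset.mem_filter.1 hj).2, mul_zero]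
      have a4 : ∑ j ∈ Finset.univ.filter (fun j => j ∉ S), x j * τ' j = 0 := by
        refine Finset.sum_eq_zero fun j hj => ?_
        simp only [hτ', if_neg (Finset.mem_filter.1 hj).2, mul_zero]
      rw [a2, a3, a4]
      ring
    have e2 : ∑ j, ∑ i, y i j * max (τ j - τ i) 0 =
        ∑ j, ∑ i, y i j * max (τ' j - τ' i) 0 + δ * ∑ j ∈ S, ∑ i ∈ Sᶜ, y i j := by
      have b1 : ∀ i j, y i j * max (τ j - τ i) 0 = y i j * max (τ' j - τ' i) 0 +
          if j ∈ S then (if i ∈ Sᶜ then δ * y i j else 0) else 0 := by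
        intro i j
        by_cases hj : j ∈ S
        · by_cases hi : i ∈ S
          · simp only [hτ', if_pos hj, if_pos hi, Finset.mem_compl, not_true_eq_false, if_false,
              hi]
            rw [show τ j - δ - (τ i - δ) = τ j - τ i by ring, add_zero]
          · have b2 := hout i hi
            have b3 := hmin j hj
            simp only [hτ', if_pos hj, if_neg hi, Finset.mem_compl, hi, not_false_eq_true,
              if_true, b2, sub_zero]
            rw [max_eq_left (hτ j), max_eq_left (by linarith)]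
            ring
        · have b2 := hout j hj
          simp only [if_neg hj, b2, add_zero, hτ']
          rw [max_eq_right (by linarith [hτ i]), max_eq_right]
          have := h1 i
          simp only [hτ'] at this
          linarith
      have b4 : ∑ j, ∑ i, y i j * max (τ j - τ i) 0 =
          ∑ j, ∑ i, (y i j * max (τ' j - τ' i) 0 +
          if j ∈ S then (if i ∈ Sᶜ then δ * y i j else 0) else 0) :=
        Finset.sum_congr rfl fun j _ => Finset.sum_congr rfl fun i _ => b1 i j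
      rw [b4]
      simp_rw [Finset.sum_add_distrib]
      congr 1
      rw [Finset.mul_sum, ← Finset.sum_filter_add_sum_filter_not Finset.univ (fun j => j ∈ S)]
      have a1 : (Finset.univ.filter fun j => j ∈ S) = S := by ext j; simp
      rw [a1]
      have a3 : ∑ j ∈ Finset.univ.filter (fun j => j ∉ S), ∑ i,
          (if j ∈ S then (if i ∈ Sᶜ then δ * y i j else 0) else 0) = 0 := by
        refine Finset.sum_eq_zero fun j hj => ?_
        simp [(Finset.mem_filter.1 hj).2]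
      rw [a3, add_zero]
      refine Finset.sum_congr rfl fun j hj => ?_
      simp only [if_pos hj]
      rw [Finset.mul_sum, ← Finset.sum_filter]
      have a5 : (Finset.univ.filter fun i => i ∈ Sᶜ) = Sᶜ := by ext i; simp
      rw [a5]
    rw [e1, e2]
    linarith

/-- Cauchy-Schwarz for the entries -/
theorem cs2 (A B : M n) : ∑ j, ∑ i, ‖A i j‖ * ‖B i j‖ ≤ ‖A‖ * ‖B‖ := by
  have h0 : ∑ j, ∑ i, ‖A i j‖ * ‖B i j‖ = ∑ p : Fin n × Fin n, ‖A p.1 p.2‖ * ‖B p.1 p.2‖ := by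
    rw [Fintype.sum_prod_type, Finset.sum_comm]
  rw [h0]
  refine ((Real.sum_mul_le_sqrt_mul_sqrt _ _ _).trans (le_of_eq ?_))
  have h2 : ∀ X : M n, ∑ p : Fin n × Fin n, ‖X p.1 p.2‖ ^ 2 = ‖X‖ ^ 2 := by
    intro X
    rw [← hs2_eq, hs2, Fintype.sum_prod_type]
  rw [h2, h2, Real.sqrt_sq (norm_nonneg _), Real.sqrt_sq (norm_nonneg _)]

theorem comm_bound {A : M n} (hA : Aᴴ * A = 1) (t : Fin n → ℝ) :
    ∑ j, ∑ i, ‖A i j‖ ^ 2 * max (t j ^ 2 - t i ^ 2) 0 ≤
      ‖A * Matrix.diagonal (fun i => (t i : ℂ)) - Matrix.diagonal (fun i => (t i : ℂ)) * A‖ *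
        (2 * ‖(Matrix.diagonal (fun i => (t i : ℂ)) : M n)‖) := by
  set D : M n := Matrix.diagonal (fun i => (t i : ℂ)) with hD
  have hA' : A * Aᴴ = 1 := mul_eq_one_comm.1 hA
  have h1 : ‖A * D + D * A‖ ≤ 2 * ‖D‖ := by
    refine (norm_add_le _ _).trans (le_of_eq ?_)
    rw [norm_unitary_left hA, norm_unitary_right hA']
    ring
  refine le_trans ?_ (mul_le_mul_of_nonneg_left h1 (norm_nonneg _))
  refine le_trans ?_ (cs2 _ _)
  refine Finset.sum_le_sum fun j _ => Finset.sum_le_sum fun i _ => ?_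
  have e1 : (A * D - D * A) i j = A i j * ((t j - t i : ℝ) : ℂ) := by
    rw [Matrix.sub_apply, hD, Matrix.mul_diagonal, Matrix.diagonal_mul]
    push_cast
    ring
  have e2 : (A * D + D * A) i j = A i j * ((t j + t i : ℝ) : ℂ) := by
    rw [Matrix.add_apply, hD, Matrix.mul_diagonal, Matrix.diagonal_mul]
    push_cast
    ring
  rw [e1, e2, norm_mul, norm_mul, Complex.norm_real, Complex.norm_real, Real.norm_eq_abs,
    Real.norm_eq_abs]
  have e3 : ‖A i j‖ * |t j - t i| * (‖A i j‖ * |t j + t i|) =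
      ‖A i j‖ ^ 2 * |t j ^ 2 - t i ^ 2| := by
    rw [show t j ^ 2 - t i ^ 2 = (t j - t i) * (t j + t i) by ring, abs_mul]
    ring
  rw [e3]
  exact mul_le_mul_of_nonneg_left (max_le (le_abs_self _) (abs_nonneg _)) (by positivity)

theorem hs2_mul_diag (A : M n) (t : Fin n → ℝ) :
    hs2 (A * Matrix.diagonal (fun i => (t i : ℂ))) = ∑ j, (∑ i, ‖A i j‖ ^ 2) * t j ^ 2 := by
  unfold hs2
  rw [Finset.sum_comm]
  refine Finset.sum_congr rfl fun j _ => ?_
  rw [Finset.sum_mul]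
  refine Finset.sum_congr rfl fun i _ => ?_
  rw [Matrix.mul_diagonal, norm_mul, Complex.norm_real, Real.norm_eq_abs, mul_pow, sq_abs]

open Classical in
theorem step4 {G : Type} [Group G] (F : Finset G) (g0 : G) (K : ℝ) (hK : 0 ≤ K)
    (hnh : ∀ (n : ℕ) (S : Finset (Fin n)) (V : G → Matrix (Fin n) (Fin n) ℂ),
      (∀ g, (V g)ᴴ * V g = 1) → 0 ≤ K * defS F S V + ∑ j ∈ S, ((V g0 j j).re - 1 / 2))
    (T : M n) (hT : T.IsHermitian) (V : G → M n) (hV : ∀ g, (V g)ᴴ * V g = 1) :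
    0 ≤ K * ((∑ g ∈ F, ∑ h ∈ F, if g * h ∈ F then hs2 ((V g * V h - V (g * h)) * T) else 0) +
      ∑ g ∈ F, ‖V g * T - T * V g‖ * (2 * ‖T‖)) + (V g0 * (T * T)).trace.re - 1 / 2 * hs2 T := by
  obtain ⟨U, t, hU1, hU2, hd⟩ := diagonalise hT
  set D : M n := Matrix.diagonal (fun i => (t i : ℂ)) with hD
  have hDT : D = Uᴴ * T * U := by
    rw [hd]
    calc D = (Uᴴ * U) * D * (Uᴴ * U) := by rw [hU1, Matrix.one_mul, Matrix.mul_one]
      _ = _ := by simp only [Matrix.mul_assoc]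
  have cU : ∀ X : M n, ‖Uᴴ * X * U‖ = ‖X‖ := by
    intro X
    rw [norm_unitary_right hU2, norm_unitary_left (by rwa [Matrix.conjTranspose_conjTranspose])]
  have cm : ∀ X Y : M n, Uᴴ * X * U * (Uᴴ * Y * U) = Uᴴ * (X * Y) * U := by
    intro X Y
    calc Uᴴ * X * U * (Uᴴ * Y * U) = Uᴴ * X * (U * Uᴴ) * Y * U := by
          simp only [Matrix.mul_assoc]
      _ = Uᴴ * (X * Y) * U := by rw [hU2, Matrix.mul_one]; simp only [Matrix.mul_assoc]
  have cs : ∀ X Y : M n, Uᴴ * X * U - Uᴴ * Y * U = Uᴴ * (X - Y) * U := by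
    intro X Y
    rw [Matrix.mul_sub, Matrix.sub_mul]
  have ct : ∀ X : M n, (Uᴴ * X * U).trace = X.trace := by
    intro X
    rw [Matrix.trace_mul_comm, ← Matrix.mul_assoc, hU2, Matrix.one_mul]
  set V' : G → M n := fun g => Uᴴ * V g * U with hV'
  have hV'1 : ∀ g, (V' g)ᴴ * V' g = 1 := by
    intro g
    have h1 : (V' g)ᴴ = Uᴴ * (V g)ᴴ * U := by
      rw [hV']
      simp only [Matrix.conjTranspose_mul, Matrix.conjTranspose_conjTranspose, Matrix.mul_assoc]
    rw [h1]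
    simp only [hV']
    rw [cm, hV g, Matrix.mul_one, hU1]
  set x : Fin n → ℝ := fun j => K * (∑ g ∈ F, ∑ h ∈ F, if g * h ∈ F then
    ∑ i, ‖(V' g * V' h - V' (g * h)) i j‖ ^ 2 else 0) + ((V' g0 j j).re - 1 / 2) with hx
  set y : Fin n → Fin n → ℝ := fun i j => K * ∑ g ∈ F, ‖V' g i j‖ ^ 2 with hy
  have hS : ∀ S : Finset (Fin n), 0 ≤ ∑ j ∈ S, x j + ∑ j ∈ S, ∑ i ∈ Sᶜ, y i j := by
    intro S
    have h1 := hnh n S V' hV'1
    have e1 : ∑ j ∈ S, x j = K * (∑ g ∈ F, ∑ h ∈ F, if g * h ∈ F then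
        ∑ j ∈ S, ∑ i, ‖(V' g * V' h - V' (g * h)) i j‖ ^ 2 else 0) +
        ∑ j ∈ S, ((V' g0 j j).re - 1 / 2) := by
      simp only [hx]
      rw [Finset.sum_add_distrib, ← Finset.mul_sum]
      congr 2
      rw [Finset.sum_comm]
      refine Finset.sum_congr rfl fun g _ => ?_
      rw [Finset.sum_comm]
      refine Finset.sum_congr rfl fun h _ => ?_
      split_ifs
      · rfl
      · simp
    have e2 : ∑ j ∈ S, ∑ i ∈ Sᶜ, y i j = K * ∑ g ∈ F, ∑ j ∈ S, ∑ i ∈ Sᶜ, ‖V' g i j‖ ^ 2 := by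
      simp only [hy]
      simp_rw [← Finset.mul_sum]
      congr 1
      rw [Finset.sum_comm]
      have : ∀ i ∈ Sᶜ, ∑ j ∈ S, ∑ g ∈ F, ‖V' g i j‖ ^ 2 = ∑ g ∈ F, ∑ j ∈ S, ‖V' g i j‖ ^ 2 :=
        fun i _ => Finset.sum_comm
      rw [Finset.sum_congr rfl this, Finset.sum_comm]
      refine Finset.sum_congr rfl fun g _ => Finset.sum_comm
    rw [e1, e2]
    unfold defS at h1
    convert h1 using 1
    ring
  have h2 := layers x y hS _ (fun j => t j ^ 2) le_rfl (fun j => sq_nonneg _)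
  -- the first sum
  have e3 : ∑ j, x j * t j ^ 2 = K * (∑ g ∈ F, ∑ h ∈ F, if g * h ∈ F then
      hs2 ((V g * V h - V (g * h)) * T) else 0) + (V g0 * (T * T)).trace.re - 1 / 2 * hs2 T := by
    have e4 : ∀ A : M n, hs2 (A * T) = ∑ j, (∑ i, ‖(Uᴴ * A * U) i j‖ ^ 2) * t j ^ 2 := by
      intro A
      rw [← hs2_mul_diag, ← hD, hDT, cm, hs2_eq, hs2_eq, cU]
    have e5 : (V g0 * (T * T)).trace.re = ∑ j, (V' g0 j j).re * t j ^ 2 := by
      have e6 : (V g0 * (T * T)).trace = (V' g0 * (D * D)).trace := by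
        rw [hDT, cm]
        simp only [hV']
        rw [cm, ct]
      rw [e6, hD, Matrix.diagonal_mul_diagonal, Matrix.trace, Complex.re_sum]
      refine Finset.sum_congr rfl fun j _ => ?_
      rw [Matrix.diag_apply, Matrix.mul_diagonal]
      rw [show ((t j : ℂ) * (t j : ℂ)) = ((t j ^ 2 : ℝ) : ℂ) by push_cast; ring,
        Complex.re_mul_ofReal]
    have e7 : hs2 T = ∑ j, t j ^ 2 := by
      have e8 : hs2 T = hs2 ((1 : M n) * D) := by
        rw [Matrix.one_mul, hDT, hs2_eq, hs2_eq, cU]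
      rw [e8, hD, hs2_mul_diag]
      refine Finset.sum_congr rfl fun j _ => ?_
      rw [Finset.sum_eq_single j]
      · rw [Matrix.one_apply_eq]; simp
      · intro i _ hij
        rw [Matrix.one_apply_ne hij]; simp
      · intro h
        exact absurd (Finset.mem_univ _) h
    have e9 : ∑ j, x j * t j ^ 2 = K * (∑ g ∈ F, ∑ h ∈ F, if g * h ∈ F then
        ∑ j, (∑ i, ‖(V' g * V' h - V' (g * h)) i j‖ ^ 2) * t j ^ 2 else 0) +
        (∑ j, (V' g0 j j).re * t j ^ 2 - 1 / 2 * ∑ j, t j ^ 2) := by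
      have f1 : ∀ j, x j * t j ^ 2 = K * (∑ g ∈ F, ∑ h ∈ F, if g * h ∈ F then
        (∑ i, ‖(V' g * V' h - V' (g * h)) i j‖ ^ 2) * t j ^ 2 else 0) +
        ((V' g0 j j).re * t j ^ 2 - 1 / 2 * t j ^ 2) := by
        intro j
        simp only [hx]
        rw [add_mul, mul_assoc, Finset.sum_mul]
        congr 2
        · refine Finset.sum_congr rfl fun g _ => ?_
          rw [Finset.sum_mul]
          refine Finset.sum_congr rfl fun h _ => ?_
          split_ifs
          · rfl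
          · rw [zero_mul]
        · ring
      rw [Finset.sum_congr rfl fun j _ => f1 j, Finset.sum_add_distrib, Finset.sum_sub_distrib,
        ← Finset.mul_sum, ← Finset.mul_sum]
      congr 2
      rw [Finset.sum_comm]
      refine Finset.sum_congr rfl fun g _ => ?_
      rw [Finset.sum_comm]
      refine Finset.sum_congr rfl fun h _ => ?_
      split_ifs
      · rfl
      · simp
    rw [e9, e5, e7]
    have e10 : ∀ g h, hs2 ((V g * V h - V (g * h)) * T) =
        ∑ j, (∑ i, ‖(V' g * V' h - V' (g * h)) i j‖ ^ 2) * t j ^ 2 := by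
      intro g h
      rw [e4]
      simp only [hV']
      rw [cm, cs]
    simp_rw [e10]
    ring
  have e11 : ∑ j, ∑ i, y i j * max (t j ^ 2 - t i ^ 2) 0 ≤
      K * ∑ g ∈ F, ‖V g * T - T * V g‖ * (2 * ‖T‖) := by
    have f1 : ∑ j, ∑ i, y i j * max (t j ^ 2 - t i ^ 2) 0 =
        K * ∑ g ∈ F, ∑ j, ∑ i, ‖V' g i j‖ ^ 2 * max (t j ^ 2 - t i ^ 2) 0 := by
      rw [Finset.mul_sum]
      simp only [hy]
      simp_rw [mul_assoc, Finset.sum_mul, Finset.mul_sum]
      rw [Finset.sum_comm]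
      have : ∀ i, ∑ j, ∑ g ∈ F, K * (‖V' g i j‖ ^ 2 * max (t j ^ 2 - t i ^ 2) 0) =
        ∑ g ∈ F, ∑ j, K * (‖V' g i j‖ ^ 2 * max (t j ^ 2 - t i ^ 2) 0) := fun i => Finset.sum_comm
      simp_rw [this]
      rw [Finset.sum_comm]
      refine Finset.sum_congr rfl fun g _ => Finset.sum_comm
    rw [f1]
    refine mul_le_mul_of_nonneg_left (Finset.sum_le_sum fun g _ => ?_) hK
    refine (comm_bound (hV'1 g) t).trans (le_of_eq ?_)
    rw [← hD]
    have f2 : ‖V' g * D - D * V' g‖ = ‖V g * T - T * V g‖ := by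
      rw [hDT]
      simp only [hV']
      rw [cm, cm, cs, cU]
    have f3 : ‖D‖ = ‖T‖ := by rw [hDT, cU]
    rw [f2, f3]
  have h3 : ∑ j, x j * (fun j => t j ^ 2) j = ∑ j, x j * t j ^ 2 := rfl
  rw [h3, e3] at h2
  linarith

theorem polar (Y : M n) : ∃ V P : M n, Vᴴ * V = 1 ∧ P.PosSemidef ∧ V * P = Y := by
  have h1 : Pool.Agent.W661.RC.IsPr (1 : M n) := ⟨Matrix.conjTranspose_one, Matrix.one_mul 1⟩
  obtain ⟨v, a, c, hv, -, ha, -, hx⟩ := Pool.Agent.W494.RC.polar Y 1 1 h1 h1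
    (by rw [Matrix.one_mul, Matrix.mul_one]) le_rfl
  exact ⟨v, a, hv, by rw [ha]; exact Matrix.posSemidef_conjTranspose_mul_self c, hx⟩

theorem sq_le_of {u v : ℝ} (hv : 0 ≤ v) (h : u ^ 2 ≤ v ^ 2) : u ≤ v := by
  by_contra hcon
  push Not at hcon
  exact absurd h (not_le.2 (pow_lt_pow_left₀ hcon hv two_ne_zero))

/-- the estimates for one polar decomposition -/
theorem one {H Y V P : M n} {a b : ℝ} (ha : 0 ≤ a) (hb : 0 ≤ b) (hH : H.PosSemidef)
    (hV : Vᴴ * V = 1) (hP : P.PosSemidef) (hY : V * P = Y) (hW : ‖H * H‖ = b ^ 2)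
    (h1 : hs2 (H * Y - Y * H) ≤ a ^ 4) (h2 : hs2 (Yᴴ * Y - H * H) ≤ a ^ 4)
    (h3 : hs2 (Y * Yᴴ - H * H) ≤ a ^ 4) :
    ‖(P - H) * H‖ ≤ a * b ∧ ‖H * (V * P * Vᴴ - H)‖ ≤ a * b ∧ ‖P * H - H * P‖ ≤ ‖P * H - H * P‖ ∧
      ‖(P - H) * (P - H)‖ ≤ a ^ 2 ∧ ‖Y * Yᴴ‖ ≤ a ^ 2 + b ^ 2 ∧ ‖H * Y - Y * H‖ ≤ a ^ 2 ∧
      V * P * Vᴴ * V = Y := by
  have hV' : V * Vᴴ = 1 := mul_eq_one_comm.1 hV
  have hHh : Hᴴ = H := hH.1
  have hPh : Pᴴ = P := hP.1
  have hPP : P * P = Yᴴ * Y := by
    rw [← hY, Matrix.conjTranspose_mul, hPh]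
    calc P * P = P * (Vᴴ * V) * P := by rw [hV, Matrix.mul_one]
      _ = _ := by simp only [Matrix.mul_assoc]
  set Q : M n := V * P * Vᴴ with hQ
  have hQs : Q.PosSemidef := hP.mul_mul_conjTranspose_same V
  have hQh : Qᴴ = Q := hQs.1
  have hQQ : Q * Q = Y * Yᴴ := by
    rw [← hY, Matrix.conjTranspose_mul, hPh, hQ]
    calc V * P * Vᴴ * (V * P * Vᴴ) = V * P * (Vᴴ * V) * P * Vᴴ := by
          simp only [Matrix.mul_assoc]
      _ = _ := by rw [hV, Matrix.mul_one]; simp only [Matrix.mul_assoc]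
  have hQV : Q * V = Y := by
    rw [hQ, Matrix.mul_assoc (V * P), hV, Matrix.mul_one, hY]
  have sqa : (a ^ 2) ^ 2 = a ^ 4 := by ring
  have g1 : ‖(P - H) * (P - H)‖ ≤ a ^ 2 := by
    refine norm_of_hs2_le (by positivity) ?_
    refine (powers hP hH).trans ?_
    rw [hPP, sqa]
    exact h2
  have g2 : ‖(Q - H) * (Q - H)‖ ≤ a ^ 2 := by
    refine norm_of_hs2_le (by positivity) ?_
    refine (powers hQs hH).trans ?_
    rw [hQQ, sqa]
    exact h3
  have hnn : 0 ≤ a * b := mul_nonneg ha hb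
  refine ⟨?_, ?_, le_rfl, g1, ?_, ?_, hQV⟩
  · refine norm_of_hs2_le hnn ((hs2_mul_le _ _).trans ?_)
    rw [Matrix.conjTranspose_sub, hPh, hHh, hW]
    calc ‖(P - H) * (P - H)‖ * b ^ 2 ≤ a ^ 2 * b ^ 2 :=
          mul_le_mul_of_nonneg_right g1 (by positivity)
      _ = (a * b) ^ 2 := by ring
  · refine norm_of_hs2_le hnn ((hs2_mul_le _ _).trans ?_)
    rw [Matrix.conjTranspose_sub, hQh, hHh, hW]
    calc b ^ 2 * ‖(Q - H) * (Q - H)‖ ≤ b ^ 2 * a ^ 2 :=
          mul_le_mul_of_nonneg_left g2 (by positivity)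
      _ = (a * b) ^ 2 := by ring
  · have h4 : ‖Y * Yᴴ - H * H‖ ≤ a ^ 2 := norm_of_hs2_le (by positivity) (by rw [sqa]; exact h3)
    calc ‖Y * Yᴴ‖ = ‖(Y * Yᴴ - H * H) + H * H‖ := by rw [sub_add_cancel]
      _ ≤ ‖Y * Yᴴ - H * H‖ + ‖H * H‖ := norm_add_le _ _
      _ ≤ a ^ 2 + b ^ 2 := by rw [hW]; linarith
  · exact norm_of_hs2_le (by positivity) (by rw [sqa]; exact h1)

end Ine

open Matrix Ine in
open scoped ComplexOrder Matrix.Norms.Frobenius in
open Classical in
/-- the homogeneous inequality -/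
theorem t_ine : S_nh → S_ine := by
  rintro ⟨G, _, g0, F, K, hg0, hg0F, hK, hnh⟩
  set f : ℝ := (F.card : ℝ) with hf
  have hf0 : 0 ≤ f := Nat.cast_nonneg _
  set C4 : ℝ := K * (36 * f ^ 2 + 6 * f) + 1 with hC4
  have hC4p : 1 ≤ C4 := by
    have : 0 ≤ K * (36 * f ^ 2 + 6 * f) := by positivity
    linarith
  set L : ℝ := 4 * C4 with hL
  have hL1 : 1 ≤ L := by linarith
  refine ⟨G, inferInstance, g0, F, 3 * L ^ 4, hg0, hg0F, by positivity, ?_⟩
  intro n H Y hH
  have hHh : Hᴴ = H := hH.1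
  -- nonnegativity of the terms of the defect
  have t1 : ∀ g ∈ F, ∀ h ∈ F,
      0 ≤ (if g * h ∈ F then hs2 (Y g * Y h - Y (g * h) * H) else 0) := by
    intro g _ h _
    split_ifs
    · exact hs2_nonneg _
    · exact le_rfl
  have t2 : ∀ g ∈ F, 0 ≤ (hs2 (H * Y g - Y g * H) + hs2 ((Y g)ᴴ * Y g - H * H) +
      hs2 (Y g * (Y g)ᴴ - H * H)) := fun g _ =>
    add_nonneg (add_nonneg (hs2_nonneg _) (hs2_nonneg _)) (hs2_nonneg _)
  have t3 : 0 ≤ ∑ g ∈ F, ∑ h ∈ F,
      (if g * h ∈ F then hs2 (Y g * Y h - Y (g * h) * H) else 0) :=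
    Finset.sum_nonneg fun g hg => Finset.sum_nonneg fun h hh => t1 g hg h hh
  have t4 := Finset.sum_nonneg t2
  have hDdef : defH F H Y = (∑ g ∈ F, ∑ h ∈ F,
      (if g * h ∈ F then hs2 (Y g * Y h - Y (g * h) * H) else 0)) +
      ∑ g ∈ F, (hs2 (H * Y g - Y g * H) + hs2 ((Y g)ᴴ * Y g - H * H) +
      hs2 (Y g * (Y g)ᴴ - H * H)) := rfl
  set D : ℝ := defH F H Y with hD
  have hD0 : 0 ≤ D := by rw [hDdef]; exact add_nonneg t3 t4
  have d1 : ∀ g ∈ F, ∀ h ∈ F, g * h ∈ F → hs2 (Y g * Y h - Y (g * h) * H) ≤ D := by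
    intro g hg h hh hgh
    have s1 := Finset.single_le_sum (f := fun h =>
      (if g * h ∈ F then hs2 (Y g * Y h - Y (g * h) * H) else 0)) (fun h hh => t1 g hg h hh) hh
    have s2 := Finset.single_le_sum (f := fun g => ∑ h ∈ F,
      (if g * h ∈ F then hs2 (Y g * Y h - Y (g * h) * H) else 0))
      (fun g hg => Finset.sum_nonneg fun h hh => t1 g hg h hh) hg
    simp only [if_pos hgh] at s1
    rw [hDdef]
    linarith
  have d2 : ∀ g ∈ F, hs2 (H * Y g - Y g * H) + hs2 ((Y g)ᴴ * Y g - H * H) +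
      hs2 (Y g * (Y g)ᴴ - H * H) ≤ D := by
    intro g hg
    have s1 := Finset.single_le_sum (f := fun g => hs2 (H * Y g - Y g * H) +
      hs2 ((Y g)ᴴ * Y g - H * H) + hs2 (Y g * (Y g)ᴴ - H * H)) t2 hg
    rw [hDdef]
    linarith
  -- the fourth roots
  obtain ⟨a, ha0, haD⟩ : ∃ a : ℝ, 0 ≤ a ∧ a ^ 4 = D := by
    refine ⟨Real.sqrt (Real.sqrt D), Real.sqrt_nonneg _, ?_⟩
    rw [show (4 : ℕ) = 2 * 2 from rfl, pow_mul, Real.sq_sqrt (Real.sqrt_nonneg _),
      Real.sq_sqrt hD0]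
  obtain ⟨b, hb0, hbW⟩ : ∃ b : ℝ, 0 ≤ b ∧ b ^ 2 = ‖H * H‖ :=
    ⟨Real.sqrt ‖H * H‖, Real.sqrt_nonneg _, Real.sq_sqrt (norm_nonneg _)⟩
  have hW : (H * H * H * H).trace.re = b ^ 4 := by
    have e1 : b ^ 4 = hs2 (H * H) := by
      rw [hs2_eq, ← hbW]; ring
    rw [e1, hs2_trace, Matrix.conjTranspose_mul, hHh]
    simp only [Matrix.mul_assoc]
  choose V P hV hP hVP using fun g => polar (Y g)
  have d3 : ∀ g ∈ F, hs2 (H * Y g - Y g * H) ≤ a ^ 4 ∧ hs2 ((Y g)ᴴ * Y g - H * H) ≤ a ^ 4 ∧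
      hs2 (Y g * (Y g)ᴴ - H * H) ≤ a ^ 4 := by
    intro g hg
    rw [haD]
    have e0 := d2 g hg
    have e1 := hs2_nonneg (H * Y g - Y g * H)
    have e2 := hs2_nonneg ((Y g)ᴴ * Y g - H * H)
    have e3 := hs2_nonneg (Y g * (Y g)ᴴ - H * H)
    refine ⟨?_, ?_, ?_⟩ <;> linarith
  have hone := fun (g : G) (hg : g ∈ F) => Ine.one (a := a) (b := b) ha0 hb0 hH (hV g) (hP g)
    (hVP g) hbW.symm (d3 g hg).1 (d3 g hg).2.1 (d3 g hg).2.2
  rw [hW, ← haD]
  by_cases hab : a * L ≤ b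
  · -- small defect
    have hab' : a ≤ b := by nlinarith
    have hV' : ∀ g, V g * (V g)ᴴ = 1 := fun g => mul_eq_one_comm.1 (hV g)
    have haa : a ^ 2 ≤ a * b := by nlinarith
    -- products
    have p1 : ∀ g ∈ F, ∀ h ∈ F, g * h ∈ F →
        ‖(V g * V h - V (g * h)) * (H * H)‖ ≤ 6 * (a * b) := by
      intro g hg h hh hgh
      obtain ⟨o1, -, -, o4, -, -, -⟩ := hone g hg
      obtain ⟨q1, -, -, -, q5, q6, -⟩ := hone h hh
      obtain ⟨r1, -, -, -, -, -, -⟩ := hone (g * h) hgh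
      have m1 : ‖V g * V h * ((P h - H) * H)‖ ≤ a * b := by
        rw [Matrix.mul_assoc, norm_unitary_left (hV g), norm_unitary_left (hV h)]
        exact q1
      have m2 : ‖V g * (H * Y h - Y h * H)‖ ≤ a * b := by
        rw [norm_unitary_left (hV g)]
        exact q6.trans haa
      have m3 : ‖V g * ((P g - H) * Y h)‖ ≤ 2 * (a * b) := by
        rw [norm_unitary_left (hV g)]
        refine norm_of_hs2_le (by positivity) ((hs2_mul_le _ _).trans ?_)
        rw [Matrix.conjTranspose_sub, (hP g).1.eq, hHh]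
        calc ‖(P g - H) * (P g - H)‖ * ‖Y h * (Y h)ᴴ‖ ≤ a ^ 2 * (a ^ 2 + b ^ 2) :=
              mul_le_mul o4 q5 (norm_nonneg _) (by positivity)
          _ ≤ (2 * (a * b)) ^ 2 := by
            have hab2 : a ^ 2 ≤ b ^ 2 := pow_le_pow_left₀ ha0 hab' 2
            have z1 := mul_le_mul_of_nonneg_left hab2 (sq_nonneg a)
            have z2 := mul_nonneg (sq_nonneg a) (sq_nonneg b)
            nlinarith
      have m4 : ‖Y g * Y h - Y (g * h) * H‖ ≤ a * b := by
        refine (norm_of_hs2_le (c := a ^ 2) (by positivity) ?_).trans haa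
        have := d1 g hg h hh hgh
        rw [← haD] at this
        linarith [show (a ^ 2) ^ 2 = a ^ 4 by ring]
      have m5 : ‖V (g * h) * ((P (g * h) - H) * H)‖ ≤ a * b := by
        rw [norm_unitary_left (hV _)]
        exact r1
      have key : (V g * V h - V (g * h)) * (H * H) = -(V g * V h * ((P h - H) * H)) -
          V g * (H * Y h - Y h * H) - V g * ((P g - H) * Y h) + (Y g * Y h - Y (g * h) * H) +
          V (g * h) * ((P (g * h) - H) * H) := by
        rw [← hVP g, ← hVP h, ← hVP (g * h)]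
        noncomm_ring
      rw [key]
      refine (norm_add_le _ _).trans ?_
      refine (add_le_add (norm_add_le _ _) m5).trans ?_
      refine (add_le_add (add_le_add (norm_sub_le _ _) m4) le_rfl).trans ?_
      refine (add_le_add (add_le_add (add_le_add (norm_sub_le _ _) m3) le_rfl) le_rfl).trans ?_
      rw [norm_neg]
      linarith
    have p2 : ∀ g ∈ F, ‖V g * (H * H) - H * H * V g‖ ≤ 3 * (a * b) := by
      intro g hg
      obtain ⟨o1, o2, -, -, -, o6, o7⟩ := hone g hg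
      have m1 : ‖V g * ((P g - H) * H)‖ ≤ a * b := by
        rw [norm_unitary_left (hV g)]
        exact o1
      have m3 : ‖H * (V g * P g * (V g)ᴴ - H) * V g‖ ≤ a * b := by
        rw [norm_unitary_right (hV' g)]
        exact o2
      have key : V g * (H * H) - H * H * V g = -(V g * ((P g - H) * H)) -
          (H * Y g - Y g * H) + H * (V g * P g * (V g)ᴴ - H) * V g := by
        have e1 : H * (V g * P g * (V g)ᴴ - H) * V g = H * Y g - H * H * V g := by
          rw [Matrix.mul_sub, Matrix.sub_mul, Matrix.mul_assoc H (V g * P g * (V g)ᴴ), o7]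
        rw [e1, ← hVP g]
        noncomm_ring
      rw [key]
      refine (norm_add_le _ _).trans ?_
      refine (add_le_add (norm_sub_le _ _) m3).trans ?_
      rw [norm_neg]
      linarith
    have hT : (H * H).IsHermitian := by
      unfold Matrix.IsHermitian
      rw [Matrix.conjTranspose_mul, hHh]
    have st := step4 F g0 K hK hnh (H * H) hT V hV
    -- bounds of the sums
    have s1 : (∑ g ∈ F, ∑ h ∈ F, if g * h ∈ F then
        hs2 ((V g * V h - V (g * h)) * (H * H)) else 0) ≤ f ^ 2 * (36 * (a * b) ^ 2) := by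
      have : ∀ g ∈ F, ∀ h ∈ F, (if g * h ∈ F then
        hs2 ((V g * V h - V (g * h)) * (H * H)) else 0) ≤ 36 * (a * b) ^ 2 := by
        intro g hg h hh
        split_ifs with hgh
        · rw [hs2_eq]
          calc _ ≤ (6 * (a * b)) ^ 2 := pow_le_pow_left₀ (norm_nonneg _) (p1 g hg h hh hgh) 2
            _ = _ := by ring
        · positivity
      calc _ ≤ ∑ g ∈ F, ∑ h ∈ F, 36 * (a * b) ^ 2 :=
            Finset.sum_le_sum fun g hg => Finset.sum_le_sum fun h hh => this g hg h hh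
        _ = _ := by
          rw [Finset.sum_const, Finset.sum_const, nsmul_eq_mul, nsmul_eq_mul]
          ring
    have s2 : (∑ g ∈ F, ‖V g * (H * H) - H * H * V g‖ * (2 * ‖H * H‖)) ≤
        f * (3 * (a * b) * (2 * b ^ 2)) := by
      calc _ ≤ ∑ g ∈ F, 3 * (a * b) * (2 * b ^ 2) := by
            refine Finset.sum_le_sum fun g hg => ?_
            rw [← hbW]
            exact mul_le_mul_of_nonneg_right (p2 g hg) (by positivity)
        _ = _ := by rw [Finset.sum_const, nsmul_eq_mul]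
    have s3 : hs2 (H * H) = b ^ 4 := by rw [hs2_eq, ← hbW]; ring
    -- the trace
    have s4 : (V g0 * (H * H * (H * H))).trace.re ≤
        (H * H * H * Y g0).trace.re + b ^ 2 * (a * b) := by
      obtain ⟨-, o2, -, -, -, -, o7⟩ := hone g0 hg0F
      have e1 : (V g0 * (H * H * (H * H))).trace = (H * H * (H * H) * V g0).trace :=
        Matrix.trace_mul_comm _ _
      have e2 : H * H * (H * H) * V g0 = H * H * H * Y g0 -
          (H * H) * (H * (V g0 * P g0 * (V g0)ᴴ - H) * V g0) := by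
        have e3 : H * (V g0 * P g0 * (V g0)ᴴ - H) * V g0 = H * Y g0 - H * H * V g0 := by
          rw [Matrix.mul_sub, Matrix.sub_mul, Matrix.mul_assoc H (V g0 * P g0 * (V g0)ᴴ), o7]
        rw [e3]
        noncomm_ring
      rw [e1, e2, Matrix.trace_sub, Complex.sub_re]
      have e4 := trace_le (H * H) (H * (V g0 * P g0 * (V g0)ᴴ - H) * V g0)
      rw [norm_unitary_right (hV' g0), ← hbW] at e4
      have e5 := neg_abs_le ((H * H) * (H * (V g0 * P g0 * (V g0)ᴴ - H) * V g0)).trace.re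
      have e6 : b ^ 2 * ‖H * (V g0 * P g0 * (V g0)ᴴ - H)‖ ≤ b ^ 2 * (a * b) :=
        mul_le_mul_of_nonneg_left o2 (by positivity)
      linarith
    have s5 : K * ((∑ g ∈ F, ∑ h ∈ F, if g * h ∈ F then
        hs2 ((V g * V h - V (g * h)) * (H * H)) else 0) +
        ∑ g ∈ F, ‖V g * (H * H) - H * H * V g‖ * (2 * ‖H * H‖)) ≤
        K * (36 * f ^ 2 + 6 * f) * (a * b ^ 3) := by
      rw [mul_assoc]
      refine mul_le_mul_of_nonneg_left ?_ hK
      have e1 : (a * b) ^ 2 ≤ a * b ^ 3 := by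
        have : (a * b) ^ 2 = a ^ 2 * b ^ 2 := by ring
        rw [this]
        calc a ^ 2 * b ^ 2 ≤ (a * b) * b ^ 2 := mul_le_mul_of_nonneg_right haa (by positivity)
          _ = _ := by ring
      have e2 : f ^ 2 * (36 * (a * b) ^ 2) ≤ f ^ 2 * (36 * (a * b ^ 3)) := by gcongr
      calc _ ≤ f ^ 2 * (36 * (a * b ^ 3)) + f * (3 * (a * b) * (2 * b ^ 2)) :=
            add_le_add (s1.trans e2) s2
        _ = _ := by ring
    rw [s3] at st
    have s6 : C4 * (a * b ^ 3) ≤ b ^ 4 / 4 := by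
      have : a * C4 ≤ b / 4 := by rw [hL] at hab; linarith
      calc C4 * (a * b ^ 3) = (a * C4) * b ^ 3 := by ring
        _ ≤ b / 4 * b ^ 3 := mul_le_mul_of_nonneg_right this (by positivity)
        _ = _ := by ring
    have s7 : C4 * (a * b ^ 3) = K * (36 * f ^ 2 + 6 * f) * (a * b ^ 3) + b ^ 2 * (a * b) := by
      rw [hC4]; ring
    have s8 : 0 ≤ 3 * L ^ 4 * a ^ 4 := by positivity
    linarith
  · -- large defect
    push Not at hab
    obtain ⟨-, -, -, -, o5, -, -⟩ := hone g0 hg0F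
    have n1 : ‖H * Y g0‖ ≤ b * (a + b) := by
      refine norm_of_hs2_le (by positivity) ((hs2_mul_le _ _).trans ?_)
      rw [hHh, ← hbW]
      calc b ^ 2 * ‖Y g0 * (Y g0)ᴴ‖ ≤ b ^ 2 * (a ^ 2 + b ^ 2) :=
            mul_le_mul_of_nonneg_left o5 (by positivity)
        _ ≤ (b * (a + b)) ^ 2 := by
          have : 0 ≤ b ^ 2 * (2 * a * b) := by positivity
          nlinarith
    have n2 : -(b ^ 3 * (a + b)) ≤ (H * H * H * Y g0).trace.re := by
      have e1 : H * H * H * Y g0 = (H * H) * (H * Y g0) := by simp only [Matrix.mul_assoc]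
      rw [e1]
      have e2 := trace_le (H * H) (H * Y g0)
      have e3 := neg_abs_le ((H * H) * (H * Y g0)).trace.re
      rw [← hbW] at e2
      have e4 : b ^ 2 * ‖H * Y g0‖ ≤ b ^ 2 * (b * (a + b)) :=
        mul_le_mul_of_nonneg_left n1 (by positivity)
      have e5 : b ^ 2 * (b * (a + b)) = b ^ 3 * (a + b) := by ring
      linarith
    have n3 : b ^ 3 ≤ (a * L) ^ 3 := pow_le_pow_left₀ hb0 hab.le 3
    have n4 : b ^ 4 ≤ (a * L) ^ 4 := pow_le_pow_left₀ hb0 hab.le 4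
    have n5 : a + b ≤ 2 * (a * L) := by nlinarith
    have n6 : b ^ 3 * (a + b) ≤ (a * L) ^ 3 * (2 * (a * L)) :=
      mul_le_mul n3 n5 (by positivity) (by positivity)
    have n7 : (a * L) ^ 3 * (2 * (a * L)) = 2 * (L ^ 4 * a ^ 4) := by ring
    have n8 : (a * L) ^ 4 = L ^ 4 * a ^ 4 := by ring
    have n9 : 0 ≤ L ^ 4 * a ^ 4 := by positivity
    nlinarith

end Pool.Agent.H412.TH
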