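import Pool.Agent.H412.TH.Basic

/-!
MP_0219da (helper412): the star and the trace on matrices over Laurent series.
-/

set_option autoImplicit false

namespace Pool.Agent.H412.TH

open Matrix Finset

variable {A B : Type}

/-! ## homomorphisms -/

theorem hs_coeff_one [Ring A] (n : ℤ) : (1 : HahnSeries ℤ A).coeff n = if n = 0 then 1 else 0 := by
  rw [HahnSeries.coeff_one]
  split_ifs <;> rfl

/-- coefficientwise homomorphism -/
noncomputable def hsMap [Ring A] [Ring B] (φ : A →+* B) : HahnSeries ℤ A →+* HahnSeries ℤ B where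
  toFun x := x.map φ
  map_zero' := by ext; simp
  map_one' := by
    ext n
    rw [HahnSeries.map_coeff, hs_coeff_one, hs_coeff_one]
    split_ifs <;> simp
  map_add' x y := by ext; simp
  map_mul' x y := HahnSeries.map_mul (φ : A →ₙ+* B)

@[simp] theorem hsMap_coeff [Ring A] [Ring B] (φ : A →+* B) (x : HahnSeries ℤ A) (n : ℤ) :
    (hsMap φ x).coeff n = φ (x.coeff n) := rfl

@[simp] theorem hsMap_single [Ring A] [Ring B] (φ : A →+* B) (n : ℤ) (x : A) :
    hsMap φ (HahnSeries.single n x) = HahnSeries.single n (φ x) := by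
  ext m
  rw [hsMap_coeff, HahnSeries.coeff_single, HahnSeries.coeff_single]
  split_ifs <;> simp

/-- the induced homomorphism of the formal rings -/
noncomputable def frMap (K : Type) [Fintype K] [DecidableEq K] [Ring A] [Ring B] [Algebra ℂ A]
    [Algebra ℂ B] (φ : A →ₐ[ℂ] B) : FR K A →ₐ[ℝ] FR K B :=
  { (hsMap (φ : A →+* B)).mapMatrix with
    commutes' := by
      intro c
      ext i j n
      simp only [RingHom.toMonoidHom_eq_coe, OneHom.toFun_eq_coe, MonoidHom.toOneHom_coe,
        MonoidHom.coe_coe, RingHom.mapMatrix_apply, Matrix.map_apply, hsMap_coeff,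
        Matrix.algebraMap_matrix_apply]
      split_ifs with h
      · rw [HahnSeries.algebraMap_apply, HahnSeries.algebraMap_apply]
        simp only [HahnSeries.C_apply, HahnSeries.coeff_single]
        split_ifs
        · show φ (algebraMap ℂ A (c : ℂ)) = algebraMap ℂ B (c : ℂ)
          exact φ.commutes _
        · exact map_zero φ
      · simp }

theorem frMap_apply (K : Type) [Fintype K] [DecidableEq K] [Ring A] [Ring B] [Algebra ℂ A]
    [Algebra ℂ B] (φ : A →ₐ[ℂ] B) (x : FR K A) (i j : K) (n : ℤ) :
    ((frMap K φ x) i j).coeff n = φ ((x i j).coeff n) := rfl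

theorem frMap_tau (K : Type) [Fintype K] [DecidableEq K] [Ring A] [Ring B] [Algebra ℂ A]
    [Algebra ℂ B] (φ : A →ₐ[ℂ] B) (N : ℤ) : frMap K φ (tau K A N) = tau K B N := by
  ext i j n
  rw [frMap_apply]
  simp only [tau, Matrix.scalar_apply, Matrix.diagonal_apply]
  split_ifs
  · rw [HahnSeries.coeff_single, HahnSeries.coeff_single]
    split_ifs
    · exact map_one φ
    · exact map_zero φ
  · simp

theorem frMap_pt {ι : Type} [Ring A] [Ring B] [Algebra ℂ A] [Algebra ℂ B] (φ : A →ₐ[ℂ] B)
    {k : ℕ} (a : ι → A) (b : ι → Matrix (Fin 2) (Fin k) ℝ) (Y : ι → Matrix (Fin k) (Fin k) ℝ)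
    (i : ι) : frMap _ φ (pt a b Y i) = pt (fun i => φ (a i)) b Y i := by
  have hc : ∀ (m : ℤ) (c : ℝ) (n : ℤ), φ ((HahnSeries.single m (algebraMap ℂ A c)).coeff n) =
      (HahnSeries.single m (algebraMap ℂ B c)).coeff n := by
    intro m c n
    rw [HahnSeries.coeff_single, HahnSeries.coeff_single]
    split_ifs
    · exact φ.commutes _
    · exact map_zero φ
  ext u v n
  rw [frMap_apply]
  rcases u with u | u <;> rcases v with v | v
  · simp only [pt, Matrix.fromBlocks_apply₁₁, Matrix.scalar_apply, Matrix.diagonal_apply]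
    split_ifs
    · rw [HahnSeries.coeff_single, HahnSeries.coeff_single]
      split_ifs
      · rfl
      · exact map_zero φ
    · simp
  · simp only [pt, Matrix.fromBlocks_apply₁₂, Matrix.map_apply, hc]
  · simp only [pt, Matrix.fromBlocks_apply₂₁, Matrix.map_apply, hc]
  · simp only [pt, Matrix.fromBlocks_apply₂₂, Matrix.map_apply, hc]

/-! ## the star -/

/-- coefficientwise star -/
noncomputable def hsStar [Ring A] [StarRing A] (x : HahnSeries ℤ A) : HahnSeries ℤ A :=
  x.map (starAddEquiv : A ≃+ A)

theorem hsStar_coeff [Ring A] [StarRing A] (x : HahnSeries ℤ A) (n : ℤ) :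
    (hsStar x).coeff n = star (x.coeff n) := rfl

theorem hsStar_support [Ring A] [StarRing A] (z : HahnSeries ℤ A) :
    (hsStar z).support = z.support := by
  ext m; simp [HahnSeries.mem_support, hsStar_coeff]

theorem hsStar_mul [Ring A] [StarRing A] (x y : HahnSeries ℤ A) :
    hsStar (x * y) = hsStar y * hsStar x := by
  ext n
  rw [hsStar_coeff, HahnSeries.coeff_mul, star_sum, HahnSeries.coeff_mul]
  refine Finset.sum_bij' (fun u _ => (u.2, u.1)) (fun u _ => (u.2, u.1)) ?_ ?_ ?_ ?_ ?_
  · rintro ⟨i, j⟩ h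
    simp only [Finset.mem_antidiagonal, hsStar_support] at *
    exact ⟨h.2.1, h.1, by rw [add_comm]; exact h.2.2⟩
  · rintro ⟨i, j⟩ h
    simp only [Finset.mem_antidiagonal, hsStar_support] at *
    exact ⟨h.2.1, h.1, by rw [add_comm]; exact h.2.2⟩
  · intro a _; rfl
  · intro a _; rfl
  · intro a _
    simp [hsStar_coeff]

noncomputable instance [Ring A] [StarRing A] : StarRing (HahnSeries ℤ A) where
  star := hsStar
  star_involutive x := by ext n; simp [hsStar_coeff]
  star_add x y := by ext n; simp [hsStar_coeff]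
  star_mul x y := hsStar_mul x y

theorem hs_star_coeff [Ring A] [StarRing A] (x : HahnSeries ℤ A) (n : ℤ) :
    (star x).coeff n = star (x.coeff n) := rfl

theorem hs_star_single [Ring A] [StarRing A] (n : ℤ) (x : A) :
    star (HahnSeries.single n x) = HahnSeries.single n (star x) := by
  ext m
  rw [hs_star_coeff, HahnSeries.coeff_single, HahnSeries.coeff_single]
  split_ifs <;> simp

theorem fr_star_algebraMap {K : Type} [Fintype K] [DecidableEq K] [Ring A] [Algebra ℂ A]
    [StarRing A] (hs : ∀ c : ℝ, star (algebraMap ℂ A c) = algebraMap ℂ A c) (c : ℝ) :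
    star (algebraMap ℝ (FR K A) c) = algebraMap ℝ (FR K A) c := by
  have h1 : star (algebraMap ℝ A c) = algebraMap ℝ A c := hs c
  rw [Matrix.star_eq_conjTranspose]
  ext i j n
  rw [Matrix.conjTranspose_apply, Matrix.algebraMap_matrix_apply, Matrix.algebraMap_matrix_apply]
  by_cases h : i = j
  · subst h
    rw [if_pos rfl, HahnSeries.algebraMap_apply, HahnSeries.C_apply, hs_star_single, h1]
  · rw [if_neg (Ne.symm h), if_neg h, star_zero]

theorem star_tau {K : Type} [Fintype K] [DecidableEq K] [Ring A] [StarRing A] (N : ℤ) :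
    star (tau K A N) = tau K A N := by
  rw [Matrix.star_eq_conjTranspose]
  ext i j n
  rw [Matrix.conjTranspose_apply]
  simp only [tau, Matrix.scalar_apply, Matrix.diagonal_apply]
  by_cases h : i = j
  · subst h
    rw [if_pos rfl, hs_star_single, star_one]
  · rw [if_neg (Ne.symm h), if_neg h, star_zero]

theorem star_pt {ι : Type} [Ring A] [Algebra ℂ A] [StarRing A]
    (hs : ∀ c : ℝ, star (algebraMap ℂ A c) = algebraMap ℂ A c)
    {k : ℕ} (a : ι → A) (b : ι → Matrix (Fin 2) (Fin k) ℝ) (Y : ι → Matrix (Fin k) (Fin k) ℝ)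
    (i : ι) (ha : star (a i) = a i) (hY : (Y i)ᵀ = Y i) : star (pt a b Y i) = pt a b Y i := by
  rw [Matrix.star_eq_conjTranspose]
  ext u v n
  rw [Matrix.conjTranspose_apply]
  rcases u with u | u <;> rcases v with v | v
  · simp only [pt, Matrix.fromBlocks_apply₁₁, Matrix.scalar_apply, Matrix.diagonal_apply]
    by_cases h : u = v
    · subst h
      rw [if_pos rfl, hs_star_single, ha]
    · rw [if_neg (Ne.symm h), if_neg h, star_zero]
  · simp only [pt, Matrix.fromBlocks_apply₁₂, Matrix.fromBlocks_apply₂₁, Matrix.map_apply,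
      hs_star_single, hs, Matrix.transpose_apply]
  · simp only [pt, Matrix.fromBlocks_apply₁₂, Matrix.fromBlocks_apply₂₁, Matrix.map_apply,
      hs_star_single, hs, Matrix.transpose_apply]
  · simp only [pt, Matrix.fromBlocks_apply₂₂, Matrix.map_apply, hs_star_single, hs]
    rw [← Matrix.transpose_apply (Y i) u v, hY]

/-! ## the trace -/

/-- the trace of the coefficient of `τ^n` -/
noncomputable def Tr {K : Type} [Fintype K] [DecidableEq K] [Ring A] (t : A →+ ℝ) (n : ℤ) :
    FR K A →+ ℝ where
  toFun f := ∑ κ, t ((f κ κ).coeff n)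
  map_zero' := by simp
  map_add' f g := by simp [Finset.sum_add_distrib]

theorem Tr_apply {K : Type} [Fintype K] [DecidableEq K] [Ring A] (t : A →+ ℝ) (n : ℤ)
    (f : FR K A) : Tr t n f = ∑ κ, t ((f κ κ).coeff n) := rfl

theorem hs_t_mul [Ring A] (t : A →+ ℝ) (ht : ∀ x y, t (x * y) = t (y * x))
    (x y : HahnSeries ℤ A) (n : ℤ) : t ((x * y).coeff n) = t ((y * x).coeff n) := by
  rw [HahnSeries.coeff_mul, HahnSeries.coeff_mul, map_sum, map_sum]
  refine Finset.sum_bij' (fun u _ => (u.2, u.1)) (fun u _ => (u.2, u.1)) ?_ ?_ ?_ ?_ ?_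
  · rintro ⟨i, j⟩ h
    simp only [Finset.mem_antidiagonal] at *
    exact ⟨h.2.1, h.1, by rw [add_comm]; exact h.2.2⟩
  · rintro ⟨i, j⟩ h
    simp only [Finset.mem_antidiagonal] at *
    exact ⟨h.2.1, h.1, by rw [add_comm]; exact h.2.2⟩
  · intro a _; rfl
  · intro a _; rfl
  · intro a _
    exact ht _ _

theorem hs_coeff_sum [Ring A] {J : Type} (s : Finset J) (f : J → HahnSeries ℤ A) (n : ℤ) :
    (∑ j ∈ s, f j).coeff n = ∑ j ∈ s, (f j).coeff n := by
  classical
  induction s using Finset.induction with
  | empty => simp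
  | insert a s ha ih => rw [Finset.sum_insert ha, Finset.sum_insert ha, HahnSeries.coeff_add, ih]

theorem Tr_mul {K : Type} [Fintype K] [DecidableEq K] [Ring A] (t : A →+ ℝ)
    (ht : ∀ x y, t (x * y) = t (y * x)) (n : ℤ) (f g : FR K A) :
    Tr t n (f * g) = Tr t n (g * f) := by
  rw [Tr_apply, Tr_apply]
  simp only [Matrix.mul_apply, hs_coeff_sum, map_sum]
  rw [Finset.sum_comm]
  refine Finset.sum_congr rfl fun κ _ => Finset.sum_congr rfl fun κ' _ => ?_
  exact hs_t_mul t ht _ _ _

/-- all coefficients below `m` vanish -/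
def Low {K : Type} [Ring A] (m : ℤ) (f : Matrix K K (HahnSeries ℤ A)) : Prop :=
  ∀ i j n, n < m → (f i j).coeff n = 0

theorem hs_mul_low [Ring A] {m m' : ℤ} {x y : HahnSeries ℤ A} (hx : ∀ n, n < m → x.coeff n = 0)
    (hy : ∀ n, n < m' → y.coeff n = 0) :
    (∀ n, n < m + m' → (x * y).coeff n = 0) ∧ (x * y).coeff (m + m') = x.coeff m * y.coeff m' := by
  constructor
  · intro n hn
    rw [HahnSeries.coeff_mul]
    refine Finset.sum_eq_zero fun u hu => ?_
    simp only [Finset.mem_antidiagonal] at hu
    by_cases h1 : u.1 < m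
    · rw [hx _ h1, zero_mul]
    · have h2 : u.2 < m' := by omega
      rw [hy _ h2, mul_zero]
  · rw [HahnSeries.coeff_mul]
    have hz : ∀ u ∈ Finset.antidiagonal x.isPWO_support y.isPWO_support (m + m'),
        u ≠ (m, m') → x.coeff u.1 * y.coeff u.2 = 0 := by
      rintro ⟨i, j⟩ hu hne
      simp only [Finset.mem_antidiagonal] at hu
      by_cases h1 : i < m
      · simp only; rw [hx _ h1, zero_mul]
      · by_cases h2 : j < m'
        · simp only; rw [hy _ h2, mul_zero]
        · exfalso
          apply hne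
          have h3 := hu.2.2
          have : i = m := by omega
          have : j = m' := by omega
          simp [*]
    by_cases hm : (m, m') ∈ Finset.antidiagonal x.isPWO_support y.isPWO_support (m + m')
    · rw [Finset.sum_eq_single_of_mem _ hm]
      intro u hu hne
      exact hz u hu hne
    · rw [Finset.sum_eq_zero]
      · simp only [Finset.mem_antidiagonal, HahnSeries.mem_support, and_true] at hm
        by_cases h1 : x.coeff m = 0
        · rw [h1, zero_mul]
        · have : y.coeff m' = 0 := by
            by_contra h2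
            exact hm ⟨h1, h2⟩
          rw [this, mul_zero]
      · intro u hu
        refine hz u hu ?_
        rintro rfl
        exact hm hu

/-- the matrix of the coefficients of `τ^n` -/
def cf {K : Type} [Ring A] (n : ℤ) (f : Matrix K K (HahnSeries ℤ A)) : Matrix K K A :=
  fun i j => (f i j).coeff n

theorem fr_mul_low {K : Type} [Fintype K] [DecidableEq K] [Ring A] {m m' : ℤ} {f g : FR K A}
    (hf : Low m f) (hg : Low m' g) :
    Low (m + m') (f * g) ∧ cf (m + m') (f * g) = cf m f * cf m' g := by
  constructor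
  · intro i j n hn
    rw [Matrix.mul_apply, hs_coeff_sum]
    exact Finset.sum_eq_zero fun u _ => (hs_mul_low (hf i u) (hg u j)).1 n hn
  · ext i j
    rw [cf, Matrix.mul_apply, Matrix.mul_apply, hs_coeff_sum]
    exact Finset.sum_congr rfl fun u _ => (hs_mul_low (hf i u) (hg u j)).2

theorem star_low {K : Type} [Fintype K] [DecidableEq K] [Ring A] [StarRing A] {m : ℤ}
    {f : FR K A} (hf : Low m f) : Low m (star f) ∧ cf m (star f) = star (cf m f) := by
  constructor
  · intro i j n hn
    rw [Matrix.star_apply, hs_star_coeff, hf j i n hn, star_zero]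
  · ext i j
    rw [cf, Matrix.star_apply, Matrix.star_apply, hs_star_coeff]
    rfl

/-- a nonzero element has a lowest coefficient -/
theorem exists_low {K : Type} [Fintype K] [Ring A] (L : List (Matrix K K (HahnSeries ℤ A)))
    (h : ∃ f ∈ L, f ≠ 0) : ∃ m : ℤ, (∀ f ∈ L, Low m f) ∧ ∃ f ∈ L, cf m f ≠ 0 := by
  classical
  -- every list has a common lower bound
  have hb : ∀ L : List (Matrix K K (HahnSeries ℤ A)), ∃ m : ℤ, ∀ f ∈ L, Low m f := by
    intro L
    induction L with
    | nil => exact ⟨0, by simp⟩
    | cons f L ih =>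
      obtain ⟨m, hm⟩ := ih
      have h1 : ∀ x : HahnSeries ℤ A, ∃ m : ℤ, ∀ n, n < m → x.coeff n = 0 := by
        intro x
        refine ⟨x.order, fun n hn => ?_⟩
        exact HahnSeries.coeff_eq_zero_of_lt_order hn
      choose o ho using h1
      obtain ⟨m', hm'⟩ : ∃ m' : ℤ, ∀ i j, m' ≤ o (f i j) := by
        obtain ⟨m', hm'⟩ := (Set.finite_range fun u : K × K => o (f u.1 u.2)).bddBelow
        exact ⟨m', fun i j => hm' ⟨(i, j), rfl⟩⟩
      refine ⟨min m m', ?_⟩
      intro g hg
      rcases List.mem_cons.1 hg with rfl | hg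
      · intro i j n hn
        exact ho _ n (lt_of_lt_of_le (lt_of_lt_of_le hn (min_le_right _ _)) (hm' i j))
      · intro i j n hn
        exact hm g hg i j n (lt_of_lt_of_le hn (min_le_left _ _))
  obtain ⟨m, hm⟩ := hb L
  obtain ⟨f, hf, hf0⟩ := h
  -- some coefficient is not zero
  have h2 : ∃ k : ℕ, ∃ f ∈ L, cf (m + k) f ≠ 0 := by
    by_contra hc
    push Not at hc
    apply hf0
    ext i j n
    by_cases hn : n < m
    · rw [hm f hf i j n hn]; rfl
    · obtain ⟨k, hk⟩ : ∃ k : ℕ, n = m + k := ⟨(n - m).toNat, by omega⟩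
      rw [hk]
      have := congrFun (congrFun (hc k f hf) i) j
      exact this
  refine ⟨m + (Nat.find h2 : ℕ), ?_, Nat.find_spec h2⟩
  intro g hg i j n hn
  by_cases hn' : n < m
  · exact hm g hg i j n hn'
  · obtain ⟨k, hk⟩ : ∃ k : ℕ, n = m + k := ⟨(n - m).toNat, by omega⟩
    have hlt : k < Nat.find h2 := by omega
    have := Nat.find_min h2 hlt
    push Not at this
    have h3 := congrFun (congrFun (this g hg) i) j
    rw [hk]
    exact h3

/-- positivity of the leading coefficient of a sum of squares -/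
theorem sos_leading {K : Type} [Fintype K] [DecidableEq K] [Ring A] [StarRing A] (t : A →+ ℝ)
    (hp : ∀ x, x ≠ 0 → 0 < t (star x * x)) (L : List (FR K A)) :
    (∀ n, Tr t n (L.map fun f => star f * f).sum = 0) ∨
    ∃ m : ℤ, (∀ n, n < m → Tr t n (L.map fun f => star f * f).sum = 0) ∧
      0 < Tr t m (L.map fun f => star f * f).sum := by
  have hp0 : ∀ x, 0 ≤ t (star x * x) := by
    intro x
    by_cases h : x = 0
    · subst h; simp
    · exact (hp x h).le
  by_cases h : ∃ f ∈ L, f ≠ 0
  · right
    obtain ⟨m, hm, f0, hf0, hne⟩ := exists_low L h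
    have key : ∀ f : FR K A, Low m f → (∀ n, n < m + m → Tr t n (star f * f) = 0) ∧
        Tr t (m + m) (star f * f) = ∑ κ, ∑ κ', t (star (cf m f κ' κ) * cf m f κ' κ) := by
      intro f hf
      have h1 := star_low hf
      have h2 := fr_mul_low h1.1 hf
      refine ⟨?_, ?_⟩
      · intro n hn
        rw [Tr_apply]
        exact Finset.sum_eq_zero fun κ _ => by rw [h2.1 κ κ n hn, map_zero]
      · rw [Tr_apply]
        refine Finset.sum_congr rfl fun κ _ => ?_
        have h3 := congrFun (congrFun h2.2 κ) κ
        rw [h1.2] at h3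
        have h4 : ((star f * f) κ κ).coeff (m + m) = (star (cf m f) * cf m f) κ κ := h3
        rw [h4, Matrix.mul_apply, map_sum]
        rfl
    have key0 : ∀ f : FR K A, Low m f → 0 ≤ Tr t (m + m) (star f * f) := by
      intro f hf
      rw [(key f hf).2]
      exact Finset.sum_nonneg fun κ _ => Finset.sum_nonneg fun κ' _ => hp0 _
    have key1 : 0 < Tr t (m + m) (star f0 * f0) := by
      rw [(key f0 (hm f0 hf0)).2]
      have : ∃ κ' κ, cf m f0 κ' κ ≠ 0 := by
        by_contra hc
        push Not at hc
        exact hne (by ext i j; exact hc i j)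
      obtain ⟨κ', κ, hκ⟩ := this
      refine Finset.sum_pos' (fun κ _ => Finset.sum_nonneg fun κ' _ => hp0 _)
        ⟨κ, Finset.mem_univ _, ?_⟩
      exact Finset.sum_pos' (fun κ' _ => hp0 _) ⟨κ', Finset.mem_univ _, hp _ hκ⟩
    refine ⟨m + m, ?_, ?_⟩
    · intro n hn
      clear hf0 h
      induction L with
      | nil => simp
      | cons g L ih =>
        rw [List.map_cons, List.sum_cons, map_add,
          (key g (hm g (List.mem_cons_self))).1 n hn,
          ih (fun f hf => hm f (List.mem_cons_of_mem _ hf)), add_zero]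
    · have hnn : ∀ L : List (FR K A), (∀ f ∈ L, Low m f) →
          0 ≤ Tr t (m + m) (L.map fun f => star f * f).sum := by
        intro L hL
        induction L with
        | nil => simp
        | cons g L ih =>
          rw [List.map_cons, List.sum_cons, map_add]
          exact add_nonneg (key0 g (hL g (List.mem_cons_self)))
            (ih fun f hf => hL f (List.mem_cons_of_mem _ hf))
      clear h
      induction L with
      | nil => simp at hf0
      | cons g L ih =>
        rw [List.map_cons, List.sum_cons, map_add]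
        rcases List.mem_cons.1 hf0 with rfl | hf0
        · exact add_pos_of_pos_of_nonneg key1
            (hnn L fun f hf => hm f (List.mem_cons_of_mem _ hf))
        · exact add_pos_of_nonneg_of_pos (key0 g (hm g (List.mem_cons_self)))
            (ih (fun f hf => hm f (List.mem_cons_of_mem _ hf)) hf0)
  · left
    intro n
    push Not at h
    clear hp hp0
    induction L with
    | nil => simp
    | cons g L ih =>
      rw [List.map_cons, List.sum_cons, map_add, h g (List.mem_cons_self),
        ih (fun f hf => h f (List.mem_cons_of_mem _ hf)), mul_zero, map_zero, add_zero]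

/-- the trace of a commutator vanishes -/
theorem Tr_comm {K : Type} [Fintype K] [DecidableEq K] [Ring A] (t : A →+ ℝ)
    (ht : ∀ x y, t (x * y) = t (y * x)) (n : ℤ) (L : List (FR K A × FR K A)) :
    Tr t n (L.map fun u => u.1 * u.2 - u.2 * u.1).sum = 0 := by
  induction L with
  | nil => simp
  | cons g L ih =>
    rw [List.map_cons, List.sum_cons, map_add, ih, map_sub, Tr_mul t ht, sub_self, add_zero]

/-! ## powers of `τ` -/

theorem hs_single_mul_coeff [Ring A] (N : ℤ) (x : HahnSeries ℤ A) (n : ℤ) :
    (HahnSeries.single N (1 : A) * x).coeff n = x.coeff (n - N) := by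
  have h := HahnSeries.coeff_single_mul_add (r := (1 : A)) (x := x) (a := n - N) (b := N)
  rw [sub_add_cancel, one_mul] at h
  exact h

theorem hs_mul_single_coeff [Ring A] (N : ℤ) (x : HahnSeries ℤ A) (n : ℤ) :
    (x * HahnSeries.single N (1 : A)).coeff n = x.coeff (n - N) := by
  have h := HahnSeries.coeff_mul_single_add (r := (1 : A)) (x := x) (a := n - N) (b := N)
  rw [sub_add_cancel, mul_one] at h
  exact h

theorem tau_mul_coeff {K : Type} [Fintype K] [DecidableEq K] [Ring A] (N : ℤ) (f : FR K A)
    (i j : K) (n : ℤ) : ((tau K A N * f) i j).coeff n = (f i j).coeff (n - N) := by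
  have : (tau K A N * f) i j = HahnSeries.single N (1 : A) * f i j := by
    rw [tau, Matrix.scalar_apply, Matrix.diagonal_mul]
  rw [this, hs_single_mul_coeff]

theorem tau_comm {K : Type} [Fintype K] [DecidableEq K] [Ring A] (N : ℤ) (f : FR K A) :
    tau K A N * f = f * tau K A N := by
  ext i j n
  rw [tau_mul_coeff]
  have : (f * tau K A N) i j = f i j * HahnSeries.single N (1 : A) := by
    rw [tau, Matrix.scalar_apply, Matrix.mul_diagonal]
  rw [this, hs_mul_single_coeff]

theorem tau_pow_mul_coeff {K : Type} [Fintype K] [DecidableEq K] [Ring A] (N : ℤ) (d : ℕ)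
    (f : FR K A) (i j : K) (n : ℤ) :
    ((tau K A N ^ d * f) i j).coeff n = (f i j).coeff (n - d * N) := by
  induction d generalizing n with
  | zero => simp
  | succ d ih =>
    rw [pow_succ', mul_assoc, tau_mul_coeff, ih]
    congr 1
    push_cast
    ring

theorem isUnit_tau {K : Type} [Fintype K] [DecidableEq K] [Ring A] (N : ℤ) :
    IsUnit (tau K A N) := by
  have h : ∀ N : ℤ, tau K A N * tau K A (-N) = 1 := by
    intro N
    have h1 : (HahnSeries.single N (1 : A)) * (HahnSeries.single (-N) (1 : A)) = 1 := by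
      rw [HahnSeries.single_mul_single, add_neg_cancel, one_mul]; rfl
    rw [tau, tau, ← map_mul, h1, map_one]
  exact ⟨⟨tau K A N, tau K A (-N), h N, by have := h (-N); rwa [neg_neg] at this⟩, rfl⟩

end Pool.Agent.H412.TH
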