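import Pool.Agent.H412.TH.Formal

/-!
MP_0219da (helper412): the main theorem from the tasks.
-/

set_option autoImplicit false

namespace Pool.Agent.H412.TH

open Matrix

/-! ## nondegenerate expressions -/

theorem RE.Nondeg.adj {ι : Type} {ρ : RE ι} (h : ρ.Nondeg) : ρ.adj.Nondeg := by
  obtain ⟨n, hn, X, hX⟩ := h
  refine ⟨n, hn, fun i => star (X i), ?_⟩
  have := (RE.adj_star (R := Matrix (Fin n) (Fin n) ℝ) (fun c => by
    rw [Matrix.star_eq_conjTranspose]
    ext i j
    rw [Matrix.conjTranspose_apply, Matrix.algebraMap_matrix_apply,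
      Matrix.algebraMap_matrix_apply]
    by_cases h : i = j
    · subst h; simp
    · rw [if_neg h, if_neg (Ne.symm h)]; simp) (fun i => star (X i)) ρ).1
  rw [this]
  simpa using hX

/-- the sum of a list of expressions -/
def lsum {ι : Type} : List (RE ι) → RE ι
  | [] => RE.const 0
  | ρ :: l => ρ.add (lsum l)

theorem lsum_spec {ι R : Type} [Ring R] [Algebra ℝ R] (X : ι → R) (l : List (RE ι)) :
    ((lsum l).Dom X ↔ ∀ ρ ∈ l, ρ.Dom X) ∧ (lsum l).ev X = (l.map fun ρ => ρ.ev X).sum := by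
  induction l with
  | nil => exact ⟨by simp [lsum, RE.Dom], by simp [lsum, RE.ev]⟩
  | cons ρ l ih =>
    refine ⟨?_, ?_⟩
    · show (ρ.Dom X ∧ (lsum l).Dom X) ↔ _
      rw [ih.1]
      simp
    · simp only [lsum, RE.ev, ih.2, List.map_cons, List.sum_cons]

theorem lsum_nondeg (hc : S_com) {ι : Type} [Fintype ι] (l : List (RE ι))
    (h : ∀ ρ ∈ l, ρ.Nondeg) : (lsum l).Nondeg := by
  induction l with
  | nil => exact ⟨1, one_pos, fun _ => 0, trivial⟩
  | cons ρ l ih =>
    exact hc ρ (lsum l) (h ρ (List.mem_cons_self))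
      (ih fun σ hσ => h σ (List.mem_cons_of_mem _ hσ))

/-- products have the same domain as sums -/
theorem mul_nondeg (hc : S_com) {ι : Type} [Fintype ι] (ρ σ : RE ι) (h : ρ.Nondeg)
    (h' : σ.Nondeg) : (ρ.mul σ).Nondeg := hc ρ σ h h'

/-- the expression `p - ∑ ρ^* ρ - ∑ (u v - v u)` as a list of summands -/
noncomputable def terms {ι : Type} (π : RE ι) (r : List (RE ι)) (c : List (RE ι × RE ι)) :
    List (RE ι) :=
  [π] ++ (r.map fun ρ => (RE.const (-1)).mul (ρ.adj.mul ρ)) ++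
    (c.map fun u => (u.2.mul u.1).add ((RE.const (-1)).mul (u.1.mul u.2)))

theorem terms_dom {ι R : Type} [Ring R] [Algebra ℝ R] (X : ι → R) (π : RE ι) (r : List (RE ι))
    (c : List (RE ι × RE ι)) (hπ : π.Dom X) : (lsum (terms π r c)).Dom X ↔
      (∀ ρ ∈ r, ρ.Dom X ∧ ρ.adj.Dom X) ∧ ∀ u ∈ c, u.1.Dom X ∧ u.2.Dom X := by
  rw [(lsum_spec X _).1]
  constructor
  · intro h
    refine ⟨fun ρ hρ => ?_, fun u hu => ?_⟩
    · have := h ((RE.const (-1)).mul (ρ.adj.mul ρ)) (by
        simp only [terms, List.mem_append, List.mem_map]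
        exact Or.inl (Or.inr ⟨ρ, hρ, rfl⟩))
      exact ⟨this.2.2, this.2.1⟩
    · have := h ((u.2.mul u.1).add ((RE.const (-1)).mul (u.1.mul u.2))) (by
        simp only [terms, List.mem_append, List.mem_map]
        exact Or.inr ⟨u, hu, rfl⟩)
      exact ⟨this.1.2, this.1.1⟩
  · rintro ⟨h1, h2⟩ σ hσ
    simp only [terms, List.mem_append, List.mem_map, List.mem_singleton] at hσ
    rcases hσ with (rfl | ⟨ρ, hρ, rfl⟩) | ⟨u, hu, rfl⟩
    · exact hπ
    · exact ⟨trivial, (h1 ρ hρ).2, (h1 ρ hρ).1⟩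
    · exact ⟨⟨(h2 u hu).2, (h2 u hu).1⟩, trivial, (h2 u hu)⟩

theorem terms_ev {ι R : Type} [Ring R] [Algebra ℝ R] (X : ι → R) (π : RE ι) (r : List (RE ι))
    (c : List (RE ι × RE ι)) : (lsum (terms π r c)).ev X =
      π.ev X - ((r.map fun ρ => ρ.adj.ev X * ρ.ev X).sum +
        (c.map fun u => u.1.ev X * u.2.ev X - u.2.ev X * u.1.ev X).sum) := by
  rw [(lsum_spec X _).2]
  have h1 : ∀ r : List (RE ι), ((r.map fun ρ => (RE.const (-1)).mul (ρ.adj.mul ρ)).map
      fun ρ => ρ.ev X).sum = - (r.map fun ρ => ρ.adj.ev X * ρ.ev X).sum := by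
    intro r
    induction r with
    | nil => simp
    | cons ρ r ih =>
      simp only [List.map_cons, List.sum_cons, ih, RE.ev, map_neg, map_one]
      noncomm_ring
  have h2 : ∀ c : List (RE ι × RE ι),
      ((c.map fun u => (u.2.mul u.1).add ((RE.const (-1)).mul (u.1.mul u.2))).map
      fun ρ => ρ.ev X).sum = -(c.map fun u => u.1.ev X * u.2.ev X - u.2.ev X * u.1.ev X).sum := by
    intro c
    induction c with
    | nil => simp
    | cons ρ r ih =>
      simp only [List.map_cons, List.sum_cons, ih, RE.ev, map_neg, map_one]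
      noncomm_ring
  rw [terms, List.map_append, List.map_append, List.sum_append, List.sum_append, h1, h2]
  simp only [List.map_cons, List.map_nil, List.sum_cons, List.sum_nil]
  have h5 : ∀ a b c : R, a + 0 + -b + -c = a - (b + c) := fun a b c => by abel
  exact h5 _ _ _

theorem terms_nondeg (hcom : S_com) {ι : Type} [Fintype ι] (π : RE ι) (r : List (RE ι))
    (c : List (RE ι × RE ι)) (hπ : π.Nondeg) (hr : ∀ ρ ∈ r, ρ.Nondeg)
    (hc : ∀ u ∈ c, u.1.Nondeg ∧ u.2.Nondeg) : (lsum (terms π r c)).Nondeg := by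
  have h0 : ∀ x : ℝ, (RE.const x : RE ι).Nondeg := fun x => ⟨1, one_pos, fun _ => 0, trivial⟩
  refine lsum_nondeg hcom _ fun σ hσ => ?_
  simp only [terms, List.mem_append, List.mem_map, List.mem_singleton] at hσ
  rcases hσ with (rfl | ⟨ρ, hρ, rfl⟩) | ⟨u, hu, rfl⟩
  · exact hπ
  · exact mul_nondeg hcom _ _ (h0 _) (mul_nondeg hcom _ _ (hr ρ hρ).adj (hr ρ hρ))
  · exact hcom _ _ (mul_nondeg hcom _ _ (hc u hu).2 (hc u hu).1)
      (mul_nondeg hcom _ _ (h0 _) (mul_nondeg hcom _ _ (hc u hu).1 (hc u hu).2))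

/-! ## the value at the formal point -/

/-- the universal property of `FA` -/
noncomputable def FA.lift {ι A : Type} [Ring A] [Algebra ℂ A] (a : ι → A) : FA ι →ₐ[ℂ] A :=
  (FreeAlgebra.lift ℂ a : FreeAlgebra ℂ ι →ₐ[ℂ] A)

theorem FA.lift_gen {ι A : Type} [Ring A] [Algebra ℂ A] (a : ι → A) (i : ι) :
    FA.lift a (FA.gen i) = a i := FreeAlgebra.lift_ι_apply (R := ℂ) a i

section

variable {ι A : Type} [Ring A] [Algebra ℂ A] {k : ℕ}

theorem low_pt (a : ι → A) (b : ι → Matrix (Fin 2) (Fin k) ℝ)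
    (Y : ι → Matrix (Fin k) (Fin k) ℝ) (i : ι) : Low 0 (pt a b Y i) ∧
      cf 0 (pt a b Y i) = Matrix.diagonal (Sum.elim (fun _ => a i) (fun _ => 0)) := by
  have hs : ∀ (m : ℤ) (x : A), 0 ≤ m → ∀ n : ℤ, n < 0 → (HahnSeries.single m x).coeff n = 0 := by
    intro m x hm n hn
    rw [HahnSeries.coeff_single, if_neg]
    omega
  constructor
  · intro u v n hn
    rcases u with u | u <;> rcases v with v | v
    · simp only [pt, Matrix.fromBlocks_apply₁₁, Matrix.scalar_apply, Matrix.diagonal_apply]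
      split_ifs
      · exact hs 0 _ le_rfl n hn
      · rfl
    · simp only [pt, Matrix.fromBlocks_apply₁₂, Matrix.map_apply]
      exact hs 1 _ (by norm_num) n hn
    · simp only [pt, Matrix.fromBlocks_apply₂₁, Matrix.map_apply]
      exact hs 1 _ (by norm_num) n hn
    · simp only [pt, Matrix.fromBlocks_apply₂₂, Matrix.map_apply]
      exact hs 3 _ (by norm_num) n hn
  · ext u v
    rcases u with u | u <;> rcases v with v | v
    · simp only [cf, pt, Matrix.fromBlocks_apply₁₁, Matrix.scalar_apply, Matrix.diagonal_apply,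
        Sum.inl.injEq, Sum.elim_inl]
      split_ifs
      · rw [HahnSeries.coeff_single, if_pos rfl]
      · rfl
    · simp [cf, pt]
    · simp [cf, pt]
    · simp only [cf, pt, Matrix.fromBlocks_apply₂₂, Matrix.map_apply, HahnSeries.coeff_single,
        Matrix.diagonal_apply, Sum.elim_inr]
      norm_num

theorem low_algebraMap {K : Type} [Fintype K] [DecidableEq K] (c : ℝ) :
    Low 0 (algebraMap ℝ (FR K A) c) ∧
      cf 0 (algebraMap ℝ (FR K A) c) = algebraMap ℝ (Matrix K K A) c := by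
  constructor
  · intro i j n hn
    rw [Matrix.algebraMap_matrix_apply]
    split_ifs
    · rw [HahnSeries.algebraMap_apply, HahnSeries.C_apply, HahnSeries.coeff_single, if_neg hn.ne]
    · rfl
  · ext i j
    rw [cf, Matrix.algebraMap_matrix_apply, Matrix.algebraMap_matrix_apply]
    split_ifs
    · rw [HahnSeries.algebraMap_apply, HahnSeries.C_apply, HahnSeries.coeff_single, if_pos rfl]
    · rfl

theorem low_poly {K : Type} [Fintype K] [DecidableEq K] (X : ι → FR K A) (hX : ∀ i, Low 0 (X i))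
    (p : FreeAlgebra ℝ ι) : Low 0 (FreeAlgebra.lift ℝ X p) ∧
      cf 0 (FreeAlgebra.lift ℝ X p) = FreeAlgebra.lift ℝ (fun i => cf 0 (X i)) p := by
  induction p using FreeAlgebra.induction with
  | grade0 c =>
    rw [AlgHom.commutes, AlgHom.commutes]
    exact low_algebraMap c
  | grade1 i =>
    rw [FreeAlgebra.lift_ι_apply, FreeAlgebra.lift_ι_apply]
    exact ⟨hX i, rfl⟩
  | mul x y ihx ihy =>
    have h := fr_mul_low ihx.1 ihy.1
    rw [add_zero] at h
    rw [map_mul, map_mul, ← ihx.2, ← ihy.2]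
    exact h
  | add x y ihx ihy =>
    rw [map_add, map_add, ← ihx.2, ← ihy.2]
    refine ⟨fun i j n hn => ?_, ?_⟩
    · rw [Matrix.add_apply, HahnSeries.coeff_add, ihx.1 i j n hn, ihy.1 i j n hn, add_zero]
    · ext i j; rfl

theorem lift_diag {K : Type} [Fintype K] [DecidableEq K] (X : ι → K → A)
    (p : FreeAlgebra ℝ ι) : FreeAlgebra.lift ℝ (fun i => Matrix.diagonal (X i)) p =
      Matrix.diagonal (fun κ => FreeAlgebra.lift ℝ (fun i => X i κ) p) := by
  induction p using FreeAlgebra.induction with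
  | grade0 c =>
    rw [AlgHom.commutes]
    simp only [AlgHom.commutes]
    rw [Matrix.algebraMap_eq_diagonal]
    rfl
  | grade1 i =>
    rw [FreeAlgebra.lift_ι_apply]
    simp only [FreeAlgebra.lift_ι_apply]
  | mul x y ihx ihy =>
    rw [map_mul, ihx, ihy, Matrix.diagonal_mul_diagonal]
    simp only [map_mul]
  | add x y ihx ihy =>
    rw [map_add, ihx, ihy, Matrix.diagonal_add]
    simp only [map_add]

end

/-- the data of `S_pol` for the variables `x_i`, `i ∈ κ` -/
def PolData (κ : Type) : Prop := ∃ (p : FreeAlgebra ℝ κ) (d : ℕ) (A : Type)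
    (_ : Ring A) (_ : Algebra ℂ A) (_ : StarRing A) (t : A →+ ℝ) (a : κ → A),
  star p = p ∧ TracePos p ∧
  (∀ (R : Type) [Ring R] [Algebra ℝ R] (z : R), (∀ y, z * y = y * z) → ∀ X : κ → R,
    FreeAlgebra.lift ℝ (fun i => z * X i) p = z^d * FreeAlgebra.lift ℝ X p) ∧
  (∀ c : ℝ, star (algebraMap ℂ A c) = algebraMap ℂ A c) ∧
  (∀ x y, t (x * y) = t (y * x)) ∧ (∀ x, x ≠ 0 → 0 < t (star x * x)) ∧
  (∀ i, star (a i) = a i) ∧ t (FreeAlgebra.lift ℝ a p) < 0

/-- the main theorem -/
theorem main (h1 : S_toep) (h2 : S_sym) (h3 : S_gr) (h4 : S_tp) (h5 : S_sep)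
    (h6 : S_unit) (hlin : S_lin) (hcom : S_com) {g : ℕ} (hpol : PolData (Fin g)) :
    ∃ p : FreeAlgebra ℝ (Fin g), star p = p ∧ TracePos p ∧ ¬ Cert p := by
  obtain ⟨p, d, A, iA1, iA2, iA3, t, a, hpstar, hpos, hhom, hstar, htr, htpos, hastar, hneg⟩ :=
    hpol
  refine ⟨p, hpstar, hpos, ?_⟩
  rintro ⟨r, c, hr, hc, hid⟩
  -- the identity as an expression
  obtain ⟨π, hπ⟩ := exists_expr p
  set E := lsum (terms π r c) with hE
  have hEnd : E.Nondeg :=
    terms_nondeg hcom π r c ⟨1, one_pos, fun _ => 0, (hπ _ _).1⟩ hr hc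
  have hEreal : ∀ (s : ℕ) (Z : Fin g → Matrix (Fin s) (Fin s) ℝ), E.Dom Z → E.ev Z = 0 := by
    intro s Z hZ
    rw [hE, terms_dom Z π r c (hπ _ _).1] at hZ
    rw [hE, terms_ev, (hπ _ _).2, hid s Z hZ.1 hZ.2, sub_self]
  obtain ⟨n, Q, cc, bb, hQ⟩ := hlin E
  obtain ⟨k, b, Y, hY, m, hunit⟩ := formal_unit h1 h2 h3 h4 h5 h6 Q (by
    obtain ⟨s, hs, Z, hZ⟩ := hEnd
    exact ⟨s, hs, Z, (hQ _ Z).1.1 hZ⟩)
  set X1 : Fin g → FR (Fin 2 ⊕ Fin k) (FA (Fin g)) :=
    fun i => tau (Fin 2 ⊕ Fin k) (FA (Fin g)) m * pt FA.gen b Y i with hX1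
  have hE1 : E.Dom X1 := (hQ _ X1).1.2 hunit
  have hE0 : E.ev X1 = 0 := by
    obtain ⟨U, hU⟩ := hunit
    have hinv : IsInv (pev Q X1) (Units.val U⁻¹) := by
      rw [← hU]
      exact ⟨U.mul_inv, U.inv_mul⟩
    rw [(hQ _ X1).2 _ hinv]
    have hlf : ∀ (R : Type) [Ring R] [Algebra ℝ R] (X : Fin g → R) (M : Matrix (Fin n) (Fin n) R),
        FreeAlgebra.lift ℝ (Sum.elim X fun u : Fin n × Fin n => M u.1 u.2)
          (∑ i, ∑ j, (cc i * bb j) • FreeAlgebra.ι ℝ (Sum.inr (i, j))) =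
        ∑ i, ∑ j, (cc i * bb j) • M i j := by
      intro R _ _ X M
      simp only [map_sum, map_smul, FreeAlgebra.lift_ι_apply, Sum.elim_inr]
    rw [← hlf]
    refine h4 Q _ ?_ _ (h5 _ _) X1 _ hinv
    intro s Z M hM
    rw [hlf, ← (hQ _ Z).2 M hM]
    exact hEreal s Z ((hQ _ Z).1.2 ⟨⟨_, M, hM.1, hM.2⟩, rfl⟩)
  -- push forward to the tracial algebra
  set φ := frMap (Fin 2 ⊕ Fin k) (FA.lift a) with hφ
  set X2 : Fin g → FR (Fin 2 ⊕ Fin k) A :=
    fun i => tau (Fin 2 ⊕ Fin k) A m * pt a b Y i with hX2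
  have hφX : (fun i => φ (X1 i)) = X2 := by
    funext i
    rw [hX1, hX2]
    simp only [map_mul]
    rw [hφ, frMap_tau, frMap_pt]
    simp only [FA.lift_gen]
  have hmap := RE.map φ X1 E hE1
  rw [hφX, hE0, map_zero] at hmap
  obtain ⟨hD2, hE2⟩ := hmap
  rw [hE, terms_dom X2 π r c (hπ _ _).1] at hD2
  rw [hE, terms_ev, (hπ _ _).2, sub_eq_zero] at hE2
  have hX2star : ∀ i, star (X2 i) = X2 i := by
    intro i
    rw [hX2]
    simp only [star_mul]
    rw [star_tau, star_pt hstar a b Y i (hastar i) (hY i), tau_comm]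
  have hadj : ∀ ρ : RE (Fin g), ρ.adj.ev X2 = star (ρ.ev X2) := by
    intro ρ
    have := (RE.adj_star (fr_star_algebraMap hstar) X2 ρ).2
    rw [this]
    congr 2
    funext i
    exact hX2star i
  simp only [hadj] at hE2
  -- the traces
  have htrace : ∀ l : ℤ, Tr t l (FreeAlgebra.lift ℝ X2 p) =
      Tr t l ((r.map fun ρ => ρ.ev X2).map fun f => star f * f).sum := by
    intro l
    rw [hE2, map_add, List.map_map]
    have h := Tr_comm (K := Fin 2 ⊕ Fin k) t htr l (c.map fun u => (u.1.ev X2, u.2.ev X2))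
    rw [List.map_map] at h
    have h' : Tr t l (c.map fun u => u.1.ev X2 * u.2.ev X2 - u.2.ev X2 * u.1.ev X2).sum = 0 := h
    rw [h', add_zero]
    rfl
  have hhom2 : FreeAlgebra.lift ℝ X2 p =
      tau (Fin 2 ⊕ Fin k) A m ^ d * FreeAlgebra.lift ℝ (fun i => pt a b Y i) p :=
    hhom _ _ (fun y => tau_comm _ y) _
  have hlow := low_poly (fun i => pt a b Y i) (fun i => (low_pt a b Y i).1) p
  have hshift : ∀ l : ℤ, Tr t l (FreeAlgebra.lift ℝ X2 p) =
      Tr t (l - d * m) (FreeAlgebra.lift ℝ (fun i => pt a b Y i) p) := by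
    intro l
    rw [hhom2, Tr_apply, Tr_apply]
    simp only [tau_pow_mul_coeff]
  have hbelow : ∀ l : ℤ, l < d * m → Tr t l (FreeAlgebra.lift ℝ X2 p) = 0 := by
    intro l hl
    rw [hshift, Tr_apply]
    refine Finset.sum_eq_zero fun κ _ => ?_
    rw [hlow.1 κ κ _ (by omega), map_zero]
  have hat : Tr t (d * m) (FreeAlgebra.lift ℝ X2 p) < 0 := by
    rw [hshift, sub_self, Tr_apply]
    have h7 : ∀ κ, ((FreeAlgebra.lift ℝ (fun i => pt a b Y i) p) κ κ).coeff 0 =
        (cf 0 (FreeAlgebra.lift ℝ (fun i => pt a b Y i) p)) κ κ := fun κ => rfl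
    simp only [h7]
    rw [hlow.2]
    have h8 : (fun i => cf 0 (pt a b Y i)) =
        fun i => Matrix.diagonal (Sum.elim (fun _ : Fin 2 => a i) (fun _ : Fin k => (0 : A))) := by
      funext i
      exact (low_pt a b Y i).2
    rw [h8, lift_diag]
    simp only [Matrix.diagonal_apply_eq, Fintype.sum_sum_type, Sum.elim_inl, Sum.elim_inr,
      Finset.sum_const, Finset.card_univ, Fintype.card_fin]
    rcases Nat.eq_zero_or_pos d with hd | hd
    · exfalso
      have h9 := hhom A (0 : A) (fun y => by rw [zero_mul, mul_zero]) a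
      rw [hd, pow_zero, one_mul] at h9
      simp only [zero_mul] at h9
      -- the value at zero is a nonnegative constant
      have h10 : ∀ (R : Type) [Ring R] [Algebra ℝ R], FreeAlgebra.lift ℝ (fun _ : Fin g => (0 : R)) p =
          algebraMap ℝ R (FreeAlgebra.lift ℝ (fun _ : Fin g => (0 : ℝ)) p) := by
        intro R _ _
        have : FreeAlgebra.lift ℝ (fun _ : Fin g => (0 : R)) =
            (Algebra.ofId ℝ R).comp (FreeAlgebra.lift ℝ (fun _ : Fin g => (0 : ℝ))) := by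
          ext i
          simp
        rw [this]
        rfl
      set c0 := FreeAlgebra.lift ℝ (fun _ : Fin g => (0 : ℝ)) p with hc0
      have h11 : 0 ≤ c0 := by
        have := hpos 1 (fun _ => 0) (fun _ => by simp)
        rw [h10 (Matrix (Fin 1) (Fin 1) ℝ)] at this
        simpa [Matrix.trace, Matrix.algebraMap_matrix_apply] using this
      have h12 : FreeAlgebra.lift ℝ a p = star (algebraMap ℂ A (Real.sqrt c0)) *
          algebraMap ℂ A (Real.sqrt c0) := by
        rw [← h9, h10 A, hstar, ← map_mul, ← Complex.ofReal_mul, Real.mul_self_sqrt h11]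
        rfl
      rw [h12] at hneg
      by_cases h13 : algebraMap ℂ A (Real.sqrt c0) = 0
      · rw [h13] at hneg
        simp at hneg
      · exact absurd (htpos _ h13) (not_lt.2 hneg.le)
    · have h9 := hhom A (0 : A) (fun y => by rw [zero_mul, mul_zero]) a
      rw [zero_pow hd.ne', zero_mul] at h9
      simp only [zero_mul] at h9
      rw [h9, map_zero, smul_zero, add_zero]
      simp only [nsmul_eq_mul, Nat.cast_ofNat]
      linarith
  rcases sos_leading t htpos (r.map fun ρ => ρ.ev X2) with h | ⟨l, hl, hl'⟩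
  · have := h (d * m)
    rw [← htrace] at this
    rw [this] at hat
    exact lt_irrefl _ hat
  · rw [← htrace] at hl'
    rcases lt_trichotomy l (d * m) with h | h | h
    · rw [hbelow l h] at hl'
      exact lt_irrefl _ hl'
    · rw [h] at hl'
      exact lt_asymm hl' hat
    · have := hl (d * m) h
      rw [← htrace] at this
      rw [this] at hat
      exact lt_irrefl _ hat

end Pool.Agent.H412.TH
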