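import Pool.Agent.H412.TH.Defs

/-!
MP_0219da (helper412): statements of the tasks (nothing is proved here).
-/

set_option autoImplicit false

namespace Pool.Agent.H412.TH

open Matrix
open scoped ComplexOrder

/-- LIN: linearisation of rational expressions -/
def S_lin : Prop := ∀ {ι : Type} [Fintype ι] (ρ : RE ι), ∃ (n : ℕ)
    (Q : Option ι → Matrix (Fin n) (Fin n) ℝ) (c b : Fin n → ℝ),
  ∀ (R : Type) [Ring R] [Algebra ℝ R] (X : ι → R), (ρ.Dom X ↔ IsUnit (pev Q X)) ∧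
    ∀ M : Matrix (Fin n) (Fin n) R, IsInv (pev Q X) M →
      ρ.ev X = ∑ i, ∑ j, (c i * b j) • M i j

/-- COM: two expressions have a common point in their domains -/
def S_com : Prop := ∀ {ι : Type} [Fintype ι] (ρ σ : RE ι), ρ.Nondeg → σ.Nondeg →
  (ρ.add σ).Nondeg

/-- RANK: the noncommutative rank of a pencil -/
def S_rank : Prop := ∀ {ι n : Type} [Fintype ι] [Fintype n] [DecidableEq n]
    (T : Option ι → Matrix n n ℝ), ∃ (r : ℕ) (a b : Fin r → n),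
  (∃ s : ℕ, 0 < s ∧ ∃ Z : ι → Matrix (Fin s) (Fin s) ℝ, IsUnit (pev (psub T a b) Z)) ∧
  ∀ (s : ℕ) (Z : ι → Matrix (Fin s) (Fin s) ℝ),
    (Matrix.comp n n (Fin s) (Fin s) ℝ (pev T Z)).rank ≤ r * s

/-- TOEP: a full pencil inside a block Toeplitz pencil -/
def S_toep : Prop := ∀ {ι : Type} [Fintype ι] {n : ℕ} (Q : Option ι → Matrix (Fin n) (Fin n) ℝ),
  (∃ s : ℕ, 0 < s ∧ ∃ Z : ι → Matrix (Fin s) (Fin s) ℝ, IsUnit (pev Q Z)) →
  ∃ (N r : ℕ) (a b : Fin r → Fin (N+1) × Fin n),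
    (∃ s : ℕ, 0 < s ∧ ∃ Z : ι → Matrix (Fin s) (Fin s) ℝ,
      IsUnit (pev (psub (toep Q (N+1)) a b) Z)) ∧
    ∀ (s : ℕ) (Z : ι → Matrix (Fin s) (Fin s) ℝ) (M : Matrix (Fin r) (Fin r) (Matrix _ _ ℝ)),
      IsInv (pev (psub (toep Q (N+1)) a b) Z) M →
      (∀ (p : Fin n) (y : Fin (N+1) × Fin n),
        (gm a b M * pev (toep Q (N+1)) Z) ((0 : Fin (N+1)), p) y =
          (1 : Matrix (Fin (N+1) × Fin n) (Fin (N+1) × Fin n) _) (0, p) y) ∧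
      ∀ (x : Fin (N+1) × Fin n) (q : Fin n),
        (pev (toep Q (N+1)) Z * gm a b M) x (Fin.last N, q) =
          (1 : Matrix (Fin (N+1) × Fin n) (Fin (N+1) × Fin n) _) x (Fin.last N, q)

/-- TP: transfer of rational identities from real matrices -/
def S_tp : Prop := ∀ {ι : Type} [Fintype ι] {r : ℕ} (W : Option ι → Matrix (Fin r) (Fin r) ℝ)
    (f : FreeAlgebra ℝ (ι ⊕ (Fin r × Fin r))),
  (∀ (s : ℕ) (Z : ι → Matrix (Fin s) (Fin s) ℝ) (M : Matrix (Fin r) (Fin r) (Matrix _ _ ℝ)),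
    IsInv (pev W Z) M → FreeAlgebra.lift ℝ (Sum.elim Z fun u => M u.1 u.2) f = 0) →
  ∀ (R : Type) [Ring R] [Algebra ℝ R], Sep R → ∀ (X : ι → R) (M : Matrix (Fin r) (Fin r) R),
    IsInv (pev W X) M → FreeAlgebra.lift ℝ (Sum.elim X fun u => M u.1 u.2) f = 0

/-- SEP: the formal ring over a free algebra has enough homomorphisms to matrices over fields -/
def S_sep : Prop := ∀ (ι K : Type) [Fintype ι] [Fintype K] [DecidableEq K],
  Sep (FR K (FA ι))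

/-- UNIT -/
def S_unit : Prop := ∀ (A K J : Type) [Ring A] [Fintype K] [DecidableEq K] [Fintype J]
    [DecidableEq J] (E : Matrix J J (FR K A)), ∃ c : ℕ, ∀ N : ℕ, c ≤ N →
  IsUnit (1 + Matrix.scalar J (tau K A N) * E)

/-- SYM: from arbitrary real matrices to symmetric real matrices -/
def S_sym : Prop := ∀ {ι : Type} [Fintype ι] {r : ℕ} (W : Option ι → Matrix (Fin r) (Fin r) ℝ),
  (∃ s : ℕ, 0 < s ∧ ∃ Z : ι → Matrix (Fin s) (Fin s) ℝ, IsUnit (pev W Z)) →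
  ∃ s : ℕ, 0 < s ∧ ∃ Z : ι → Matrix (Fin s) (Fin s) ℝ, (∀ i, (Z i)ᵀ = Z i) ∧ IsUnit (pev W Z)

/-- GR: a graded pencil is invertible at a point `pt a b Y` -/
def S_gr : Prop := ∀ {ι : Type} [Fintype ι] {r : ℕ} (W : Option ι → Matrix (Fin r) (Fin r) ℝ)
    (α β : Fin r → ℤ), Graded α β W →
  (∃ s : ℕ, 0 < s ∧ ∃ Z : ι → Matrix (Fin s) (Fin s) ℝ, (∀ i, (Z i)ᵀ = Z i) ∧
    IsUnit (pev W Z)) →
  ∃ (k : ℕ) (b : ι → Matrix (Fin 2) (Fin k) ℝ) (Y : ι → Matrix (Fin k) (Fin k) ℝ),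
    (∀ i, (Y i)ᵀ = Y i) ∧ ∀ (A : Type) [Ring A] [Algebra ℂ A] (a : ι → A),
      IsUnit (pev W (pt a b Y))

/-- POL: a homogeneous trace-positive polynomial with a negative value in a tracial algebra -/
def S_pol : Prop := ∃ (g : ℕ) (p : FreeAlgebra ℝ (Fin g)) (d : ℕ) (A : Type)
    (_ : Ring A) (_ : Algebra ℂ A) (_ : StarRing A) (t : A →+ ℝ) (a : Fin g → A),
  star p = p ∧ TracePos p ∧
  (∀ (R : Type) [Ring R] [Algebra ℝ R] (z : R), (∀ y, z * y = y * z) → ∀ X : Fin g → R,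
    FreeAlgebra.lift ℝ (fun i => z * X i) p = z^d * FreeAlgebra.lift ℝ X p) ∧
  (∀ c : ℝ, star (algebraMap ℂ A c) = algebraMap ℂ A c) ∧
  (∀ x y, t (x * y) = t (y * x)) ∧ (∀ x, x ≠ 0 → 0 < t (star x * x)) ∧
  (∀ i, star (a i) = a i) ∧ t (FreeAlgebra.lift ℝ a p) < 0

/-! ## finer cuts -/

/-- DIV: division algebras of every degree with enough elements -/
def S_div : Prop := ∀ s : ℕ, 0 < s → ∃ (D : Type) (_ : DivisionRing D) (_ : Algebra ℝ D)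
    (L : Type) (_ : Field L) (_ : Algebra ℝ L) (φ : D →ₐ[ℝ] Matrix (Fin s) (Fin s) L),
  ∀ (ι : Type) [Fintype ι] (f : MvPolynomial (ι × Fin s × Fin s) ℝ), f ≠ 0 →
    ∃ ξ : ι → D, MvPolynomial.aeval (fun u => φ (ξ u.1) u.2.1 u.2.2) f ≠ 0

/-- DEC: decomposition of a graded pencil -/
def S_dec : Prop := ∀ {ι : Type} [Fintype ι] {r : ℕ} (T : Option ι → Matrix (Fin r) (Fin r) ℂ)
    (α β : Fin r → ℤ), Graded α β T →
  (∃ (k : ℕ) (Y : ι → Matrix (Fin k) (Fin k) ℝ), 0 < k ∧ Adm T Y) →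
  ∃ l : List (GP ι), (∀ w ∈ l, 0 < w.n ∧ Adapted T w.W ∧ Irr w.α w.β w.W) ∧
    ∀ (R : Type) [Ring R] [Algebra ℂ R] (X : ι → R),
      (∀ w ∈ l, IsUnit (pev w.W X)) → IsUnit (pev T X)

/-- FULL: the blocks of the inverses of an irreducible graded pencil span all matrices -/
def S_full : Prop := ∀ {ι : Type} [Fintype ι] {r n : ℕ}
    (T : Option ι → Matrix (Fin r) (Fin r) ℂ) (α β : Fin n → ℤ)
    (W : Option ι → Matrix (Fin n) (Fin n) ℂ), Graded α β W → Adapted T W → Irr α β W → 0 < n →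
  (∃ (k : ℕ) (Y : ι → Matrix (Fin k) (Fin k) ℝ), 0 < k ∧ Adm T Y) →
  Submodule.span ℂ {B : Matrix (Fin n) (Fin n) ℂ | ∃ (k : ℕ) (Y : ι → Matrix (Fin k) (Fin k) ℝ)
    (M : Matrix (Fin n) (Fin n) (Matrix (Fin k) (Fin k) ℂ)) (p q : Fin k), Adm T Y ∧
    IsInv (pev W (cx Y)) M ∧ B = fun u v => M u v p q} = ⊤

/-- WIT: a common good point for finitely many irreducible graded pencils -/
def S_wit : Prop := ∀ {ι : Type} [Fintype ι] {r : ℕ} (T : Option ι → Matrix (Fin r) (Fin r) ℂ),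
  (∃ (k : ℕ) (Y : ι → Matrix (Fin k) (Fin k) ℝ), 0 < k ∧ Adm T Y) →
  ∀ l : List (GP ι), (∀ w ∈ l, 0 < w.n ∧ Adapted T w.W ∧ Irr w.α w.β w.W) →
  ∃ (k : ℕ) (b : ι → Matrix (Fin 2) (Fin k) ℝ) (Y : ι → Matrix (Fin k) (Fin k) ℝ), Adm T Y ∧
    ∀ w ∈ l, (∃ i, w.W (some i) ≠ 0) →
      ∀ M, IsInv (pev w.W (cx Y)) M → IsUnit (K0 w.W (cx b) M)

/-- SCH: the Schur complement -/
def S_sch : Prop := ∀ {ι : Type} [Fintype ι] {n k : ℕ} (W : Option ι → Matrix (Fin n) (Fin n) ℂ)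
    (α β : Fin n → ℤ), Graded α β W → ∀ (b : ι → Matrix (Fin 2) (Fin k) ℝ)
    (Y : ι → Matrix (Fin k) (Fin k) ℝ) (M : Matrix (Fin n) (Fin n) (Matrix (Fin k) (Fin k) ℂ)),
  IsInv (pev W (cx Y)) M → IsUnit (K0 W (cx b) M) →
  ∀ (A : Type) [Ring A] [Algebra ℂ A] (a : ι → A), IsUnit (pev W (pt a b Y))

/-- NH: the non-hyperlinear group -/
def S_nh : Prop := ∃ (G : Type) (_ : Group G) (g0 : G) (F : Finset G) (K : ℝ), g0 ≠ 1 ∧ g0 ∈ F ∧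
  0 ≤ K ∧ ∀ (n : ℕ) (S : Finset (Fin n)) (V : G → Matrix (Fin n) (Fin n) ℂ),
    (∀ g, (V g)ᴴ * V g = 1) → 0 ≤ K * defS F S V + ∑ j ∈ S, ((V g0 j j).re - 1 / 2)

/-- INE: the homogeneous inequality -/
def S_ine : Prop := ∃ (G : Type) (_ : Group G) (g0 : G) (F : Finset G) (C : ℝ), g0 ≠ 1 ∧ g0 ∈ F ∧
  0 ≤ C ∧ ∀ (n : ℕ) (H : Matrix (Fin n) (Fin n) ℂ) (Y : G → Matrix (Fin n) (Fin n) ℂ),
    H.PosSemidef →
    0 ≤ C * defH F H Y + (H * H * H * Y g0).trace.re - 1 / 4 * (H * H * H * H).trace.re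

/-- the final theorem -/
def Goal : Prop := ∃ (g : ℕ) (p : FreeAlgebra ℝ (Fin g)), star p = p ∧ TracePos p ∧ ¬ Cert p

end Pool.Agent.H412.TH
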